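import Pool.Agent.Lib_helper15.MQR.Defs
import Pool.Agent.Lib_helper17.RS.P_UP2

set_option autoImplicit false
set_option linter.unusedSectionVars false

namespace Pool.Agent.MQR

open Pool.Agent.RSK Pool.Agent.RS2 Pool.Agent.RS3 Pool.Agent.SY Pool.Agent.AU Pool.Agent.CR
open Pool.Agent.RG Pool.Agent.QR
open NumberField IsDedekindDomain

section K

variable {F H : Type} [Field F] [NumberField F] [Field H] [NumberField H] [Algebra F H]
  [IsGalois F H] {G : Type} [CommGroup G] [Fintype G] {ι : G ≃* (H ≃ₐ[F] H)}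
  {S T : Finset (HeightOneSpectrum (𝓞 F))} {r : ℕ} {w : Fin r → Pl H}
  {fr : HeightOneSpectrum (𝓞 F) → G}

theorem kb_sg_add (θ θ' : Ch G) (g : G) : sg (θ + θ') g = sg θ g * sg θ' g := by
  have key : ∀ a b : ZMod 2, (if a + b = 0 then (1 : ℤ) else -1) =
      (if a = 0 then 1 else -1) * (if b = 0 then 1 else -1) := by decide
  exact key _ _

theorem kb_fix (x : Hˣ) (hx : ∀ g : G, ι g (x : H) = x) :
    ∃ y : Fˣ, algebraMap F H (y : F) = (x : H) := by
  obtain ⟨y, hy⟩ := fixed_unit (F := F) x (fun σ => by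
    ext
    have h := hx (ι.symm σ)
    rw [MulEquiv.apply_symm_apply] at h
    exact h)
  exact ⟨y, by rw [← hy]; rfl⟩

theorem km_ex_pr (ι : G ≃* (H ≃ₐ[F] H)) (θ : Ch G) : ∃ a : Fˣ, Km ι θ a := by
  classical
  have hli := linearIndependent_monoidHom H H
  have hex : ∃ x : H, ∑ g : G, ((sg θ g : ℤ) : H) * ι g x ≠ 0 := by
    by_contra hcon
    push Not at hcon
    let e : G → (H →* H) := fun g => ((ι g : H ≃ₐ[F] H) : H →* H)
    have hinj : Function.Injective e := by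
      intro g g' h
      apply ι.injective
      ext x
      exact DFunLike.congr_fun h x
    have h1 := hli.comp e hinj
    rw [Fintype.linearIndependent_iff] at h1
    have h2 := h1 (fun g => ((sg θ g : ℤ) : H)) (by
      funext x
      rw [Finset.sum_apply]
      exact hcon x) 1
    rw [sg_one, Int.cast_one] at h2
    exact one_ne_zero h2
  obtain ⟨x, hx⟩ := hex
  set α : H := ∑ g : G, ((sg θ g : ℤ) : H) * ι g x with hα
  have hg : ∀ h : G, ι h α = ((sg θ h : ℤ) : H) * α := by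
    intro h
    rw [hα, map_sum, Finset.mul_sum]
    refine Eq.trans ?_ (Equiv.sum_comp (Equiv.mulLeft h)
      (fun g => ((sg θ h : ℤ) : H) * (((sg θ g : ℤ) : H) * ι g x)))
    refine Finset.sum_congr rfl fun g _ => ?_
    rw [Equiv.coe_mulLeft, map_mul, map_intCast, sg_mul, map_mul, Int.cast_mul]
    have h3 : (((sg θ h : ℤ) : H)) * ((sg θ h : ℤ) : H) = 1 := by
      rw [← Int.cast_mul, sg_sq, Int.cast_one]
    have h4 : (ι h * ι g) x = ι h (ι g x) := rfl
    rw [h4]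
    linear_combination (-(((sg θ g : ℤ) : H) * ι h (ι g x))) * h3
  have hx2 : ∀ g : G, ι g ((Units.mk0 (α ^ 2) (pow_ne_zero 2 hx) : Hˣ) : H) =
      (Units.mk0 (α ^ 2) (pow_ne_zero 2 hx) : Hˣ) := by
    intro g
    rw [Units.val_mk0, map_pow, hg, mul_pow, ← Int.cast_pow, pow_two (sg θ g), sg_sq, Int.cast_one,
      one_mul]
  obtain ⟨a, ha⟩ := kb_fix (ι := ι) _ hx2
  exact ⟨a, α, ha.symm, hg⟩

theorem km_add_pr {θ θ' : Ch G} {a a' : Fˣ} (h : Km ι θ a) (h' : Km ι θ' a') :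
    Km ι (θ + θ') (a * a') := by
  obtain ⟨α, h1, h2⟩ := h
  obtain ⟨α', h1', h2'⟩ := h'
  refine ⟨α * α', ?_, fun g => ?_⟩
  · rw [mul_pow, h1, h1', Units.val_mul, map_mul]
  · rw [map_mul, h2, h2', kb_sg_add, Int.cast_mul]
    ring

theorem kb_ne {a : Fˣ} {α : H} (h : α ^ 2 = algebraMap F H (a : F)) : α ≠ 0 := by
  rintro rfl
  have h1 : algebraMap F H (a : F) = 0 := by rw [← h]; ring
  exact a.ne_zero ((map_eq_zero _).1 h1)

theorem km_uniq_pr {θ : Ch G} {a a' : Fˣ} (h : Km ι θ a) (h' : Km ι θ a') :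
    ∃ c : Fˣ, a * a' = c ^ 2 := by
  obtain ⟨α, h1, h2⟩ := h
  obtain ⟨α', h1', h2'⟩ := h'
  have h0 : α * α' ≠ 0 := mul_ne_zero (kb_ne h1) (kb_ne h1')
  obtain ⟨c, hc⟩ := kb_fix (ι := ι) (Units.mk0 (α * α') h0) (fun g => by
    rw [Units.val_mk0, map_mul, h2, h2']
    have h3 : (((sg θ g : ℤ) : H)) * ((sg θ g : ℤ) : H) = 1 := by
      rw [← Int.cast_mul, sg_sq, Int.cast_one]
    calc ((sg θ g : ℤ) : H) * α * (((sg θ g : ℤ) : H) * α') =
        (((sg θ g : ℤ) : H) * ((sg θ g : ℤ) : H)) * (α * α') := by ring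
      _ = α * α' := by rw [h3, one_mul])
  refine ⟨c, Units.ext ?_⟩
  apply (algebraMap F H).injective
  rw [Units.val_mul, map_mul, Units.val_pow_eq_pow_val, map_pow, hc, Units.val_mk0, mul_pow, h1,
    h1']

theorem km_sq_pr {θ : Ch G} {a : Fˣ} (h : Km ι θ a) (ha : ∃ c : Fˣ, a = c ^ 2) : θ = 0 := by
  obtain ⟨α, h1, h2⟩ := h
  obtain ⟨c, rfl⟩ := ha
  have h0 := kb_ne h1
  have h3 : α ^ 2 = (algebraMap F H (c : F)) ^ 2 := by
    rw [h1, Units.val_pow_eq_pow_val, map_pow]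
  have h4 : ∀ g : G, ι g α = α := by
    intro g
    rcases sq_eq_sq_iff_eq_or_eq_neg.1 h3 with h | h
    · rw [h, AlgEquiv.commutes]
    · rw [h, map_neg, AlgEquiv.commutes]
  ext g
  have h5 := h2 g
  rw [h4 g] at h5
  show θ g = 0
  by_contra hne
  have h6 : sg θ (Additive.toMul g) = -1 := if_neg hne
  have h7 := h2 (Additive.toMul g)
  rw [h4, h6] at h7
  push_cast at h7
  have h8 : 2 * α = 0 := by linear_combination h7
  rcases mul_eq_zero.1 h8 with h9 | h9
  · exact two_ne_zero h9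
  · exact h0 h9

theorem af_spec_pr (ι : G ≃* (H ≃ₐ[F] H)) (θ : Ch G) : Km ι θ (af ι θ) := by
  have h := km_ex_pr ι θ
  unfold af
  rw [dif_pos h]
  exact h.choose_spec

end K

alias km_ex := km_ex_pr
alias km_add := km_add_pr
alias km_uniq := km_uniq_pr
alias km_sq := km_sq_pr
alias af_spec := af_spec_pr

end Pool.Agent.MQR
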