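import Pool.Agent.Lib_helper15.MQR.Defs
import Pool.Agent.Lib_helper17.RS.P_IF
import Pool.Agent.Lib_helper17.RS.P_QU2

/-!
# MQR, block KD: the quadratic field belonging to `θ`
-/

set_option autoImplicit false
set_option linter.unusedSectionVars false
set_option linter.unusedVariables false

namespace Pool.Agent.MQR

open Pool.Agent.RSK Pool.Agent.RS2 Pool.Agent.RS3 Pool.Agent.SY Pool.Agent.AU Pool.Agent.CR
open Pool.Agent.RG Pool.Agent.QR
open NumberField IsDedekindDomain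

section K

variable {F H : Type} [Field F] [NumberField F] [Field H] [NumberField H] [Algebra F H]
  [IsGalois F H] {G : Type} [CommGroup G] [Fintype G] {ι : G ≃* (H ≃ₐ[F] H)}
  {S T : Finset (HeightOneSpectrum (𝓞 F))} {r : ℕ} {w : Fin r → Pl H}
  {fr : HeightOneSpectrum (𝓞 F) → G}

theorem kd_mem {θ : Ch G} {g : G} : g ∈ kr θ ↔ θ (Additive.ofMul g) = 0 := Iff.rfl

theorem kd_index {θ : Ch G} (hθ : θ ≠ 0) : (kr θ).index = 2 := by
  have h1 : ∃ a : G, θ (Additive.ofMul a) ≠ 0 := by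
    by_contra h
    push Not at h
    exact hθ (AddMonoidHom.ext fun a => h (Additive.toMul a))
  obtain ⟨a, ha⟩ := h1
  rw [Subgroup.index_eq_two_iff]
  refine ⟨a, fun b => ?_⟩
  rw [kd_mem, kd_mem, ofMul_mul, map_add]
  have key : ∀ x y : ZMod 2, y ≠ 0 → Xor (x + y = 0) (x = 0) := by decide
  exact key _ _ ha

theorem kf_card_pr {θ : Ch G} (hθ : θ ≠ 0) :
    Nat.card (Kf ι (kr θ) ≃ₐ[F] Kf ι (kr θ)) = 2 := by
  obtain ⟨ι', -⟩ := kf_quo ι (kr θ)
  rw [← Nat.card_congr ι'.toEquiv]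
  exact kd_index hθ

theorem kf_act_pr {θ : Ch G} (σ : Kf ι (kr θ) ≃ₐ[F] Kf ι (kr θ)) (hσ : σ ≠ 1) (g : G)
    (x : Kf ι (kr θ)) : ι g (x : H) = if θ (Additive.ofMul g) = 0 then (x : H) else (σ x : H) := by
  split_ifs with h
  · have h1 := x.2
    exact (IntermediateField.mem_fixedField_iff _ _).1 h1 (ι g) ⟨g, h, rfl⟩
  · have hθ : θ ≠ 0 := by
      rintro rfl
      exact h rfl
    obtain ⟨ι', hq⟩ := kf_quo ι (kr θ)
    have h1 : ι' ((QuotientGroup.mk' (kr θ)) g) ≠ 1 := by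
      intro h2
      have h3 : (QuotientGroup.mk' (kr θ)) g = 1 := ι'.injective (h2.trans (map_one ι').symm)
      exact h ((QuotientGroup.eq_one_iff g).1 h3)
    have h2 := (Nat.card_eq_two_iff' (1 : Kf ι (kr θ) ≃ₐ[F] Kf ι (kr θ))).1 (kf_card_pr hθ)
    have h3 : σ = ι' ((QuotientGroup.mk' (kr θ)) g) := h2.unique hσ h1
    rw [h3]
    exact (hq.compat g x).symm

/-- every element of `H` fixed by the kernel of `θ` is in `Kf ι (kr θ)` -/
theorem kf_mem_pr {θ : Ch G} (x : H) (hx : ∀ g : G, θ (Additive.ofMul g) = 0 → ι g x = x) :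
    x ∈ Kf ι (kr θ) := by
  refine (IntermediateField.mem_fixedField_iff _ _).2 ?_
  rintro _ ⟨g, hg, rfl⟩
  exact hx g hg

theorem kf_unr_pr (hD : Data ι S T r w fr) (N : Subgroup G)
    (W : HeightOneSpectrum (𝓞 (Kf ι N))) (hW : W.under (𝓞 F) ∉ S) :
    Algebra.IsUnramifiedAt (𝓞 F) W.asIdeal := by
  have hgal : IsGalois F (Kf ι N) := kf_galois ι N
  exact qu2_unram (H := H) fun W' hW' => hD.unram W' (by rw [hW']; exact hW)

end K

alias kf_card := kf_card_pr
alias kf_act := kf_act_pr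
alias kf_mem := kf_mem_pr
alias kf_unr := kf_unr_pr

end Pool.Agent.MQR
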