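import Pool.Agent.Lib_helper15.MQR.Defs
import Pool.Agent.Lib_helper17.QRF.All
import Pool.Agent.Lib_helper15.MQRF.KB
import Pool.Agent.Lib_helper15.MQRF.KD
import Pool.Agent.Lib_helper17.RS.P_IF

/-!
# Multiquadratic extensions, small `S` (MQR): block KD2
-/

set_option autoImplicit false
set_option linter.unusedSectionVars false
set_option linter.unusedVariables false

namespace Pool.Agent.MQR

open Pool.Agent.RSK Pool.Agent.RS2 Pool.Agent.RS3 Pool.Agent.SY Pool.Agent.AU Pool.Agent.CR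
open Pool.Agent.RG Pool.Agent.QR
open NumberField IsDedekindDomain

section K

variable {F H : Type} [Field F] [NumberField F] [Field H] [NumberField H] [Algebra F H]
  [IsGalois F H] {G : Type} [CommGroup G] [Fintype G] {ι : G ≃* (H ≃ₐ[F] H)}
  {S T : Finset (HeightOneSpectrum (𝓞 F))} {r : ℕ} {w : Fin r → Pl H}
  {fr : HeightOneSpectrum (𝓞 F) → G}

theorem km_qe_pr {θ : Ch G} (hθ : θ ≠ 0) :
    ∃ α : Kf ι (kr θ), QE F (Kf ι (kr θ)) (af ι θ) α := by
  obtain ⟨α, h1, h2⟩ := af_spec ι θ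
  have h3 : α ∈ Kf ι (kr θ) := kf_mem α fun g hg => by
    rw [h2 g, sg, if_pos hg, Int.cast_one, one_mul]
  refine ⟨⟨α, h3⟩, kf_card hθ, ?_, fun y hy => ?_⟩
  · apply Subtype.ext
    exact h1
  · have h4 : algebraMap F H y = α := congrArg Subtype.val hy
    obtain ⟨g, hg⟩ : ∃ g : G, θ (Additive.ofMul g) ≠ 0 := by
      by_contra hcon
      push Not at hcon
      exact hθ (AddMonoidHom.ext fun g => hcon g.toMul)
    have h5 := h2 g
    rw [← h4, AlgEquiv.commutes, sg, if_neg hg, Int.cast_neg, Int.cast_one, neg_one_mul] at h5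
    have h6 : algebraMap F H y = 0 := by
      have h7 : (2 : H) * algebraMap F H y = 0 := by
        rw [two_mul]
        nth_rewrite 2 [h5]
        rw [add_neg_cancel]
      rcases mul_eq_zero.1 h7 with h8 | h8
      · exact absurd h8 two_ne_zero
      · exact h8
    rw [← h4, h6, zero_pow two_ne_zero] at h1
    exact (af ι θ).ne_zero ((map_eq_zero (algebraMap F H)).1 h1.symm)

theorem kd2_prod {F K : Type} [Field F] [NumberField F] [Field K] [NumberField K] [Algebra F K]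
    [IsGalois F K] (hcard : Nat.card (K ≃ₐ[F] K) = 2) (σ : K ≃ₐ[F] K) (hσ : σ ≠ 1) (x : K) :
    algebraMap F K (Algebra.norm F x) = x * σ x := by
  classical
  have h1 : (Finset.univ : Finset (K ≃ₐ[F] K)) = {1, σ} := by
    symm
    rw [← Finset.card_eq_iff_eq_univ, Finset.card_pair hσ.symm, ← Nat.card_eq_fintype_card, hcard]
  rw [Algebra.norm_eq_prod_automorphisms, h1, Finset.prod_pair hσ.symm]
  rfl

/-- the norms from `K = Kf ι (kr θ)` -/
theorem nm_kf_pr {θ : Ch G} (hθ : θ ≠ 0) (σ : Kf ι (kr θ) ≃ₐ[F] Kf ι (kr θ)) (hσ : σ ≠ 1)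
    (b : Additive Fˣ) : b.toMul ∈ Nm (af ι θ) ↔
      ∃ y : Additive (Kf ι (kr θ))ˣ, y + eac σ y = inc F (Kf ι (kr θ)) b := by
  have hg := kf_galois ι (kr θ)
  obtain ⟨α, hα⟩ := km_qe_pr (ι := ι) hθ
  rw [nm_iff hα]
  constructor
  · rintro ⟨β, hβ⟩
    refine ⟨Additive.ofMul β, ?_⟩
    apply Additive.toMul.injective
    apply Units.ext
    have h1 := kd2_prod (kf_card hθ) σ hσ (β : Kf ι (kr θ))
    rw [hβ] at h1
    exact h1.symm
  · rintro ⟨y, hy⟩
    refine ⟨y.toMul, ?_⟩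
    apply (algebraMap F (Kf ι (kr θ))).injective
    rw [kd2_prod (kf_card hθ) σ hσ]
    exact congrArg (fun z : Additive (Kf ι (kr θ))ˣ => ((z.toMul : (Kf ι (kr θ))ˣ) : Kf ι (kr θ))) hy

end K

alias km_qe := km_qe_pr
alias nm_kf := nm_kf_pr

end Pool.Agent.MQR

section
open Pool.Agent.MQR
end
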