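import Pool.Agent.Lib_helper15.MQR.Defs
import Pool.Agent.Lib_helper17.QRF.All
import Pool.Agent.Lib_helper15.MQRF.KB
import Pool.Agent.Lib_helper15.MQRF.KD2
import Pool.Agent.Lib_helper17.CRF.T_UL3
import Pool.Agent.Lib_helper17.RS.P_IF
import Pool.Agent.Lib_helper17.RS.P_UP1

/-!
# MQR, block KE
-/

set_option autoImplicit false
set_option linter.unusedSectionVars false
set_option linter.unusedVariables false

namespace Pool.Agent.MQR

open Pool.Agent.RSK Pool.Agent.RS2 Pool.Agent.RS3 Pool.Agent.SY Pool.Agent.AU Pool.Agent.CR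
open Pool.Agent.RG Pool.Agent.QR
open NumberField IsDedekindDomain

section K

variable {F H : Type} [Field F] [NumberField F] [Field H] [NumberField H] [Algebra F H]
  [IsGalois F H] {G : Type} [CommGroup G] [Fintype G] {ι : G ≃* (H ≃ₐ[F] H)}
  {S T : Finset (HeightOneSpectrum (𝓞 F))} {r : ℕ} {w : Fin r → Pl H}
  {fr : HeightOneSpectrum (𝓞 F) → G}

theorem ke_zero : Km ι (0 : Ch G) (1 : Fˣ) := by
  refine ⟨1, by simp, fun g => ?_⟩
  have h : sg (0 : Ch G) g = 1 := if_pos rfl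
  rw [h, map_one]
  simp

theorem sq_iff_pr (θ : Ch G) (P : Pl F) : af ι θ ∈ Sq P ↔ dgF ι P ≤ kr θ := by
  classical
  by_cases hθ : θ = 0
  · subst hθ
    obtain ⟨c, hc⟩ := km_uniq (af_spec ι (0 : Ch G)) ke_zero
    rw [mul_one] at hc
    constructor
    · intro _ g _
      exact (rfl : (0 : Ch G) (Additive.ofMul g) = 0)
    · intro _
      rw [hc]
      exact sq_mem P c
  · have := kf_galois ι (kr θ)
    obtain ⟨ι', hq⟩ := kf_quo ι (kr θ)
    let _ : Fintype (G ⧸ kr θ) := Fintype.ofFinite _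
    obtain ⟨α, hα⟩ := km_qe (ι := ι) hθ
    obtain ⟨W, hW⟩ := dn_surj (H := Kf ι (kr θ)) P
    have h1 := split_iff hα W
    rw [hW] at h1
    rw [← h1]
    have h2 : dgF ι' P = (dgF ι P).map (QuotientGroup.mk' (kr θ)) := dgF_quo hq P
    have h3 : (∀ σ : Kf ι (kr θ) ≃ₐ[F] Kf ι (kr θ), act σ W = W → σ = 1) ↔ dgF ι' P = ⊥ := by
      rw [Subgroup.eq_bot_iff_forall]
      constructor
      · intro h g' hg'
        rw [← hW, dgF_eq] at hg'
        exact ι'.injective (by rw [h _ hg', map_one])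
      · intro h σ hσ
        obtain ⟨g', rfl⟩ := ι'.surjective σ
        rw [h g' (by rw [← hW, dgF_eq]; exact hσ), map_one]
    rw [h3, h2, Subgroup.map_eq_bot_iff, QuotientGroup.ker_mk']

end K

alias sq_iff := sq_iff_pr

end Pool.Agent.MQR
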