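import Pool.Agent.Lib_helper15.MQR.Defs
import Pool.Agent.Lib_helper15.MQRF.KE
import Pool.Agent.Lib_helper17.CRF.T_UL3
import Pool.Agent.Lib_helper17.CRF.N_PC1
import Pool.Agent.Lib_helper17.RS.P_IF

/-!
# MQR block KF: Frobenius elements
-/

set_option autoImplicit false
set_option linter.unusedSectionVars false
set_option linter.unusedVariables false

namespace Pool.Agent.MQR

open Pool.Agent.RSK Pool.Agent.RS2 Pool.Agent.RS3 Pool.Agent.SY Pool.Agent.AU Pool.Agent.CR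
open Pool.Agent.RG Pool.Agent.QR
open NumberField IsDedekindDomain

section K

variable {F H : Type} [Field F] [NumberField F] [Field H] [NumberField H] [Algebra F H]
  [IsGalois F H] {G : Type} [CommGroup G] [Fintype G] {ι : G ≃* (H ≃ₐ[F] H)}
  {S T : Finset (HeightOneSpectrum (𝓞 F))} {r : ℕ} {w : Fin r → Pl H}
  {fr : HeightOneSpectrum (𝓞 F) → G}

theorem kf_dg (hD : Data ι S T r w fr) {v : HeightOneSpectrum (𝓞 F)} (hv : v ∉ S) :
    dgF ι (Sum.inr v : Pl F) = Subgroup.zpowers (fr v) :=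
  dgF_fr (fun W hW => hD.unram W (by rw [hW]; exact hv)) (hD.frob v hv)

theorem fr_iff_pr (hD : Data ι S T r w fr) (θ : Ch G) {v : HeightOneSpectrum (𝓞 F)} (hv : v ∉ S) :
    af ι θ ∈ Sqf v ↔ θ (Additive.ofMul (fr v)) = 0 := by
  have h1 : af ι θ ∈ Sqf v ↔ dgF ι (Sum.inr v : Pl F) ≤ kr θ := sq_iff θ (Sum.inr v)
  rw [h1, kf_dg hD hv, Subgroup.zpowers_le]
  rfl

theorem fr_split_pr (hD : Data ι S T r w fr) {c : Ch G} (σ : Kf ι (kr c) ≃ₐ[F] Kf ι (kr c))
    (hσ : σ ≠ 1) {W : HeightOneSpectrum (𝓞 (Kf ι (kr c)))} (hW : W.under (𝓞 F) ∉ S) :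
    pac σ W = W ↔ c (Additive.ofMul (fr (W.under (𝓞 F)))) ≠ 0 := by
  classical
  have hgal : IsGalois F (Kf ι (kr c)) := kf_galois ι (kr c)
  have hft : Fintype (G ⧸ kr c) := Fintype.ofFinite _
  obtain ⟨ι', hq⟩ := kf_quo ι (kr c)
  obtain ⟨q, rfl⟩ := ι'.surjective σ
  obtain ⟨g, rfl⟩ := QuotientGroup.mk'_surjective (kr c) q
  have hmk : ∀ x : G, (QuotientGroup.mk' (kr c) x = 1) ↔ c (Additive.ofMul x) = 0 := fun x =>
    QuotientGroup.eq_one_iff x
  have hg : c (Additive.ofMul g) ≠ 0 := by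
    intro h
    apply hσ
    rw [(hmk g).2 h, map_one]
  have h1 : pac (ι' (QuotientGroup.mk' (kr c) g)) W = W ↔
      act (ι' (QuotientGroup.mk' (kr c) g)) (Sum.inr W) = (Sum.inr W : Pl (Kf ι (kr c))) := by
    show _ ↔ (Sum.inr (pac (ι' (QuotientGroup.mk' (kr c) g)) W) : Pl (Kf ι (kr c))) = Sum.inr W
    exact Sum.inr_injective.eq_iff.symm
  have h2 : dn F (Sum.inr W : Pl (Kf ι (kr c))) = Sum.inr (W.under (𝓞 F)) := rfl
  rw [h1, ← dgF_eq, h2, dgF_quo hq, kf_dg hD hW]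
  have hz : ∀ a b : ZMod 2, a ≠ 0 → b ≠ 0 → a + b = 0 := by decide
  constructor
  · intro h h0
    obtain ⟨y, hy, hy'⟩ := h
    obtain ⟨n, rfl⟩ := Subgroup.mem_zpowers_iff.1 hy
    have h3 : QuotientGroup.mk' (kr c) (fr (W.under (𝓞 F))) = 1 := (hmk _).2 h0
    have h4 : QuotientGroup.mk' (kr c) g = 1 := by
      rw [← hy', map_zpow, h3, one_zpow]
    exact hg ((hmk g).1 h4)
  · intro h
    refine ⟨fr (W.under (𝓞 F)), Subgroup.mem_zpowers _, ?_⟩
    have h3 : QuotientGroup.mk' (kr c) (g⁻¹ * fr (W.under (𝓞 F))) = 1 := by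
      rw [hmk]
      show c (-Additive.ofMul g + Additive.ofMul (fr (W.under (𝓞 F)))) = 0
      rw [map_add, map_neg]
      exact hz _ _ (neg_ne_zero.2 hg) h
    rw [map_mul, map_inv, inv_mul_eq_one] at h3
    exact h3.symm

end K

alias fr_iff := fr_iff_pr
alias fr_split := fr_split_pr

end Pool.Agent.MQR
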