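import Pool.Agent.Lib_helper15.MQR.Defs
import Pool.Agent.Lib_helper17.QRF.All
import Pool.Agent.Lib_helper15.MQRF.KD
import Pool.Agent.Lib_helper15.MQRF.KD2
import Pool.Agent.Lib_helper15.MQRF.KF
import Pool.Agent.Lib_helper17.RS.P_IF

/-!
# Block KG of MQR (MP_dd9835_nt), by helper72: the symbols outside `S` and the product formula
-/

set_option autoImplicit false
set_option linter.unusedSectionVars false
set_option linter.unusedVariables false

namespace Pool.Agent.MQR

open Pool.Agent.RSK Pool.Agent.RS2 Pool.Agent.RS3 Pool.Agent.SY Pool.Agent.AU Pool.Agent.CR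
open Pool.Agent.RG Pool.Agent.QR
open NumberField IsDedekindDomain

section K

variable {F H : Type} [Field F] [NumberField F] [Field H] [NumberField H] [Algebra F H]
  [IsGalois F H] {G : Type} [CommGroup G] [Fintype G] {ι : G ≃* (H ≃ₐ[F] H)}
  {S T : Finset (HeightOneSpectrum (𝓞 F))} {r : ℕ} {w : Fin r → Pl H}
  {fr : HeightOneSpectrum (𝓞 F) → G}

theorem sy_unr_pr (hD : Data ι S T r w fr) (θ : Ch G) {v : HeightOneSpectrum (𝓞 F)} (hv : v ∉ S)
    (b : Additive Fˣ) : sy ι θ (Sum.inr v) b =
      θ (Additive.ofMul (fr v)) * ((ordv v (b.toMul : F) : ℤ) : ZMod 2) := by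
  by_cases h0 : θ (Additive.ofMul (fr v)) = 0
  · rw [h0, zero_mul]
    exact hs_of_sq (v := Sum.inr v) ((fr_iff hD θ hv).2 h0) _
  · have h1 : θ (Additive.ofMul (fr v)) = 1 := by
      have key : ∀ a : ZMod 2, a ≠ 0 → a = 1 := by decide
      exact key _ h0
    have hθ : θ ≠ 0 := by
      rintro rfl
      exact h0 rfl
    obtain ⟨α, hα⟩ := km_qe (ι := ι) hθ
    have : IsGalois F (Kf ι (kr θ)) := RSK.kf_galois ι (kr θ)
    rw [h1, one_mul]
    exact hs_unr hα (fun W hW => kf_unr hD (kr θ) W (by rw [hW]; exact hv))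
      (fun h => h0 ((fr_iff hD θ hv).1 h)) b.toMul

theorem sy_prod_pr (hD : Data ι S T r w fr) (θ : Ch G) (b : Additive Fˣ) :
    ∑ P : PS S, sy ι θ P.pl b = cdF fr S θ (dv F b) := by
  classical
  have hpf : ∑ᶠ v : Pl F, sy ι θ v b = 0 := product_formula _ _
  have hfin : (Function.support fun v : Pl F => sy ι θ v b).Finite := hs_finite _ _
  -- a finite set of places
  set A : Finset (HeightOneSpectrum (𝓞 F)) := S ∪ (dv F b).support with hA
  have hsub : (Function.support fun v : Pl F => sy ι θ v b) ⊆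
      ((Finset.univ.disjSum A : Finset (Pl F)) : Set (Pl F)) := by
    intro v hv
    rcases v with P | v
    · simp
    · rw [Finset.mem_coe, Finset.inr_mem_disjSum]
      by_contra hvA
      rw [hA, Finset.mem_union, not_or, Finsupp.notMem_support_iff] at hvA
      apply hv
      show sy ι θ (Sum.inr v) b = 0
      rw [sy_unr_pr hD θ hvA.1 b]
      have h2 : ordv v (b.toMul : F) = 0 := hvA.2
      rw [h2, Int.cast_zero, mul_zero]
  rw [finsum_eq_sum_of_support_subset _ hsub, Finset.sum_disjSum] at hpf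
  -- the sum over the finite places
  have hfinite : ∑ v ∈ A, sy ι θ (Sum.inr v) b =
      ∑ v ∈ S, sy ι θ (Sum.inr v) b + cdF fr S θ (dv F b) := by
    have e1 : cdF fr S θ (dv F b) = ∑ v ∈ A, if v ∈ S then 0 else sy ι θ (Sum.inr v) b := by
      unfold cdF
      rw [wt_apply, Finsupp.sum_of_support_subset (dv F b) (s := A) (by
        rw [hA]
        exact Finset.subset_union_right) _ (fun i _ => by rw [Int.cast_zero, zero_mul])]
      refine Finset.sum_congr rfl fun v _ => ?_
      by_cases hv : v ∈ S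
      · rw [if_pos hv, if_pos hv, mul_zero]
      · rw [if_neg hv, if_neg hv, sy_unr_pr hD θ hv b, mul_comm]
        rfl
    have e2 : ∑ v ∈ S, sy ι θ (Sum.inr v) b =
        ∑ v ∈ A, if v ∈ S then sy ι θ (Sum.inr v) b else 0 := by
      rw [← Finset.sum_filter]
      refine Finset.sum_congr ?_ fun _ _ => rfl
      ext v
      rw [Finset.mem_filter, hA, Finset.mem_union]
      tauto
    rw [e1, e2, ← Finset.sum_add_distrib]
    refine Finset.sum_congr rfl fun v _ => ?_
    by_cases hv : v ∈ S
    · rw [if_pos hv, if_pos hv, add_zero]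
    · rw [if_neg hv, if_neg hv, zero_add]
  have hleft : ∑ P : PS S, sy ι θ P.pl b =
      ∑ P : InfinitePlace F, sy ι θ (Sum.inl P) b + ∑ v ∈ S, sy ι θ (Sum.inr v) b := by
    rw [Fintype.sum_sum_type]
    congr 1
    exact Finset.sum_coe_sort S (fun v => sy ι θ (Sum.inr v) b)
  rw [hfinite, ← add_assoc, ← hleft] at hpf
  have key : ∀ x y : ZMod 2, x + y = 0 → x = y := by decide
  exact key _ _ hpf

end K

alias sy_unr := sy_unr_pr
alias sy_prod := sy_prod_pr

end Pool.Agent.MQR
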