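import Pool.Agent.Lib_helper15.MQR.Defs
import Pool.Agent.Lib_helper17.QRF.All
import Pool.Agent.Lib_helper15.MQRF.KE
import Pool.Agent.Lib_helper15.MQRF.KG

/-!
# Block CE (MQR, MP_dd9835_nt): the places in `S` other than the `v_i`
-/

set_option autoImplicit false
set_option linter.unusedSectionVars false
set_option linter.unusedVariables false

namespace Pool.Agent.MQR

open Pool.Agent.RSK Pool.Agent.RS2 Pool.Agent.RS3 Pool.Agent.SY Pool.Agent.AU Pool.Agent.CR
open Pool.Agent.RG Pool.Agent.QR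
open NumberField IsDedekindDomain

section R

variable {F H : Type} [Field F] [NumberField F] [Field H] [NumberField H] [Algebra F H]
  [IsGalois F H] {G : Type} [CommGroup G] [Fintype G] {ι : G ≃* (H ≃ₐ[F] H)}
  {S T : Finset (HeightOneSpectrum (𝓞 F))} {r : ℕ} {w : Fin r → Pl H}
  {fr : HeightOneSpectrum (𝓞 F) → G}

theorem ce_inS {v : Pl F} (h : InS S v) : ∃ P : PS S, P.pl = v := by
  rcases v with v | v
  · exact ⟨Sum.inl v, rfl⟩
  · exact ⟨Sum.inr ⟨v, h⟩, rfl⟩

theorem ce_pl_inj {P Q : PS S} (h : P.pl = Q.pl) : P = Q := by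
  rcases P with v | v <;> rcases Q with u | u
  · exact congrArg Sum.inl (Sum.inl_injective h)
  · exact absurd h (by simp [PS.pl])
  · exact absurd h (by simp [PS.pl])
  · exact congrArg Sum.inr (Subtype.ext (Sum.inr_injective h))

theorem ce_card (hD : Data ι S T r w fr) :
    Nat.card (Sx w S) + r = Fintype.card (InfinitePlace F) + S.card := by
  classical
  choose j hj using fun i => ce_inS (hD.mem i)
  have hinj : Function.Injective j := by
    intro i i' h
    refine hD.inj i i' ?_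
    rw [← hj i, ← hj i', h]
  have h1 : Nat.card {P : PS S // ¬ ∀ i, P.pl ≠ dn F (w i)} = r := by
    rw [← Nat.card_congr (Equiv.ofBijective (fun i : Fin r =>
      (⟨j i, fun h => h i (hj i)⟩ : {P : PS S // ¬ ∀ i, P.pl ≠ dn F (w i)})) ⟨?_, ?_⟩)]
    · rw [Nat.card_eq_fintype_card, Fintype.card_fin]
    · intro i i' h
      exact hinj (congrArg Subtype.val h)
    · rintro ⟨P, hP⟩
      push Not at hP
      obtain ⟨i, hi⟩ := hP
      exact ⟨i, Subtype.ext (ce_pl_inj ((hj i).trans hi.symm))⟩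
  have h2 := Fintype.card_subtype_compl (fun P : PS S => ∀ i, P.pl ≠ dn F (w i))
  have h3 := Fintype.card_subtype_le (fun P : PS S => ∀ i, P.pl ≠ dn F (w i))
  have h4 : Fintype.card (PS S) = Fintype.card (InfinitePlace F) + S.card := by
    rw [Fintype.card_sum, Fintype.card_coe]
  rw [Nat.card_eq_fintype_card] at h1 ⊢
  have h5 : Fintype.card (Sx w S) = Fintype.card {P : PS S // ∀ i, P.pl ≠ dn F (w i)} := rfl
  omega

/-- Block CE: `Kf`-free facts on the places. `#{P // P ≠ P₀} = #S - (r + 1)`. -/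
theorem sx_card_pr (hD : Data ι S T r w fr) (P₀ : Sx w S) :
    Nat.card {P : Sx w S // P ≠ P₀} = Fintype.card (InfinitePlace F) + S.card - (r + 1) := by
  classical
  have h1 := ce_card hD
  have h2 : Nat.card {P : Sx w S // P ≠ P₀} = Nat.card (Sx w S) - 1 := by
    rw [Nat.card_eq_fintype_card, Nat.card_eq_fintype_card]
    have h3 := Fintype.card_subtype_compl (fun P : Sx w S => P = P₀)
    rw [Fintype.card_subtype_eq] at h3
    exact h3
  omega

theorem sx_nonempty_pr (hD : Data ι S T r w fr) : Nonempty (Sx w S) := by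
  have h1 := ce_card hD
  have h2 := hD.card
  have h3 : 0 < Nat.card (Sx w S) := by omega
  exact (Nat.card_pos_iff.1 h3).1

/-- Block CE: the decomposition groups of the `v_i` are trivial, so the symbols vanish there; by
`sy_prod` the sum of the symbols of `b ∈ ES S T` in `S` is `0`. -/
theorem sy_sx_pr (hD : Data ι S T r w fr) (θ : Ch G) (b : ES S T) :
    (∀ P : PS S, (¬ ∀ i, P.pl ≠ dn F (w i)) → sy ι θ P.pl b.1 = 0) ∧
      ∑ᶠ P : Sx w S, sy ι θ P.1.pl b.1 = 0 := by
  classical
  have h1 : ∀ P : PS S, (¬ ∀ i, P.pl ≠ dn F (w i)) → sy ι θ P.pl b.1 = 0 := by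
    intro P hP
    push Not at hP
    obtain ⟨i, hi⟩ := hP
    refine hs_of_sq ((sq_iff θ P.pl).2 ?_) _
    intro g hg
    have h2 : ι g = 1 := hD.split i (ι g) (hg (w i) hi.symm)
    have h3 : g = 1 := ι.injective (h2.trans (map_one ι).symm)
    rw [h3]
    exact (kr θ).one_mem
  refine ⟨h1, ?_⟩
  have h2 : cdF fr S θ (dv F b.1) = 0 := by
    unfold cdF
    rw [wt_apply, Finsupp.sum]
    refine Finset.sum_eq_zero fun v _ => ?_
    by_cases hv : v ∈ S
    · rw [if_pos hv, mul_zero]
    · have h3 : Even (dv F b.1 v) := b.2.2 v hv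
      rw [(ZMod.intCast_zmod_eq_zero_iff_dvd _ 2).2 (by exact_mod_cast h3.two_dvd), zero_mul]
  have h3 := sy_prod hD θ b.1
  rw [h2] at h3
  rw [finsum_eq_sum_of_fintype]
  rw [← h3]
  have h4 : ∑ P : Sx w S, sy ι θ P.1.pl b.1 =
      ∑ P ∈ Finset.univ.filter (fun P : PS S => ∀ i, P.pl ≠ dn F (w i)), sy ι θ P.pl b.1 := by
    refine (Finset.sum_subtype (Finset.univ.filter fun P : PS S => ∀ i, P.pl ≠ dn F (w i))
      (fun P => by simp) fun P => sy ι θ P.pl b.1).symm
  rw [h4]
  refine Finset.sum_filter_of_ne fun P _ hne => ?_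
  by_contra hP
  exact hne (h1 P hP)

end R

alias sx_card := sx_card_pr
alias sx_nonempty := sx_nonempty_pr
alias sy_sx := sy_sx_pr

end Pool.Agent.MQR
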