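import Pool.Agent.Lib_helper15.MQR.Defs

/-!
# Multiquadratic extensions, small `S` (MQR), block DA (helper16)
-/

set_option autoImplicit false
set_option linter.unusedSectionVars false
set_option linter.unusedVariables false

namespace Pool.Agent.MQR

open Pool.Agent.RSK Pool.Agent.RS2 Pool.Agent.RS3 Pool.Agent.SY Pool.Agent.AU Pool.Agent.CR
open Pool.Agent.RG Pool.Agent.QR
open NumberField IsDedekindDomain

section DAs

variable {F K : Type} [Field F] [NumberField F] [Field K] [NumberField K] [Algebra F K]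
  [IsGalois F K] {S T : Finset (HeightOneSpectrum (𝓞 F))}

theorem da_sq (hcard : Nat.card (K ≃ₐ[F] K) = 2) (σ : K ≃ₐ[F] K) : σ * σ = 1 := by
  have h := pow_card_eq_one' (x := σ)
  rw [hcard, pow_two] at h
  exact h

theorem da_pac_pac (hcard : Nat.card (K ≃ₐ[F] K) = 2) (σ : K ≃ₐ[F] K)
    (W : HeightOneSpectrum (𝓞 K)) : pac σ (pac σ W) = W := by
  have h : ∀ x : K, σ (σ x) = x := fun x => by
    have h1 := congrArg (fun τ : K ≃ₐ[F] K => τ x) (da_sq hcard σ)
    exact h1
  have hi : ∀ x : 𝓞 K, (RingOfIntegers.mapRingEquiv σ.toRingEquiv).symm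
      ((RingOfIntegers.mapRingEquiv σ.toRingEquiv).symm x) = x := by
    intro x
    rw [RingEquiv.symm_apply_eq, RingEquiv.symm_apply_eq]
    refine RingOfIntegers.ext ?_
    exact (h x).symm
  ext x
  show (RingOfIntegers.mapRingEquiv σ.toRingEquiv).symm
    ((RingOfIntegers.mapRingEquiv σ.toRingEquiv).symm x) ∈ W.asIdeal ↔ x ∈ W.asIdeal
  rw [hi]

theorem da_ordv (hcard : Nat.card (K ≃ₐ[F] K) = 2) (σ : K ≃ₐ[F] K)
    (W : HeightOneSpectrum (𝓞 K)) (x : K) : ordv (pac σ W) x = ordv W (σ x) := by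
  have h := ordv_act σ (pac σ W) x
  have h2 : HeightOneSpectrum.equivOfRingEquiv (RingOfIntegers.mapRingEquiv σ.toRingEquiv)
    (pac σ W) = W := da_pac_pac hcard σ W
  rw [h2] at h
  exact h.symm

theorem da_under (σ : K ≃ₐ[F] K) (W : HeightOneSpectrum (𝓞 K)) :
    (pac σ W).under (𝓞 F) = W.under (𝓞 F) := under_equiv σ W

/-- the places above a place -/
theorem da_two (hcard : Nat.card (K ≃ₐ[F] K) = 2) (σ : K ≃ₐ[F] K) (hσ : σ ≠ 1)
    {W W' : HeightOneSpectrum (𝓞 K)} (h : W'.under (𝓞 F) = W.under (𝓞 F)) :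
    W = W' ∨ W = pac σ W' := by
  obtain ⟨τ, hτ⟩ := act_trans (F := F) (W := (Sum.inr W' : Pl K)) (W' := (Sum.inr W : Pl K))
    (congrArg Sum.inr h)
  have hτ' : pac τ W' = W := Sum.inr.inj hτ
  have h1 : τ = 1 ∨ τ = σ := by
    classical
    by_contra hcon
    push Not at hcon
    have : Fintype (K ≃ₐ[F] K) := Fintype.ofFinite _
    have hc : ({1, σ, τ} : Finset (K ≃ₐ[F] K)).card = 3 := by
      rw [Finset.card_insert_of_notMem, Finset.card_insert_of_notMem, Finset.card_singleton]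
      · rw [Finset.mem_singleton]; exact fun h => hcon.2 h.symm
      · rw [Finset.mem_insert, Finset.mem_singleton]
        push Not
        exact ⟨hσ.symm, hcon.1.symm⟩
    have h2 := Finset.card_le_univ ({1, σ, τ} : Finset (K ≃ₐ[F] K))
    rw [hc, ← Nat.card_eq_fintype_card, hcard] at h2
    omega
  rcases h1 with rfl | rfl
  · left
    rw [← hτ']
    ext x
    show (RingOfIntegers.mapRingEquiv (1 : K ≃ₐ[F] K).toRingEquiv).symm x ∈ W'.asIdeal ↔ _
    have e : (RingOfIntegers.mapRingEquiv (1 : K ≃ₐ[F] K).toRingEquiv).symm x = x := by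
      rw [RingEquiv.symm_apply_eq]
      rfl
    rw [e]
  · exact Or.inr hτ'.symm

theorem da_norm {σ : K ≃ₐ[F] K} {b : Additive Fˣ} {y : Additive Kˣ}
    (hy : y + eac σ y = inc F K b) {W : HeightOneSpectrum (𝓞 K)}
    (hW : Algebra.IsUnramifiedAt (𝓞 F) W.asIdeal) :
    ordv W (y.toMul : K) + ordv W (σ (y.toMul : K)) = ordv (W.under (𝓞 F)) (b.toMul : F) := by
  have h1 : ((y.toMul * (eac σ y).toMul : Kˣ) : K) = algebraMap F K (b.toMul : F) := by
    have h2 := congrArg (fun u : Additive Kˣ => ((u.toMul : Kˣ) : K)) hy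
    exact h2
  rw [← ordv_unr hW, ← h1, ordv_mul]
  rfl

theorem dd_ex_pr (hcard : Nat.card (K ≃ₐ[F] K) = 2) (σ : K ≃ₐ[F] K) (hσ : σ ≠ 1)
    (hunr : ∀ W : HeightOneSpectrum (𝓞 K), W.under (𝓞 F) ∉ S →
      Algebra.IsUnramifiedAt (𝓞 F) W.asIdeal) (b : Additive Fˣ)
    (hb : ∀ v : HeightOneSpectrum (𝓞 F), v ∉ S → Even (ordv v (b.toMul : F)))
    (y : Additive Kˣ) (hy : y + eac σ y = inc F K b) :
    ∃ D : Dvs K, DD S σ b y D ∧ ∀ W : HeightOneSpectrum (𝓞 K), ordv W (y.toMul : K) = 0 →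
      ordv W ((eac σ y).toMul : K) = 0 → D W = 0 := by
  classical
  -- the chosen places
  obtain ⟨c, hc⟩ : ∃ c : HeightOneSpectrum (𝓞 F) → HeightOneSpectrum (𝓞 K),
      ∀ v, (c v).under (𝓞 F) = v := ⟨fun v => (up1_surj (H := K) v).choose,
    fun v => (up1_surj (H := K) v).choose_spec⟩
  obtain ⟨f, hf⟩ : ∃ f : HeightOneSpectrum (𝓞 K) → ℤ, f = fun W =>
      if W.under (𝓞 F) ∈ S ∨ W = c (W.under (𝓞 F)) then 0 else
        ordv (W.under (𝓞 F)) (b.toMul : F) / 2 - ordv W (y.toMul : K) := ⟨_, rfl⟩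
  have hfin : (Function.support f).Finite := by
    refine Set.Finite.subset ((dvx_finite y.toMul).union
      (ovr_finite (H := K) (dvx_finite b.toMul).toFinset)) fun W hW => ?_
    by_contra hcon
    rw [Set.mem_union, not_or] at hcon
    obtain ⟨h1, h2⟩ := hcon
    rw [Function.mem_support, not_not] at h1
    have h1' : ordv W (y.toMul : K) = 0 := h1
    have h2' : ordv (W.under (𝓞 F)) (b.toMul : F) = 0 := by
      by_contra hne
      exact h2 ((Set.Finite.mem_toFinset _).2 hne)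
    apply hW
    rw [hf]
    dsimp only
    split_ifs
    · rfl
    · rw [h1', h2']
      rfl
  refine ⟨Finsupp.ofSupportFinite f hfin, ⟨hy, fun W hW => ?_⟩, fun W h1 h2 => ?_⟩
  · show 2 * ordv W (y.toMul : K) = ordv (W.under (𝓞 F)) (b.toMul : F) + 2 * (f (pac σ W) - f W)
    have hu := da_under (F := F) σ W
    have hn := da_norm hy (hunr W hW)
    obtain ⟨m, hm⟩ := hb _ hW
    have hm2 : ordv (W.under (𝓞 F)) (b.toMul : F) / 2 = m := by omega
    have ho := da_ordv hcard σ W (y.toMul : K)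
    have hfW : f W = if W = c (W.under (𝓞 F)) then 0 else m - ordv W (y.toMul : K) := by
      rw [hf]
      dsimp only
      rw [hm2]
      by_cases h : W = c (W.under (𝓞 F))
      · rw [if_pos h, if_pos (Or.inr h)]
      · rw [if_neg h, if_neg (not_or.2 ⟨hW, h⟩)]
    have hfs : f (pac σ W) = if pac σ W = c (W.under (𝓞 F)) then 0 else
        m - ordv W (σ (y.toMul : K)) := by
      rw [hf]
      dsimp only
      rw [hu, hm2, ho]
      by_cases h : pac σ W = c (W.under (𝓞 F))
      · rw [if_pos h, if_pos (Or.inr h)]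
      · rw [if_neg h, if_neg (not_or.2 ⟨hW, h⟩)]
    by_cases h : W = c (W.under (𝓞 F))
    · rw [hfW, if_pos h, hfs]
      by_cases h' : pac σ W = c (W.under (𝓞 F))
      · rw [if_pos h']
        have e : pac σ W = W := h'.trans h.symm
        rw [e] at ho
        rw [← ho] at hn
        omega
      · rw [if_neg h']
        omega
    · have h3 : pac σ W = c (W.under (𝓞 F)) := by
        rcases da_two hcard σ hσ (W := W) (W' := c (W.under (𝓞 F))) (hc _) with h4 | h4
        · exact absurd h4 h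
        · have h5 := congrArg (pac σ) h4
          rwa [da_pac_pac hcard] at h5
      rw [hfW, if_neg h, hfs, if_pos h3]
      omega
  · show f W = 0
    rw [hf]
    dsimp only
    split_ifs with h
    · rfl
    · have hW : W.under (𝓞 F) ∉ S := fun hS => h (Or.inl hS)
      have hn := da_norm hy (hunr W hW)
      have h2' : ordv W (σ (y.toMul : K)) = 0 := h2
      rw [h1, h2'] at hn
      rw [← hn, h1]
      rfl

end DAs

alias dd_ex := dd_ex_pr

end Pool.Agent.MQR
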