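import Pool.Agent.Lib_helper15.MQR.Defs
import Pool.Agent.Lib_helper35.RG.AllN
import Pool.Agent.Lib_helper17.RS.P_UP1
import Pool.Agent.Lib_helper17.RS.P_UP2

/-!
# MQR, block DB: uniqueness of the class
-/

set_option autoImplicit false
set_option linter.unusedSectionVars false
set_option linter.unusedVariables false

namespace Pool.Agent.MQR

open Pool.Agent.RSK Pool.Agent.RS2 Pool.Agent.RS3 Pool.Agent.SY Pool.Agent.AU Pool.Agent.CR
open Pool.Agent.RG Pool.Agent.QR
open NumberField IsDedekindDomain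

section D

variable {F K : Type} [Field F] [NumberField F] [Field K] [NumberField K] [Algebra F K]
  [IsGalois F K] {S T : Finset (HeightOneSpectrum (𝓞 F))}

theorem db_two (hcard : Nat.card (K ≃ₐ[F] K) = 2) {σ : K ≃ₐ[F] K} (hσ : σ ≠ 1) (τ : K ≃ₐ[F] K) :
    τ = 1 ∨ τ = σ := by
  classical
  have hf : Finite (K ≃ₐ[F] K) := (Nat.card_pos_iff.1 (by omega)).2
  have : Fintype (K ≃ₐ[F] K) := Fintype.ofFinite _
  by_contra hc
  push Not at hc
  have h3 : ({1, σ, τ} : Finset (K ≃ₐ[F] K)).card = 3 := by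
    rw [Finset.card_eq_three]
    exact ⟨1, σ, τ, hσ.symm, hc.1.symm, hc.2.symm, rfl⟩
  have h4 := Finset.card_le_univ ({1, σ, τ} : Finset (K ≃ₐ[F] K))
  rw [← Nat.card_eq_fintype_card, hcard, h3] at h4
  omega

theorem db_sq (hcard : Nat.card (K ≃ₐ[F] K) = 2) (σ : K ≃ₐ[F] K) : σ * σ = 1 := by
  have hf : Finite (K ≃ₐ[F] K) := (Nat.card_pos_iff.1 (by omega)).2
  rw [← pow_two, ← hcard]
  exact pow_card_eq_one'

theorem db_pac_one (W : HeightOneSpectrum (𝓞 K)) : pac (1 : K ≃ₐ[F] K) W = W := by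
  have h : act (1 : K ≃ₐ[F] K) (Sum.inr W) = Sum.inr W := act_one _
  exact Sum.inr_injective h

theorem db_pac_pac (hcard : Nat.card (K ≃ₐ[F] K) = 2) (σ : K ≃ₐ[F] K)
    (W : HeightOneSpectrum (𝓞 K)) : pac σ (pac σ W) = W := by
  have h : act (σ * σ) (Sum.inr W) = act σ (act σ (Sum.inr W)) := act_mul _ _ _
  rw [db_sq hcard, act_one] at h
  exact (Sum.inr_injective h).symm

theorem db_under (σ : K ≃ₐ[F] K) (W : HeightOneSpectrum (𝓞 K)) :
    (pac σ W).under (𝓞 F) = W.under (𝓞 F) := under_equiv σ W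

theorem db_ordv (hcard : Nat.card (K ≃ₐ[F] K) = 2) (σ : K ≃ₐ[F] K)
    (W : HeightOneSpectrum (𝓞 K)) (x : Additive Kˣ) :
    ordv W ((eac σ x).toMul : K) = ordv (pac σ W) (x.toMul : K) := by
  have h := ordv_act σ (pac σ W) (x.toMul : K)
  have h2 : HeightOneSpectrum.equivOfRingEquiv (RingOfIntegers.mapRingEquiv σ.toRingEquiv)
    (pac σ W) = W := db_pac_pac hcard σ W
  rw [h2] at h
  exact h

theorem dd_uniq_pr (hST : Disjoint S T) (hcard : Nat.card (K ≃ₐ[F] K) = 2) (σ : K ≃ₐ[F] K)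
    (hσ : σ ≠ 1) (hunr : ∀ W : HeightOneSpectrum (𝓞 K), W.under (𝓞 F) ∉ S →
      Algebra.IsUnramifiedAt (𝓞 F) W.asIdeal) {b : ES S T} {y y' : Additive Kˣ} {D D' : Dvs K}
    (hy : y.toMul ∈ KT (ovr K T)) (hy' : y'.toMul ∈ KT (ovr K T)) (hD : D ∈ Dv (ovr K T))
    (hD' : D' ∈ Dv (ovr K T)) (h : DD S σ b.1 y D) (h' : DD S σ b.1 y' D') :
    D - D' ∈ BT K S T := by
  classical
  have htr : trc 2 (eac σ) (y' - y) = 0 := by
    rw [trc_apply, Finset.sum_range_succ, Finset.sum_range_one]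
    show (y' - y) + eac σ (y' - y) = 0
    have h1 := h.norm
    have h2 := h'.norm
    rw [map_sub]
    have e : y' - y + (eac σ y' - eac σ y) = (y' + eac σ y') - (y + eac σ y) := by abel
    rw [e, h1, h2, sub_self]
  have hx : Additive.toMul (y' - y) ∈ KT (ovr K T) := by
    show y'.toMul / y.toMul ∈ KT (ovr K T)
    exact (KT _).div_mem hy' hy
  obtain ⟨z, hz, hzx⟩ := h90_T Nat.prime_two hcard T (fun W hW => hunr W (fun hS =>
    (Finset.disjoint_left.1 hST) hS hW)) σ hσ (y' - y) hx htr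
  have hz0 : ∀ W : HeightOneSpectrum (𝓞 K), W ∈ ovr K T → ordv W (z.toMul : K) = 0 :=
    fun W hW => ordv_KT hz hW
  have hsub : ∀ (W : HeightOneSpectrum (𝓞 K)) (u v : Additive Kˣ),
      ordv W ((u - v).toMul : K) = ordv W (u.toMul : K) - ordv W (v.toMul : K) := by
    intro W u v
    have e : (u - v).toMul = u.toMul * (v.toMul)⁻¹ := by
      show u.toMul / v.toMul = _
      rw [div_eq_mul_inv]
    rw [e, ordv_mul, ordv_inv]
    ring
  have hinv : ∀ W : HeightOneSpectrum (𝓞 K), W.under (𝓞 F) ∉ S →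
      (D - D') (pac σ W) + ordv (pac σ W) (z.toMul : K) = (D - D') W + ordv W (z.toMul : K) := by
    intro W hW
    have h1 := h.div W hW
    have h2 := h'.div W hW
    have h3 : ordv W ((dlt (eac σ) z).toMul : K) = ordv W ((y' - y).toMul : K) := by rw [hzx]
    rw [dlt_apply, hsub, hsub, db_ordv hcard] at h3
    rw [Finsupp.sub_apply, Finsupp.sub_apply]
    omega
  -- the decomposition
  let P : Dvs K := (D - D').filter (· ∈ ovr K S) + (-(dv K z)).filter (· ∉ ovr K S)
  let I : Dvs K := (D - D' + dv K z).filter (· ∉ ovr K S)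
  have hdisj : ∀ W, W ∈ ovr K T → W ∉ ovr K S := fun W hT hS => by
    rw [mem_ovr] at hT hS
    exact (Finset.disjoint_left.1 hST) hS hT
  have hPI : D - D' = P + I := by
    ext W
    show (D - D') W = ((D - D').filter (· ∈ ovr K S)) W + ((-(dv K z)).filter (· ∉ ovr K S)) W +
      ((D - D' + dv K z).filter (· ∉ ovr K S)) W
    rw [Finsupp.filter_apply, Finsupp.filter_apply, Finsupp.filter_apply]
    by_cases hW : W ∈ ovr K S
    · rw [if_pos hW, if_neg (not_not.2 hW), if_neg (not_not.2 hW)]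
      ring
    · rw [if_neg hW, if_pos hW, if_pos hW, Finsupp.add_apply, Finsupp.neg_apply]
      ring
  have hP : P ∈ Pr (ovr K S) (ovr K T) := by
    have hPv : ∀ W, W ∉ ovr K S → P W = -ordv W (z.toMul : K) := by
      intro W hW
      show ((D - D').filter (· ∈ ovr K S)) W + ((-(dv K z)).filter (· ∉ ovr K S)) W = _
      rw [Finsupp.filter_apply, Finsupp.filter_apply, if_neg hW, if_pos hW, Finsupp.neg_apply,
        dv_apply, zero_add]
    refine ⟨fun W hW => ?_, z.toMul⁻¹, (KT _).inv_mem hz, fun W hW => ?_⟩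
    · rw [hPv W (hdisj W hW), hz0 W hW, neg_zero]
    · rw [hPv W hW, ordv_inv]
  have hI : I ∈ DvP 2 F K T := by
    have hIv : ∀ W, W ∉ ovr K S → I W = (D - D') W + ordv W (z.toMul : K) := by
      intro W hW
      show ((D - D' + dv K z).filter (· ∉ ovr K S)) W = _
      rw [Finsupp.filter_apply, if_pos hW, Finsupp.add_apply, dv_apply]
    have hIs : ∀ W, W ∈ ovr K S → I W = 0 := by
      intro W hW
      show ((D - D' + dv K z).filter (· ∉ ovr K S)) W = _
      rw [Finsupp.filter_apply, if_neg (not_not.2 hW)]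
    refine ⟨fun W hW => ?_, fun τ _ W => ?_⟩
    · rw [hIv W (hdisj W hW), hz0 W hW, Finsupp.sub_apply, hD W hW, hD' W hW]
      ring
    · show I (pac τ W) = I W
      rcases db_two hcard hσ τ with rfl | rfl
      · rw [db_pac_one]
      · by_cases hW : W ∈ ovr K S
        · rw [hIs W hW, hIs (pac τ W) (by rw [mem_ovr, db_under]; exact mem_ovr.1 hW)]
        · have hW' : pac τ W ∉ ovr K S := by
            rw [mem_ovr, db_under]
            rwa [mem_ovr] at hW
          rw [hIv W hW, hIv _ hW']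
          refine hinv W ?_
          rwa [mem_ovr] at hW
  rw [hPI]
  exact (BT K S T).add_mem (AddSubgroup.mem_sup_left hP) (AddSubgroup.mem_sup_right hI)

end D

alias dd_uniq := dd_uniq_pr

end Pool.Agent.MQR
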