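import Pool.Agent.Lib_helper15.MQR.Defs

/-!
# Multiquadratic extensions, small `S` (MQR, MP_dd9835_nt): block DC
-/

set_option autoImplicit false
set_option linter.unusedSectionVars false
set_option linter.unusedVariables false

namespace Pool.Agent.MQR

open Pool.Agent.RSK Pool.Agent.RS2 Pool.Agent.RS3 Pool.Agent.SY Pool.Agent.AU Pool.Agent.CR
open Pool.Agent.RG Pool.Agent.QR
open NumberField IsDedekindDomain

section D

variable {F K : Type} [Field F] [NumberField F] [Field K] [NumberField K] [Algebra F K]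
  [IsGalois F K] {S T : Finset (HeightOneSpectrum (𝓞 F))}

theorem dc_sq (hcard : Nat.card (K ≃ₐ[F] K) = 2) (σ : K ≃ₐ[F] K) : σ * σ = 1 := by
  have h := pow_card_eq_one' (x := σ)
  rwa [hcard, pow_two] at h

theorem dc_eq (hcard : Nat.card (K ≃ₐ[F] K) = 2) {σ : K ≃ₐ[F] K} (hσ : σ ≠ 1)
    (τ : K ≃ₐ[F] K) : τ = 1 ∨ τ = σ := by
  by_cases hτ : τ = 1
  · exact Or.inl hτ
  · exact Or.inr (((Nat.card_eq_two_iff' (1 : K ≃ₐ[F] K)).1 hcard).unique hτ hσ)

theorem dc_pac (hcard : Nat.card (K ≃ₐ[F] K) = 2) (σ : K ≃ₐ[F] K)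
    (W : HeightOneSpectrum (𝓞 K)) : pac σ (pac σ W) = W := by
  have h := act_mul σ σ (Sum.inr W)
  rw [dc_sq hcard, act_one] at h
  exact (Sum.inr_injective h).symm

theorem dc_pac_one (W : HeightOneSpectrum (𝓞 K)) : pac (1 : K ≃ₐ[F] K) W = W :=
  Sum.inr_injective (act_one (F := F) (Sum.inr W))

theorem dc_app (hcard : Nat.card (K ≃ₐ[F] K) = 2) (σ : K ≃ₐ[F] K) (x : K) : σ (σ x) = x := by
  have h := congrArg (fun τ : K ≃ₐ[F] K => τ x) (dc_sq hcard σ)
  exact h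

theorem dc_under (σ : K ≃ₐ[F] K) (W : HeightOneSpectrum (𝓞 K)) :
    (pac σ W).under (𝓞 F) = W.under (𝓞 F) := under_equiv σ W

theorem dc_ord (hcard : Nat.card (K ≃ₐ[F] K) = 2) (σ : K ≃ₐ[F] K)
    (W : HeightOneSpectrum (𝓞 K)) (x : K) : ordv W (σ x) = ordv (pac σ W) x := by
  have h := ordv_act σ W (σ x)
  rw [dc_app hcard] at h
  exact h.symm

theorem dc_KT (hcard : Nat.card (K ≃ₐ[F] K) = 2) (σ : K ≃ₐ[F] K) {y : Additive Kˣ}
    (hy : y.toMul ∈ KT (ovr K T)) : (eac σ y).toMul ∈ KT (ovr K T) := by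
  intro W hW
  have h1 : pac σ W ∈ ovr K T := by
    rw [mem_ovr, dc_under]
    exact mem_ovr.1 hW
  have h2 := hy _ h1
  have h3 := val_equiv σ.toRingEquiv W (σ ((y.toMul : K) - 1))
  have h4 : σ.toRingEquiv (σ ((y.toMul : K) - 1)) = (y.toMul : K) - 1 := dc_app hcard σ _
  rw [h4] at h3
  have h5 : ((eac σ y).toMul : K) - 1 = σ ((y.toMul : K) - 1) := by
    rw [eac_apply, map_sub, map_one]
  rw [h5, ← h3]
  exact h2

/-- invariance under `σ` -/
theorem dc_DvP (hcard : Nat.card (K ≃ₐ[F] K) = 2) {σ : K ≃ₐ[F] K} (hσ : σ ≠ 1) {I : Dvs K}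
    (h1 : I ∈ Dv (ovr K T)) (h2 : ∀ W, I (pac σ W) = I W) : I ∈ DvP 2 F K T := by
  refine ⟨h1, fun τ _ W => ?_⟩
  rcases dc_eq hcard hσ τ with rfl | rfl
  · exact congrArg I (dc_pac_one W)
  · exact h2 W

theorem dd_two_pr (hST : Disjoint S T) (hcard : Nat.card (K ≃ₐ[F] K) = 2) (σ : K ≃ₐ[F] K)
    (hσ : σ ≠ 1) (hunr : ∀ W : HeightOneSpectrum (𝓞 K), W.under (𝓞 F) ∉ S →
      Algebra.IsUnramifiedAt (𝓞 F) W.asIdeal) {b : ES S T} {y : Additive Kˣ} {D : Dvs K}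
    (hy : y.toMul ∈ KT (ovr K T)) (hD : D ∈ Dv (ovr K T)) (h : DD S σ b.1 y D) :
    D + D ∈ BT K S T := by
  -- `D' = D ∘ pac σ`, `E` = half of the divisor of `b`
  have hd : ∀ W : HeightOneSpectrum (𝓞 K), dac σ D W = D (pac σ W) := by
    intro W
    have h1 := dac_apply σ D (pac σ W)
    rwa [dc_pac hcard] at h1
  set E : Dvs K := xt F K (hf S T b) with hE
  have hEa : ∀ W, E W = hf S T b (W.under (𝓞 F)) := fun W => rfl
  have hDσ : dac σ D ∈ Dv (ovr K T) := by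
    intro W hW
    rw [hd]
    refine hD _ ?_
    rw [mem_ovr, dc_under]
    exact mem_ovr.1 hW
  have hE1 : E ∈ Dv (ovr K T) := fun W hW => hf_Dv b _ (mem_ovr.1 hW)
  have h1 : D + dac σ D ∈ DvP 2 F K T := by
    refine dc_DvP hcard hσ ((Dv _).add_mem hD hDσ) fun W => ?_
    rw [Finsupp.add_apply, Finsupp.add_apply, hd, hd, dc_pac hcard, add_comm]
  have h2 : E ∈ DvP 2 F K T := by
    refine dc_DvP hcard hσ hE1 fun W => ?_
    rw [hEa, hEa, dc_under]
  have h3 : dac σ D - D + E ∈ Pr (ovr K S) (ovr K T) := by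
    refine ⟨(Dv _).add_mem ((Dv _).sub_mem hDσ hD) hE1, y.toMul, hy, fun W hW => ?_⟩
    have hW' : W.under (𝓞 F) ∉ S := fun h' => hW (mem_ovr.2 h')
    have h4 := h.div W hW'
    have h5 := hf_two b hW'
    rw [Finsupp.add_apply, Finsupp.sub_apply, hd, hEa]
    linarith
  have e : D + D = (D + dac σ D) - ((dac σ D - D + E) - E) := by abel
  rw [e]
  exact (BT K S T).sub_mem (AddSubgroup.mem_sup_right h1)
    ((BT K S T).sub_mem (AddSubgroup.mem_sup_left h3) (AddSubgroup.mem_sup_right h2))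

theorem dd_surj_pr (hST : Disjoint S T) (hcard : Nat.card (K ≃ₐ[F] K) = 2) (σ : K ≃ₐ[F] K)
    (hσ : σ ≠ 1) (hunr : ∀ W : HeightOneSpectrum (𝓞 K), W.under (𝓞 F) ∉ S →
      Algebra.IsUnramifiedAt (𝓞 F) W.asIdeal) {D : Dvs K} (hD : D ∈ Dv (ovr K T))
    (h : D + D ∈ BT K S T) : ∃ (b : ES S T) (y : Additive Kˣ), y.toMul ∈ KT (ovr K T) ∧
      DD S σ b.1 y D := by
  obtain ⟨P, ⟨hP1, x, hx, hP2⟩, I, ⟨hI1, hI2⟩, hPI⟩ := AddSubgroup.mem_sup.1 h
  -- `y = x⁻¹`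
  set y : Additive Kˣ := Additive.ofMul x⁻¹ with hy
  have hyT : y.toMul ∈ KT (ovr K T) := (KT _).inv_mem hx
  -- `y σ y ∈ F`
  have hfix : ∀ τ : K ≃ₐ[F] K, τ • (y + eac σ y).toMul = (y + eac σ y).toMul := by
    intro τ
    rcases dc_eq hcard hσ τ with rfl | rfl
    · exact one_smul _ _
    · ext
      show τ ((y.toMul : K) * τ (y.toMul : K)) = (y.toMul : K) * τ (y.toMul : K)
      rw [map_mul, dc_app hcard, mul_comm]
  obtain ⟨c, hc⟩ := fixed_unit (F := F) _ hfix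
  have hcT : c ∈ KT T := by
    rw [← kt_map (H := K), hc]
    exact (KT _).mul_mem hyT (dc_KT hcard σ hyT)
  have hyo : ∀ W : HeightOneSpectrum (𝓞 K), W.under (𝓞 F) ∉ S →
      ordv W (y.toMul : K) = I W - 2 * D W := by
    intro W hW
    have h1 := hP2 W (fun h' => hW (mem_ovr.1 h'))
    have h2 : ordv W (y.toMul : K) = -ordv W (x : K) := ordv_inv W x
    have h3 := congrArg (fun Z : Dvs K => Z W) hPI
    have h4 : P W + I W = D W + D W := h3
    rw [h2]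
    linarith
  have hIσ : ∀ W, I (pac σ W) = I W := by
    intro W
    exact hI2 σ (by rw [pow_two]; exact dc_sq hcard σ) W
  have hco : ∀ W : HeightOneSpectrum (𝓞 K), W.under (𝓞 F) ∉ S →
      ordv (W.under (𝓞 F)) (c : F) = 2 * (I W - D W - D (pac σ W)) := by
    intro W hW
    rw [← ordv_unr (H := K) (hunr W hW)]
    have h1 : algebraMap F K (c : F) = (((y.toMul * (eac σ y).toMul : Kˣ)) : K) :=
      congrArg (fun u : Kˣ => (u : K)) hc
    rw [h1, ordv_mul, eac_apply, dc_ord hcard, hyo W hW, hyo _ (by rwa [dc_under]), hIσ]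
    ring
  have hcE : (Additive.ofMul c) ∈ ES S T := by
    refine ⟨hcT, fun v hv => ?_⟩
    obtain ⟨W, hW⟩ := up1_surj (H := K) v
    have h1 := hco W (by rwa [hW])
    rw [hW] at h1
    show Even (ordv v (c : F))
    rw [h1]
    exact even_two_mul _
  refine ⟨⟨Additive.ofMul c, hcE⟩, y, hyT, ?_, fun W hW => ?_⟩
  · exact (congrArg Additive.ofMul hc).symm
  · show 2 * ordv W (y.toMul : K) = ordv (W.under (𝓞 F)) (c : F) + 2 * (D (pac σ W) - D W)
    rw [hco W hW, hyo W hW]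
    ring

end D

alias dd_two := dd_two_pr
alias dd_surj := dd_surj_pr

end Pool.Agent.MQR
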