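import Pool.Agent.Lib_helper15.MQR.Defs
import Pool.Agent.Lib_helper17.RS.P_UP2

/-!
# MQR, block DD
-/

set_option autoImplicit false
set_option linter.unusedSectionVars false
set_option linter.unusedVariables false

namespace Pool.Agent.MQR

open Pool.Agent.RSK Pool.Agent.RS2 Pool.Agent.RS3 Pool.Agent.SY Pool.Agent.AU Pool.Agent.CR
open Pool.Agent.RG Pool.Agent.QR
open NumberField IsDedekindDomain

section D

variable {F K : Type} [Field F] [NumberField F] [Field K] [NumberField K] [Algebra F K]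
  [IsGalois F K] {S T : Finset (HeightOneSpectrum (𝓞 F))}

theorem ddd_pac {σ : K ≃ₐ[F] K} (h : σ ^ 2 = 1) (W : HeightOneSpectrum (𝓞 K)) :
    pac σ (pac σ W) = W := by
  ext x
  show (RingOfIntegers.mapRingEquiv σ.toRingEquiv).symm
    ((RingOfIntegers.mapRingEquiv σ.toRingEquiv).symm x) ∈ W.asIdeal ↔ x ∈ W.asIdeal
  have h1 : (RingOfIntegers.mapRingEquiv σ.toRingEquiv).symm
      ((RingOfIntegers.mapRingEquiv σ.toRingEquiv).symm x) = x := by
    rw [RingEquiv.symm_apply_eq, RingEquiv.symm_apply_eq]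
    ext
    show (x : K) = σ (σ (x : K))
    have h2 : (σ ^ 2) (x : K) = σ (σ (x : K)) := by rw [pow_two]; rfl
    rw [← h2, h]
    rfl
  rw [h1]

theorem ddd_kt (σ : K ≃ₐ[F] K) {x : Additive Kˣ} (hx : x.toMul ∈ KT (ovr K T)) :
    (eac σ x).toMul ∈ KT (ovr K T) := by
  intro W hW
  have h1 : (((eac σ x).toMul : Kˣ) : K) - 1 = σ (((x.toMul : Kˣ) : K) - 1) := by
    rw [eac_apply, map_sub, map_one]
  have key : W.valuation K (σ (((x.toMul : Kˣ) : K) - 1)) =
      (HeightOneSpectrum.equivOfRingEquiv (RingOfIntegers.mapRingEquiv σ.symm.toRingEquiv)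
        W).valuation K (((x.toMul : Kˣ) : K) - 1) := by
    have h := val_equiv σ.symm.toRingEquiv W (σ (((x.toMul : Kˣ) : K) - 1))
    have h2 : σ.symm.toRingEquiv (σ (((x.toMul : Kˣ) : K) - 1)) = ((x.toMul : Kˣ) : K) - 1 :=
      σ.symm_apply_apply _
    rw [h2] at h
    exact h.symm
  rw [h1, key]
  refine hx _ ?_
  rw [mem_ovr, under_equiv]
  rwa [mem_ovr] at hW

/-- Block DD. -/
theorem dd_unit_pr (hST : Disjoint S T) (hcard : Nat.card (K ≃ₐ[F] K) = 2) (σ : K ≃ₐ[F] K)
    (hσ : σ ≠ 1) {b : ES S T} {y : Additive Kˣ} {D : Dvs K} (hy : y.toMul ∈ KT (ovr K T))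
    (hD : D ∈ BT K S T) (h : DD S σ b.1 y D) :
    ∃ y' : Additive Kˣ, y'.toMul ∈ KT (ovr K T) ∧ DD S σ b.1 y' 0 := by
  have hs : σ ^ 2 = 1 := by
    rw [← hcard]
    exact pow_card_eq_one'
  obtain ⟨P, hP, J, hJ, rfl⟩ := AddSubgroup.mem_sup.1 hD
  obtain ⟨_, x, hx, hPx⟩ := hP
  set z : Additive Kˣ := Additive.ofMul x with hz
  have hz' : z.toMul ∈ KT (ovr K T) := hx
  have hss : eac σ (eac σ z) = z := by
    apply Additive.toMul.injective
    apply Units.ext
    rw [eac_apply, eac_apply]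
    have h2 : (σ ^ 2) ((z.toMul : Kˣ) : K) = σ (σ ((z.toMul : Kˣ) : K)) := by rw [pow_two]; rfl
    rw [← h2, hs]
    rfl
  refine ⟨y + z - eac σ z, ?_, ?_, ?_⟩
  · exact (KT _).div_mem ((KT _).mul_mem hy hz') (ddd_kt σ hz')
  · rw [map_sub, map_add, hss, ← h.norm]
    abel
  · intro W hW
    have hW1 : (pac σ W).under (𝓞 F) = W.under (𝓞 F) := under_equiv σ W
    have e1 := h.div W hW
    have e2 : P (pac σ W) = ordv (pac σ W) (x : K) := by
      refine hPx _ ?_
      rw [mem_ovr, hW1]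
      exact hW
    have e3 : P W = ordv W (x : K) := by
      refine hPx _ ?_
      rw [mem_ovr]
      exact hW
    have e4 : J (pac σ W) = J W := hJ.2 σ hs W
    have e5 : ordv W ((eac σ z).toMul : K) = ordv (pac σ W) (x : K) := by
      have h5 := ordv_act σ (pac σ W) (x : K)
      have h6 : HeightOneSpectrum.equivOfRingEquiv (RingOfIntegers.mapRingEquiv σ.toRingEquiv)
        (pac σ W) = W := ddd_pac hs W
      rw [h6] at h5
      exact h5
    have e6 : ordv W ((y + z - eac σ z).toMul : K) =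
        ordv W (y.toMul : K) + ordv W (x : K) - ordv W ((eac σ z).toMul : K) := by
      rw [show ((y + z - eac σ z).toMul : Kˣ) = y.toMul * x * ((eac σ z).toMul)⁻¹ by
        rw [← div_eq_mul_inv]; rfl, ordv_mul, ordv_mul, ordv_inv]
      ring
    rw [Finsupp.add_apply, Finsupp.add_apply, e2, e3, e4] at e1
    rw [e6, e5, Finsupp.zero_apply, Finsupp.zero_apply]
    linarith

end D

alias dd_unit := dd_unit_pr

end Pool.Agent.MQR
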