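import Pool.Agent.Lib_helper15.MQR.Defs
import Pool.Agent.Lib_helper15.MQRF.DA
import Pool.Agent.Lib_helper15.MQRF.DB
import Pool.Agent.Lib_helper15.MQRF.DC
import Pool.Agent.Lib_helper15.MQRF.DD

/-!
# Multiquadratic extensions, small `S` (MQR), block DE (helper16)
-/

set_option autoImplicit false
set_option linter.unusedSectionVars false
set_option linter.unusedVariables false

namespace Pool.Agent.MQR

open Pool.Agent.RSK Pool.Agent.RS2 Pool.Agent.RS3 Pool.Agent.SY Pool.Agent.AU Pool.Agent.CR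
open Pool.Agent.RG Pool.Agent.QR
open NumberField IsDedekindDomain

section DEs

variable {F K : Type} [Field F] [NumberField F] [Field K] [NumberField K] [Algebra F K]
  [IsGalois F K] {S T : Finset (HeightOneSpectrum (𝓞 F))}

theorem de_kt (σ : K ≃ₐ[F] K) {y : Additive Kˣ} (hy : y.toMul ∈ KT (ovr K T)) :
    (eac σ y).toMul ∈ KT (ovr K T) := RSK.cd_kt_smul σ hy

/-- `DD` is additive -/
theorem de_add {σ : K ≃ₐ[F] K} {b b' : Additive Fˣ} {y y' : Additive Kˣ} {D D' : Dvs K}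
    (h : DD S σ b y D) (h' : DD S σ b' y' D') : DD S σ (b + b') (y + y') (D + D') := by
  refine ⟨?_, fun W hW => ?_⟩
  · rw [map_add, map_add, ← h.norm, ← h'.norm]
    abel
  · have e1 : ordv W (((y + y').toMul : Kˣ) : K) =
        ordv W (y.toMul : K) + ordv W (y'.toMul : K) := ordv_mul W _ _
    have e2 : ordv (W.under (𝓞 F)) (((b + b').toMul : Fˣ) : F) =
        ordv (W.under (𝓞 F)) (b.toMul : F) + ordv (W.under (𝓞 F)) (b'.toMul : F) :=
      ordv_mul _ _ _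
    rw [e1, e2, Finsupp.add_apply, Finsupp.add_apply, mul_add, h.div W hW, h'.div W hW]
    ring

theorem de_ex (hcard : Nat.card (K ≃ₐ[F] K) = 2) (σ : K ≃ₐ[F] K)
    (hσ : σ ≠ 1) (hunr : ∀ W : HeightOneSpectrum (𝓞 K), W.under (𝓞 F) ∉ S →
      Algebra.IsUnramifiedAt (𝓞 F) W.asIdeal) (z : Zs S T σ) :
    ∃ (y : Additive Kˣ) (D : Dv (ovr K T)), y.toMul ∈ KT (ovr K T) ∧ DD S σ z.1.1 y D.1 := by
  obtain ⟨y, hyT, hy⟩ := z.2
  obtain ⟨D, hD, hD0⟩ := dd_ex hcard σ hσ hunr z.1.1 z.1.2.2 y hy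
  exact ⟨y, ⟨D, fun W hW => hD0 W (ordv_KT hyT hW) (ordv_KT (de_kt σ hyT) hW)⟩, hyT, hD⟩

theorem delta_ex_pr (hST : Disjoint S T) (hcard : Nat.card (K ≃ₐ[F] K) = 2) (σ : K ≃ₐ[F] K)
    (hσ : σ ≠ 1) (hunr : ∀ W : HeightOneSpectrum (𝓞 K), W.under (𝓞 F) ∉ S →
      Algebra.IsUnramifiedAt (𝓞 F) W.asIdeal) :
    ∃ δ : Zs S T σ →+ (Dv (ovr K T) ⧸ (BT K S T).addSubgroupOf (Dv (ovr K T))),
      (∀ z, δ z = 0 ↔ ∃ y : Additive Kˣ, y.toMul ∈ KT (ovr K T) ∧ DD S σ z.1.1 y 0) ∧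
      (∀ x, x + x = 0 ↔ ∃ z, δ z = x) ∧
      ∀ z, ∃ (y : Additive Kˣ) (D : Dv (ovr K T)), y.toMul ∈ KT (ovr K T) ∧
        DD S σ z.1.1 y D.1 ∧ δ z = QuotientAddGroup.mk D := by
  choose Y DZ hY hDD using fun z : Zs S T σ => de_ex hcard σ hσ hunr z
  -- independence of the choices
  have hind : ∀ (z : Zs S T σ) (y : Additive Kˣ) (D : Dv (ovr K T)), y.toMul ∈ KT (ovr K T) →
      DD S σ z.1.1 y D.1 → (QuotientAddGroup.mk (DZ z) :
        Dv (ovr K T) ⧸ (BT K S T).addSubgroupOf (Dv (ovr K T))) = QuotientAddGroup.mk D := by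
    intro z y D hy hD
    rw [QuotientAddGroup.eq, AddSubgroup.mem_addSubgroupOf]
    have h := dd_uniq hST hcard σ hσ hunr hy (hY z) D.2 (DZ z).2 hD (hDD z)
    have e : ((-(DZ z) + D : Dv (ovr K T)) : Dvs K) = D.1 - (DZ z).1 := by
      push_cast
      abel
    rw [e]
    exact h
  have hadd : ∀ z z' : Zs S T σ, (QuotientAddGroup.mk (DZ (z + z')) :
      Dv (ovr K T) ⧸ (BT K S T).addSubgroupOf (Dv (ovr K T))) =
        QuotientAddGroup.mk (DZ z) + QuotientAddGroup.mk (DZ z') := by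
    intro z z'
    rw [← QuotientAddGroup.mk_add]
    exact hind (z + z') (Y z + Y z') (DZ z + DZ z') ((KT _).mul_mem (hY z) (hY z'))
      (de_add (hDD z) (hDD z'))
  refine ⟨AddMonoidHom.mk' (fun z => QuotientAddGroup.mk (DZ z)) hadd, fun z => ?_, fun x => ?_,
    fun z => ⟨Y z, DZ z, hY z, hDD z, rfl⟩⟩
  · show (QuotientAddGroup.mk (DZ z) : Dv (ovr K T) ⧸ (BT K S T).addSubgroupOf (Dv (ovr K T))) = 0
      ↔ _
    constructor
    · intro h0
      rw [QuotientAddGroup.eq_zero_iff, AddSubgroup.mem_addSubgroupOf] at h0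
      exact dd_unit hST hcard σ hσ (hY z) h0 (hDD z)
    · rintro ⟨y, hy, hD⟩
      exact hind z y 0 hy hD
  · constructor
    · intro hx
      obtain ⟨D, rfl⟩ := QuotientAddGroup.mk_surjective x
      rw [← QuotientAddGroup.mk_add, QuotientAddGroup.eq_zero_iff,
        AddSubgroup.mem_addSubgroupOf] at hx
      obtain ⟨b, y, hy, hD⟩ := dd_surj hST hcard σ hσ hunr D.2 hx
      exact ⟨⟨b, y, hy, hD.norm⟩, hind ⟨b, y, hy, hD.norm⟩ y D hy hD⟩
    · rintro ⟨z, rfl⟩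
      show (QuotientAddGroup.mk (DZ z) : Dv (ovr K T) ⧸ (BT K S T).addSubgroupOf (Dv (ovr K T))) +
        QuotientAddGroup.mk (DZ z) = 0
      rw [← QuotientAddGroup.mk_add, QuotientAddGroup.eq_zero_iff, AddSubgroup.mem_addSubgroupOf]
      exact dd_two hST hcard σ hσ hunr (hY z) (DZ z).2 (hDD z)

end DEs

alias delta_ex := delta_ex_pr

end Pool.Agent.MQR
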