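import Pool.Agent.Lib_helper15.MQR.Defs
import Pool.Agent.Lib_helper17.RS.P_XD

/-!
# MQR, block EA: finiteness of the class groups
-/

set_option autoImplicit false
set_option linter.unusedSectionVars false
set_option linter.unusedVariables false

namespace Pool.Agent.MQR

open Pool.Agent.RSK Pool.Agent.RS2 Pool.Agent.RS3 Pool.Agent.SY Pool.Agent.AU Pool.Agent.CR
open Pool.Agent.RG Pool.Agent.QR
open NumberField IsDedekindDomain

section E

variable {k : Type} [Field k] [NumberField k] {S T : Finset (HeightOneSpectrum (𝓞 k))}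

theorem ea_Pr_mono (S T : Finset (HeightOneSpectrum (𝓞 k))) : Pr ∅ T ≤ Pr S T := by
  rintro D ⟨h, x, hx, hD⟩
  exact ⟨h, x, hx, fun v _ => hD v (Finset.notMem_empty v)⟩

theorem ea_rel_ne {S T : Finset (HeightOneSpectrum (𝓞 k))}
    (A : AddSubgroup (HeightOneSpectrum (𝓞 k) →₀ ℤ)) (h : Pr S T ≤ A) :
    A.relIndex (Dv T) ≠ 0 := by
  have h1 : (Pr ∅ T).relIndex (Dv T) ≠ 0 := (xd_hA_ne T).1
  intro h0
  refine h1 ?_
  have h2 := AddSubgroup.relIndex_dvd_of_le_left (Dv T) ((ea_Pr_mono S T).trans h)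
  rw [h0] at h2
  exact zero_dvd_iff.1 h2

/-- Block EA: finiteness (`RSK.xd_hA_ne`, `Pr ∅ T ≤ Pr S T`). -/
theorem hA_ne_pr (S T : Finset (HeightOneSpectrum (𝓞 k))) : hA S T ≠ 0 :=
  ea_rel_ne (Pr S T) le_rfl

/-- Block EA: the quotient of `A = Dv T / Pr S T` by `2 A` is an elementary abelian `2`-group. -/
theorem a2_pow_pr (S T : Finset (HeightOneSpectrum (𝓞 k))) : ∃ ρ : ℕ, a2 S T = 2 ^ ρ := by
  set N : AddSubgroup (HeightOneSpectrum (𝓞 k) →₀ ℤ) :=
    Pr S T ⊔ (Dv T).map (nsmulAddMonoidHom 2) with hN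
  have hne : N.relIndex (Dv T) ≠ 0 := ea_rel_ne N le_sup_left
  have hfin : Finite (Dv T ⧸ N.addSubgroupOf (Dv T)) := Nat.finite_of_card_ne_zero hne
  have hp : IsPGroup 2 (Multiplicative (Dv T ⧸ N.addSubgroupOf (Dv T))) := by
    intro q
    refine ⟨1, ?_⟩
    obtain ⟨D, hD⟩ := QuotientAddGroup.mk_surjective (Multiplicative.toAdd q)
    have h2 : (2 : ℕ) • (Multiplicative.toAdd q) = 0 := by
      rw [← hD, ← QuotientAddGroup.mk_nsmul, QuotientAddGroup.eq_zero_iff,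
        AddSubgroup.mem_addSubgroupOf]
      exact (le_sup_right : (Dv T).map (nsmulAddMonoidHom 2) ≤ N) ⟨D.1, D.2, rfl⟩
    rw [pow_one]
    exact h2
  obtain ⟨ρ, hρ⟩ := hp.exists_card_eq
  exact ⟨ρ, hρ⟩

end E

section D

variable {F K : Type} [Field F] [NumberField F] [Field K] [NumberField K] [Algebra F K]
  [IsGalois F K] {S T : Finset (HeightOneSpectrum (𝓞 F))}

/-- Block EA: finiteness (`hA_ne_pr`). -/
theorem hJ_ne_pr (K : Type) [Field K] [NumberField K] [Algebra F K]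
    (S T : Finset (HeightOneSpectrum (𝓞 F))) : hJ 2 F K S T ≠ 0 :=
  ea_rel_ne (Pr (ovr K S) (ovr K T) ⊔ DvP 2 F K T) le_sup_left

end D

alias hA_ne := hA_ne_pr
alias a2_pow := a2_pow_pr
alias hJ_ne := hJ_ne_pr

end Pool.Agent.MQR
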