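import Pool.Agent.Lib_helper15.MQR.Defs

/-!
# MQR, block EB
-/

set_option autoImplicit false
set_option linter.unusedSectionVars false
set_option linter.unusedVariables false

namespace Pool.Agent.MQR

open Pool.Agent.RSK Pool.Agent.RS2 Pool.Agent.RS3 Pool.Agent.SY Pool.Agent.AU Pool.Agent.CR
open Pool.Agent.RG Pool.Agent.QR
open NumberField IsDedekindDomain

section E

variable {k : Type} [Field k] [NumberField k] {S T : Finset (HeightOneSpectrum (𝓞 k))}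

/-- the homomorphism `b ↦ [hf b]` -/
noncomputable def eb_delta (S T : Finset (HeightOneSpectrum (𝓞 k))) :
    ES S T →+ (Dv T ⧸ (Pr S T).addSubgroupOf (Dv T)) :=
  (QuotientAddGroup.mk' ((Pr S T).addSubgroupOf (Dv T))).comp
    ((hf S T).codRestrict (Dv T) fun b => hf_Dv b)

theorem eb_delta_apply (b : ES S T) : eb_delta S T b = QuotientAddGroup.mk ⟨hf S T b, hf_Dv b⟩ :=
  rfl

theorem eb_delta_zero (b : ES S T) : eb_delta S T b = 0 ↔ hf S T b ∈ Pr S T := by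
  rw [eb_delta_apply, QuotientAddGroup.eq_zero_iff, AddSubgroup.mem_addSubgroupOf]

theorem delta0_ex_pr (hST : Disjoint S T) :
    ∃ δ : ES S T →+ (Dv T ⧸ (Pr S T).addSubgroupOf (Dv T)),
    (∀ b, δ b = QuotientAddGroup.mk ⟨hf S T b, hf_Dv b⟩) ∧ (∀ b, δ b = 0 ↔ hf S T b ∈ Pr S T) ∧
    ∀ x, x + x = 0 ↔ ∃ b, δ b = x := by
  refine ⟨eb_delta S T, eb_delta_apply, eb_delta_zero, fun x => ⟨?_, ?_⟩⟩
  · obtain ⟨D, rfl⟩ := QuotientAddGroup.mk_surjective x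
    intro h
    have h1 : QuotientAddGroup.mk (D + D) =
        (0 : Dv T ⧸ (Pr S T).addSubgroupOf (Dv T)) := h
    rw [QuotientAddGroup.eq_zero_iff, AddSubgroup.mem_addSubgroupOf] at h1
    obtain ⟨-, c, hc, hcv⟩ := h1
    have hcv' : ∀ v, v ∉ S → (D : Dvs k) v + (D : Dvs k) v = ordv v (c : k) := fun v hv => by
      rw [← hcv v hv]
      rfl
    have hb : (Additive.ofMul c : Additive kˣ) ∈ ES S T :=
      ⟨hc, fun v hv => ⟨(D : Dvs k) v, (hcv' v hv).symm⟩⟩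
    refine ⟨⟨Additive.ofMul c, hb⟩, ?_⟩
    rw [eb_delta_apply, QuotientAddGroup.eq, AddSubgroup.mem_addSubgroupOf]
    have e1 : ∀ v, ((-(⟨hf S T ⟨Additive.ofMul c, hb⟩, hf_Dv _⟩ : Dv T) + D : Dv T) : Dvs k) v =
        -(hf S T ⟨Additive.ofMul c, hb⟩ v) + (D : Dvs k) v := fun v => rfl
    refine ⟨fun v hv => ?_, 1, (KT T).one_mem, fun v hv => ?_⟩
    · rw [e1, hf_Dv _ v hv, D.2 v hv]
      rfl
    · rw [e1, Units.val_one, ordv_one]
      have h2 := hf_two (⟨Additive.ofMul c, hb⟩ : ES S T) hv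
      have h3 := hcv' v hv
      have h4 : ordv v (((⟨Additive.ofMul c, hb⟩ : ES S T).1.toMul : kˣ) : k) = ordv v (c : k) := rfl
      rw [h4, ← h3] at h2
      omega
  · rintro ⟨b, rfl⟩
    rw [eb_delta_apply]
    have h1 : (QuotientAddGroup.mk ⟨hf S T b, hf_Dv b⟩ : Dv T ⧸ (Pr S T).addSubgroupOf (Dv T)) +
        QuotientAddGroup.mk ⟨hf S T b, hf_Dv b⟩ =
        QuotientAddGroup.mk ((⟨hf S T b, hf_Dv b⟩ : Dv T) + ⟨hf S T b, hf_Dv b⟩) := rfl
    rw [h1, QuotientAddGroup.eq_zero_iff, AddSubgroup.mem_addSubgroupOf]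
    have e1 : ∀ v, (((⟨hf S T b, hf_Dv b⟩ : Dv T) + ⟨hf S T b, hf_Dv b⟩ : Dv T) : Dvs k) v =
        hf S T b v + hf S T b v := fun v => rfl
    refine ⟨fun v hv => ?_, b.1.toMul, b.2.1, fun v hv => ?_⟩
    · rw [e1, hf_Dv b v hv]
      rfl
    · rw [e1, ← hf_two b hv]
      ring

end E

alias delta0_ex := delta0_ex_pr

end Pool.Agent.MQR
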