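import Pool.Agent.Lib_helper15.MQR.Defs
import Pool.Agent.Lib_helper15.MQRF.EA
import Pool.Agent.Lib_helper15.MQRF.EB
import Pool.Agent.Lib_helper17.RS.P_XA1
import Pool.Agent.Lib_helper17.RS.P_CN
/-! # MQR, block EC (helper67): the index of the squares in `ES` -/

set_option autoImplicit false
set_option linter.unusedSectionVars false
set_option linter.unusedVariables false

namespace Pool.Agent.MQR

open Pool.Agent.RSK Pool.Agent.RS2 Pool.Agent.RS3 Pool.Agent.SY Pool.Agent.AU Pool.Agent.CR
open Pool.Agent.RG Pool.Agent.QR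
open NumberField IsDedekindDomain

section EcAlg

theorem ec_two_card {A : Type} [AddCommGroup A] [Finite A] :
    Nat.card (nsmulAddMonoidHom (α := A) 2).ker = (nsmulAddMonoidHom (α := A) 2).range.index := by
  have h1 := (nsmulAddMonoidHom (α := A) 2).ker.card_mul_index
  have h2 := (nsmulAddMonoidHom (α := A) 2).range.card_mul_index
  rw [AddSubgroup.index_ker] at h1
  have h3 : 0 < Nat.card (nsmulAddMonoidHom (α := A) 2).range := Nat.card_pos
  rw [← h2, mul_comm] at h1
  exact Nat.eq_of_mul_eq_mul_left h3 h1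

theorem ec_free {M : Type} [AddCommGroup M] {n : ℕ} (b : Module.Basis (Fin n) ℤ M) :
    (nsmulAddMonoidHom (α := M) 2).range.index = 2 ^ n := by
  classical
  let f : M →+ (Fin n → ZMod 2) :=
    { toFun := fun m i => ((b.repr m i : ℤ) : ZMod 2)
      map_zero' := by
        funext i
        simp
      map_add' := fun x y => by
        funext i
        simp }
  have hsurj : Function.Surjective f := by
    intro y
    refine ⟨∑ i, ((y i).val : ℤ) • b i, ?_⟩
    funext i
    show ((b.repr (∑ i, ((y i).val : ℤ) • b i) i : ℤ) : ZMod 2) = y i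
    rw [map_sum, Finsupp.finsetSum_apply, Finset.sum_eq_single i]
    · rw [map_zsmul, Finsupp.smul_apply, b.repr_self, Finsupp.single_eq_same, smul_eq_mul, mul_one]
      simp
    · intro j _ hj
      rw [map_zsmul, Finsupp.smul_apply, b.repr_self, Finsupp.single_eq_of_ne hj.symm, smul_zero]
    · exact fun h => absurd (Finset.mem_univ i) h
  have hker : f.ker = (nsmulAddMonoidHom (α := M) 2).range := by
    ext m
    rw [AddMonoidHom.mem_ker, AddMonoidHom.mem_range]
    constructor
    · intro h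
      have h1 : ∀ i, ∃ c : ℤ, b.repr m i = 2 * c := fun i => by
        have h2 : ((b.repr m i : ℤ) : ZMod 2) = 0 := congrFun h i
        exact (ZMod.intCast_zmod_eq_zero_iff_dvd _ 2).1 h2
      choose c hc using h1
      refine ⟨∑ i, c i • b i, ?_⟩
      show 2 • (∑ i, c i • b i) = m
      rw [← b.sum_repr m, Finset.smul_sum]
      refine Finset.sum_congr rfl fun i _ => ?_
      rw [hc i, mul_smul, ← natCast_zsmul]
      rfl
    · rintro ⟨x, rfl⟩
      funext i
      show ((b.repr (2 • x) i : ℤ) : ZMod 2) = 0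
      rw [map_nsmul, Finsupp.smul_apply, nsmul_eq_mul, Int.cast_mul]
      have : (((2 : ℕ) : ℤ) : ZMod 2) = 0 := by decide
      rw [this, zero_mul]
  rw [← hker, AddSubgroup.index_ker, AddMonoidHom.range_eq_top.2 hsurj]
  rw [Nat.card_congr (AddSubgroup.topEquiv (G := Fin n → ZMod 2)).toEquiv]
  simp

end EcAlg

section E

variable {k : Type} [Field k] [NumberField k] {S T : Finset (HeightOneSpectrum (𝓞 k))}

/-- the homomorphism `Un S T → ES S T` -/
noncomputable def ecφ (S T : Finset (HeightOneSpectrum (𝓞 k))) : Additive (Un S T) →+ ES S T where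
  toFun u := ⟨Additive.ofMul (u.toMul : kˣ), u.toMul.2.2, fun v hv => by
    have h : ordv v ((u.toMul : kˣ) : k) = 0 := (xa1_ordv_iff v (Units.ne_zero _)).2
      (u.toMul.2.1 v hv)
    rw [show (Additive.toMul (Additive.ofMul ((u.toMul : kˣ)))) = (u.toMul : kˣ) from rfl, h]
    exact Even.zero⟩
  map_zero' := rfl
  map_add' _ _ := rfl

theorem ec_sqE_le {S T : Finset (HeightOneSpectrum (𝓞 k))} {b : ES S T} (hb : b ∈ sqE S T) :
    hf S T b ∈ Pr S T := by
  obtain ⟨c, hc, e⟩ := hb
  refine ⟨hf_Dv b, c.toMul, hc, fun v hv => ?_⟩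
  have h1 := hf_two b hv
  have h2 : (b.1.toMul : kˣ) = c.toMul * c.toMul := by
    have e' : b.1 = 2 • c := e
    rw [e', two_nsmul]
    rfl
  rw [h2, ordv_mul] at h1
  omega

theorem es_index_pr (hST : Disjoint S T) (htf : TFree S T) : (sqE S T).index =
    2 ^ (Fintype.card (InfinitePlace k) + S.card - 1) * a2 S T := by
  classical
  obtain ⟨δ, hδ, hδk, hδr⟩ := delta0_ex hST
  obtain ⟨n, ⟨b⟩⟩ := un_exists hST htf
  have hn := (cnf hST htf b).1
  have hcard : Fintype.card (PS S) = Fintype.card (InfinitePlace k) + S.card := by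
    rw [Fintype.card_sum, Fintype.card_coe]
  have hA := hA_ne S T
  have hfin : Finite (Dv T ⧸ (Pr S T).addSubgroupOf (Dv T)) := Nat.finite_of_card_ne_zero hA
  -- the kernel
  have hle : sqE S T ≤ δ.ker := fun x hx => by
    rw [AddMonoidHom.mem_ker, hδk]
    exact ec_sqE_le hx
  have hker : δ.ker = (ecφ S T).range ⊔ sqE S T := by
    apply le_antisymm
    · intro x hx
      rw [AddMonoidHom.mem_ker, hδk] at hx
      obtain ⟨-, z, hz, hxz⟩ := hx
      have hs0 : 2 • Additive.ofMul z ∈ ES S T := ⟨(KT T).pow_mem hz 2, fun v hv => by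
        rw [two_nsmul]
        show Even (ordv v ((z * z : kˣ) : k))
        rw [ordv_mul]
        exact ⟨_, rfl⟩⟩
      obtain ⟨s, hs⟩ : ∃ s : ES S T, s.1 = 2 • Additive.ofMul z := ⟨⟨_, hs0⟩, rfl⟩
      have hsq : s ∈ sqE S T := ⟨Additive.ofMul z, hz, hs⟩
      have hu : x - s ∈ (ecφ S T).range := by
        have hmem : ((x - s).1.toMul : kˣ) ∈ Un S T := by
          refine ⟨fun v hv => ?_, (x - s).2.1⟩
          rw [← xa1_ordv_iff v (Units.ne_zero _)]
          have h1 := hf_two x hv
          rw [hxz v hv] at h1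
          have h2 : ((x - s).1.toMul : kˣ) * (z * z) = x.1.toMul := by
            have h3 : (x - s).1 + 2 • Additive.ofMul z = x.1 := by
              rw [← hs]
              show x.1 - s.1 + s.1 = x.1
              exact sub_add_cancel _ _
            rw [two_nsmul] at h3
            exact congrArg Additive.toMul h3
          rw [← h2, ordv_mul, ordv_mul] at h1
          omega
        exact ⟨Additive.ofMul ⟨_, hmem⟩, rfl⟩
      have : x = (x - s) + s := (sub_add_cancel x s).symm
      rw [this]
      exact AddSubgroup.add_mem_sup hu hsq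
    · refine sup_le ?_ hle
      rintro _ ⟨u, rfl⟩
      rw [AddMonoidHom.mem_ker, hδk]
      refine ⟨hf_Dv _, 1, (KT T).one_mem, fun v hv => ?_⟩
      have h1 := hf_two (ecφ S T u) hv
      have h2 : ordv v ((u.toMul : kˣ) : k) = 0 := (xa1_ordv_iff v (Units.ne_zero _)).2
        (u.toMul.2.1 v hv)
      have h3 : ordv v (((ecφ S T u).1.toMul : kˣ) : k) = 0 := h2
      rw [h3] at h1
      rw [Units.val_one, ordv_one]
      omega
  have hcomap : (sqE S T).comap (ecφ S T) =
      (nsmulAddMonoidHom (α := Additive (Un S T)) 2).range := by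
    ext u
    rw [AddSubgroup.mem_comap, AddMonoidHom.mem_range]
    constructor
    · rintro ⟨c, hc, e⟩
      have e1 : ((u.toMul : Un S T) : kˣ) = c.toMul * c.toMul := by
        have e' : Additive.ofMul ((u.toMul : Un S T) : kˣ) = 2 • c := e
        rw [two_nsmul] at e'
        exact congrArg Additive.toMul e'
      have hmem : (c.toMul : kˣ) ∈ Un S T := by
        refine ⟨fun v hv => ?_, hc⟩
        rw [← xa1_ordv_iff v (Units.ne_zero _)]
        have h2 : ordv v ((u.toMul : kˣ) : k) = 0 := (xa1_ordv_iff v (Units.ne_zero _)).2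
          (u.toMul.2.1 v hv)
        rw [e1, ordv_mul] at h2
        omega
      refine ⟨Additive.ofMul ⟨_, hmem⟩, ?_⟩
      show 2 • Additive.ofMul (⟨c.toMul, hmem⟩ : Un S T) = u
      rw [two_nsmul]
      apply Additive.toMul.injective
      apply Subtype.ext
      exact e1.symm
    · rintro ⟨y, rfl⟩
      refine ⟨Additive.ofMul ((y.toMul : Un S T) : kˣ), y.toMul.2.2, ?_⟩
      show Additive.ofMul (((2 • y).toMul : Un S T) : kˣ) = 2 • Additive.ofMul ((y.toMul : Un S T) : kˣ)
      rw [two_nsmul, two_nsmul]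
      rfl
  have h1 : (sqE S T).relIndex δ.ker = 2 ^ n := by
    rw [hker, sup_comm, AddSubgroup.relIndex_sup_left, AddMonoidHom.range_eq_map,
      ← AddSubgroup.relIndex_comap, hcomap, AddSubgroup.relIndex_top_right, ec_free b]
  have h2 : δ.ker.index = a2 S T := by
    have hr : δ.range = (nsmulAddMonoidHom (α := Dv T ⧸ (Pr S T).addSubgroupOf (Dv T)) 2).ker := by
      ext x
      rw [AddMonoidHom.mem_range, AddMonoidHom.mem_ker, ← hδr]
      show x + x = 0 ↔ 2 • x = 0
      rw [two_nsmul]
    rw [AddSubgroup.index_ker, hr, ec_two_card]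
    unfold a2 AddSubgroup.relIndex
    rw [← AddSubgroup.index_comap_of_surjective _ (QuotientAddGroup.mk'_surjective
      ((Pr S T).addSubgroupOf (Dv T)))]
    congr 1
    ext D
    rw [AddSubgroup.mem_comap, AddMonoidHom.mem_range, AddSubgroup.mem_addSubgroupOf,
      AddSubgroup.mem_sup]
    constructor
    · rintro ⟨q, hq⟩
      obtain ⟨E, rfl⟩ := QuotientAddGroup.mk_surjective q
      have hq' : (QuotientAddGroup.mk (2 • E) : Dv T ⧸ (Pr S T).addSubgroupOf (Dv T)) =
        QuotientAddGroup.mk D := hq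
      rw [QuotientAddGroup.eq, AddSubgroup.mem_addSubgroupOf] at hq'
      refine ⟨_, hq', _, ⟨E.1, E.2, rfl⟩, ?_⟩
      show ((-(2 • E) + D : Dv T) : Dvs k) + 2 • E.1 = D.1
      rw [AddSubgroup.coe_add, AddSubgroup.coe_neg, AddSubgroup.coe_nsmul]
      abel
    · rintro ⟨P, hP, _, ⟨E, hE, rfl⟩, e⟩
      refine ⟨QuotientAddGroup.mk ⟨E, hE⟩, ?_⟩
      show (QuotientAddGroup.mk (2 • ⟨E, hE⟩ : Dv T) : Dv T ⧸ (Pr S T).addSubgroupOf (Dv T)) =
        QuotientAddGroup.mk D
      rw [QuotientAddGroup.eq, AddSubgroup.mem_addSubgroupOf]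
      have : ((-(2 • ⟨E, hE⟩ : Dv T) + D : Dv T) : Dvs k) = P := by
        rw [AddSubgroup.coe_add, AddSubgroup.coe_neg, AddSubgroup.coe_nsmul, ← e]
        show -(2 • E) + (P + 2 • E) = P
        abel
      rw [this]
      exact hP
  rw [← AddSubgroup.relIndex_mul_index hle, h1, h2]
  congr 2
  omega

end E

alias es_index := es_index_pr

end Pool.Agent.MQR
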