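import Pool.Agent.Lib_helper15.MQR.Defs
import Pool.Agent.Lib_helper35.RS2.K_UR
import Pool.Agent.Lib_helper35.RS2.P_QK

/-!
# Block EE
-/

set_option autoImplicit false
set_option linter.unusedSectionVars false
set_option linter.unusedVariables false

namespace Pool.Agent.MQR

open Pool.Agent.RSK Pool.Agent.RS2 Pool.Agent.RS3 Pool.Agent.SY Pool.Agent.AU Pool.Agent.CR
open Pool.Agent.RG Pool.Agent.QR
open NumberField IsDedekindDomain

section E2

variable {F H : Type} [Field F] [NumberField F] [Field H] [NumberField H] [Algebra F H]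
  [IsGalois F H] {G : Type} [CommGroup G] [Fintype G] {ι : G ≃* (H ≃ₐ[F] H)}
  {S T : Finset (HeightOneSpectrum (𝓞 F))} {r : ℕ} {w : Fin r → Pl H}
  {fr : HeightOneSpectrum (𝓞 F) → G}

/-- `KT` is stable under the Galois group -/
theorem ee_kt_smul (σ : H ≃ₐ[F] H) {x : Hˣ} (hx : x ∈ KT (ovr H T)) :
    σ • x ∈ KT (ovr H T) := by
  have key : ∀ (w : HeightOneSpectrum (𝓞 H)) (y : H), w.valuation H (σ y) =
      (HeightOneSpectrum.equivOfRingEquiv (RingOfIntegers.mapRingEquiv σ.symm.toRingEquiv) w).valuation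
        H y := fun w y => by
    have h := val_equiv σ.symm.toRingEquiv w (σ y)
    have h2 : σ.symm.toRingEquiv (σ y) = y := σ.symm_apply_apply y
    rw [h2] at h
    exact h.symm
  have hs : ((σ • x : Hˣ) : H) = σ (x : H) := rfl
  intro w hw
  have e : ((σ • x : Hˣ) : H) - 1 = σ ((x : H) - 1) := by rw [hs, map_sub, map_one]
  rw [e, key]
  refine hx _ ?_
  rw [mem_ovr, under_equiv]
  rwa [mem_ovr] at hw

theorem rel_uniq_pr (hD : Data ι S T r w fr) {b b' : ES S T} {x : UM ι S T} (h : Rel ι b x)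
    (h' : Rel ι b' x) : b - b' ∈ sqE S T := by
  obtain ⟨z, hz, e⟩ := h
  obtain ⟨z', hz', e'⟩ := h'
  set y : Hˣ := (z - z').toMul with hy
  have hyT : y ∈ KT (ovr H T) := by
    have : y = z.toMul * (z'.toMul)⁻¹ := by
      rw [hy]
      rfl
    rw [this]
    exact (KT _).mul_mem hz ((KT _).inv_mem hz')
  have he : inc F H (b.1 - b'.1) = 2 • (z - z') := by
    rw [map_sub, nsmul_sub, ← e, ← e']
    abel
  have hy2 : y ^ 2 = Units.map (algebraMap F H : F →* H) (b.1 - b'.1).toMul := by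
    have := congrArg Additive.toMul he
    exact this.symm
  have hfix : ∀ σ : H ≃ₐ[F] H, σ • y = y := by
    intro σ
    have h1 : σ • y * y⁻¹ ∈ KT (ovr H T) :=
      (KT _).mul_mem (ee_kt_smul σ hyT) ((KT _).inv_mem hyT)
    have h2 : (σ • y * y⁻¹) ^ 2 = 1 := by
      have h3 : σ • (y ^ 2) = y ^ 2 := by
        rw [hy2]
        ext
        exact σ.commutes _
      rw [mul_pow, ← smul_pow', h3, inv_pow, mul_inv_cancel]
    have h4 := (data_W hD).tf _ h1 2 (by norm_num) h2
    exact mul_inv_eq_one.mp h4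
  obtain ⟨c, hc⟩ := fixed_unit y hfix
  have hcT : c ∈ KT T := (kt_map (H := H) c).1 (by rw [hc]; exact hyT)
  refine ⟨Additive.ofMul c, hcT, ?_⟩
  have h5 : (b.1 - b'.1).toMul = c ^ 2 := by
    apply Units.map_injective (f := (algebraMap F H : F →* H)) (algebraMap F H).injective
    rw [← hy2, map_pow, hc]
  show b.1 - b'.1 = 2 • Additive.ofMul c
  exact h5

theorem rel_two_pr (hD : Data ι S T r w fr) {b : ES S T} {x : UM ι S T} (hb : b ∈ sqE S T)
    (h : Rel ι b x) {θ : Ch G} (hx : x ∈ Uc ι S T θ) : ∃ x' ∈ Uc ι S T θ, x = x' + x' := by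
  obtain ⟨z, hz, e⟩ := h
  obtain ⟨c, hcT, hc⟩ := hb
  have hc' : b.1 = 2 • c := hc
  set y : Hˣ := (z - inc F H c).toMul with hy
  have hyT : y ∈ KT (ovr H T) := by
    have : y = z.toMul * ((inc F H c).toMul)⁻¹ := by
      rw [hy]
      rfl
    rw [this]
    exact (KT _).mul_mem hz ((KT _).inv_mem ((kt_map (H := H) c.toMul).2 hcT))
  have hy2 : x.val = y * y := by
    have h1 : Additive.ofMul x.val = 2 • (z - inc F H c) := by
      rw [nsmul_sub, ← e, hc', map_nsmul]
      abel
    have h2 := congrArg Additive.toMul h1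
    rw [two_nsmul] at h2
    exact h2
  have hyS : y ∈ Un (ovr H S) (ovr H T) := by
    refine ⟨fun W hW => ?_, hyT⟩
    have h1 := x.val_mem.1 W hW
    rw [hy2, Units.val_mul, map_mul, ← pow_two] at h1
    exact (pow_eq_one_iff_of_nonneg zero_le two_ne_zero).1 h1
  have hxy : x = UM.mk y hyS + UM.mk y hyS := by
    apply UM.ext
    rw [UM.val_add, UM.val_mk, hy2]
  refine ⟨UM.mk y hyS, ?_, hxy⟩
  intro g
  have h1 := hx g
  rw [hxy, smul_add, smul_add] at h1
  have htf := um_tf (data_W hD)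
  have h2 : (2 : ℤ) • (MonoidAlgebra.single g (1 : ℤ) • UM.mk (ι := ι) y hyS) =
      (2 : ℤ) • (sg θ g • UM.mk (ι := ι) y hyS) := by
    rw [two_smul, two_smul]
    exact h1
  exact smul_right_injective _ (two_ne_zero) h2

end E2

alias rel_uniq := rel_uniq_pr
alias rel_two := rel_two_pr

end Pool.Agent.MQR
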