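import Pool.Agent.Lib_helper15.MQR.Defs
import Pool.Agent.Lib_helper35.RG.AllN
import Pool.Agent.Lib_helper15.MQRF.KD
import Pool.Agent.Lib_helper17.RS.P_IF
import Pool.Agent.Lib_helper17.RS.P_TW
import Pool.Agent.Lib_helper17.RS.P_UP1
import Pool.Agent.Lib_helper17.RS.P_UP2
import Pool.Agent.Lib_helper17.RS.P_UP3

set_option autoImplicit false
set_option linter.unusedSectionVars false

namespace Pool.Agent.MQR

open Pool.Agent.RSK Pool.Agent.RS2 Pool.Agent.RS3 Pool.Agent.SY Pool.Agent.AU Pool.Agent.CR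
open Pool.Agent.RG Pool.Agent.QR
open NumberField IsDedekindDomain

section E2

variable {F H : Type} [Field F] [NumberField F] [Field H] [NumberField H] [Algebra F H]
  [IsGalois F H] {G : Type} [CommGroup G] [Fintype G] {ι : G ≃* (H ≃ₐ[F] H)}
  {S T : Finset (HeightOneSpectrum (𝓞 F))} {r : ℕ} {w : Fin r → Pl H}
  {fr : HeightOneSpectrum (𝓞 F) → G}

theorem ef_ordv_zero {k : Type} [Field k] [NumberField k] {v : HeightOneSpectrum (𝓞 k)} {x : k}
    (h : v.valuation k x = 1) : ordv v x = 0 := by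
  unfold ordv
  rw [h, WithZero.log_one, neg_zero]

theorem ef_act (θ : Ch G) {x : UM ι S T} (hx : x ∈ Uc ι S T θ) (g : G) :
    ι g • x.val = x.val ^ sg θ g := by
  have h1 := congrArg UM.val (hx g)
  rw [um_single_smul] at h1
  rw [h1]
  unfold sg
  split_ifs
  · rw [one_zsmul, zpow_one]
  · rw [neg_zsmul, one_zsmul, UM.val_neg, zpow_neg, zpow_one]

theorem ef_zero {x : UM ι S T} (hx : x ∈ Uc ι S T 0) :
    ∃ b : ES S T, Rel ι b x := by
  have hfix : ∀ σ : H ≃ₐ[F] H, σ • x.val = x.val := by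
    intro σ
    obtain ⟨g, rfl⟩ := ι.surjective σ
    have h := ef_act 0 hx g
    have h2 : sg (0 : Ch G) g = 1 := by
      unfold sg
      exact if_pos rfl
    rw [h2, zpow_one] at h
    exact h
  obtain ⟨y, hy⟩ := fixed_unit x.val hfix
  have hyU : y ∈ Un S T := by
    rw [← un_map (F := F) (H := H) y, hy]
    exact x.val_mem
  refine ⟨⟨Additive.ofMul y, hyU.2, fun v hv => ?_⟩, Additive.ofMul x.val, x.val_mem.2, ?_⟩
  · have h := ef_ordv_zero (hyU.1 v hv)
    rw [show ((Additive.toMul (Additive.ofMul y) : Fˣ) : F) = (y : F) from rfl, h]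
    exact Even.zero
  · have h : inc F H (Additive.ofMul y) = Additive.ofMul x.val := by
      rw [← hy]; rfl
    show inc F H (Additive.ofMul y) + _ = _
    rw [h, two_nsmul]

/-- the nontrivial part -/
theorem ef_ne (hD : Data ι S T r w fr) {θ : Ch G} (hθ : θ ≠ 0) {x : UM ι S T}
    (hx : x ∈ Uc ι S T θ) : ∃ b : ES S T, Rel ι b x := by
  classical
  have hgal : IsGalois F (Kf ι (kr θ)) := kf_galois ι (kr θ)
  have hcard := kf_card (ι := ι) hθ
  obtain ⟨σ, hσ⟩ : ∃ σ : Kf ι (kr θ) ≃ₐ[F] Kf ι (kr θ), σ ≠ 1 := by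
    by_contra hcon
    push Not at hcon
    have : Subsingleton (Kf ι (kr θ) ≃ₐ[F] Kf ι (kr θ)) :=
      ⟨fun a b => by rw [hcon a, hcon b]⟩
    have h1 := Nat.card_of_subsingleton (1 : Kf ι (kr θ) ≃ₐ[F] Kf ι (kr θ))
    omega
  -- the element `x` of `K`
  have hxK : (x.val : H) ∈ Kf ι (kr θ) := by
    refine kf_mem _ fun g hg => ?_
    have h := ef_act θ hx g
    have h2 : sg θ g = 1 := by
      unfold sg
      rw [if_pos hg]
    rw [h2, zpow_one] at h
    exact congrArg (fun u : Hˣ => (u : H)) h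
  let xK : (Kf ι (kr θ))ˣ := Units.mk0 ⟨(x.val : H), hxK⟩ (by
    intro h
    exact x.val.ne_zero (congrArg Subtype.val h))
  have hxK2 : Units.map (algebraMap (Kf ι (kr θ)) H : Kf ι (kr θ) →* H) xK = x.val := by
    ext
    rfl
  have hUn : xK ∈ Un (ovr (Kf ι (kr θ)) S) (ovr (Kf ι (kr θ)) T) := by
    rw [← un_map (F := Kf ι (kr θ)) (H := H) xK, hxK2, ovr_ovr, ovr_ovr]
    exact x.val_mem
  -- `σ x = x⁻¹`
  have hσx : eac σ (Additive.ofMul xK) = -Additive.ofMul xK := by
    obtain ⟨g, hg⟩ : ∃ g : G, θ (Additive.ofMul g) ≠ 0 := by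
      by_contra hcon
      push Not at hcon
      exact hθ (AddMonoidHom.ext fun g => hcon g.toMul)
    have h := ef_act θ hx g
    have h2 : sg θ g = -1 := by
      unfold sg
      rw [if_neg hg]
    rw [h2, zpow_neg, zpow_one] at h
    have h3 := kf_act σ hσ g (xK : Kf ι (kr θ))
    rw [if_neg hg] at h3
    have h4 : ι g ((xK : Kf ι (kr θ)) : H) = ((x.val⁻¹ : Hˣ) : H) :=
      congrArg (fun u : Hˣ => (u : H)) h
    have h5 : ((σ (xK : Kf ι (kr θ)) : Kf ι (kr θ)) : H) = ((x.val⁻¹ : Hˣ) : H) :=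
      h3.symm.trans h4
    have h6 : Additive.toMul (eac σ (Additive.ofMul xK)) = xK⁻¹ := by
      ext
      show ((σ (xK : Kf ι (kr θ)) : Kf ι (kr θ)) : H) = (((xK⁻¹ : (Kf ι (kr θ))ˣ) : Kf ι (kr θ)) : H)
      rw [h5, Units.val_inv_eq_inv_val, Units.val_inv_eq_inv_val]
      rfl
    exact h6
  have htrc : trc 2 (eac σ) (Additive.ofMul xK) = 0 := by
    rw [trc_apply, Finset.sum_range_succ, Finset.sum_range_one]
    show Additive.ofMul xK + eac σ (Additive.ofMul xK) = 0
    rw [hσx, add_neg_cancel]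
  obtain ⟨y, hyT, hy⟩ := h90_T Nat.prime_two hcard T (fun W hW => kf_unr hD (kr θ) W fun h =>
    Finset.disjoint_left.1 hD.disj h hW) σ hσ (Additive.ofMul xK) hUn.2 htrc
  rw [dlt_apply, sub_eq_iff_eq_add] at hy
  -- `σ ^ 2 = 1`
  have hσ2 : ∀ τ : Kf ι (kr θ) ≃ₐ[F] Kf ι (kr θ), τ = 1 ∨ τ = σ := by
    intro τ
    by_contra hcon
    push Not at hcon
    have : Finite (Kf ι (kr θ) ≃ₐ[F] Kf ι (kr θ)) := Nat.finite_of_card_ne_zero (by omega)
    have := Fintype.ofFinite (Kf ι (kr θ) ≃ₐ[F] Kf ι (kr θ))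
    have h1 : ({1, σ, τ} : Finset (Kf ι (kr θ) ≃ₐ[F] Kf ι (kr θ))).card = 3 := by
      rw [Finset.card_insert_of_notMem, Finset.card_insert_of_notMem, Finset.card_singleton]
      · rw [Finset.mem_singleton]; exact fun h => hcon.2 h.symm
      · rw [Finset.mem_insert, Finset.mem_singleton]
        rintro (h | h)
        · exact hσ h.symm
        · exact hcon.1 h.symm
    have h2 := Finset.card_le_univ ({1, σ, τ} : Finset (Kf ι (kr θ) ≃ₐ[F] Kf ι (kr θ)))
    rw [h1, ← Nat.card_eq_fintype_card, hcard] at h2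
    omega
  have hσσ : σ * σ = 1 := by
    rcases hσ2 (σ * σ) with h | h
    · exact h
    · exact absurd (mul_right_cancel (h.trans (one_mul σ).symm)) hσ
  have hyy : eac σ (eac σ y) = y := by
    have h : Additive.toMul (eac σ (eac σ y)) = Additive.toMul y := by
      ext
      exact congrArg Subtype.val (AlgEquiv.congr_fun hσσ ((Additive.toMul y : (Kf ι (kr θ))ˣ) : Kf ι (kr θ)))
    exact h
  -- the element `b`
  obtain ⟨b, hb⟩ := fixed_unit (F := F) (Additive.toMul (y + eac σ y)) (by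
    intro τ
    rcases hσ2 τ with rfl | rfl
    · exact one_smul _ _
    · have h : eac τ (y + eac τ y) = y + eac τ y := by
        rw [map_add, hyy, add_comm]
      exact h)
  have hbT : b ∈ KT T := by
    rw [← kt_map (F := F) (H := Kf ι (kr θ)) b, hb]
    refine (KT _).mul_mem hyT ?_
    rw [hy]
    exact (KT _).mul_mem hUn.2 hyT
  have hbe : ∀ v : HeightOneSpectrum (𝓞 F), v ∉ S → Even (ordv v (b : F)) := by
    intro v hv
    obtain ⟨W, hW⟩ := up1_surj (F := F) (H := Kf ι (kr θ)) v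
    have hWS : W.under (𝓞 F) ∉ S := by rw [hW]; exact hv
    have h1 := ordv_unr (kf_unr hD (kr θ) W hWS) (b : F)
    have h2 : algebraMap F (Kf ι (kr θ)) (b : F) =
        ((Additive.toMul y * (xK * Additive.toMul y) : (Kf ι (kr θ))ˣ) : Kf ι (kr θ)) := by
      have h3 := congrArg (fun u : (Kf ι (kr θ))ˣ => (u : Kf ι (kr θ))) hb
      have h4 : Additive.toMul (y + eac σ y) = Additive.toMul y * (xK * Additive.toMul y) := by
        rw [hy]; rfl
      rw [h4] at h3
      exact h3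
    have h5 : ordv W (xK : Kf ι (kr θ)) = 0 :=
      ef_ordv_zero (hUn.1 W (by rw [mem_ovr]; exact hWS))
    rw [h2, ordv_mul, ordv_mul, h5, zero_add, hW] at h1
    rw [← h1]
    exact ⟨_, rfl⟩
  refine ⟨⟨Additive.ofMul b, hbT, hbe⟩, inc (Kf ι (kr θ)) H (eac σ y), ?_, ?_⟩
  · have h := (kt_map (F := Kf ι (kr θ)) (H := H) (T := ovr (Kf ι (kr θ)) T)
      (Additive.toMul (eac σ y))).2 (by rw [hy]; exact (KT _).mul_mem hUn.2 hyT)
    rw [ovr_ovr] at h
    exact h
  · show inc F H (Additive.ofMul b) + Additive.ofMul x.val = 2 • inc (Kf ι (kr θ)) H (eac σ y)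
    have e1 : inc F H (Additive.ofMul b) = inc (Kf ι (kr θ)) H (y + eac σ y) := by
      have h : Additive.toMul (inc F H (Additive.ofMul b)) =
          Additive.toMul (inc (Kf ι (kr θ)) H (Additive.ofMul (Units.map (algebraMap F (Kf ι (kr θ)) : F →* Kf ι (kr θ)) b))) := by
        ext
        exact IsScalarTower.algebraMap_apply F (Kf ι (kr θ)) H (b : F)
      rw [hb] at h
      exact h
    have e2 : Additive.ofMul x.val = inc (Kf ι (kr θ)) H (Additive.ofMul xK) := by
      rw [← hxK2]; rfl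
    rw [e1, e2, ← map_add, ← map_nsmul]
    congr 1
    rw [two_nsmul]
    nth_rewrite 3 [hy]
    rw [hy]
    abel

/-- Block EF -/
theorem rel_ex_pr (hD : Data ι S T r w fr) {θ : Ch G} {x : UM ι S T} (hx : x ∈ Uc ι S T θ) :
    ∃ b : ES S T, Rel ι b x := by
  by_cases hθ : θ = 0
  · subst hθ
    exact ef_zero hx
  · exact ef_ne hD hθ hx

end E2

alias rel_ex := rel_ex_pr

end Pool.Agent.MQR
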