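import Pool.Agent.Lib_helper15.MQR.Defs
import Pool.Agent.Lib_helper15.MQRF.EE
import Pool.Agent.Lib_helper15.MQRF.EF
import Pool.Agent.Lib_helper17.RS.P_UP1

/-!
# MQR, block EG: `U1 / sqE ≅ Uc / 2 Uc`
-/

set_option autoImplicit false
set_option linter.unusedSectionVars false
set_option linter.unusedVariables false

namespace Pool.Agent.MQR

open Pool.Agent.RSK Pool.Agent.RS2 Pool.Agent.RS3 Pool.Agent.SY Pool.Agent.AU Pool.Agent.CR
open Pool.Agent.RG Pool.Agent.QR
open NumberField IsDedekindDomain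

/-! ### algebra -/

section alg

theorem eg_mem {C : Type} [AddCommGroup C] {r : ℕ} (B : Fin r → C) {x : C}
    (hx : x ∈ AddSubgroup.closure (Set.range B)) : ∃ c : Fin r → ℤ, x = ∑ i, c i • B i := by
  classical
  induction hx using AddSubgroup.closure_induction with
  | mem x hx =>
    obtain ⟨i, rfl⟩ := hx
    refine ⟨Pi.single i 1, ?_⟩
    rw [Finset.sum_eq_single i]
    · simp
    · intro j _ hj
      simp [hj]
    · intro h
      exact absurd (Finset.mem_univ i) h
  | zero => exact ⟨0, by simp⟩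
  | add x y _ _ hx hy =>
    obtain ⟨c, rfl⟩ := hx
    obtain ⟨d, rfl⟩ := hy
    refine ⟨c + d, ?_⟩
    rw [← Finset.sum_add_distrib]
    exact Finset.sum_congr rfl fun i _ => by rw [Pi.add_apply, add_smul]
  | neg x _ hx =>
    obtain ⟨c, rfl⟩ := hx
    refine ⟨-c, ?_⟩
    rw [← Finset.sum_neg_distrib]
    exact Finset.sum_congr rfl fun i _ => by rw [Pi.neg_apply, neg_smul]

theorem eg_index {E C : Type} [AddCommGroup E] [AddCommGroup C] (Q U : AddSubgroup E)
    (D : AddSubgroup C) (R : E → C → Prop)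
    (hadd : ∀ b b' x x', R b x → R b' x' → R (b + b') (x + x'))
    (hneg : ∀ b x, R b x → R (-b) (-x))
    (huniq : ∀ b b' x, R b x → R b' x → b - b' ∈ Q)
    (htwo : ∀ b ∈ Q, ∀ x ∈ D, R b x → ∃ x' ∈ D, x = x' + x')
    (hdbl : ∀ x, R 0 (x + x)) (hex : ∀ x ∈ D, ∃ b, R b x)
    (hU : ∀ b, b ∈ U ↔ ∃ x ∈ D, R b x) {r : ℕ} (B : Fin r → C) (hind : LinearIndependent ℤ B)
    (hspan : AddSubgroup.closure (Set.range B) = D) : Q.relIndex U = 2 ^ r := by
  classical
  have hB : ∀ i, B i ∈ D := fun i => by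
    rw [← hspan]
    exact AddSubgroup.subset_closure ⟨i, rfl⟩
  have hsum : ∀ c : Fin r → ℤ, ∑ i, c i • B i ∈ D := fun c =>
    AddSubgroup.sum_mem D fun i _ => AddSubgroup.zsmul_mem D (hB i) _
  have hinj : ∀ c : Fin r → ℤ, ∑ i, c i • B i = 0 → c = 0 := by
    intro c hc
    funext i
    exact Fintype.linearIndependent_iff.1 hind c hc i
  set X : (Fin r → ZMod 2) → C := fun v => ∑ i, ((v i).val : ℤ) • B i with hX
  have hXD : ∀ v, X v ∈ D := fun v => hsum _
  choose b hb using fun v => hex (X v) (hXD v)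
  have hbU : ∀ v, b v ∈ U := fun v => (hU _).2 ⟨X v, hXD v, hb v⟩
  set e : (Fin r → ZMod 2) → U ⧸ Q.addSubgroupOf U := fun v =>
    QuotientAddGroup.mk ⟨b v, hbU v⟩ with he
  have hbij : Function.Bijective e := by
    constructor
    · intro v v' h
      rw [he] at h
      have h1 := QuotientAddGroup.eq.1 h
      rw [AddSubgroup.mem_addSubgroupOf] at h1
      have h2 : -b v + b v' ∈ Q := h1
      obtain ⟨x', hx', h3⟩ := htwo _ h2 (-X v + X v')
        (D.add_mem (D.neg_mem (hXD v)) (hXD v')) (hadd _ _ _ _ (hneg _ _ (hb v)) (hb v'))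
      rw [← hspan] at hx'
      obtain ⟨c, rfl⟩ := eg_mem B hx'
      have h4 : ∑ i, (-((v i).val : ℤ) + ((v' i).val : ℤ) - 2 * c i) • B i = 0 := by
        have h5 : ∑ i, (-((v i).val : ℤ) + ((v' i).val : ℤ) - 2 * c i) • B i =
            (-X v + X v') - (∑ i, c i • B i + ∑ i, c i • B i) := by
          rw [hX]
          simp only
          rw [← Finset.sum_neg_distrib, ← Finset.sum_add_distrib, ← Finset.sum_add_distrib,
            ← Finset.sum_sub_distrib]
          refine Finset.sum_congr rfl fun i _ => ?_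
          rw [sub_smul, add_smul, neg_smul, mul_smul, two_smul]
        rw [h5, h3, sub_self]
      have h6 := hinj _ h4
      funext i
      have h7 := congrFun h6 i
      simp only [Pi.zero_apply] at h7
      have h8 := congrArg (fun z : ℤ => (z : ZMod 2)) h7
      push_cast at h8
      rw [ZMod.natCast_zmod_val, ZMod.natCast_zmod_val] at h8
      have h9 : (2 : ZMod 2) = 0 := rfl
      rw [h9, zero_mul, sub_zero] at h8
      exact (neg_add_eq_zero.1 h8)
    · intro q
      obtain ⟨⟨b0, hb0⟩, rfl⟩ := QuotientAddGroup.mk_surjective q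
      obtain ⟨x, hx, hR⟩ := (hU b0).1 hb0
      rw [← hspan] at hx
      obtain ⟨c, rfl⟩ := eg_mem B hx
      have hd : ∀ i, ∃ d : ℤ, c i = (((c i : ZMod 2)).val : ℤ) + 2 * d := by
        intro i
        have h1 : ((c i - (((c i : ZMod 2)).val : ℤ) : ℤ) : ZMod 2) = 0 := by
          push_cast
          rw [ZMod.natCast_zmod_val, sub_self]
        rw [ZMod.intCast_zmod_eq_zero_iff_dvd] at h1
        obtain ⟨d, hd⟩ := h1
        exact ⟨d, by push_cast at hd; linarith⟩
      choose d hd using hd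
      refine ⟨fun i => (c i : ZMod 2), ?_⟩
      rw [he]
      rw [QuotientAddGroup.eq, AddSubgroup.mem_addSubgroupOf]
      show -b (fun i => (c i : ZMod 2)) + b0 ∈ Q
      have h2 : ∑ i, c i • B i = X (fun i => (c i : ZMod 2)) +
          (∑ i, d i • B i + ∑ i, d i • B i) := by
        rw [hX]
        simp only
        rw [← Finset.sum_add_distrib, ← Finset.sum_add_distrib]
        refine Finset.sum_congr rfl fun i _ => ?_
        conv_lhs => rw [hd i]
        rw [add_smul, mul_smul, two_smul]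
      have h3 := hadd _ _ _ _ (hb (fun i => (c i : ZMod 2))) (hdbl (∑ i, d i • B i))
      rw [add_zero, ← h2] at h3
      have h4 := huniq _ _ _ hR h3
      rwa [sub_eq_neg_add] at h4
  have h1 : Q.relIndex U = Nat.card (U ⧸ Q.addSubgroupOf U) := rfl
  rw [h1, ← Nat.card_congr (Equiv.ofBijective e hbij), Nat.card_fun, Nat.card_zmod,
    Nat.card_eq_fintype_card, Fintype.card_fin]

end alg

section E2

variable {F H : Type} [Field F] [NumberField F] [Field H] [NumberField H] [Algebra F H]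
  [IsGalois F H] {G : Type} [CommGroup G] [Fintype G] {ι : G ≃* (H ≃ₐ[F] H)}
  {S T : Finset (HeightOneSpectrum (𝓞 F))} {r : ℕ} {w : Fin r → Pl H}
  {fr : HeightOneSpectrum (𝓞 F) → G}

theorem eg_sq (b : ES S T) (hb : b ∈ sqE S T) : Rel ι b (0 : UM ι S T) := by
  obtain ⟨c, hc, h⟩ := (AddSubgroup.mem_addSubgroupOf.1 hb)
  refine ⟨inc F H c, (kt_map (H := H) c.toMul).2 hc, ?_⟩
  rw [UM.val_zero, ofMul_one, add_zero, ← map_nsmul]
  congr 1

theorem eg_dbl (x : UM ι S T) : Rel ι (0 : ES S T) (x + x) := by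
  refine ⟨Additive.ofMul x.val, x.val_mem.2, ?_⟩
  rw [show ((0 : ES S T) : Additive Fˣ) = 0 from rfl, map_zero, zero_add, UM.val_add, ofMul_mul,
    two_nsmul]

theorem eg_le (θ : Ch G) : sqE S T ≤ U1 ι S T θ := fun b hb =>
  ⟨0, (Uc ι S T θ).zero_mem, eg_sq b hb⟩

theorem u1_index_pr (hD : Data ι S T r w fr) {θ : Ch G} {B : Fin r → UM ι S T}
    (hB : IsBs ι S T θ B) :
    sqE S T ≤ U1 ι S T θ ∧ (sqE S T).relIndex (U1 ι S T θ) = 2 ^ r := by
  refine ⟨eg_le θ, ?_⟩
  exact eg_index (sqE S T) (U1 ι S T θ) (Uc ι S T θ) (fun b x => Rel ι b x)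
    (fun b b' x x' h h' => h.add h') (fun b x h => h.neg)
    (fun b b' x h h' => rel_uniq hD h h') (fun b hb x hx h => rel_two hD hb h hx)
    (fun x => eg_dbl x) (fun x hx => rel_ex hD hx) (fun b => Iff.rfl) B hB.indep hB.span

theorem u1_span_pr (hD : Data ι S T r w fr) {θ : Ch G} {B : Fin r → UM ι S T}
    (hB : IsBs ι S T θ B) {u : Fin r → ES S T} (hu : ∀ i, Rel ι (u i) (B i)) :
    AddSubgroup.closure (Set.range u) ⊔ sqE S T = U1 ι S T θ := by
  apply le_antisymm
  · refine sup_le ?_ (eg_le θ)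
    rw [AddSubgroup.closure_le]
    rintro _ ⟨i, rfl⟩
    refine ⟨B i, ?_, hu i⟩
    rw [← hB.span]
    exact AddSubgroup.subset_closure ⟨i, rfl⟩
  · rintro b ⟨x, hx, h⟩
    rw [← hB.span] at hx
    have key : ∀ x ∈ AddSubgroup.closure (Set.range B),
        ∃ b' ∈ AddSubgroup.closure (Set.range u), Rel ι b' x := by
      intro x hx
      induction hx using AddSubgroup.closure_induction with
      | mem x hx =>
        obtain ⟨i, rfl⟩ := hx
        exact ⟨u i, AddSubgroup.subset_closure ⟨i, rfl⟩, hu i⟩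
      | zero => exact ⟨0, AddSubgroup.zero_mem _, Rel.zero⟩
      | add x y _ _ hx hy =>
        obtain ⟨a, ha, h1⟩ := hx
        obtain ⟨a', ha', h2⟩ := hy
        exact ⟨a + a', AddSubgroup.add_mem _ ha ha', h1.add h2⟩
      | neg x _ hx =>
        obtain ⟨a, ha, h1⟩ := hx
        exact ⟨-a, AddSubgroup.neg_mem _ ha, h1.neg⟩
    obtain ⟨b', hb', h'⟩ := key x hx
    have h1 := rel_uniq hD h h'
    have h2 : b = b' + (b - b') := by abel
    rw [h2]
    exact AddSubgroup.add_mem_sup hb' h1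

end E2

alias u1_index := u1_index_pr
alias u1_span := u1_span_pr

end Pool.Agent.MQR
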