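import Pool.Agent.Lib_helper15.MQR.Defs
import Pool.Agent.Lib_helper15.MQRF.KD
import Pool.Agent.Lib_helper17.RS.P_UP1
import Pool.Agent.Lib_helper17.RS.P_UP2
import Pool.Agent.Lib_helper17.RS.P_UP3
import Pool.Agent.Lib_helper17.RS.P_TW
import Pool.Agent.Lib_helper17.RS.P_TF
import Pool.Agent.Lib_helper17.RS.P_XD

/-!
# MQR, block EH: `U1` and divisors
-/

set_option autoImplicit false
set_option linter.unusedSectionVars false
set_option linter.unusedVariables false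

namespace Pool.Agent.MQR

open Pool.Agent.RSK Pool.Agent.RS2 Pool.Agent.RS3 Pool.Agent.SY Pool.Agent.AU Pool.Agent.CR
open Pool.Agent.RG Pool.Agent.QR
open NumberField IsDedekindDomain

section EH0

variable {F H : Type} [Field F] [NumberField F] [Field H] [NumberField H] [Algebra F H]

theorem eh_kt_smul {T : Finset (HeightOneSpectrum (𝓞 F))} (σ : H ≃ₐ[F] H) {x : Hˣ}
    (hx : x ∈ KT (ovr H T)) : Units.map (σ : H →* H) x ∈ KT (ovr H T) := by
  intro w hw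
  have key : w.valuation H (σ ((x : H) - 1)) =
      (HeightOneSpectrum.equivOfRingEquiv
        (RingOfIntegers.mapRingEquiv σ.symm.toRingEquiv) w).valuation H ((x : H) - 1) := by
    have h := val_equiv σ.symm.toRingEquiv w (σ ((x : H) - 1))
    have h2 : σ.symm.toRingEquiv (σ ((x : H) - 1)) = (x : H) - 1 := σ.symm_apply_apply _
    rw [h2] at h
    exact h.symm
  have e : ((Units.map (σ : H →* H) x : Hˣ) : H) - 1 = σ ((x : H) - 1) := by
    rw [map_sub, map_one]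
    rfl
  rw [e, key]
  refine hx _ ?_
  rw [mem_ovr, under_equiv]
  rwa [mem_ovr] at hw

end EH0

section EH

variable {F H : Type} [Field F] [NumberField F] [Field H] [NumberField H] [Algebra F H]
  [IsGalois F H] {G : Type} [CommGroup G] [Fintype G] {ι : G ≃* (H ≃ₐ[F] H)}
  {S T : Finset (HeightOneSpectrum (𝓞 F))} {r : ℕ} {w : Fin r → Pl H}
  {fr : HeightOneSpectrum (𝓞 F) → G}

theorem eh_tf (hD : Data ι S T r w fr) {x : Hˣ} (hx : x ∈ KT (ovr H T)) (hxn : x ^ 2 = 1) :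
    x = 1 := by
  refine un_torsion hD (x := x) ⟨fun v _ => ?_, hx⟩ (n := 2) (by norm_num) hxn
  have h1 : (v.valuation H (x : H)) ^ 2 = 1 := by
    rw [← map_pow, ← Units.val_pow_eq_pow_val, hxn, Units.val_one, map_one]
  exact (pow_eq_one_iff_of_nonneg zero_le (by norm_num)).1 h1

/-- two elements `≡ 1 mod T` with the same square are equal -/
theorem eh_sq (hD : Data ι S T r w fr) {x y : Hˣ} (hx : x ∈ KT (ovr H T))
    (hy : y ∈ KT (ovr H T)) (h : x ^ 2 = y ^ 2) : x = y := by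
  have h1 : (x * y⁻¹) ^ 2 = 1 := by
    rw [mul_pow, h, inv_pow, mul_inv_cancel]
  have h2 := eh_tf hD ((KT _).mul_mem hx ((KT _).inv_mem hy)) h1
  exact mul_inv_eq_one.1 h2

theorem eh_smul_val (g : G) (u : Hˣ) : ((ι g • u : Hˣ) : H) = ι g (u : H) := rfl

theorem eh_unit (hD : Data ι S T r w fr) {θ : Ch G} (g : G) (hg : θ (Additive.ofMul g) = 0)
    {x : UM ι S T} (hx : x ∈ Uc ι S T θ) : ι g • x.val = x.val := by
  have h1 := congrArg UM.val (hx g)
  rw [um_single_smul] at h1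
  have h2 : sg θ g = 1 := by
    unfold sg
    rw [if_pos hg]
  rw [h2, one_smul] at h1
  exact h1

theorem eh_unit' (hD : Data ι S T r w fr) {θ : Ch G} (g : G) (hg : θ (Additive.ofMul g) ≠ 0)
    {x : UM ι S T} (hx : x ∈ Uc ι S T θ) : ι g • x.val = x.val⁻¹ := by
  have h1 := congrArg UM.val (hx g)
  rw [um_single_smul] at h1
  have h2 : sg θ g = -1 := by
    unfold sg
    rw [if_neg hg]
  rw [h2, neg_smul, one_smul, UM.val_neg] at h1
  exact h1

theorem eh_inc_smul (g : G) (b : Fˣ) :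
    ι g • (Units.map (algebraMap F H : F →* H) b) = Units.map (algebraMap F H : F →* H) b := by
  ext
  rw [eh_smul_val]
  exact (ι g).commutes (b : F)

theorem eh_ord0 {k : Type} [Field k] [NumberField k] (v : HeightOneSpectrum (𝓞 k)) (x : kˣ) :
    ordv v (x : k) = 0 ↔ v.valuation k (x : k) = 1 := xd_ordv_zero v x.ne_zero

/-- the forward direction -/
theorem eh_fwd (hD : Data ι S T r w fr) {θ : Ch G} (hθ : θ ≠ 0)
    (σ : Kf ι (kr θ) ≃ₐ[F] Kf ι (kr θ)) (hσ : σ ≠ 1) (b : ES S T) (hb : b ∈ U1 ι S T θ) :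
    ∃ y : Additive (Kf ι (kr θ))ˣ, y.toMul ∈ KT (ovr (Kf ι (kr θ)) T) ∧ DD S σ b.1 y 0 := by
  obtain ⟨x, hx, z, hz, hrel⟩ := hb
  set Z : Hˣ := Additive.toMul z with hZ
  set B : Hˣ := Units.map (algebraMap F H : F →* H) (Additive.toMul b.1) with hB
  have hrel' : B * x.val = Z ^ 2 := by
    have h := congrArg Additive.toMul hrel
    exact h
  have hBT : B ∈ KT (ovr H T) := (kt_map _).2 b.2.1
  have hZg : ∀ g : G, ι g • Z ∈ KT (ovr H T) := fun g => eh_kt_smul (ι g) hz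
  -- `g z = z` for `g ∈ kr θ`
  have hfix : ∀ g : G, θ (Additive.ofMul g) = 0 → ι g • Z = Z := by
    intro g hg
    refine eh_sq hD (hZg g) hz ?_
    rw [← smul_pow', ← hrel', smul_mul', eh_unit hD g hg hx, hB, eh_inc_smul]
  have hmem : (Z : H) ∈ Kf ι (kr θ) := kf_mem (Z : H) (fun g hg => by
    have h := congrArg (fun u : Hˣ => (u : H)) (hfix g hg)
    exact h)
  have hne : (⟨(Z : H), hmem⟩ : Kf ι (kr θ)) ≠ 0 := by
    intro h
    exact Z.ne_zero (congrArg Subtype.val h)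
  set y : (Kf ι (kr θ))ˣ := Units.mk0 ⟨(Z : H), hmem⟩ hne with hy
  have hyZ : Units.map (algebraMap (Kf ι (kr θ)) H : Kf ι (kr θ) →* H) y = Z := by
    ext
    rfl
  obtain ⟨g₁, hg₁⟩ : ∃ g : G, θ (Additive.ofMul g) ≠ 0 := by
    by_contra hcon
    push Not at hcon
    refine hθ ?_
    ext a
    exact hcon (Additive.toMul a)
  -- `z (g₁ z) = b`
  have hprod : Z * (ι g₁ • Z) = B := by
    refine eh_sq hD ((KT _).mul_mem hz (hZg g₁)) hBT ?_
    rw [mul_pow, ← smul_pow', ← hrel', smul_mul', eh_unit' hD g₁ hg₁ hx, hB, eh_inc_smul, ← hB]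
    rw [pow_two]
    have : B * x.val * (B * x.val⁻¹) = B * B * (x.val * x.val⁻¹) := by
      rw [mul_mul_mul_comm]
    rw [this, mul_inv_cancel, mul_one]
  have hσy : ι g₁ • Z = Units.map (algebraMap (Kf ι (kr θ)) H : Kf ι (kr θ) →* H)
      (Units.map (σ : Kf ι (kr θ) →* Kf ι (kr θ)) y) := by
    ext
    have h := kf_act (ι := ι) σ hσ g₁ (y : Kf ι (kr θ))
    rw [if_neg hg₁] at h
    exact h
  have hinj : Function.Injective (Units.map (algebraMap (Kf ι (kr θ)) H : Kf ι (kr θ) →* H)) :=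
    Units.map_injective (FaithfulSMul.algebraMap_injective (Kf ι (kr θ)) H)
  have hBK : Units.map (algebraMap (Kf ι (kr θ)) H : Kf ι (kr θ) →* H)
      (Units.map (algebraMap F (Kf ι (kr θ)) : F →* Kf ι (kr θ)) (Additive.toMul b.1)) = B := by
    ext
    exact (IsScalarTower.algebraMap_apply F (Kf ι (kr θ)) H _).symm
  have hnorm : y * Units.map (σ : Kf ι (kr θ) →* Kf ι (kr θ)) y =
      Units.map (algebraMap F (Kf ι (kr θ)) : F →* Kf ι (kr θ)) (Additive.toMul b.1) := by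
    apply hinj
    rw [map_mul, hyZ, ← hσy, hprod, hBK]
  have hyT : y ∈ KT (ovr (Kf ι (kr θ)) T) := by
    have h := kt_map (F := Kf ι (kr θ)) (H := H) (T := ovr (Kf ι (kr θ)) T) y
    rw [ovr_ovr] at h
    exact h.1 (by rw [hyZ]; exact hz)
  have hxK : Units.map (algebraMap (Kf ι (kr θ)) H : Kf ι (kr θ) →* H)
      (y * (Units.map (σ : Kf ι (kr θ) →* Kf ι (kr θ)) y)⁻¹) = x.val := by
    rw [map_mul, map_inv, hyZ, ← hσy, ← mul_right_inj B, hrel', ← hprod, pow_two]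
    rw [mul_mul_mul_comm, mul_inv_cancel, mul_one]
  have hxU : y * (Units.map (σ : Kf ι (kr θ) →* Kf ι (kr θ)) y)⁻¹ ∈
      Un (ovr (Kf ι (kr θ)) S) (ovr (Kf ι (kr θ)) T) := by
    have h := un_map (F := Kf ι (kr θ)) (H := H) (S := ovr (Kf ι (kr θ)) S)
      (T := ovr (Kf ι (kr θ)) T) (y * (Units.map (σ : Kf ι (kr θ) →* Kf ι (kr θ)) y)⁻¹)
    rw [ovr_ovr, ovr_ovr] at h
    exact h.1 (by rw [hxK]; exact x.val_mem)
  refine ⟨Additive.ofMul y, hyT, ⟨?_, ?_⟩⟩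
  · apply Additive.toMul.injective
    exact hnorm
  · intro W hW
    have h1 : ordv W ((y * Units.map (σ : Kf ι (kr θ) →* Kf ι (kr θ)) y : (Kf ι (kr θ))ˣ) :
        Kf ι (kr θ)) = ordv (W.under (𝓞 F)) ((Additive.toMul b.1 : Fˣ) : F) := by
      rw [hnorm]
      exact ordv_unr (kf_unr hD (kr θ) W hW) _
    have h2 : ordv W ((y * (Units.map (σ : Kf ι (kr θ) →* Kf ι (kr θ)) y)⁻¹ :
        (Kf ι (kr θ))ˣ) : Kf ι (kr θ)) = 0 := by
      rw [eh_ord0]
      exact hxU.1 W (by rw [mem_ovr]; exact hW)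
    rw [ordv_mul] at h1 h2
    rw [ordv_inv] at h2
    have h3 : (0 : Dvs (Kf ι (kr θ))) (pac σ W) = 0 := rfl
    have h4 : (0 : Dvs (Kf ι (kr θ))) W = 0 := rfl
    rw [h3, h4]
    show 2 * ordv W (y : Kf ι (kr θ)) = _
    linarith

/-- the other direction -/
theorem eh_bwd (hD : Data ι S T r w fr) {θ : Ch G} (hθ : θ ≠ 0)
    (σ : Kf ι (kr θ) ≃ₐ[F] Kf ι (kr θ)) (hσ : σ ≠ 1) (b : ES S T)
    (y : Additive (Kf ι (kr θ))ˣ) (hyT : y.toMul ∈ KT (ovr (Kf ι (kr θ)) T))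
    (hDD : DD S σ b.1 y 0) : b ∈ U1 ι S T θ := by
  set Y : (Kf ι (kr θ))ˣ := Additive.toMul y with hY
  set Y' : (Kf ι (kr θ))ˣ := Units.map (σ : Kf ι (kr θ) →* Kf ι (kr θ)) Y with hY'
  have hnorm : Y * Y' =
      Units.map (algebraMap F (Kf ι (kr θ)) : F →* Kf ι (kr θ)) (Additive.toMul b.1) := by
    have h := congrArg Additive.toMul hDD.norm
    exact h
  have hσ2 : Units.map (σ : Kf ι (kr θ) →* Kf ι (kr θ)) Y' = Y := by
    have hc := kf_card (ι := ι) hθ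
    obtain ⟨s, _, hs⟩ := (Nat.card_eq_two_iff' (1 : Kf ι (kr θ) ≃ₐ[F] Kf ι (kr θ))).1 hc
    have h1 : σ * σ = 1 := by
      by_contra hcon
      have h2 := (hs _ hcon).trans (hs σ hσ).symm
      exact hσ (mul_eq_right.1 h2)
    ext
    have h := congrArg (fun τ : Kf ι (kr θ) ≃ₐ[F] Kf ι (kr θ) => τ (Y : Kf ι (kr θ))) h1
    exact congrArg Subtype.val h
  have hY'T : Y' ∈ KT (ovr (Kf ι (kr θ)) T) := eh_kt_smul σ hyT
  have hxU : Y * Y'⁻¹ ∈ Un (ovr (Kf ι (kr θ)) S) (ovr (Kf ι (kr θ)) T) := by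
    refine ⟨fun W hW => ?_, (KT _).mul_mem hyT ((KT _).inv_mem hY'T)⟩
    rw [mem_ovr] at hW
    have h1 : ordv W ((Y * Y' : (Kf ι (kr θ))ˣ) : Kf ι (kr θ)) =
        ordv (W.under (𝓞 F)) ((Additive.toMul b.1 : Fˣ) : F) := by
      rw [hnorm]
      exact ordv_unr (kf_unr hD (kr θ) W hW) _
    have h2 := hDD.div W hW
    have h3 : (0 : Dvs (Kf ι (kr θ))) (pac σ W) = 0 := rfl
    have h4 : (0 : Dvs (Kf ι (kr θ))) W = 0 := rfl
    rw [h3, h4] at h2
    rw [ordv_mul] at h1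
    rw [← eh_ord0, ordv_mul, ordv_inv]
    linarith
  have hX := un_map (F := Kf ι (kr θ)) (H := H) (S := ovr (Kf ι (kr θ)) S)
    (T := ovr (Kf ι (kr θ)) T) (Y * Y'⁻¹)
  rw [ovr_ovr, ovr_ovr] at hX
  have hXm := hX.2 hxU
  have hZm := kt_map (F := Kf ι (kr θ)) (H := H) (T := ovr (Kf ι (kr θ)) T) Y
  rw [ovr_ovr] at hZm
  refine ⟨UM.mk _ hXm, ?_, Additive.ofMul (Units.map (algebraMap (Kf ι (kr θ)) H :
    Kf ι (kr θ) →* H) Y), hZm.2 hyT, ?_⟩
  · intro g
    apply UM.ext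
    rw [um_single_smul, UM.val_mk]
    have key : ∀ u : (Kf ι (kr θ))ˣ,
        ι g • (Units.map (algebraMap (Kf ι (kr θ)) H : Kf ι (kr θ) →* H) u) =
          if θ (Additive.ofMul g) = 0 then
            Units.map (algebraMap (Kf ι (kr θ)) H : Kf ι (kr θ) →* H) u
          else Units.map (algebraMap (Kf ι (kr θ)) H : Kf ι (kr θ) →* H)
            (Units.map (σ : Kf ι (kr θ) →* Kf ι (kr θ)) u) := by
      intro u
      ext
      have h := kf_act (ι := ι) σ hσ g (u : Kf ι (kr θ))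
      by_cases hg : θ (Additive.ofMul g) = 0
      · rw [if_pos hg] at h ⊢
        exact h
      · rw [if_neg hg] at h ⊢
        exact h
    have e0 : ι g • (Units.map (algebraMap (Kf ι (kr θ)) H : Kf ι (kr θ) →* H) (Y * Y'⁻¹)) =
        (ι g • (Units.map (algebraMap (Kf ι (kr θ)) H : Kf ι (kr θ) →* H) Y)) *
          (ι g • (Units.map (algebraMap (Kf ι (kr θ)) H : Kf ι (kr θ) →* H) Y'))⁻¹ := by
      rw [map_mul, map_inv, smul_mul', smul_inv']
    rw [e0, key, key]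
    by_cases hg : θ (Additive.ofMul g) = 0
    · have h2 : sg θ g = 1 := by
        unfold sg
        rw [if_pos hg]
      rw [h2, one_smul, if_pos hg, if_pos hg, UM.val_mk]
      rw [map_mul, map_inv]
    · have h2 : sg θ g = -1 := by
        unfold sg
        rw [if_neg hg]
      rw [h2, neg_smul, one_smul, if_neg hg, if_neg hg, UM.val_neg, UM.val_mk, hσ2]
      rw [map_mul, map_inv, mul_inv_rev, inv_inv]
  · apply Additive.toMul.injective
    ext
    have e1 : algebraMap F H ((Additive.toMul b.1 : Fˣ) : F) =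
        ((Y : Kf ι (kr θ)) : H) * ((Y' : Kf ι (kr θ)) : H) := by
      have h := congrArg (fun u : (Kf ι (kr θ))ˣ => ((u : Kf ι (kr θ)) : H)) hnorm
      exact h.symm
    have hY'0 : ((Y' : Kf ι (kr θ)) : H) ≠ 0 := by
      intro h
      exact Y'.ne_zero (Subtype.ext h)
    show algebraMap F H ((Additive.toMul b.1 : Fˣ) : F) *
      (((Y * Y'⁻¹ : (Kf ι (kr θ))ˣ) : Kf ι (kr θ)) : H) = _
    have e2 : (((Y * Y'⁻¹ : (Kf ι (kr θ))ˣ) : Kf ι (kr θ)) : H) =
        ((Y : Kf ι (kr θ)) : H) * ((Y' : Kf ι (kr θ)) : H)⁻¹ := by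
      rw [Units.val_mul, Units.val_inv_eq_inv_val]
      rfl
    rw [e1, e2, toMul_nsmul, Units.val_pow_eq_pow_val]
    show _ = (((Y : Kf ι (kr θ)) : H)) ^ 2
    field_simp

theorem u1_dd_pr (hD : Data ι S T r w fr) {θ : Ch G} (hθ : θ ≠ 0)
    (σ : Kf ι (kr θ) ≃ₐ[F] Kf ι (kr θ)) (hσ : σ ≠ 1) (b : ES S T) :
    b ∈ U1 ι S T θ ↔ ∃ y : Additive (Kf ι (kr θ))ˣ, y.toMul ∈ KT (ovr (Kf ι (kr θ)) T) ∧
      DD S σ b.1 y 0 :=
  ⟨fun h => eh_fwd hD hθ σ hσ b h, fun ⟨y, hy, h⟩ => eh_bwd hD hθ σ hσ b y hy h⟩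

end EH

alias u1_dd := u1_dd_pr

end Pool.Agent.MQR
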