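import Pool.Agent.Lib_helper15.MQR.Defs
import Pool.Agent.Lib_helper17.RS.P_UP1
import Pool.Agent.Lib_helper17.RS.P_UP2
import Pool.Agent.Lib_helper17.RS.P_CD
import Pool.Agent.Lib_helper35.RS2.P_QK

/-!
# MQR, block EI: `U1` for the trivial character
-/

set_option autoImplicit false
set_option linter.unusedSectionVars false
set_option linter.unusedVariables false

namespace Pool.Agent.MQR

open Pool.Agent.RSK Pool.Agent.RS2 Pool.Agent.RS3 Pool.Agent.SY Pool.Agent.AU Pool.Agent.CR
open Pool.Agent.RG Pool.Agent.QR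
open NumberField IsDedekindDomain

section E2

variable {F H : Type} [Field F] [NumberField F] [Field H] [NumberField H] [Algebra F H]
  [IsGalois F H] {G : Type} [CommGroup G] [Fintype G] {ι : G ≃* (H ≃ₐ[F] H)}
  {S T : Finset (HeightOneSpectrum (𝓞 F))} {r : ℕ} {w : Fin r → Pl H}
  {fr : HeightOneSpectrum (𝓞 F) → G}

/-- an element `≡ 1 mod T` whose square is fixed is fixed -/
theorem ei_fix (hD : Data ι S T r w fr) {z y : Hˣ} (hz : z ∈ KT (ovr H T)) (hy : z ^ 2 = y)
    (hfix : ∀ g : G, ι g • y = y) :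
    ∃ z' : Fˣ, Units.map (algebraMap F H : F →* H) z' = z := by
  refine fixed_unit z fun σ => ?_
  obtain ⟨g, rfl⟩ := ι.surjective σ
  have h1 : (ι g • z) * z⁻¹ ∈ KT (ovr H T) :=
    (KT _).mul_mem (Pool.Agent.RSK.cd_kt_smul _ hz) ((KT _).inv_mem hz)
  have h2 : ((ι g • z) * z⁻¹) ^ 2 = 1 := by
    rw [mul_pow, inv_pow, hy, ← smul_pow', hy, hfix, mul_inv_cancel]
  have h3 := (data_W hD).tf _ h1 2 (by norm_num) h2
  exact mul_inv_eq_one.1 h3

theorem ei_map_inj : Function.Injective (Units.map (algebraMap F H : F →* H)) :=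
  Units.map_injective (FaithfulSMul.algebraMap_injective F H)

theorem ei_smul_map (g : G) (x : Fˣ) :
    ι g • Units.map (algebraMap F H : F →* H) x = Units.map (algebraMap F H : F →* H) x := by
  ext
  exact (ι g).commutes (x : F)

theorem u1_zero_pr (hD : Data ι S T r w fr) (b : ES S T) :
    b ∈ U1 ι S T 0 ↔ hf S T b ∈ Pr S T := by
  constructor
  · rintro ⟨x, hx, z, hz, e⟩
    have e' : Units.map (algebraMap F H : F →* H) b.1.toMul * x.val = z.toMul ^ 2 := e
    have hxf : ∀ g : G, ι g • x.val = x.val := by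
      intro g
      have h1 := congrArg UM.val (hx g)
      rw [um_single_smul] at h1
      have h2 : sg (0 : Ch G) g = 1 := if_pos rfl
      rw [h2, one_smul] at h1
      exact h1
    obtain ⟨x', hx'⟩ := fixed_unit x.val (fun σ => by
      obtain ⟨g, rfl⟩ := ι.surjective σ
      exact hxf g)
    obtain ⟨z', hz'⟩ := ei_fix hD hz e'.symm (fun g => by
      rw [smul_mul', hxf, ei_smul_map])
    have hxU : x' ∈ Un S T := by
      rw [← un_map (H := H), hx']
      exact x.val_mem
    have hzK : z' ∈ KT T := by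
      rw [← kt_map (H := H), hz']
      exact hz
    have e2 : b.1.toMul * x' = z' ^ 2 := by
      apply ei_map_inj (F := F) (H := H)
      rw [map_mul, map_pow, hx', hz', e']
    refine ⟨hf_Dv b, z', hzK, fun v hv => ?_⟩
    have h1 := hf_two b hv
    have h2 : ordv v (b.1.toMul : F) + ordv v (x' : F) = ordv v (z' : F) + ordv v (z' : F) := by
      rw [← ordv_mul, e2, pow_two, ordv_mul]
    have h3 : ordv v (x' : F) = 0 := Pool.Agent.RSK.cd_ordv_of_val (hxU.1 v hv)
    omega
  · rintro ⟨h0, z', hz', h⟩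
    set x' : Fˣ := z' * z' * (b.1.toMul)⁻¹ with hx'
    have hxU : x' ∈ Un S T := by
      refine ⟨fun v hv => ?_, (KT T).mul_mem ((KT T).mul_mem hz' hz') ((KT T).inv_mem b.2.1)⟩
      refine Pool.Agent.RSK.cd_val_of_ordv ?_
      have h1 := hf_two b hv
      have h2 := h v hv
      rw [hx', ordv_mul, ordv_mul, ordv_inv]
      omega
    have hxH : Units.map (algebraMap F H : F →* H) x' ∈ Un (ovr H S) (ovr H T) :=
      (un_map (H := H) x').2 hxU
    refine ⟨UM.mk (Units.map (algebraMap F H : F →* H) x') hxH, fun g => UM.ext ?_,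
      Additive.ofMul (Units.map (algebraMap F H : F →* H) z'), (kt_map (H := H) z').2 hz', ?_⟩
    · have h2 : sg (0 : Ch G) g = 1 := if_pos rfl
      rw [um_single_smul, h2, one_smul, UM.val_mk, ei_smul_map]
    · show Additive.ofMul (Units.map (algebraMap F H : F →* H) b.1.toMul) +
        Additive.ofMul (Units.map (algebraMap F H : F →* H) x') =
          2 • Additive.ofMul (Units.map (algebraMap F H : F →* H) z')
      rw [← ofMul_mul, ← map_mul, ← ofMul_pow, ← map_pow, hx']
      congr 2
      rw [mul_comm, inv_mul_cancel_right, pow_two]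

end E2

alias u1_zero := u1_zero_pr

end Pool.Agent.MQR
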