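import Pool.Agent.Lib_helper15.MQR.Defs
import Pool.Agent.Lib_helper17.QRF.All
import Pool.Agent.Lib_helper15.MQRF.KB

/-! MQR, block KC: bilinearity -/

set_option autoImplicit false
set_option linter.unusedSectionVars false
set_option linter.unusedVariables false

namespace Pool.Agent.MQR

open Pool.Agent.RSK Pool.Agent.RS2 Pool.Agent.RS3 Pool.Agent.SY Pool.Agent.AU Pool.Agent.CR
open Pool.Agent.RG Pool.Agent.QR
open NumberField IsDedekindDomain

section K

variable {F H : Type} [Field F] [NumberField F] [Field H] [NumberField H] [Algebra F H]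
  [IsGalois F H] {G : Type} [CommGroup G] [Fintype G] {ι : G ≃* (H ≃ₐ[F] H)}
  {S T : Finset (HeightOneSpectrum (𝓞 F))} {r : ℕ} {w : Fin r → Pl H}
  {fr : HeightOneSpectrum (𝓞 F) → G}

/-- symbols in the first variable depend only on the class modulo squares -/
theorem kc_left {k : Type} [Field k] [NumberField k] (v : Pl k) {a a' d : kˣ} (b : kˣ)
    (h : a * a' = d ^ 2) : hs v a b = hs v a' b := by
  have h1 : hs v a b + hs v a' b = 0 := by
    rw [← hs_mul_left, h, hs_sq_left]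
  have key : ∀ x y : ZMod 2, x + y = 0 → x = y := by decide
  exact key _ _ h1

/-- `af (θ + θ')` and `af θ * af θ'` differ by a square -/
theorem kc_af (ι : G ≃* (H ≃ₐ[F] H)) (θ θ' : Ch G) :
    ∃ d : Fˣ, af ι (θ + θ') * (af ι θ * af ι θ') = d ^ 2 :=
  km_uniq (af_spec ι (θ + θ')) (km_add (af_spec ι θ) (af_spec ι θ'))

/-- `af 0` is a square -/
theorem kc_zero (ι : G ≃* (H ≃ₐ[F] H)) : ∃ d : Fˣ, af ι (0 : Ch G) = d ^ 2 := by
  obtain ⟨d, hd⟩ := kc_af ι (0 : Ch G) 0
  refine ⟨d * (af ι (0 : Ch G))⁻¹, ?_⟩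
  rw [add_zero] at hd
  rw [mul_pow, ← hd, sq ((af ι (0 : Ch G))⁻¹)]
  group

theorem sy_add_left_pr (θ θ' : Ch G) (v : Pl F) (b : Additive Fˣ) :
    sy ι (θ + θ') v b = sy ι θ v b + sy ι θ' v b := by
  obtain ⟨d, hd⟩ := kc_af ι θ θ'
  unfold sy
  rw [kc_left v b.toMul hd, hs_mul_left]

theorem sy_add_right_pr (θ : Ch G) (v : Pl F) (b b' : Additive Fˣ) :
    sy ι θ v (b + b') = sy ι θ v b + sy ι θ v b' := by
  unfold sy
  rw [← hs_mul_right]
  rfl

theorem sy_zero_left_pr (v : Pl F) (b : Additive Fˣ) : sy ι (0 : Ch G) v b = 0 := by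
  obtain ⟨d, hd⟩ := kc_zero ι
  unfold sy
  rw [hd, hs_sq_left]

theorem syK_add_left_pr {K : Type} [Field K] [NumberField K] [Algebra F K] (θ θ' : Ch G) (W : Pl K)
    (y : Additive Kˣ) : syK ι (θ + θ') W y = syK ι θ W y + syK ι θ' W y := by
  obtain ⟨d, hd⟩ := kc_af ι θ θ'
  have hd' := congrArg (Units.map (algebraMap F K : F →* K)) hd
  rw [map_mul, map_pow] at hd'
  unfold syK
  rw [kc_left W y.toMul hd', map_mul, hs_mul_left]

theorem syK_add_right_pr {K : Type} [Field K] [NumberField K] [Algebra F K] (θ : Ch G) (W : Pl K)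
    (y y' : Additive Kˣ) : syK ι θ W (y + y') = syK ι θ W y + syK ι θ W y' := by
  unfold syK
  rw [← hs_mul_right]
  rfl

theorem syK_zero_left_pr {K : Type} [Field K] [NumberField K] [Algebra F K] (W : Pl K)
    (y : Additive Kˣ) : syK ι (0 : Ch G) W y = 0 := by
  obtain ⟨d, hd⟩ := kc_zero ι
  unfold syK
  rw [hd, map_pow, hs_sq_left]

end K

alias sy_add_left := sy_add_left_pr
alias sy_add_right := sy_add_right_pr
alias sy_zero_left := sy_zero_left_pr
alias syK_add_left := syK_add_left_pr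
alias syK_add_right := syK_add_right_pr
alias syK_zero_left := syK_zero_left_pr

end Pool.Agent.MQR

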