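import Pool.Agent.Lib_helper15.MQR.Defs
import Pool.Agent.Lib_helper17.RS.P_UP1
import Pool.Agent.Lib_helper17.RS.P_UP2
import Pool.Agent.Lib_helper35.RS2.P_A3b

/-!
# MQR, block KA: norms and `T`
-/

set_option autoImplicit false
set_option linter.unusedSectionVars false
set_option linter.unusedVariables false

namespace Pool.Agent.MQR

open Pool.Agent.RSK Pool.Agent.RS2 Pool.Agent.RS3 Pool.Agent.SY Pool.Agent.AU Pool.Agent.CR
open Pool.Agent.RG Pool.Agent.QR
open NumberField IsDedekindDomain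

section KA

variable {F K : Type} [Field F] [NumberField F] [Field K] [NumberField K] [Algebra F K]
  [IsGalois F K] {S T : Finset (HeightOneSpectrum (𝓞 F))}

theorem ka_cases (hcard : Nat.card (K ≃ₐ[F] K) = 2) {σ : K ≃ₐ[F] K} (hσ : σ ≠ 1)
    (τ : K ≃ₐ[F] K) : τ = 1 ∨ τ = σ := by
  obtain ⟨y, _, hy⟩ := (Nat.card_eq_two_iff' (1 : K ≃ₐ[F] K)).1 hcard
  by_cases h : τ = 1
  · exact Or.inl h
  · exact Or.inr ((hy τ h).trans (hy σ hσ).symm)

theorem ka_sq (hcard : Nat.card (K ≃ₐ[F] K) = 2) {σ : K ≃ₐ[F] K} (hσ : σ ≠ 1) : σ * σ = 1 := by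
  rcases ka_cases hcard hσ (σ * σ) with h | h
  · exact h
  · exact absurd (mul_eq_right.1 h) hσ

open scoped Pointwise in
theorem ka_pac (hcard : Nat.card (K ≃ₐ[F] K) = 2) {σ : K ≃ₐ[F] K} (hσ : σ ≠ 1)
    (W : HeightOneSpectrum (𝓞 K)) : pac σ (pac σ W) = W := by
  apply HeightOneSpectrum.ext
  unfold pac
  rw [ee_asIdeal, ee_asIdeal, ← mul_smul, ka_sq hcard hσ, one_smul]

theorem ka_val (hcard : Nat.card (K ≃ₐ[F] K) = 2) {σ : K ≃ₐ[F] K} (hσ : σ ≠ 1)
    (W : HeightOneSpectrum (𝓞 K)) (x : K) :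
    W.valuation K (σ x) = (pac σ W).valuation K x := by
  have h := val_equiv σ.toRingEquiv (pac σ W) x
  have h2 : HeightOneSpectrum.equivOfRingEquiv (RingOfIntegers.mapRingEquiv σ.toRingEquiv)
      (pac σ W) = W := ka_pac hcard hσ W
  rw [h2] at h
  exact h

theorem ka_one {W : HeightOneSpectrum (𝓞 K)} {x : 𝓞 K} (h : x ∉ W.asIdeal) :
    W.valuation K ((x : 𝓞 K) : K) = 1 := by
  refine le_antisymm (W.valuation_le_one x) (not_lt.1 fun h1 => h ?_)
  exact (W.valuation_lt_one_iff_mem x).1 h1

theorem ka_inert (σ : K ≃ₐ[F] K) (hσ : σ ≠ 1) {W : HeightOneSpectrum (𝓞 K)}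
    (hW : Algebra.IsUnramifiedAt (𝓞 F) W.asIdeal) {y : K} (hy : W.valuation K y = 1) :
    ∃ x : 𝓞 K, W.valuation K ((x : K) + y * σ (x : K)) = 1 := by
  by_cases h : W.valuation K (1 + y) < 1
  · obtain ⟨φ, hφ⟩ := frAt_exists (F₀ := F) W
    have hin : W.asIdeal.inertia (K ≃ₐ[F] K) = ⊥ := ee_inertia hW (τ := φ) hφ
    obtain ⟨x, hx⟩ : ∃ x : 𝓞 K, σ • x - x ∉ W.asIdeal := by
      by_contra hcon
      push Not at hcon
      have h1 : σ ∈ W.asIdeal.inertia (K ≃ₐ[F] K) := hcon
      rw [hin, Subgroup.mem_bot] at h1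
      exact hσ h1
    refine ⟨x, ?_⟩
    have h1 := ka_one hx
    have h2 : (((σ • x - x : 𝓞 K)) : K) = σ (x : K) - x := rfl
    rw [h2] at h1
    have h3 : W.valuation K (σ (x : K)) ≤ 1 := W.valuation_le_one (σ • x : 𝓞 K)
    have h4 : W.valuation K ((1 + y) * σ (x : K)) < 1 := by
      rw [map_mul]
      exact mul_lt_one_of_lt_of_le h h3
    have e : (x : K) + y * σ (x : K) = -(σ (x : K) - x) + (1 + y) * σ (x : K) := by ring
    rw [e, Valuation.map_add_eq_of_lt_left, Valuation.map_neg, h1]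
    rw [Valuation.map_neg, h1]
    exact h4
  · refine ⟨1, ?_⟩
    have h1 : W.valuation K (1 + y) ≤ 1 := by
      refine (Valuation.map_add _ _ _).trans ?_
      rw [map_one, hy, max_self]
    have h2 : ((1 : 𝓞 K) : K) + y * σ ((1 : 𝓞 K) : K) = 1 + y := by
      rw [show ((1 : 𝓞 K) : K) = 1 from rfl, map_one, mul_one]
    rw [h2]
    exact le_antisymm h1 (not_lt.1 h)

open scoped Pointwise in
/-- the main local statement -/
theorem ka_main (hcard : Nat.card (K ≃ₐ[F] K) = 2) (σ : K ≃ₐ[F] K) (hσ : σ ≠ 1)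
    (hunr : ∀ W : HeightOneSpectrum (𝓞 K), W.under (𝓞 F) ∈ T →
      Algebra.IsUnramifiedAt (𝓞 F) W.asIdeal) (y : K)
    (hy : ∀ W : HeightOneSpectrum (𝓞 K), W.under (𝓞 F) ∈ T →
      W.valuation K y * (pac σ W).valuation K y = 1) :
    ∃ t : 𝓞 K, ∀ W : HeightOneSpectrum (𝓞 K), W.under (𝓞 F) ∈ T →
      1 ≤ W.valuation K ((t : K) + y * σ (t : K)) := by
  classical
  have hsurj : ∀ v : HeightOneSpectrum (𝓞 F), ∃ W : HeightOneSpectrum (𝓞 K),
      W.under (𝓞 F) = v := fun v => up1_surj v
  choose R hR using hsurj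
  let c : HeightOneSpectrum (𝓞 K) → 𝓞 K := fun W =>
    if h : ∃ x : 𝓞 K, pac σ W = W ∧ W.valuation K ((x : K) + y * σ (x : K)) = 1 then h.choose
    else if W.valuation K y ≠ 1 ∨ W = R (W.under (𝓞 F)) then 1 else 0
  obtain ⟨t, ht⟩ := IsDedekindDomain.exists_forall_sub_mem_ideal (s := ovr K T)
    (fun W : HeightOneSpectrum (𝓞 K) => W.asIdeal) (fun _ => 1) (fun W _ => W.prime)
    (fun W _ W' _ hne h => hne (HeightOneSpectrum.ext h)) (fun W => c W.1)
  have ht' : ∀ W : HeightOneSpectrum (𝓞 K), W.under (𝓞 F) ∈ T →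
      W.valuation K ((t : K) - ((c W : 𝓞 K) : K)) < 1 := by
    intro W hW
    have h1 := ht W (mem_ovr.2 hW)
    rw [pow_one] at h1
    exact (W.valuation_lt_one_iff_mem (K := K) (t - c W)).2 h1
  refine ⟨t, fun W hW => ?_⟩
  have hW' : (pac σ W).under (𝓞 F) = W.under (𝓞 F) := under_equiv σ W
  by_cases hfix : pac σ W = W
  · -- inert
    have hy1 : W.valuation K y = 1 := by
      have h1 := hy W hW
      rw [hfix] at h1
      rcases lt_trichotomy (W.valuation K y) 1 with h | h | h
      · exact absurd h1 (ne_of_lt (mul_lt_one_of_lt_of_le h h.le))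
      · exact h
      · have h2 : 1 < W.valuation K y * W.valuation K y := one_lt_mul_of_lt_of_le' h h.le
        exact absurd h1 (ne_of_gt h2)
    obtain ⟨x0, hx0⟩ := ka_inert σ hσ (hunr W hW) hy1
    have hex : ∃ x : 𝓞 K, pac σ W = W ∧ W.valuation K ((x : K) + y * σ (x : K)) = 1 :=
      ⟨x0, hfix, hx0⟩
    have hc : c W = hex.choose := by
      show (if h : ∃ x : 𝓞 K, pac σ W = W ∧ W.valuation K ((x : K) + y * σ (x : K)) = 1
        then h.choose else _) = _
      rw [dif_pos hex]
    have hx := hex.choose_spec.2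
    rw [← hc] at hx
    have h1 := ht' W hW
    have h2 : W.valuation K (σ ((t : K) - ((c W : 𝓞 K) : K))) < 1 := by
      rw [ka_val hcard hσ, hfix]
      exact h1
    have h3 : W.valuation K (y * σ ((t : K) - ((c W : 𝓞 K) : K))) < 1 := by
      rw [map_mul, hy1, one_mul]
      exact h2
    have e : (t : K) + y * σ (t : K) = (((c W : 𝓞 K) : K) + y * σ ((c W : 𝓞 K) : K)) +
        (((t : K) - ((c W : 𝓞 K) : K)) + y * σ ((t : K) - ((c W : 𝓞 K) : K))) := by
      rw [map_sub]
      ring
    have h4 := Valuation.map_add_lt _ h1 h3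
    rw [e, Valuation.map_add_eq_of_lt_left _ (by rw [hx]; exact h4), hx]
  · -- split
    have hfix' : pac σ (pac σ W) ≠ pac σ W := by
      rw [ka_pac hcard hσ]
      exact fun h => hfix h.symm
    have hc : ∀ V : HeightOneSpectrum (𝓞 K), pac σ V ≠ V →
        c V = if V.valuation K y ≠ 1 ∨ V = R (V.under (𝓞 F)) then 1 else 0 := by
      intro V hV
      show (if h : ∃ x : 𝓞 K, pac σ V = V ∧ V.valuation K ((x : K) + y * σ (x : K)) = 1
        then h.choose else _) = _
      rw [dif_neg]
      rintro ⟨x, hx, -⟩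
      exact hV hx
    have hone : ∀ V : HeightOneSpectrum (𝓞 K), V.under (𝓞 F) ∈ T → c V = 1 →
        V.valuation K (t : K) = 1 := by
      intro V hV h
      have h1 := ht' V hV
      rw [h] at h1
      have e : (t : K) = 1 + ((t : K) - ((1 : 𝓞 K) : K)) := by
        rw [show ((1 : 𝓞 K) : K) = 1 from rfl]
        ring
      rw [e, Valuation.map_add_eq_of_lt_left _ (by rw [map_one]; exact h1), map_one]
    have hzero : ∀ V : HeightOneSpectrum (𝓞 K), V.under (𝓞 F) ∈ T → c V = 0 →
        V.valuation K (t : K) < 1 := by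
      intro V hV h
      have h1 := ht' V hV
      rw [h] at h1
      rwa [show ((0 : 𝓞 K) : K) = 0 from rfl, sub_zero] at h1
    have hprod := hy W hW
    have hWT' : (pac σ W).under (𝓞 F) ∈ T := by rw [hW']; exact hW
    have hσt : W.valuation K (y * σ (t : K)) =
        W.valuation K y * (pac σ W).valuation K (t : K) := by
      rw [map_mul, ka_val hcard hσ]
    by_cases hy1 : W.valuation K y = 1
    · have hy2 : (pac σ W).valuation K y = 1 := by
        rw [hy1, one_mul] at hprod
        exact hprod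
      rw [hy1, one_mul] at hσt
      by_cases hWR : W = R (W.under (𝓞 F))
      · have h1 : c W = 1 := by rw [hc W hfix, if_pos (Or.inr hWR)]
        have h2 : c (pac σ W) = 0 := by
          rw [hc _ hfix', if_neg]
          rintro (h | h)
          · exact h hy2
          · rw [hW', ← hWR] at h
            exact hfix h
        have h3 := hone W hW h1
        have h4 := hzero _ hWT' h2
        rw [Valuation.map_add_eq_of_lt_left _ (by rw [hσt, h3]; exact h4), h3]
      · have h1 : c W = 0 := by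
          rw [hc W hfix, if_neg]
          rintro (h | h)
          · exact h hy1
          · exact hWR h
        have h2 : c (pac σ W) = 1 := by
          rw [hc _ hfix', if_pos]
          right
          rw [hW']
          have h5 : dn F (Sum.inr W : Pl K) = dn F (Sum.inr (R (W.under (𝓞 F)))) := by
            show Sum.inr (W.under (𝓞 F)) = Sum.inr ((R (W.under (𝓞 F))).under (𝓞 F))
            rw [hR]
          obtain ⟨τ, hτ⟩ := act_trans h5
          rcases ka_cases hcard hσ τ with rfl | rfl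
          · exfalso
            refine hWR ?_
            have h6 := Sum.inr_injective hτ
            rw [← h6]
            apply HeightOneSpectrum.ext
            rw [ee_asIdeal, one_smul]
          · exact Sum.inr_injective hτ
        have h3 := hzero W hW h1
        have h4 := hone _ hWT' h2
        rw [Valuation.map_add_eq_of_lt_right _ (by rw [hσt, h4]; exact h3), hσt, h4]
    · have hy2 : (pac σ W).valuation K y ≠ 1 := by
        intro h
        rw [h, mul_one] at hprod
        exact hy1 hprod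
      have h1 : c W = 1 := by rw [hc W hfix, if_pos (Or.inl hy1)]
      have h2 : c (pac σ W) = 1 := by rw [hc _ hfix', if_pos (Or.inl hy2)]
      have h3 := hone W hW h1
      have h4 := hone _ hWT' h2
      rw [h4, mul_one] at hσt
      rcases lt_or_gt_of_ne hy1 with h | h
      · rw [Valuation.map_add_eq_of_lt_left _ (by rw [hσt, h3]; exact h), h3]
      · rw [Valuation.map_add_eq_of_lt_right _ (by rw [hσt, h3]; exact h), hσt]
        exact h.le

theorem nm_T_pr (hcard : Nat.card (K ≃ₐ[F] K) = 2) (σ : K ≃ₐ[F] K) (hσ : σ ≠ 1)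
    (hunr : ∀ W : HeightOneSpectrum (𝓞 K), W.under (𝓞 F) ∈ T →
      Algebra.IsUnramifiedAt (𝓞 F) W.asIdeal) {b : Additive Fˣ} (hb : b.toMul ∈ KT T)
    {y : Additive Kˣ} (hy : y + eac σ y = inc F K b) :
    ∃ y' : Additive Kˣ, y'.toMul ∈ KT (ovr K T) ∧ y' + eac σ y' = inc F K b := by
  have hyb : ((Additive.toMul y : Kˣ) : K) * σ ((Additive.toMul y : Kˣ) : K) =
      algebraMap F K ((Additive.toMul b : Fˣ) : F) := by
    have h := congrArg (fun u : Additive Kˣ => ((Additive.toMul u : Kˣ) : K)) hy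
    exact h
  have hbK : ∀ W : HeightOneSpectrum (𝓞 K), W.under (𝓞 F) ∈ T →
      W.valuation K (algebraMap F K ((Additive.toMul b : Fˣ) : F) - 1) < 1 := by
    intro W hW
    have h1 := (kt_map (H := K) (T := T) (Additive.toMul b)).2 hb
    exact h1 W (mem_ovr.2 hW)
  have hbK1 : ∀ W : HeightOneSpectrum (𝓞 K), W.under (𝓞 F) ∈ T →
      W.valuation K (algebraMap F K ((Additive.toMul b : Fˣ) : F)) = 1 := by
    intro W hW
    have e : algebraMap F K ((Additive.toMul b : Fˣ) : F) =
      1 + (algebraMap F K ((Additive.toMul b : Fˣ) : F) - 1) := by ring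
    rw [e, Valuation.map_add_eq_of_lt_left _ (by rw [map_one]; exact hbK W hW), map_one]
  obtain ⟨t, ht⟩ := ka_main (T := T) hcard σ hσ hunr ((Additive.toMul y : Kˣ) : K) (by
    intro W hW
    rw [← ka_val hcard hσ, ← map_mul, hyb, hbK1 W hW])
  set z : K := (t : K) + ((Additive.toMul y : Kˣ) : K) * σ (t : K) with hz
  by_cases hz0 : z = 0
  · refine ⟨y, ?_, hy⟩
    intro W hW
    exfalso
    have h := ht W (mem_ovr.1 hW)
    rw [hz0, map_zero] at h
    exact absurd h (by simp)
  · set u : Additive Kˣ := Additive.ofMul (Units.mk0 z hz0) with hu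
    have huσ : eac σ (eac σ u) = u := by
      apply Additive.toMul.injective
      ext
      show σ (σ z) = z
      have h := congrArg (fun τ : K ≃ₐ[F] K => τ z) (ka_sq hcard hσ)
      exact h
    refine ⟨y + (eac σ u - u), ?_, ?_⟩
    · intro W hW
      have hWT := mem_ovr.1 hW
      have hval : ((Additive.toMul (y + (eac σ u - u)) : Kˣ) : K) - 1 =
          (algebraMap F K ((Additive.toMul b : Fˣ) : F) - 1) * (t : K) / z := by
        have h1 : ((Additive.toMul (y + (eac σ u - u)) : Kˣ) : K) =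
            ((Additive.toMul y : Kˣ) : K) * (σ z / z) := by
          rw [toMul_add, toMul_sub, Units.val_mul, Units.val_div_eq_div_val]
          rfl
        have h2 : σ z = σ (t : K) + σ ((Additive.toMul y : Kˣ) : K) * (t : K) := by
          rw [hz, map_add, map_mul]
          congr 2
          have h := congrArg (fun τ : K ≃ₐ[F] K => τ (t : K)) (ka_sq hcard hσ)
          exact h
        rw [h1, h2]
        field_simp
        rw [← hyb, hz]
        ring
      rw [hval, map_div₀, map_mul]
      have h3 := ht W hWT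
      have h4 : W.valuation K (t : K) ≤ 1 := W.valuation_le_one t
      have h5 : W.valuation K (algebraMap F K ((Additive.toMul b : Fˣ) : F) - 1) *
          W.valuation K (t : K) < 1 := mul_lt_one_of_lt_of_le (hbK W hWT) h4
      have h6 : 0 < W.valuation K z := lt_of_lt_of_le zero_lt_one h3
      rw [div_lt_one₀ h6]
      exact lt_of_lt_of_le h5 h3
    · rw [map_add, map_sub, huσ, ← hy]
      abel

end KA

alias nm_T := nm_T_pr

end Pool.Agent.MQR
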