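import Pool.Agent.Lib_helper15.MQR.Defs
import Pool.Agent.Lib_helper17.QRF.All
import Pool.Agent.Lib_helper15.MQRF.KA
import Pool.Agent.Lib_helper15.MQRF.KD
import Pool.Agent.Lib_helper15.MQRF.KD2
import Pool.Agent.Lib_helper15.MQRF.KG
import Pool.Agent.Lib_helper17.RS.P_IF

set_option autoImplicit false
set_option linter.unusedSectionVars false

namespace Pool.Agent.MQR

open Pool.Agent.RSK Pool.Agent.RS2 Pool.Agent.RS3 Pool.Agent.SY Pool.Agent.AU Pool.Agent.CR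
open Pool.Agent.RG Pool.Agent.QR
open NumberField IsDedekindDomain

section K

variable {F H : Type} [Field F] [NumberField F] [Field H] [NumberField H] [Algebra F H]
  [IsGalois F H] {G : Type} [CommGroup G] [Fintype G] {ι : G ≃* (H ≃ₐ[F] H)}
  {S T : Finset (HeightOneSpectrum (𝓞 F))} {r : ℕ} {w : Fin r → Pl H}
  {fr : HeightOneSpectrum (𝓞 F) → G}

theorem hasse_T_pr (hD : Data ι S T r w fr) {θ : Ch G} (hθ : θ ≠ 0)
    (σ : Kf ι (kr θ) ≃ₐ[F] Kf ι (kr θ)) (hσ : σ ≠ 1) (b : ES S T) :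
    b ∈ Zs S T σ ↔ ∀ P : PS S, sy ι θ P.pl b.1 = 0 := by
  haveI : IsGalois F (Kf ι (kr θ)) := kf_galois ι (kr θ)
  constructor
  · rintro ⟨y, hy, h⟩ P
    have h1 : b.1.toMul ∈ Nm (af ι θ) := (nm_kf hθ σ hσ b.1).2 ⟨y, h⟩
    exact hs_of_nm h1 P.pl
  · intro h
    have hall : ∀ v : Pl F, hs v (af ι θ) b.1.toMul = 0 := by
      rintro (v | v)
      · exact h (Sum.inl v)
      · by_cases hv : v ∈ S
        · exact h (Sum.inr ⟨v, hv⟩)
        · have h1 := sy_unr hD θ hv b.1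
          have h2 : hs (Sum.inr v) (af ι θ) b.1.toMul = sy ι θ (Sum.inr v) b.1 := rfl
          rw [h2, h1, (ZMod.intCast_zmod_eq_zero_iff_dvd _ 2).2 (by exact_mod_cast (b.2.2 v hv).two_dvd), mul_zero]
    have h1 := hasse _ _ hall
    obtain ⟨y, hy⟩ := (nm_kf hθ σ hσ b.1).1 h1
    obtain ⟨y', hy', hn⟩ := nm_T (T := T) (kf_card hθ) σ hσ (fun W hW => kf_unr hD (kr θ) W
      (fun hS => (Finset.disjoint_left.1 hD.disj hS hW))) b.2.1 hy
    exact ⟨y', hy', hn⟩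

end K

alias hasse_T := hasse_T_pr

end Pool.Agent.MQR
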