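import Pool.Agent.Lib_helper15.MQR.Defs

/-!
# Multiquadratic extensions, small `S` (MQR), block PD (helper16)
-/

set_option autoImplicit false
set_option linter.unusedSectionVars false
set_option linter.unusedVariables false

namespace Pool.Agent.MQR

open Pool.Agent.RSK Pool.Agent.RS2 Pool.Agent.RS3 Pool.Agent.SY Pool.Agent.AU Pool.Agent.CR
open Pool.Agent.RG Pool.Agent.QR
open NumberField IsDedekindDomain

section PDs

theorem pd_fun (I : Type) [Fintype I] : Nat.card (I → ZMod 2) = 2 ^ Fintype.card I := by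
  rw [Nat.card_fun, Nat.card_zmod, Nat.card_eq_fintype_card]

theorem pd_dker {E B : Type} [AddCommGroup E] [AddCommGroup B] {U Z : AddSubgroup E}
    {δ : Z →+ B} (hδk : ∀ z : Z, δ z = 0 ↔ (z : E) ∈ U) : δ.ker = U.addSubgroupOf Z := by
  ext z
  rw [AddMonoidHom.mem_ker, hδk, AddSubgroup.mem_addSubgroupOf]

/-- the common part -/
theorem pd_base {E B : Type} [AddCommGroup E] [AddCommGroup B] [Finite B] (Q U Z : AddSubgroup E)
    {r ρ : ℕ} {I : Type} [Fintype I] (hQ : Q.index = 2 ^ (r + Fintype.card I + ρ)) (hQU : Q ≤ U)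
    (hU : Q.relIndex U = 2 ^ r) (hUZ : U ≤ Z) (δ : Z →+ B) (hδk : ∀ z : Z, δ z = 0 ↔ (z : E) ∈ U)
    (h : E →+ (I → ZMod 2)) (hZ : h.ker = Z) :
    ∃ a b : ℕ, Nat.card δ.range = 2 ^ a ∧ Nat.card h.range = 2 ^ b ∧
      a + b = Fintype.card I + ρ ∧ b ≤ Fintype.card I := by
  have e1 : Nat.card δ.range = U.relIndex Z := by
    rw [← AddSubgroup.index_ker, pd_dker hδk]
    rfl
  have e2 : Nat.card h.range = Z.index := by
    rw [← AddSubgroup.index_ker, hZ]
  have h1 : Q.relIndex U * U.relIndex Z = Q.relIndex Z :=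
    AddSubgroup.relIndex_mul_relIndex _ _ _ hQU hUZ
  have h2 : Q.relIndex Z * Z.index = Q.index := AddSubgroup.relIndex_mul_index (hQU.trans hUZ)
  have h3 : Nat.card δ.range * Nat.card h.range = 2 ^ (Fintype.card I + ρ) := by
    rw [e1, e2]
    have h4 : 2 ^ r * (U.relIndex Z * Z.index) = 2 ^ r * 2 ^ (Fintype.card I + ρ) := by
      rw [← pow_add, ← add_assoc, ← hQ, ← h2, ← h1, hU, mul_assoc]
    exact Nat.eq_of_mul_eq_mul_left (by positivity) h4
  obtain ⟨a, -, ha⟩ := (Nat.dvd_prime_pow Nat.prime_two).1 (Dvd.intro _ h3)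
  obtain ⟨b, -, hb⟩ := (Nat.dvd_prime_pow Nat.prime_two).1 (Dvd.intro_left _ h3)
  refine ⟨a, b, ha, hb, ?_, ?_⟩
  · rw [ha, hb, ← pow_add] at h3
    exact Nat.pow_right_injective le_rfl h3
  · have h5 : Nat.card h.range ∣ 2 ^ Fintype.card I := by
      rw [← pd_fun I]
      exact AddSubgroup.card_addSubgroup_dvd_card _
    rw [hb] at h5
    exact (Nat.pow_dvd_pow_iff_le_right (by norm_num)).1 h5

theorem crit_low_pr {E B : Type} [AddCommGroup E] [AddCommGroup B] [Finite B]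
    (Q U Z : AddSubgroup E)
    {r ρ : ℕ} {I : Type} [Fintype I] (hQ : Q.index = 2 ^ (r + Fintype.card I + ρ)) (hQU : Q ≤ U)
    (hU : Q.relIndex U = 2 ^ r) (hUZ : U ≤ Z) (δ : Z →+ B) (hδk : ∀ z : Z, δ z = 0 ↔ (z : E) ∈ U)
    (hδr : ∀ x : B, x + x = 0 ↔ ∃ z, δ z = x) (h : E →+ (I → ZMod 2)) (hZ : h.ker = Z) :
    2 ^ ρ ∣ Nat.card B := by
  obtain ⟨a, b, ha, hb, hab, hbn⟩ := pd_base Q U Z hQ hQU hU hUZ δ hδk h hZ
  have h1 : 2 ^ ρ ∣ Nat.card δ.range := by
    rw [ha]
    exact pow_dvd_pow _ (by omega)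
  exact h1.trans (AddSubgroup.card_addSubgroup_dvd_card _)

/-- multiplication by `2` -/
theorem pd_two (B : Type) [AddCommGroup B] [Finite B] :
    Nat.card (nsmulAddMonoidHom (α := B) 2).ker * Nat.card (nsmulAddMonoidHom (α := B) 2).range =
      Nat.card B ∧
    (nsmulAddMonoidHom (α := B) 2).range.index = Nat.card (nsmulAddMonoidHom (α := B) 2).ker := by
  have h1 := AddSubgroup.card_mul_index (nsmulAddMonoidHom (α := B) 2).ker
  rw [AddSubgroup.index_ker] at h1
  refine ⟨h1, ?_⟩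
  have h2 := AddSubgroup.card_mul_index (nsmulAddMonoidHom (α := B) 2).range
  rw [← h1, mul_comm (Nat.card (nsmulAddMonoidHom (α := B) 2).ker)] at h2
  exact Nat.eq_of_mul_eq_mul_left Nat.card_pos h2

theorem pd_mem_ker {B : Type} [AddCommGroup B] (x : B) :
    x ∈ (nsmulAddMonoidHom (α := B) 2).ker ↔ x + x = 0 := by
  rw [AddMonoidHom.mem_ker, nsmulAddMonoidHom_apply, two_nsmul]

theorem pd_range {E B : Type} [AddCommGroup E] [AddCommGroup B] {Z : AddSubgroup E}
    {δ : Z →+ B} (hδr : ∀ x : B, x + x = 0 ↔ ∃ z, δ z = x) :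
    δ.range = (nsmulAddMonoidHom (α := B) 2).ker := by
  ext x
  rw [pd_mem_ker, hδr]
  rfl

/-- `2 B` has an element of order `2` if its order is even -/
theorem pd_cauchy {B : Type} [AddCommGroup B] [Finite B]
    (h : 2 ∣ Nat.card (nsmulAddMonoidHom (α := B) 2).range) :
    ∃ x ∈ (nsmulAddMonoidHom (α := B) 2).range, x ≠ 0 ∧ x + x = 0 := by
  have : Fact (Nat.Prime 2) := ⟨Nat.prime_two⟩
  obtain ⟨x, hx⟩ := exists_prime_addOrderOf_dvd_card' (G := (nsmulAddMonoidHom (α := B) 2).range)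
    2 h
  refine ⟨x, x.2, ?_, ?_⟩
  · intro h0
    have h1 : x = 0 := Subtype.ext h0
    rw [h1, addOrderOf_zero] at hx
    norm_num at hx
  · have h1 : 2 • x = 0 := by
      have h0 := addOrderOf_nsmul_eq_zero x
      rwa [hx] at h0
    have h2 := congrArg Subtype.val h1
    rw [two_nsmul] at h2
    exact h2

/-- if the order of `2 B` is odd, it has no element of order `2` -/
theorem pd_odd {B : Type} [AddCommGroup B] [Finite B]
    (h : ¬ 2 ∣ Nat.card (nsmulAddMonoidHom (α := B) 2).range) {x : B}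
    (hx : x ∈ (nsmulAddMonoidHom (α := B) 2).range) (hx2 : x + x = 0) : x = 0 := by
  by_contra hne
  have h1 : addOrderOf x = 2 := by
    refine addOrderOf_eq_prime (by rw [two_nsmul]; exact hx2) hne
  have h2 : addOrderOf (⟨x, hx⟩ : (nsmulAddMonoidHom (α := B) 2).range) = 2 := by
    rw [← AddSubgroup.addOrderOf_coe]
    exact h1
  apply h
  have h3 := addOrderOf_dvd_natCard (⟨x, hx⟩ : (nsmulAddMonoidHom (α := B) 2).range)
  rwa [h2] at h3

theorem crit_pr {E B : Type} [AddCommGroup E] [AddCommGroup B] [Finite B] (Q U Z : AddSubgroup E)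
    {r : ℕ} {I J : Type} [Fintype I] [Fintype J]
    (hQ : Q.index = 2 ^ (r + Fintype.card I + Fintype.card J)) (hQU : Q ≤ U)
    (hU : Q.relIndex U = 2 ^ r) (hUZ : U ≤ Z) (δ : Z →+ B) (hδk : ∀ z : Z, δ z = 0 ↔ (z : E) ∈ U)
    (hδr : ∀ x : B, x + x = 0 ↔ ∃ z, δ z = x) (h : E →+ (I → ZMod 2)) (hZ : h.ker = Z)
    (ψ : B →+ (J → ZMod 2)) (hψ : Function.Surjective ψ) (φ : E →+ (J → ZMod 2))
    (hφ : ∀ z : Z, φ z = ψ (δ z)) (β : E →+ (I ⊕ J → ZMod 2))
    (hβ : ∀ x, β x = Sum.elim (h x) (φ x)) :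
    (Function.Surjective β ↔ ¬ 2 ^ (Fintype.card J + 1) ∣ Nat.card B) ∧
      (Function.Surjective β → β.ker = U) := by
  classical
  obtain ⟨a, b, ha, hb, hab, hbn⟩ := pd_base Q U Z hQ hQU hU hUZ δ hδk h hZ
  obtain ⟨h2a, h2b⟩ := pd_two B
  have hr := pd_range hδr
  obtain ⟨d, hd⟩ : ∃ d, d = nsmulAddMonoidHom (α := B) 2 := ⟨_, rfl⟩
  have hβ0 : ∀ x v w, β x = Sum.elim v w ↔ h x = v ∧ φ x = w := by
    intro x v w
    rw [hβ]
    constructor
    · intro e
      exact ⟨funext fun i => congrFun e (Sum.inl i), funext fun j => congrFun e (Sum.inr j)⟩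
    · rintro ⟨rfl, rfl⟩
      rfl
  have hψ2 : ∀ x ∈ (nsmulAddMonoidHom (α := B) 2).range, ψ x = 0 := by
    rintro _ ⟨x, rfl⟩
    rw [nsmulAddMonoidHom_apply, map_nsmul]
    funext j
    rw [Pi.smul_apply, two_nsmul]
    exact CharTwo.add_self_eq_zero _
  have hmemZ : ∀ x : E, x ∈ Z ↔ h x = 0 := fun x => by rw [← hZ, AddMonoidHom.mem_ker]
  -- the consequences of surjectivity
  have key : Function.Surjective β → a = Fintype.card J ∧ ∀ x ∈ δ.range, ψ x = 0 → x = 0 := by
    intro hs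
    have hh : Function.Surjective h := by
      intro v
      obtain ⟨x, hx⟩ := hs (Sum.elim v 0)
      exact ⟨x, ((hβ0 _ _ _).1 hx).1⟩
    have hb' : b = Fintype.card I := by
      have e1 : Nat.card h.range = 2 ^ Fintype.card I := by
        rw [AddMonoidHom.range_eq_top.2 hh, ← pd_fun I]
        exact Nat.card_congr AddSubgroup.topEquiv.toEquiv
      rw [hb] at e1
      exact Nat.pow_right_injective le_rfl e1
    have ha' : a = Fintype.card J := by omega
    refine ⟨ha', ?_⟩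
    have hsurj : Function.Surjective (ψ.comp δ.range.subtype) := by
      intro w
      obtain ⟨x, hx⟩ := hs (Sum.elim 0 w)
      obtain ⟨hx1, hx2⟩ := (hβ0 _ _ _).1 hx
      have hxZ : x ∈ Z := (hmemZ x).2 hx1
      refine ⟨⟨δ ⟨x, hxZ⟩, ⟨_, rfl⟩⟩, ?_⟩
      show ψ (δ ⟨x, hxZ⟩) = w
      rw [← hφ ⟨x, hxZ⟩]
      exact hx2
    have hcard : Nat.card δ.range = Nat.card (J → ZMod 2) := by rw [ha, ha', pd_fun]
    have hinj : Function.Injective (ψ.comp δ.range.subtype) :=
      ((Nat.bijective_iff_surjective_and_card _).2 ⟨hsurj, hcard⟩).1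
    intro x hx h0
    have e : ψ.comp δ.range.subtype ⟨x, hx⟩ = ψ.comp δ.range.subtype 0 := by
      rw [map_zero]; exact h0
    exact congrArg Subtype.val (hinj e)
  refine ⟨⟨fun hs hdvd => ?_, fun hnd => ?_⟩, fun hs => ?_⟩
  · obtain ⟨ha', hin⟩ := key hs
    rw [← h2a, ← hr, ha, ha', pow_succ] at hdvd
    have h3 := Nat.dvd_of_mul_dvd_mul_left (by positivity) hdvd
    obtain ⟨x, hx, hx0, hx2⟩ := pd_cauchy h3
    exact hx0 (hin x (by rw [hr, pd_mem_ker]; exact hx2) (hψ2 x hx))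
  · have hdB : Nat.card δ.range ∣ Nat.card B := AddSubgroup.card_addSubgroup_dvd_card _
    have ha' : a = Fintype.card J := by
      rw [ha] at hdB
      by_contra hne
      exact hnd ((pow_dvd_pow 2 (by omega)).trans hdB)
    have hb' : b = Fintype.card I := by omega
    have hodd : ¬ 2 ∣ Nat.card (nsmulAddMonoidHom (α := B) 2).range := by
      intro h3
      apply hnd
      rw [← h2a, ← hr, ha, ha', pow_succ]
      exact Nat.mul_dvd_mul_left _ h3
    have hh : Function.Surjective h := by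
      rw [← AddMonoidHom.range_eq_top]
      refine AddSubgroup.eq_top_of_card_eq _ ?_
      rw [hb, hb', pd_fun]
    -- the kernel of `ψ`
    have hψk : ψ.ker = (nsmulAddMonoidHom (α := B) 2).range := by
      have hle : (nsmulAddMonoidHom (α := B) 2).range ≤ ψ.ker := fun x hx =>
        AddMonoidHom.mem_ker.2 (hψ2 x hx)
      have e1 : ψ.ker.index = 2 ^ Fintype.card J := by
        rw [AddSubgroup.index_ker, AddMonoidHom.range_eq_top.2 hψ, ← pd_fun J]
        exact Nat.card_congr AddSubgroup.topEquiv.toEquiv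
      have e2 : (nsmulAddMonoidHom (α := B) 2).range.index = 2 ^ Fintype.card J := by
        rw [h2b, ← hr, ha, ha']
      have e3 := AddSubgroup.relIndex_mul_index hle
      rw [e1, e2] at e3
      have e4 : (nsmulAddMonoidHom (α := B) 2).range.relIndex ψ.ker = 1 :=
        Nat.eq_of_mul_eq_mul_right (show 0 < 2 ^ Fintype.card J by positivity)
          (by rw [e3, one_mul])
      exact le_antisymm (AddSubgroup.relIndex_eq_one.1 e4) hle
    have hinj : Function.Injective (ψ.comp δ.range.subtype) := by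
      rw [injective_iff_map_eq_zero]
      rintro ⟨x, hx⟩ h0
      have h1 : x ∈ ψ.ker := AddMonoidHom.mem_ker.2 h0
      rw [hψk] at h1
      refine Subtype.ext ?_
      rw [hr, pd_mem_ker] at hx
      exact pd_odd hodd h1 hx
    have hcard : Nat.card δ.range = Nat.card (J → ZMod 2) := by rw [ha, ha', pd_fun]
    have hsurj : Function.Surjective (ψ.comp δ.range.subtype) :=
      ((Nat.bijective_iff_injective_and_card _).2 ⟨hinj, hcard⟩).2
    intro t
    obtain ⟨e, he⟩ := hh fun i => t (Sum.inl i)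
    obtain ⟨⟨x, z, rfl⟩, hz⟩ := hsurj ((fun j => t (Sum.inr j)) - φ e)
    have hz' : ψ (δ z) = (fun j => t (Sum.inr j)) - φ e := hz
    refine ⟨e + z, ?_⟩
    have ht : t = Sum.elim (fun i => t (Sum.inl i)) (fun j => t (Sum.inr j)) := by
      funext q
      rcases q with i | j <;> rfl
    rw [ht]
    refine (hβ0 _ _ _).2 ⟨?_, ?_⟩
    · rw [map_add, he, (hmemZ z).1 z.2, add_zero]
    · rw [map_add, hφ z, hz', add_sub_cancel]
  · obtain ⟨ha', hin⟩ := key hs
    ext x
    rw [AddMonoidHom.mem_ker]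
    have e0 : (0 : I ⊕ J → ZMod 2) = Sum.elim (0 : I → ZMod 2) (0 : J → ZMod 2) := by
      funext q
      rcases q with i | j <;> rfl
    rw [e0, hβ0]
    constructor
    · rintro ⟨h1, h2⟩
      have hxZ : x ∈ Z := (hmemZ x).2 h1
      have h3 : ψ (δ ⟨x, hxZ⟩) = 0 := by rw [← hφ ⟨x, hxZ⟩]; exact h2
      exact (hδk ⟨x, hxZ⟩).1 (hin _ ⟨_, rfl⟩ h3)
    · intro hxU
      have hxZ : x ∈ Z := hUZ hxU
      refine ⟨(hmemZ x).1 hxZ, ?_⟩
      have h3 := hφ ⟨x, hxZ⟩
      rw [(hδk ⟨x, hxZ⟩).2 hxU, map_zero] at h3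
      exact h3

end PDs

alias crit_low := crit_low_pr
alias crit := crit_pr

end Pool.Agent.MQR
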