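import Pool.Agent.Lib_helper15.MQR.Defs
import Pool.Agent.Lib_helper35.RG.AllN
import Pool.Agent.Lib_helper15.MQRF.CE
import Pool.Agent.Lib_helper15.MQRF.DE
import Pool.Agent.Lib_helper15.MQRF.EA
import Pool.Agent.Lib_helper15.MQRF.EB
import Pool.Agent.Lib_helper15.MQRF.EC
import Pool.Agent.Lib_helper15.MQRF.EG
import Pool.Agent.Lib_helper15.MQRF.EH
import Pool.Agent.Lib_helper15.MQRF.EI
import Pool.Agent.Lib_helper15.MQRF.KC
import Pool.Agent.Lib_helper15.MQRF.KD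
import Pool.Agent.Lib_helper15.MQRF.KH
import Pool.Agent.Lib_helper15.MQRF.PD
import Pool.Agent.Lib_helper17.RS.P_UR
import Pool.Agent.Lib_helper17.RS.P_IF
import Pool.Agent.Lib_helper17.RS.P_UP2

/-!
# Block AA of the project MQR: the lower bound for the exponent (after blocks AB, AC)
-/

set_option autoImplicit false
set_option linter.unusedSectionVars false
set_option linter.unusedVariables false

namespace Pool.Agent.MQR

open Pool.Agent.RSK Pool.Agent.RS2 Pool.Agent.RS3 Pool.Agent.SY Pool.Agent.AU Pool.Agent.CR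
open Pool.Agent.RG Pool.Agent.QR
open NumberField IsDedekindDomain

section A

variable {F H : Type} [Field F] [NumberField F] [Field H] [NumberField H] [Algebra F H]
  [IsGalois F H] {G : Type} [CommGroup G] [Fintype G] {ι : G ≃* (H ≃ₐ[F] H)}
  {S T : Finset (HeightOneSpectrum (𝓞 F))} {r : ℕ} {w : Fin r → Pl H}
  {fr : HeightOneSpectrum (𝓞 F) → G}

/-- the homomorphism given by the symbols -/
noncomputable def aaH (ι : G ≃* (H ≃ₐ[F] H)) {S T : Finset (HeightOneSpectrum (𝓞 F))} {r : ℕ}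
    {w : Fin r → Pl H} (P₀ : Sx w S)
    (hs : ∀ (θ : Ch G) (v : Pl F) (b b' : Additive Fˣ), sy ι θ v (b + b') = sy ι θ v b + sy ι θ v b')
    (θ : Ch G) : ES S T →+ ({P : Sx w S // P ≠ P₀} → ZMod 2) :=
  AddMonoidHom.mk' (fun b P => sy ι θ P.1.1.pl b.1) (fun b b' => by
    funext P
    exact hs θ _ _ _)

theorem aaH_ker (hD : Data ι S T r w fr) (P₀ : Sx w S) {θ : Ch G} (hθ : θ ≠ 0)
    (σ : Kf ι (kr θ) ≃ₐ[F] Kf ι (kr θ)) (hσ : σ ≠ 1) :
    (aaH ι (T := T) P₀ sy_add_right θ).ker = Zs S T σ := by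
  ext b
  rw [hasse_T hD hθ σ hσ b, AddMonoidHom.mem_ker]
  constructor
  · intro h P
    have h0 : ∀ Q : Sx w S, Q ≠ P₀ → sy ι θ Q.1.pl b.1 = 0 := fun Q hQ => congrFun h ⟨Q, hQ⟩
    obtain ⟨h1, h2⟩ := sy_sx hD θ b
    by_cases hP : ∀ i, P.pl ≠ dn F (w i)
    · by_cases hP0 : (⟨P, hP⟩ : Sx w S) = P₀
      · rw [finsum_eq_single _ P₀ h0] at h2
        rw [← hP0] at h2
        exact h2
      · exact h0 ⟨P, hP⟩ hP0
    · exact h1 P hP
  · intro h
    funext Q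
    exact h Q.1.1

theorem aa_chi (hD : Data ι S T r w fr) {ρ : ℕ} (hρ : a2 S T = 2 ^ ρ) {θ : Ch G} (hθ : θ ≠ 0)
    (hX : Xr ι S w θ) :
    2 ^ (Fintype.card (InfinitePlace F) + S.card - (r + 1) + ρ) ∣ nn ι S T r θ := by
  classical
  obtain ⟨P₀⟩ := sx_nonempty hD
  have : IsGalois F (Kf ι (kr θ)) := kf_galois ι (kr θ)
  have hcard := kf_card (ι := ι) hθ
  obtain ⟨σ, hσ⟩ : ∃ σ : Kf ι (kr θ) ≃ₐ[F] Kf ι (kr θ), σ ≠ 1 := by
    have : Finite (Kf ι (kr θ) ≃ₐ[F] Kf ι (kr θ)) := Nat.finite_of_card_ne_zero (by omega)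
    have : Nontrivial (Kf ι (kr θ) ≃ₐ[F] Kf ι (kr θ)) :=
      Finite.one_lt_card_iff_nontrivial.1 (by omega)
    exact exists_ne 1
  have hunr : ∀ W : HeightOneSpectrum (𝓞 (Kf ι (kr θ))), W.under (𝓞 F) ∉ S →
      Algebra.IsUnramifiedAt (𝓞 F) W.asIdeal := fun W hW => kf_unr hD (kr θ) W hW
  have htf : TFree S T := RSK.tf_F (RSK.tf_H hD).1
  obtain ⟨B, hB⟩ := bs_exists hD θ hX
  obtain ⟨hQU, hU⟩ := u1_index hD hB
  obtain ⟨δ, hδ1, hδ2, -⟩ := delta_ex hD.disj hcard σ hσ hunr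
  have hfin : Finite (Dv (ovr (Kf ι (kr θ)) T) ⧸
      (BT (Kf ι (kr θ)) S T).addSubgroupOf (Dv (ovr (Kf ι (kr θ)) T))) := by
    have h : ((BT (Kf ι (kr θ)) S T).addSubgroupOf (Dv (ovr (Kf ι (kr θ)) T))).FiniteIndex :=
      ⟨hJ_ne (F := F) (Kf ι (kr θ)) S T⟩
    infer_instance
  have hI : Fintype.card {P : Sx w S // P ≠ P₀} =
      Fintype.card (InfinitePlace F) + S.card - (r + 1) := by
    rw [← sx_card hD P₀, Nat.card_eq_fintype_card]
  have hQ : (sqE S T).index = 2 ^ (r + Fintype.card {P : Sx w S // P ≠ P₀} + ρ) := by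
    rw [es_index hD.disj htf, hρ, ← pow_add, hI]
    have := hD.card
    congr 1
    omega
  have hUZ : U1 ι S T θ ≤ Zs S T σ := fun b hb => by
    obtain ⟨y, hy, hd⟩ := (u1_dd hD hθ σ hσ b).1 hb
    exact ⟨y, hy, hd.norm⟩
  have hδk : ∀ z : Zs S T σ, δ z = 0 ↔ (z : ES S T) ∈ U1 ι S T θ := fun z => by
    rw [hδ1 z, u1_dd hD hθ σ hσ z.1]
  have key := crit_low (sqE S T) (U1 ι S T θ) (Zs S T σ) hQ hQU hU hUZ δ hδk hδ2
    (aaH ι P₀ sy_add_right θ) (aaH_ker hD P₀ hθ σ hσ)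
  have hnn : nn ι S T r θ = 2 ^ (Fintype.card (InfinitePlace F) + S.card - (r + 1)) *
      Nat.card (Dv (ovr (Kf ι (kr θ)) T) ⧸
        (BT (Kf ι (kr θ)) S T).addSubgroupOf (Dv (ovr (Kf ι (kr θ)) T))) := by
    unfold nn
    rw [if_neg hθ]
    rfl
  rw [hnn, pow_add]
  exact Nat.mul_dvd_mul_left _ key

theorem aa_zero (hD : Data ι S T r w fr) {ρ : ℕ} (hρ : a2 S T = 2 ^ ρ)
    (hX : Xr ι S w (0 : Ch G)) :
    2 ^ (Fintype.card (InfinitePlace F) + S.card - (r + 1) + ρ) ∣ nn ι S T r (0 : Ch G) := by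
  classical
  have hcard : Fintype.card (InfinitePlace F) + S.card = r + 1 := hX.1 rfl
  obtain ⟨B, hB⟩ := RG.bs_exists hD 0 hX
  obtain ⟨hsq, hrel⟩ := u1_index hD hB
  obtain ⟨δ₀, hδ1, hδ2, hδ3⟩ := delta0_ex hD.disj
  have htf : TFree S T := RSK.tf_F (RSK.tf_H hD).1
  have hidx := es_index hD.disj htf
  have hfin : Finite (Dv T ⧸ (Pr S T).addSubgroupOf (Dv T)) :=
    Nat.finite_of_card_ne_zero (hA_ne S T)
  have key := crit_low (E := ES S T) (B := Dv T ⧸ (Pr S T).addSubgroupOf (Dv T)) (r := r)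
    (ρ := ρ) (I := Fin 0)
    (sqE S T) (U1 ι S T 0) ⊤ (by
      rw [hidx, hρ, hcard, Fintype.card_fin, Nat.add_sub_cancel, ← pow_add, add_zero])
    hsq hrel le_top (δ₀.comp (⊤ : AddSubgroup (ES S T)).subtype)
    (fun z => by
      rw [u1_zero hD]
      exact hδ2 z.1)
    (fun x => by
      rw [hδ3 x]
      constructor
      · rintro ⟨b, hb⟩
        exact ⟨⟨b, trivial⟩, hb⟩
      · rintro ⟨z, hz⟩
        exact ⟨z.1, hz⟩)
    0 (by
      ext x
      simp)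
  have hnn : nn ι S T r (0 : Ch G) = Nat.card (Dv T ⧸ (Pr S T).addSubgroupOf (Dv T)) := by
    unfold nn
    rw [if_pos rfl]
    rfl
  rw [hcard, Nat.sub_self, zero_add, hnn]
  exact key

theorem nn_low_pr (hD : Data ι S T r w fr) {ρ : ℕ} (hρ : a2 S T = 2 ^ ρ) {θ : Ch G}
    (hX : Xr ι S w θ) :
    2 ^ (Fintype.card (InfinitePlace F) + S.card - (r + 1) + ρ) ∣ nn ι S T r θ := by
  by_cases hθ : θ = 0
  · subst hθ
    exact aa_zero hD hρ hX
  · exact aa_chi hD hρ hθ hX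

end A

alias nn_low := nn_low_pr

end Pool.Agent.MQR
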