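import Pool.Agent.Lib_helper15.MQR.Defs
import Pool.Agent.Lib_helper17.QRF.All
import Pool.Agent.Lib_helper15.MQRF.KB
import Pool.Agent.Lib_helper15.MQRF.KF

/-!
# MQR block KI: `cheb_G_pr`
-/

set_option autoImplicit false
set_option linter.unusedSectionVars false
set_option linter.unusedVariables false

namespace Pool.Agent.MQR

open Pool.Agent.RSK Pool.Agent.RS2 Pool.Agent.RS3 Pool.Agent.SY Pool.Agent.AU Pool.Agent.CR
open Pool.Agent.RG Pool.Agent.QR
open NumberField IsDedekindDomain

section K

variable {F H : Type} [Field F] [NumberField F] [Field H] [NumberField H] [Algebra F H]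
  [IsGalois F H] {G : Type} [CommGroup G] [Fintype G] {ι : G ≃* (H ≃ₐ[F] H)}
  {S T : Finset (HeightOneSpectrum (𝓞 F))} {r : ℕ} {w : Fin r → Pl H}
  {fr : HeightOneSpectrum (𝓞 F) → G}

/-- the characters separate the elements of an elementary abelian group -/
theorem ki_sep (hexp : ∀ g : G, g ^ 2 = 1) (g h : G)
    (e : ∀ θ : Ch G, θ (Additive.ofMul g) = θ (Additive.ofMul h)) : g = h := by
  letI : Module (ZMod 2) (Additive G) := AddCommGroup.zmodModule (n := 2) fun x => by
    have := hexp x.toMul
    exact this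
  have h1 : Additive.ofMul g - Additive.ofMul h = 0 := by
    refine (Module.forall_dual_apply_eq_zero_iff (ZMod 2) _).1 fun φ => ?_
    rw [map_sub, sub_eq_zero]
    exact e φ.toAddMonoidHom
  have h2 : Additive.ofMul g = Additive.ofMul h := sub_eq_zero.1 h1
  exact h2

theorem ki_km_sum {I : Type} (s : Finset I) (θ : I → Ch G) (a : I → Fˣ)
    (h : ∀ i ∈ s, Km ι (θ i) (a i)) : Km ι (∑ i ∈ s, θ i) (∏ i ∈ s, a i) := by
  classical
  induction s using Finset.induction_on with
  | empty =>
    rw [Finset.sum_empty, Finset.prod_empty]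
    refine ⟨1, by simp, fun g => ?_⟩
    have e : sg (0 : Ch G) g = 1 := by
      unfold sg
      rw [if_pos (AddMonoidHom.zero_apply _)]
    rw [e]
    simp
  | insert i s hi ih =>
    rw [Finset.sum_insert hi, Finset.prod_insert hi]
    exact km_add (h i (Finset.mem_insert_self i s))
      (ih fun j hj => h j (Finset.mem_insert_of_mem hj))

theorem cheb_G_pr (hD : Data ι S T r w fr) (hexp : ∀ g : G, g ^ 2 = 1) (g : G)
    (B : Finset (HeightOneSpectrum (𝓞 F))) :
    ∃ v : HeightOneSpectrum (𝓞 F), v ∉ S ∧ v ∉ B ∧ fr v = g := by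
  classical
  have hfin : Finite (Ch G) :=
    Finite.of_injective (fun θ : Ch G => (θ : Additive G → ZMod 2)) DFunLike.coe_injective
  have hfd : Module.Finite (ZMod 2) (Ch G) := Module.Finite.of_finite
  let b := Module.finBasis (ZMod 2) (Ch G)
  obtain ⟨v, hvB, -, hv⟩ := cheb (fun i => af ι (b i)) (fun I hI => by
    obtain ⟨y, hy⟩ := hI
    have h3 : Km ι (∑ i ∈ I, b i) (∏ i ∈ I, af ι (b i)) :=
      ki_km_sum I (fun i => b i) (fun i => af ι (b i)) fun i _ => af_spec ι (b i)
    have h4 : ∑ i ∈ I, b i = 0 := km_sq h3 ⟨y, hy⟩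
    by_contra hne
    obtain ⟨j, hj⟩ := Finset.nonempty_iff_ne_empty.2 hne
    have h5 := (Fintype.linearIndependent_iff.1 b.linearIndependent)
      (fun i => if i ∈ I then 1 else 0) (by
        rw [← h4, ← Finset.sum_filter_add_sum_filter_not Finset.univ (fun i => i ∈ I)]
        rw [Finset.sum_congr (g := fun i => b i) rfl (fun i hi => by
          rw [if_pos (Finset.mem_filter.1 hi).2, one_smul])]
        rw [Finset.sum_congr (s₁ := Finset.univ.filter fun i => i ∉ I) (g := fun _ => 0) rfl
          (fun i hi => by rw [if_neg (Finset.mem_filter.1 hi).2, zero_smul])]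
        rw [Finset.sum_const_zero, add_zero]
        congr 1
        ext i
        simp) j
    rw [if_pos hj] at h5
    exact one_ne_zero h5) (fun i => b i (Additive.ofMul g) = 0) (B ∪ S)
  rw [Finset.mem_union, not_or] at hvB
  refine ⟨v, hvB.2, hvB.1, ?_⟩
  refine ki_sep hexp _ _ fun θ => ?_
  have key : ∀ i, b i (Additive.ofMul (fr v)) = b i (Additive.ofMul g) := fun i => by
    have h5 : b i (Additive.ofMul (fr v)) = 0 ↔ b i (Additive.ofMul g) = 0 :=
      (fr_iff hD (b i) hvB.2).symm.trans (hv i).2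
    have aux : ∀ x y : ZMod 2, (x = 0 ↔ y = 0) → x = y := by decide
    exact aux _ _ h5
  have hspan : θ = ∑ i, b.repr θ i • b i := (b.sum_repr θ).symm
  have hsm : ∀ (n : ZMod 2) (χ : Ch G) (x : Additive G), (n • χ) x = n * χ x := fun n χ x => rfl
  rw [hspan, AddMonoidHom.finsetSum_apply, AddMonoidHom.finsetSum_apply]
  refine Finset.sum_congr rfl fun i _ => ?_
  rw [hsm, hsm, key]

end K

alias cheb_G := cheb_G_pr

end Pool.Agent.MQR
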