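import Pool.Agent.Lib_helper15.MQR.Defs
import Pool.Agent.Lib_helper17.QRF.All
import Pool.Agent.Lib_helper15.MQRF.KE
import Pool.Agent.Lib_helper15.MQRF.KG
import Pool.Agent.Lib_helper15.MQRF.KI

set_option autoImplicit false
set_option linter.unusedSectionVars false
set_option linter.unusedVariables false

namespace Pool.Agent.MQR

open Pool.Agent.RSK Pool.Agent.RS2 Pool.Agent.RS3 Pool.Agent.SY Pool.Agent.AU Pool.Agent.CR
open Pool.Agent.RG Pool.Agent.QR
open NumberField IsDedekindDomain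

/-- A family of functionals to `ZMod 2` whose nontrivial subsums do not vanish on `A` takes all
values on `A`. -/
theorem cc_surj {M : Type*} [AddCommGroup M] (A : AddSubgroup M) {t : ℕ}
    (f : Fin t → M →+ ZMod 2)
    (h : ∀ I : Finset (Fin t), I ≠ ∅ → ∃ D ∈ A, ∑ i ∈ I, f i D ≠ 0) (x : Fin t → ZMod 2) :
    ∃ D ∈ A, ∀ i, f i D = x i := by
  classical
  let Φ : M →+ (Fin t → ZMod 2) := AddMonoidHom.pi f
  by_contra hx
  have hxR : x ∉ AddSubgroup.toZModSubmodule 2 (A.map Φ) := by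
    intro hm
    obtain ⟨D, hD, e⟩ := (AddSubgroup.mem_map).1 ((AddSubgroup.mem_toZModSubmodule 2).1 hm)
    exact hx ⟨D, hD, fun i => congrFun e i⟩
  have hlt : AddSubgroup.toZModSubmodule 2 (A.map Φ) < ⊤ :=
    lt_top_iff_ne_top.2 fun e => hxR (e ▸ Submodule.mem_top)
  obtain ⟨φ, hφ0, hφ⟩ := Submodule.exists_le_ker_of_lt_top _ hlt
  have hne : (Finset.univ.filter fun i : Fin t => φ (Pi.single i 1) ≠ 0) ≠ ∅ := by
    intro he
    refine hφ0 (LinearMap.pi_ext' fun i => LinearMap.ext_ring ?_)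
    by_contra hi
    have : i ∈ (Finset.univ.filter fun i : Fin t => φ (Pi.single i 1) ≠ 0) :=
      Finset.mem_filter.2 ⟨Finset.mem_univ i, hi⟩
    rw [he] at this
    exact absurd this (Finset.notMem_empty i)
  obtain ⟨D, hD, hs⟩ := h _ hne
  apply hs
  have h1 : φ (Φ D) = 0 := by
    have : Φ D ∈ LinearMap.ker φ :=
      hφ ((AddSubgroup.mem_toZModSubmodule 2).2 (AddSubgroup.mem_map_of_mem Φ hD))
    exact this
  have h2 : φ (Φ D) = ∑ i, f i D * φ (Pi.single i 1) := by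
    have e : Φ D = ∑ i, (f i D) • (Pi.single i 1 : Fin t → ZMod 2) := by
      funext j
      rw [Finset.sum_apply, Finset.sum_eq_single j]
      · show f j D = f j D * (Pi.single j 1 : Fin t → ZMod 2) j
        rw [Pi.single_eq_same, mul_one]
      · intro i _ hij
        show f i D * (Pi.single i 1 : Fin t → ZMod 2) j = 0
        rw [Pi.single_eq_of_ne (Ne.symm hij), mul_zero]
      · intro hj
        exact absurd (Finset.mem_univ j) hj
    rw [e, map_sum]
    exact Finset.sum_congr rfl fun i _ => by rw [map_smul, smul_eq_mul]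
  refine Eq.trans ?_ (h2.symm.trans h1)
  rw [Finset.sum_filter]
  refine Finset.sum_congr rfl fun i _ => ?_
  have key : ∀ a : ZMod 2, a ≠ 0 → a = 1 := by decide
  split_ifs with hi
  · rw [key _ hi, mul_one]
  · rw [not_not.1 hi, mul_zero]

theorem cc_wt_congr {k : Type} [Field k] [NumberField k] (c : HeightOneSpectrum (𝓞 k) → ZMod 2)
    (D D' : Dvs k) (h : ∀ v, c v ≠ 0 → D v = D' v) : wt c D = wt c D' := by
  rw [← sub_eq_zero, ← map_sub, wt_apply]
  refine Finset.sum_eq_zero fun v _ => ?_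
  show (((D - D') v : ℤ) : ZMod 2) * c v = 0
  by_cases hv : c v = 0
  · rw [hv, mul_zero]
  · rw [Finsupp.sub_apply, h v hv, sub_self, Int.cast_zero, zero_mul]

section R

variable {F H : Type} [Field F] [NumberField F] [Field H] [NumberField H] [Algebra F H]
  [IsGalois F H] {G : Type} [CommGroup G] [Fintype G] {ι : G ≃* (H ≃ₐ[F] H)}
  {S T : Finset (HeightOneSpectrum (𝓞 F))} {r : ℕ} {w : Fin r → Pl H}
  {fr : HeightOneSpectrum (𝓞 F) → G}

theorem cc_above (K : Type) [Field K] [NumberField K] [Algebra F K]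
    (v : HeightOneSpectrum (𝓞 F)) : ∃ W : HeightOneSpectrum (𝓞 K), W.under (𝓞 F) = v := by
  obtain ⟨W, hW⟩ := dn_surj (F := F) (H := K) (Sum.inr v)
  rcases W with W | W
  · exact absurd hW (by intro h; exact Sum.inl_ne_inr h)
  · exact ⟨W, Sum.inr_injective hW⟩

/-- if `c` vanishes on the kernel of `θ`, then `c = 0` or `c = θ` -/
theorem cc_ker {c θ : Ch G} (hc : c ≠ 0) (h : ∀ g : Additive G, θ g = 0 → c g = 0) : c = θ := by
  have key : ∀ a : ZMod 2, a ≠ 0 → a = 1 := by decide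
  obtain ⟨g₀, hg₀⟩ : ∃ g₀, c g₀ ≠ 0 := by
    by_contra hn
    push Not at hn
    exact hc (AddMonoidHom.ext hn)
  have h1 : θ g₀ = 1 := key _ fun h0 => hg₀ (h g₀ h0)
  have h2 : c g₀ = 1 := key _ hg₀
  refine AddMonoidHom.ext fun g => ?_
  by_cases hg : θ g = 0
  · rw [hg, h g hg]
  · have hg1 : θ g = 1 := key _ hg
    have h3 : c (g + g₀) = 0 := h _ (by rw [map_add, hg1, h1]; decide)
    rw [map_add, h2] at h3
    rw [hg1]
    revert h3
    generalize c g = a
    revert a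
    decide

theorem cc_sum_sp {t : ℕ} {c : Fin t → Ch G} (hc : ∀ i, Sp ι S (c i)) (I : Finset (Fin t)) :
    Sp ι S (∑ i ∈ I, c i) :=
  (C0 ι S).sum_mem fun i _ => hc i

theorem cdN_surj_pr (hD : Data ι S T r w fr) (hexp : ∀ g : G, g ^ 2 = 1) {θ : Ch G}
    (hθ : ¬ Sp ι S θ) {t : ℕ} {c : Fin t → Ch G} (hc : ∀ i, Sp ι S (c i))
    (hind : ∀ I : Finset (Fin t), ∑ i ∈ I, c i = 0 → I = ∅) (x : Fin t → ZMod 2) :
    ∃ D ∈ Dv (ovr (Kf ι (kr θ)) T), ∀ i, cdN (Kf ι (kr θ)) fr S θ (c i) D = x i := by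
  classical
  refine cc_surj _ (fun i => cdN (Kf ι (kr θ)) fr S θ (c i)) (fun I hI => ?_) x
  have hne : ∑ i ∈ I, c i ≠ 0 := fun h => hI (hind I h)
  obtain ⟨g, hg1, hg2⟩ : ∃ g : G, θ (Additive.ofMul g) = 0 ∧
      (∑ i ∈ I, c i) (Additive.ofMul g) ≠ 0 := by
    by_contra hn
    push Not at hn
    have h := cc_ker hne fun g hg => hn (Additive.toMul g) hg
    exact hθ (h ▸ cc_sum_sp hc I)
  obtain ⟨v, hvS, hvT, hfr⟩ := cheb_G hD hexp g T
  obtain ⟨W, hW⟩ := cc_above (F := F) (Kf ι (kr θ)) v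
  refine ⟨Finsupp.single W 1, fun W' hW' => ?_, ?_⟩
  · rw [Finsupp.single_apply, if_neg]
    rintro rfl
    rw [mem_ovr, hW] at hW'
    exact hvT hW'
  · have e : ∀ i, cdN (Kf ι (kr θ)) fr S θ (c i) (Finsupp.single W 1) =
        c i (Additive.ofMul g) := fun i => by
      unfold cdN
      rw [wt_single, hW, hfr, if_neg, Int.cast_one, one_mul]
      rintro (h | h)
      · exact hvS h
      · exact h hg1
    rw [Finset.sum_congr rfl fun i _ => e i]
    rwa [AddMonoidHom.finsetSum_apply] at hg2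

theorem cdF_surj_pr (hD : Data ι S T r w fr) (hexp : ∀ g : G, g ^ 2 = 1) {t : ℕ}
    {c : Fin t → Ch G}
    (hind : ∀ I : Finset (Fin t), ∑ i ∈ I, c i = 0 → I = ∅) (x : Fin t → ZMod 2) :
    ∃ D ∈ Dv T, ∀ i, cdF fr S (c i) D = x i := by
  classical
  refine cc_surj _ (fun i => cdF fr S (c i)) (fun I hI => ?_) x
  have hne : ∑ i ∈ I, c i ≠ 0 := fun h => hI (hind I h)
  obtain ⟨g, hg2⟩ : ∃ g : G, (∑ i ∈ I, c i) (Additive.ofMul g) ≠ 0 := by
    by_contra hn
    push Not at hn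
    exact hne (AddMonoidHom.ext fun g => hn (Additive.toMul g))
  obtain ⟨v, hvS, hvT, hfr⟩ := cheb_G hD hexp g T
  refine ⟨Finsupp.single v 1, fun v' hv' => ?_, ?_⟩
  · rw [Finsupp.single_apply, if_neg]
    rintro rfl
    exact hvT hv'
  · have e : ∀ i, cdF fr S (c i) (Finsupp.single v 1) = c i (Additive.ofMul g) := fun i => by
      unfold cdF
      rw [wt_single, hfr, if_neg hvS, Int.cast_one, one_mul]
    rw [Finset.sum_congr rfl fun i _ => e i]
    rwa [AddMonoidHom.finsetSum_apply] at hg2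

theorem cdF_Pr_pr (hD : Data ι S T r w fr) {c : Ch G} (hcS : Sp ι S c) {D : Dvs F}
    (hDP : D ∈ Pr S T) : cdF fr S c D = 0 := by
  classical
  obtain ⟨-, x, -, hx⟩ := hDP
  have h1 : cdF fr S c D = cdF fr S c (dv F (Additive.ofMul x)) := by
    unfold cdF
    refine cc_wt_congr _ _ _ fun v hv => ?_
    rw [dv_apply]
    refine hx v fun h => hv ?_
    rw [if_pos h]
  rw [h1, ← sy_prod hD c (Additive.ofMul x)]
  exact Finset.sum_eq_zero fun P _ => hs_of_sq ((sq_iff c P.pl).2 (hcS P)) _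

end R

alias cdN_surj := cdN_surj_pr
alias cdF_surj := cdF_surj_pr
alias cdF_Pr := cdF_Pr_pr

end Pool.Agent.MQR

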