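import Pool.Agent.Lib_helper15.MQR.Defs
import Pool.Agent.Lib_helper15.MQRF.KD
import Pool.Agent.Lib_helper15.MQRF.KF
import Pool.Agent.Lib_helper17.RS.P_IF
import Pool.Agent.Lib_helper17.RS.P_UP2

/-!
# Multiquadratic extensions, small `S` (MQR): block RB
-/

set_option autoImplicit false
set_option linter.unusedSectionVars false
set_option linter.unusedVariables false

namespace Pool.Agent.MQR

open Pool.Agent.RSK Pool.Agent.RS2 Pool.Agent.RS3 Pool.Agent.SY Pool.Agent.AU Pool.Agent.CR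
open Pool.Agent.RG Pool.Agent.QR
open NumberField IsDedekindDomain

section R

variable {F H : Type} [Field F] [NumberField F] [Field H] [NumberField H] [Algebra F H]
  [IsGalois F H] {G : Type} [CommGroup G] [Fintype G] {ι : G ≃* (H ≃ₐ[F] H)}
  {S T : Finset (HeightOneSpectrum (𝓞 F))} {r : ℕ} {w : Fin r → Pl H}
  {fr : HeightOneSpectrum (𝓞 F) → G}

theorem rb_wt_map {k K : Type} [Field k] [NumberField k] [Field K] [NumberField K]
    (c : HeightOneSpectrum (𝓞 k) → ZMod 2)
    (g : HeightOneSpectrum (𝓞 K) → HeightOneSpectrum (𝓞 k)) (D : Dvs K) :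
    wt (fun W => c (g W)) D = wt c (D.mapDomain g) := by
  induction D using Finsupp.induction_linear with
  | zero => rw [map_zero, Finsupp.mapDomain_zero, map_zero]
  | add f g' hf hg => rw [map_add, hf, hg, Finsupp.mapDomain_add, map_add]
  | single W n => rw [wt_single, Finsupp.mapDomain_single, wt_single]

open scoped Classical in
/-- Block RB: `cdN` depends only on the push-forward of the divisor to `F`. -/
theorem cdN_map_pr (K : Type) [Field K] [NumberField K] [Algebra F K] (c θ : Ch G) (D : Dvs K) :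
    cdN K fr S c θ D = wt (fun v : HeightOneSpectrum (𝓞 F) =>
      if v ∈ S ∨ c (Additive.ofMul (fr v)) ≠ 0 then 0 else θ (Additive.ofMul (fr v)))
        (D.mapDomain fun W => W.under (𝓞 F)) := by
  rw [← rb_wt_map]
  unfold cdN
  congr 1

theorem rb_ne {θ : Ch G} (σ : Kf ι (kr θ) ≃ₐ[F] Kf ι (kr θ)) (hσ : σ ≠ 1) : θ ≠ 0 := by
  rintro rfl
  apply hσ
  obtain ⟨ι', -⟩ := kf_quo ι (kr (0 : Ch G))
  have h1 : ∀ q : G ⧸ kr (0 : Ch G), q = 1 := by
    intro q
    induction q using QuotientGroup.induction_on with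
    | H g =>
      rw [QuotientGroup.eq_one_iff]
      rfl
  obtain ⟨q, rfl⟩ := ι'.surjective σ
  rw [h1 q, map_one]

theorem rb_two {K : Type} [Field K] [Algebra F K] [FiniteDimensional F K]
    (hcard : Nat.card (K ≃ₐ[F] K) = 2) (σ : K ≃ₐ[F] K) (hσ : σ ≠ 1) (τ : K ≃ₐ[F] K) :
    τ = 1 ∨ τ = σ := by
  classical
  by_contra hcon
  push Not at hcon
  have h1 : ({1, σ, τ} : Finset (K ≃ₐ[F] K)).card = 3 := by
    rw [Finset.card_eq_three]
    exact ⟨1, σ, τ, hσ.symm, hcon.1.symm, hcon.2.symm, rfl⟩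
  have h2 := Finset.card_le_univ ({1, σ, τ} : Finset (K ≃ₐ[F] K))
  rw [← Nat.card_eq_fintype_card, hcard, h1] at h2
  omega

theorem rb_map {F K : Type} [Field F] [NumberField F] [Field K] [NumberField K] [Algebra F K]
    (W W' : HeightOneSpectrum (𝓞 K)) (hne : W' ≠ W) (hW' : W'.under (𝓞 F) = W.under (𝓞 F))
    (hall : ∀ V : HeightOneSpectrum (𝓞 K), V.under (𝓞 F) = W.under (𝓞 F) → V = W ∨ V = W')
    (D : Dvs K) : (D.mapDomain fun W => W.under (𝓞 F)) (W.under (𝓞 F)) = D W + D W' := by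
  classical
  induction D using Finsupp.induction_linear with
  | zero => rw [Finsupp.mapDomain_zero]; rfl
  | add f g hf hg =>
    rw [Finsupp.mapDomain_add, Finsupp.add_apply, hf, hg, Finsupp.add_apply, Finsupp.add_apply]
    abel
  | single V n =>
    rw [Finsupp.mapDomain_single, Finsupp.single_apply, Finsupp.single_apply, Finsupp.single_apply]
    by_cases h1 : V = W
    · subst h1
      rw [if_pos rfl, if_pos rfl, if_neg hne.symm, add_zero]
    · by_cases h2 : V = W'
      · subst h2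
        rw [if_pos hW', if_neg h1, if_pos rfl, zero_add]
      · rw [if_neg h1, if_neg h2, if_neg fun h3 => ?_, add_zero]
        rcases hall V h3 with h4 | h4
        · exact h1 h4
        · exact h2 h4

theorem map_split_pr (hD : Data ι S T r w fr) {θ : Ch G} (σ : Kf ι (kr θ) ≃ₐ[F] Kf ι (kr θ))
    (hσ : σ ≠ 1) (W : HeightOneSpectrum (𝓞 (Kf ι (kr θ)))) (hW : W.under (𝓞 F) ∉ S)
    (h : θ (Additive.ofMul (fr (W.under (𝓞 F)))) = 0) (D : Dvs (Kf ι (kr θ))) :
    (D.mapDomain fun W => W.under (𝓞 F)) (W.under (𝓞 F)) = D W + D (pac σ W) := by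
  have hθ := rb_ne σ hσ
  have hg := kf_galois ι (kr θ)
  have h1 : pac σ W ≠ W := fun h1 => (fr_split hD σ hσ hW).1 h1 h
  have h2 : (pac σ W).under (𝓞 F) = W.under (𝓞 F) := by
    have h3 : dn F (act σ (Sum.inr W : Pl (Kf ι (kr θ)))) = dn F (Sum.inr W) := dn_act σ _
    exact Sum.inr_injective h3
  refine rb_map W (pac σ W) h1 h2 (fun V hV => ?_) D
  have h3 : dn F (Sum.inr W : Pl (Kf ι (kr θ))) = dn F (Sum.inr V) := by
    show (Sum.inr (W.under (𝓞 F)) : Pl F) = Sum.inr (V.under (𝓞 F))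
    rw [hV]
  obtain ⟨τ, hτ⟩ := act_trans h3
  have h4 : pac τ W = V := Sum.inr_injective hτ
  rcases rb_two (kf_card hθ) σ hσ τ with rfl | rfl
  · left
    have h5 : act (1 : Kf ι (kr θ) ≃ₐ[F] Kf ι (kr θ)) (Sum.inr W) = Sum.inr W := act_one _
    exact (Sum.inr_injective (hτ.symm.trans h5))
  · exact Or.inr h4.symm

end R

alias cdN_map := cdN_map_pr
alias map_split := map_split_pr

end Pool.Agent.MQR

section
open Pool.Agent.MQR
end
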