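import Pool.Agent.Lib_helper15.MQR.Defs
import Pool.Agent.Lib_helper17.QRF.All
import Pool.Agent.Lib_helper15.MQRF.KD
import Pool.Agent.Lib_helper15.MQRF.KE
import Pool.Agent.Lib_helper15.MQRF.KF
import Pool.Agent.Lib_helper15.MQRF.KG
import Pool.Agent.Lib_helper15.MQRF.RB
import Pool.Agent.Lib_helper17.RS.P_IF

/-!
# Project MQR, block RC: `c ∘ N` on principal and on invariant divisors (helper36)
-/

set_option autoImplicit false
set_option linter.unusedSectionVars false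
set_option linter.unusedVariables false

namespace Pool.Agent.MQR

open Pool.Agent.RSK Pool.Agent.RS2 Pool.Agent.RS3 Pool.Agent.SY Pool.Agent.AU Pool.Agent.CR
open Pool.Agent.RG Pool.Agent.QR
open NumberField IsDedekindDomain

theorem rc_wt {k : Type} [Field k] [NumberField k] (c c' : HeightOneSpectrum (𝓞 k) → ZMod 2)
    (D D' : Dvs k)
    (h : ∀ v, ((D v : ℤ) : ZMod 2) * c v = ((D' v : ℤ) : ZMod 2) * c' v) :
    wt c D = wt c' D' := by
  classical
  rw [wt_apply, wt_apply,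
    Finsupp.sum_of_support_subset D (Finset.subset_union_left (s₂ := D'.support)) _
      (fun i _ => by simp),
    Finsupp.sum_of_support_subset D' (Finset.subset_union_right (s₁ := D.support)) _
      (fun i _ => by simp)]
  exact Finset.sum_congr rfl fun v _ => h v

section Q

variable {F K : Type} [Field F] [NumberField F] [Field K] [NumberField K] [Algebra F K]

theorem rc_over (v : HeightOneSpectrum (𝓞 F)) :
    ∃ W : HeightOneSpectrum (𝓞 K), W.under (𝓞 F) = v := by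
  obtain ⟨W, hW⟩ := dn_surj (F := F) (H := K) (Sum.inr v)
  rcases W with W | W
  · exact absurd hW (by simp [dn])
  · exact ⟨W, by simpa [dn] using hW⟩

theorem rc_sq (hcard : Nat.card (K ≃ₐ[F] K) = 2) (σ : K ≃ₐ[F] K) : σ * σ = 1 := by
  by_cases hσ : σ = 1
  · rw [hσ, mul_one]
  · by_contra h
    obtain ⟨y, _, hy⟩ := (Nat.card_eq_two_iff' (1 : K ≃ₐ[F] K)).1 hcard
    have h1 := hy σ hσ
    have h2 := hy (σ * σ) h
    rw [← h1] at h2
    exact hσ (mul_eq_left.1 h2)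

theorem rc_pac (hcard : Nat.card (K ≃ₐ[F] K) = 2) (σ : K ≃ₐ[F] K)
    (W : HeightOneSpectrum (𝓞 K)) : pac σ (pac σ W) = W := by
  have h := act_mul σ σ (Sum.inr W : Pl K)
  rw [rc_sq hcard σ, act_one] at h
  exact (Sum.inr.inj h).symm

/-- the norm -/
theorem rc_norm [IsGalois F K] (hcard : Nat.card (K ≃ₐ[F] K) = 2) (σ : K ≃ₐ[F] K) (hσ : σ ≠ 1)
    (x : Kˣ) : ∃ b : Fˣ, algebraMap F K (b : F) = (x : K) * σ (x : K) := by
  obtain ⟨b, hb⟩ := fixed_unit (F := F) (x * Units.map (σ : K →* K) x) (fun τ => by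
    ext
    show τ ((x : K) * σ (x : K)) = (x : K) * σ (x : K)
    have hσσ : σ (σ (x : K)) = (x : K) := by
      have h := congrArg (fun τ : K ≃ₐ[F] K => τ (x : K)) (rc_sq hcard σ)
      exact h
    by_cases hτ : τ = 1
    · rw [hτ]
      rfl
    · obtain ⟨y, _, hy⟩ := (Nat.card_eq_two_iff' (1 : K ≃ₐ[F] K)).1 hcard
      rw [(hy τ hτ).trans (hy σ hσ).symm, map_mul, hσσ, mul_comm])
  exact ⟨b, congrArg Units.val hb⟩

theorem rc_ord (hcard : Nat.card (K ≃ₐ[F] K) = 2) (σ : K ≃ₐ[F] K) (x : Kˣ) (b : Fˣ)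
    (hb : algebraMap F K (b : F) = (x : K) * σ (x : K)) (W : HeightOneSpectrum (𝓞 K))
    (hW : Algebra.IsUnramifiedAt (𝓞 F) W.asIdeal) :
    ordv (W.under (𝓞 F)) (b : F) = ordv W (x : K) + ordv (pac σ W) (x : K) := by
  have h1 := ordv_act σ (pac σ W) (x : K)
  have h2 : ordv W (σ (x : K)) = ordv (pac σ W) (x : K) := by
    have h3 : (HeightOneSpectrum.equivOfRingEquiv
      (RingOfIntegers.mapRingEquiv σ.toRingEquiv)) (pac σ W) = W := rc_pac hcard σ W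
    rw [h3] at h1
    exact h1
  rw [← ordv_unr hW, hb, ← h2]
  exact ordv_mul W x (Units.map (σ : K →* K) x)

end Q

section R

variable {F H : Type} [Field F] [NumberField F] [Field H] [NumberField H] [Algebra F H]
  [IsGalois F H] {G : Type} [CommGroup G] [Fintype G] {ι : G ≃* (H ≃ₐ[F] H)}
  {S T : Finset (HeightOneSpectrum (𝓞 F))} {r : ℕ} {w : Fin r → Pl H}
  {fr : HeightOneSpectrum (𝓞 F) → G}

theorem rc_sigma {θ : Ch G} (hθ : θ ≠ 0) : ∃ σ : Kf ι (kr θ) ≃ₐ[F] Kf ι (kr θ), σ ≠ 1 := by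
  obtain ⟨y, hy, _⟩ := (Nat.card_eq_two_iff' (1 : Kf ι (kr θ) ≃ₐ[F] Kf ι (kr θ))).1
    (kf_card (ι := ι) hθ)
  exact ⟨y, hy⟩

theorem cdN_Pr_pr (hD : Data ι S T r w fr) {θ c : Ch G} (hθ : θ ≠ 0) (hcS : Sp ι S c)
    {D : Dvs (Kf ι (kr θ))} (hDP : D ∈ Pr (ovr (Kf ι (kr θ)) S) (ovr (Kf ι (kr θ)) T)) :
    cdN (Kf ι (kr θ)) fr S θ c D = 0 := by
  classical
  have hgal := kf_galois ι (kr θ)
  have hcard := kf_card (ι := ι) hθ
  obtain ⟨σ, hσ⟩ := rc_sigma (ι := ι) hθ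
  obtain ⟨hDT, x, hx, hDx⟩ := hDP
  obtain ⟨b, hb⟩ := rc_norm hcard σ hσ x
  have hsum : cdF fr S c (dv F (Additive.ofMul b)) = 0 := by
    rw [← sy_prod hD c (Additive.ofMul b)]
    exact Finset.sum_eq_zero fun P _ => hs_of_sq ((sq_iff c P.pl).2 (hcS P)) _
  rw [cdN_map]
  refine Eq.trans ?_ hsum
  unfold cdF
  refine rc_wt _ _ _ _ fun v => ?_
  obtain ⟨W, rfl⟩ := rc_over (K := Kf ι (kr θ)) v
  by_cases hS : W.under (𝓞 F) ∈ S
  · rw [if_pos (Or.inl hS), if_pos hS, mul_zero, mul_zero]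
  have hord := rc_ord hcard σ x b hb W (kf_unr hD (kr θ) W hS)
  have hdv : dv F (Additive.ofMul b) (W.under (𝓞 F)) =
      ordv W (x : Kf ι (kr θ)) + ordv (pac σ W) (x : Kf ι (kr θ)) := hord
  rw [hdv, if_neg hS]
  by_cases hθv : θ (Additive.ofMul (fr (W.under (𝓞 F)))) = 0
  · rw [if_neg (not_or.2 ⟨hS, not_not.2 hθv⟩), map_split hD σ hσ W hS hθv D,
      hDx W (by rw [mem_ovr]; exact hS), hDx (pac σ W) (by
        rw [mem_ovr]
        show (HeightOneSpectrum.equivOfRingEquiv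
          (RingOfIntegers.mapRingEquiv σ.toRingEquiv) W).under (𝓞 F) ∉ S
        rw [under_equiv]
        exact hS)]
  · have hfix : pac σ W = W := (fr_split hD σ hσ hS).2 hθv
    rw [if_pos (Or.inr hθv), mul_zero, hfix, Int.cast_add, CharTwo.add_self_eq_zero, zero_mul]

theorem cdN_inv_pr (hD : Data ι S T r w fr) {θ c : Ch G} (hθ : θ ≠ 0) {D : Dvs (Kf ι (kr θ))}
    (hDP : D ∈ DvP 2 F (Kf ι (kr θ)) T) : cdN (Kf ι (kr θ)) fr S θ c D = 0 := by
  classical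
  have hcard := kf_card (ι := ι) hθ
  obtain ⟨σ, hσ⟩ := rc_sigma (ι := ι) hθ
  rw [cdN_map]
  refine (rc_wt _ (fun _ => 0) _ 0 fun v => ?_).trans (map_zero _)
  rw [mul_zero]
  obtain ⟨W, rfl⟩ := rc_over (K := Kf ι (kr θ)) v
  by_cases hv : W.under (𝓞 F) ∈ S ∨ θ (Additive.ofMul (fr (W.under (𝓞 F)))) ≠ 0
  · rw [if_pos hv, mul_zero]
  · obtain ⟨h1, h2⟩ := not_or.1 hv
    have h3 : D (pac σ W) = D W := hDP.2 σ (by rw [pow_two]; exact rc_sq hcard σ) W
    rw [map_split hD σ hσ W h1 (not_not.1 h2) D, h3, Int.cast_add, CharTwo.add_self_eq_zero,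
      zero_mul]

end R

alias cdN_Pr := cdN_Pr_pr
alias cdN_inv := cdN_inv_pr

end Pool.Agent.MQR
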