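import Pool.Agent.Lib_helper15.MQR.Defs
import Pool.Agent.Lib_helper35.RG.AllN
import Pool.Agent.Lib_helper15.MQRF.CC
import Pool.Agent.Lib_helper15.MQRF.CE
import Pool.Agent.Lib_helper15.MQRF.DE
import Pool.Agent.Lib_helper15.MQRF.EA
import Pool.Agent.Lib_helper15.MQRF.EC
import Pool.Agent.Lib_helper15.MQRF.EG
import Pool.Agent.Lib_helper15.MQRF.EH
import Pool.Agent.Lib_helper15.MQRF.KC
import Pool.Agent.Lib_helper15.MQRF.KD
import Pool.Agent.Lib_helper15.MQRF.KH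
import Pool.Agent.Lib_helper15.MQRF.PD
import Pool.Agent.Lib_helper15.MQRF.RC
import Pool.Agent.Lib_helper17.RS.P_UR
import Pool.Agent.Lib_helper17.RS.P_IF
import Pool.Agent.Lib_helper17.RS.P_UP2

/-!
# Block AB of the project MQR: the criterion for a nontrivial character
-/

set_option autoImplicit false
set_option linter.unusedSectionVars false
set_option linter.unusedVariables false

namespace Pool.Agent.MQR

open Pool.Agent.RSK Pool.Agent.RS2 Pool.Agent.RS3 Pool.Agent.SY Pool.Agent.AU Pool.Agent.CR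
open Pool.Agent.RG Pool.Agent.QR
open NumberField IsDedekindDomain

section A

variable {F H : Type} [Field F] [NumberField F] [Field H] [NumberField H] [Algebra F H]
  [IsGalois F H] {G : Type} [CommGroup G] [Fintype G] {ι : G ≃* (H ≃ₐ[F] H)}
  {S T : Finset (HeightOneSpectrum (𝓞 F))} {r : ℕ} {w : Fin r → Pl H}
  {fr : HeightOneSpectrum (𝓞 F) → G}

/-- the decomposition groups of the places above a place agree -/
theorem ab_dg (W : Pl H) (g : G) (hg : act (ι g) W = W) : g ∈ dgF ι (dn F W) := by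
  intro W' hW'
  obtain ⟨σ, hσ⟩ := act_trans (F := F) (W := W) (W' := W') hW'.symm
  obtain ⟨k, rfl⟩ := ι.surjective σ
  rw [← hσ, ← act_mul, ← map_mul, mul_comm g k, map_mul, act_mul, hg]

theorem ab_not (P₀ : Sx w S) {θ : Ch G} (hθ : θ ≠ 0) (hX : Xr ι S w θ) : ¬ Sp ι S θ := by
  intro hsp
  obtain ⟨W, hW⟩ := dn_surj (F := F) (H := H) P₀.1.pl
  have h1 : InS S (dn F W) := by
    rw [hW]
    rcases P₀.1 with v | v
    · trivial
    · exact v.2
  obtain ⟨l, hl⟩ := hX.2 hθ W h1 (fun g hg => by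
    have h2 := ab_dg W g hg
    rw [hW] at h2
    exact hsp P₀.1 h2)
  exact P₀.2 l (by rw [← hW, hl])

theorem ab_norm {K : Type} [Field K] [NumberField K] [Algebra F K] {σ : K ≃ₐ[F] K}
    {b : ES S T} (h : ∃ y : Additive Kˣ, y.toMul ∈ KT (ovr K T) ∧ DD S σ b.1 y 0) :
    b ∈ Zs S T σ := by
  obtain ⟨y, hy, hd⟩ := h
  exact ⟨y, hy, hd.norm⟩

/-- the homomorphism given by the symbols -/
noncomputable def abH (ι : G ≃* (H ≃ₐ[F] H)) {S T : Finset (HeightOneSpectrum (𝓞 F))} {r : ℕ}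
    {w : Fin r → Pl H} (P₀ : Sx w S)
    (hs : ∀ (θ : Ch G) (v : Pl F) (b b' : Additive Fˣ), sy ι θ v (b + b') = sy ι θ v b + sy ι θ v b')
    (θ : Ch G) : ES S T →+ ({P : Sx w S // P ≠ P₀} → ZMod 2) :=
  AddMonoidHom.mk' (fun b P => sy ι θ P.1.1.pl b.1) (fun b b' => by
    funext P
    exact hs θ _ _ _)

/-- the homomorphism given by the `φ i θ` -/
noncomputable def abF {S T : Finset (HeightOneSpectrum (𝓞 F))} {t : ℕ}
    (φ : Fin t → Ch G → (ES S T →+ ZMod 2)) (θ : Ch G) : ES S T →+ (Fin t → ZMod 2) :=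
  AddMonoidHom.mk' (fun b i => φ i θ b) (fun b b' => by
    funext i
    exact map_add (φ i θ) b b')

theorem abH_ker (hD : Data ι S T r w fr) (P₀ : Sx w S) {θ : Ch G} (hθ : θ ≠ 0)
    (σ : Kf ι (kr θ) ≃ₐ[F] Kf ι (kr θ)) (hσ : σ ≠ 1) :
    (abH ι (T := T) P₀ sy_add_right θ).ker = Zs S T σ := by
  ext b
  rw [hasse_T hD hθ σ hσ b, AddMonoidHom.mem_ker]
  constructor
  · intro h P
    have h0 : ∀ Q : Sx w S, Q ≠ P₀ → sy ι θ Q.1.pl b.1 = 0 := fun Q hQ => congrFun h ⟨Q, hQ⟩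
    obtain ⟨h1, h2⟩ := sy_sx hD θ b
    by_cases hP : ∀ i, P.pl ≠ dn F (w i)
    · by_cases hP0 : (⟨P, hP⟩ : Sx w S) = P₀
      · rw [finsum_eq_single _ P₀ h0] at h2
        rw [← hP0] at h2
        exact h2
      · exact h0 ⟨P, hP⟩ hP0
    · exact h1 P hP
  · intro h
    funext Q
    exact h Q.1.1

theorem bt_chi_pr (hD : Data ι S T r w fr) (hexp : ∀ g : G, g ^ 2 = 1) {t : ℕ}
    (hρ : a2 S T = 2 ^ t) {c : Fin t → Ch G} {φ : Fin t → Ch G → (ES S T →+ ZMod 2)}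
    (hφ : Phi ι S T fr c φ) (P₀ : Sx w S) {θ : Ch G} (hθ : θ ≠ 0) (hX : Xr ι S w θ) :
    (Function.Surjective (bt ι P₀ φ sy_add_right θ) ↔
      ¬ 2 ^ (Fintype.card (InfinitePlace F) + S.card - (r + 1) + t + 1) ∣ nn ι S T r θ) ∧
    (Function.Surjective (bt ι P₀ φ sy_add_right θ) →
      (bt ι P₀ φ sy_add_right θ).ker = U1 ι S T θ) := by
  classical
  have : IsGalois F (Kf ι (kr θ)) := kf_galois ι (kr θ)
  have hcard := kf_card (ι := ι) hθ
  obtain ⟨σ, hσ⟩ : ∃ σ : Kf ι (kr θ) ≃ₐ[F] Kf ι (kr θ), σ ≠ 1 := by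
    have : Finite (Kf ι (kr θ) ≃ₐ[F] Kf ι (kr θ)) := Nat.finite_of_card_ne_zero (by omega)
    have : Nontrivial (Kf ι (kr θ) ≃ₐ[F] Kf ι (kr θ)) :=
      Finite.one_lt_card_iff_nontrivial.1 (by omega)
    exact exists_ne 1
  have hunr : ∀ W : HeightOneSpectrum (𝓞 (Kf ι (kr θ))), W.under (𝓞 F) ∉ S →
      Algebra.IsUnramifiedAt (𝓞 F) W.asIdeal := fun W hW => kf_unr hD (kr θ) W hW
  have htf : TFree S T := RSK.tf_F (RSK.tf_H hD).1
  obtain ⟨B, hB⟩ := bs_exists hD θ hX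
  obtain ⟨hQU, hU⟩ := u1_index hD hB
  obtain ⟨δ, hδ1, hδ2, hδ3⟩ := delta_ex hD.disj hcard σ hσ hunr
  have hfin : Finite (Dv (ovr (Kf ι (kr θ)) T) ⧸
      (BT (Kf ι (kr θ)) S T).addSubgroupOf (Dv (ovr (Kf ι (kr θ)) T))) := by
    have h : ((BT (Kf ι (kr θ)) S T).addSubgroupOf (Dv (ovr (Kf ι (kr θ)) T))).FiniteIndex :=
      ⟨hJ_ne (F := F) (Kf ι (kr θ)) S T⟩
    infer_instance
  have hI : Fintype.card {P : Sx w S // P ≠ P₀} =
      Fintype.card (InfinitePlace F) + S.card - (r + 1) := by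
    rw [← sx_card hD P₀, Nat.card_eq_fintype_card]
  have hQ : (sqE S T).index =
      2 ^ (r + Fintype.card {P : Sx w S // P ≠ P₀} + Fintype.card (Fin t)) := by
    rw [es_index hD.disj htf, hρ, ← pow_add, hI, Fintype.card_fin]
    have := hD.card
    congr 1
    omega
  have hUZ : U1 ι S T θ ≤ Zs S T σ := fun b hb => ab_norm ((u1_dd hD hθ σ hσ b).1 hb)
  have hδk : ∀ z : Zs S T σ, δ z = 0 ↔ (z : ES S T) ∈ U1 ι S T θ := fun z => by
    rw [hδ1 z, u1_dd hD hθ σ hσ z.1]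
  -- the homomorphism on the class group
  set ψ0 : Dv (ovr (Kf ι (kr θ)) T) →+ (Fin t → ZMod 2) :=
    AddMonoidHom.mk' (fun D i => cdN (Kf ι (kr θ)) fr S θ (c i) D.1) (fun D D' => by
      funext i
      exact map_add (cdN (Kf ι (kr θ)) fr S θ (c i)) D.1 D'.1) with hψ0
  have hψk : ∀ D ∈ (BT (Kf ι (kr θ)) S T).addSubgroupOf (Dv (ovr (Kf ι (kr θ)) T)), ψ0 D = 0 := by
    intro D hD1
    have hD2 : D.1 ∈ BT (Kf ι (kr θ)) S T := hD1
    obtain ⟨D3, h3, D4, h4, h5⟩ := AddSubgroup.mem_sup.1 hD2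
    funext i
    show cdN (Kf ι (kr θ)) fr S θ (c i) D.1 = 0
    rw [← h5, map_add, cdN_Pr hD hθ (hφ.sp i) h3, cdN_inv hD hθ h4, add_zero]
  set ψ := QuotientAddGroup.lift _ ψ0 hψk with hψ
  have hψs : Function.Surjective ψ := by
    intro x
    obtain ⟨D, hD1, hD2⟩ := cdN_surj hD hexp (ab_not P₀ hθ hX) hφ.sp hφ.ind x
    refine ⟨QuotientAddGroup.mk ⟨D, hD1⟩, ?_⟩
    funext i
    exact hD2 i
  have hφψ : ∀ z : Zs S T σ, abF φ θ z = ψ (δ z) := by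
    intro z
    obtain ⟨y, D, h1, h2, h3⟩ := hδ3 z
    rw [h3]
    funext i
    exact hφ.chi i θ hθ σ hσ z.1 y D.1 h2
  have key := crit (sqE S T) (U1 ι S T θ) (Zs S T σ) hQ hQU hU hUZ δ hδk hδ2
    (abH ι P₀ sy_add_right θ) (abH_ker hD P₀ hθ σ hσ) ψ hψs (abF φ θ) hφψ
    (bt ι P₀ φ sy_add_right θ) (fun x => rfl)
  have hnn : nn ι S T r θ = 2 ^ (Fintype.card (InfinitePlace F) + S.card - (r + 1)) *
      Nat.card (Dv (ovr (Kf ι (kr θ)) T) ⧸
        (BT (Kf ι (kr θ)) S T).addSubgroupOf (Dv (ovr (Kf ι (kr θ)) T))) := by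
    unfold nn
    rw [if_neg hθ]
    rfl
  refine ⟨?_, key.2⟩
  rw [key.1, hnn, Fintype.card_fin, add_assoc _ t 1, pow_add 2 _ (t + 1),
    Nat.mul_dvd_mul_iff_left (by positivity)]

end A

alias bt_chi := bt_chi_pr

end Pool.Agent.MQR
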