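import Pool.Agent.Lib_helper15.MQR.Defs
import Pool.Agent.Lib_helper35.RG.AllN
import Pool.Agent.Lib_helper15.MQRF.CC
import Pool.Agent.Lib_helper15.MQRF.CE
import Pool.Agent.Lib_helper15.MQRF.EA
import Pool.Agent.Lib_helper15.MQRF.EB
import Pool.Agent.Lib_helper15.MQRF.EC
import Pool.Agent.Lib_helper15.MQRF.EG
import Pool.Agent.Lib_helper15.MQRF.EI
import Pool.Agent.Lib_helper15.MQRF.KC
import Pool.Agent.Lib_helper15.MQRF.PD
import Pool.Agent.Lib_helper17.RS.P_UR

/-!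
# Block AC of MQR (MP_dd9835_nt), by helper72: `θ = 0`
-/

set_option autoImplicit false
set_option linter.unusedSectionVars false
set_option linter.unusedVariables false

namespace Pool.Agent.MQR

open Pool.Agent.RSK Pool.Agent.RS2 Pool.Agent.RS3 Pool.Agent.SY Pool.Agent.AU Pool.Agent.CR
open Pool.Agent.RG Pool.Agent.QR
open NumberField IsDedekindDomain

section A

variable {F H : Type} [Field F] [NumberField F] [Field H] [NumberField H] [Algebra F H]
  [IsGalois F H] {G : Type} [CommGroup G] [Fintype G] {ι : G ≃* (H ≃ₐ[F] H)}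
  {S T : Finset (HeightOneSpectrum (𝓞 F))} {r : ℕ} {w : Fin r → Pl H}
  {fr : HeightOneSpectrum (𝓞 F) → G}

theorem bt_zero_pr (hD : Data ι S T r w fr) (hexp : ∀ g : G, g ^ 2 = 1) {t : ℕ}
    (hρ : a2 S T = 2 ^ t) {c : Fin t → Ch G} {φ : Fin t → Ch G → (ES S T →+ ZMod 2)}
    (hφ : Phi ι S T fr c φ) (P₀ : Sx w S) (hX : Xr ι S w (0 : Ch G)) :
    (Function.Surjective (bt ι P₀ φ sy_add_right 0) ↔
      ¬ 2 ^ (Fintype.card (InfinitePlace F) + S.card - (r + 1) + t + 1) ∣ nn ι S T r 0) ∧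
    (Function.Surjective (bt ι P₀ φ sy_add_right 0) →
      (bt ι P₀ φ sy_add_right 0).ker = U1 ι S T 0) := by
  classical
  have hcard : Fintype.card (InfinitePlace F) + S.card = r + 1 := hX.1 rfl
  obtain ⟨B, hB⟩ := RG.bs_exists hD 0 hX
  obtain ⟨hsq, hrel⟩ := u1_index hD hB
  obtain ⟨δ₀, hδ1, hδ2, hδ3⟩ := delta0_ex hD.disj
  have htf : TFree S T := RSK.tf_F (RSK.tf_H hD).1
  have hidx := es_index hD.disj htf
  have hI : Fintype.card {P : Sx w S // P ≠ P₀} = 0 := by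
    rw [← Nat.card_eq_fintype_card, sx_card hD P₀, hcard, Nat.sub_self]
  have hfin : Finite (Dv T ⧸ (Pr S T).addSubgroupOf (Dv T)) :=
    Nat.finite_of_card_ne_zero (hA_ne S T)
  -- the map to `(ZMod 2)^t`
  let f : Dv T →+ (Fin t → ZMod 2) :=
    AddMonoidHom.pi fun i => (cdF fr S (c i)).comp (Dv T).subtype
  have hf0 : (Pr S T).addSubgroupOf (Dv T) ≤ f.ker := by
    intro D hDm
    rw [AddMonoidHom.mem_ker]
    funext i
    exact cdF_Pr hD (hφ.sp i) (AddSubgroup.mem_addSubgroupOf.1 hDm)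
  let ψ : (Dv T ⧸ (Pr S T).addSubgroupOf (Dv T)) →+ (Fin t → ZMod 2) :=
    QuotientAddGroup.lift _ f hf0
  have hψ : Function.Surjective ψ := by
    intro x
    obtain ⟨D, hDT, hDx⟩ := cdF_surj hD hexp hφ.ind x
    exact ⟨QuotientAddGroup.mk ⟨D, hDT⟩, funext hDx⟩
  have key := crit (E := ES S T) (B := Dv T ⧸ (Pr S T).addSubgroupOf (Dv T)) (r := r)
    (I := {P : Sx w S // P ≠ P₀}) (J := Fin t)
    (sqE S T) (U1 ι S T 0) ⊤ (by
      rw [hidx, hρ, hcard, hI, Fintype.card_fin, Nat.add_sub_cancel, ← pow_add, add_zero])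
    hsq hrel le_top (δ₀.comp (⊤ : AddSubgroup (ES S T)).subtype)
    (fun z => by
      rw [u1_zero hD]
      exact hδ2 z.1)
    (fun x => by
      rw [hδ3 x]
      constructor
      · rintro ⟨b, hb⟩
        exact ⟨⟨b, trivial⟩, hb⟩
      · rintro ⟨z, hz⟩
        exact ⟨z.1, hz⟩)
    0 (by
      ext x
      simp)
    ψ hψ (AddMonoidHom.pi fun i => φ i 0)
    (fun z => by
      funext i
      show φ i 0 z.1 = ψ (δ₀ z.1) i
      rw [hφ.zero i z.1, hδ1 z.1]
      rfl)
    (bt ι P₀ φ sy_add_right 0)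
    (fun x => by
      funext q
      rcases q with P | i
      · exact sy_zero_left _ _
      · rfl)
  rw [hcard, Nat.sub_self, zero_add]
  rw [Fintype.card_fin] at key
  have hnn : nn ι S T r 0 = Nat.card (Dv T ⧸ (Pr S T).addSubgroupOf (Dv T)) := by
    unfold nn
    rw [if_pos rfl]
    rfl
  rw [hnn]
  exact key

end A

alias bt_zero := bt_zero_pr

end Pool.Agent.MQR
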