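import Pool.Agent.Lib_helper15.MQR.Defs
import Pool.Agent.Lib_helper17.QRF.All
import Pool.Agent.Lib_helper15.MQRF.CE
import Pool.Agent.Lib_helper15.MQRF.DA
import Pool.Agent.Lib_helper15.MQRF.KC
import Pool.Agent.Lib_helper15.MQRF.KD
import Pool.Agent.Lib_helper15.MQRF.KE
import Pool.Agent.Lib_helper15.MQRF.KH
import Pool.Agent.Lib_helper17.CRF.N_PC1
import Pool.Agent.Lib_helper17.RS.P_IF

/-! MQR, block AD -/

set_option autoImplicit false
set_option linter.unusedSectionVars false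
set_option linter.unusedVariables false

namespace Pool.Agent.MQR

open Pool.Agent.RSK Pool.Agent.RS2 Pool.Agent.RS3 Pool.Agent.SY Pool.Agent.AU Pool.Agent.CR
open Pool.Agent.RG Pool.Agent.QR
open NumberField IsDedekindDomain

section A

variable {F H : Type} [Field F] [NumberField F] [Field H] [NumberField H] [Algebra F H]
  [IsGalois F H] {G : Type} [CommGroup G] [Fintype G] {ι : G ≃* (H ≃ₐ[F] H)}
  {S T : Finset (HeightOneSpectrum (𝓞 F))} {r : ℕ} {w : Fin r → Pl H}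
  {fr : HeightOneSpectrum (𝓞 F) → G}

/-- additivity of `cdN` in the second character -/
theorem ad_sum (K : Type) [Field K] [NumberField K] [Algebra F K]
    (fr : HeightOneSpectrum (𝓞 F) → G) (S : Finset (HeightOneSpectrum (𝓞 F))) (θ : Ch G)
    {t : ℕ} (c : Fin t → Ch G) (I : Finset (Fin t)) (D : Dvs K) :
    ∑ i ∈ I, cdN K fr S θ (c i) D = cdN K fr S θ (∑ i ∈ I, c i) D := by
  classical
  unfold cdN
  simp only [wt_apply, Finsupp.sum]
  rw [Finset.sum_comm]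
  refine Finset.sum_congr rfl fun W _ => ?_
  rw [← Finset.mul_sum]
  congr 1
  split_ifs
  · exact Finset.sum_const_zero
  · rw [AddMonoidHom.finsetSum_apply]

theorem ad_self (K : Type) [Field K] [NumberField K] [Algebra F K]
    (fr : HeightOneSpectrum (𝓞 F) → G) (S : Finset (HeightOneSpectrum (𝓞 F))) (θ : Ch G)
    (D : Dvs K) : cdN K fr S θ θ D = 0 := by
  classical
  unfold cdN
  rw [wt_apply, Finsupp.sum]
  refine Finset.sum_eq_zero fun W _ => ?_
  split_ifs with h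
  · exact mul_zero _
  · push Not at h
    rw [h.2, mul_zero]

theorem ad_pl {W : Pl H} (h : InS S (dn F W)) : ∃ P : PS S, P.pl = dn F W := by
  cases hW : dn F W with
  | inl v => exact ⟨Sum.inl v, rfl⟩
  | inr v =>
    rw [hW] at h
    exact ⟨Sum.inr ⟨v, h⟩, rfl⟩

theorem bt_not_pr (hD : Data ι S T r w fr) {t : ℕ} {c : Fin t → Ch G}
    {φ : Fin t → Ch G → (ES S T →+ ZMod 2)} (hφ : Phi ι S T fr c φ) (P₀ : Sx w S) {θ : Ch G}
    (hX : ¬ Xr ι S w θ) : ¬ Function.Surjective (bt ι P₀ φ sy_add_right θ) := by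
  classical
  intro hsur
  have hinl : ∀ (b : ES S T) (P : {P : Sx w S // P ≠ P₀}),
      bt ι P₀ φ sy_add_right θ b (Sum.inl P) = sy ι θ P.1.1.pl b.1 := fun _ _ => rfl
  have hinr : ∀ (b : ES S T) (i : Fin t),
      bt ι P₀ φ sy_add_right θ b (Sum.inr i) = φ i θ b := fun _ _ => rfl
  by_cases hθ : θ = 0
  · subst hθ
    have hc : Fintype.card (InfinitePlace F) + S.card ≠ r + 1 := fun h =>
      hX ⟨fun _ => h, fun h0 => absurd rfl h0⟩
    have hcard := sx_card hD P₀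
    have hne : Nat.card {P : Sx w S // P ≠ P₀} ≠ 0 := by
      have := hD.card
      omega
    obtain ⟨P₁⟩ : Nonempty {P : Sx w S // P ≠ P₀} := (Nat.card_ne_zero.1 hne).1
    obtain ⟨b, hb⟩ := hsur (Pi.single (Sum.inl P₁) 1)
    have h1 := congrFun hb (Sum.inl P₁)
    rw [hinl, sy_zero_left, Pi.single_eq_same] at h1
    exact zero_ne_one h1
  have hNo : ¬ NoX ι S w (kr θ) := fun h => hX ⟨fun h0 => absurd h0 hθ, fun _ => h⟩
  unfold NoX at hNo
  push Not at hNo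
  obtain ⟨W, hWS, hWk, hWl⟩ := hNo
  obtain ⟨P, hP⟩ := ad_pl hWS
  have hdg : dgF ι P.pl ≤ kr θ := by
    rw [hP]
    intro g hg
    exact hWk g ((dgF_eq W g).1 hg)
  have hsy : ∀ Q : PS S, dgF ι Q.pl ≤ kr θ → ∀ b, sy ι θ Q.pl b = 0 := fun Q hQ b =>
    hs_of_sq ((sq_iff θ Q.pl).2 hQ) _
  by_cases hPP : (⟨P, fun i h => hWl i (hP.symm.trans h)⟩ : Sx w S) = P₀
  swap
  · obtain ⟨b, hb⟩ := hsur (Pi.single (Sum.inl ⟨_, hPP⟩) 1)
    have h1 := congrFun hb (Sum.inl ⟨_, hPP⟩)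
    rw [hinl, hsy P hdg, Pi.single_eq_same] at h1
    exact zero_ne_one h1
  have hP₀ : P₀.1 = P := by rw [← hPP]
  by_cases hex : ∃ P₁ : Sx w S, P₁ ≠ P₀
  · obtain ⟨P₁, hP₁⟩ := hex
    obtain ⟨b, hb⟩ := hsur (Pi.single (Sum.inl ⟨P₁, hP₁⟩) 1)
    have hval : ∀ Q : Sx w S, Q ≠ P₁ → sy ι θ Q.1.pl b.1 = 0 := by
      intro Q hQ
      by_cases hQ0 : Q = P₀
      · rw [hQ0, hP₀]
        exact hsy P hdg _
      · have h1 := congrFun hb (Sum.inl ⟨Q, hQ0⟩)
        rw [hinl] at h1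
        rw [h1]
        refine Pi.single_eq_of_ne ?_ _
        intro h
        exact hQ (congrArg Subtype.val (Sum.inl.inj h))
    have h2 := (sy_sx hD θ b).2
    rw [finsum_eq_single _ P₁ hval] at h2
    have h1 := congrFun hb (Sum.inl ⟨P₁, hP₁⟩)
    rw [hinl, Pi.single_eq_same] at h1
    exact one_ne_zero (h1.symm.trans h2)
  push Not at hex
  -- all places of `S`
  have hSp : Sp ι S θ := by
    intro Q
    by_cases hQ : ∀ i, Q.pl ≠ dn F (w i)
    · have h1 := hex ⟨Q, hQ⟩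
      have h2 : Q = P := by rw [← hP₀, ← h1]
      rw [h2]
      exact hdg
    · push Not at hQ
      obtain ⟨i, hi⟩ := hQ
      rw [hi]
      intro g hg
      have h1 := hD.split i (ι g) ((dgF_eq (w i) g).1 hg)
      have h2 : g = 1 := by
        rw [← ι.map_one] at h1
        exact ι.injective h1
      rw [h2]
      exact Subgroup.one_mem _
  obtain ⟨I, hI⟩ := hφ.span θ hSp
  have hIne : I.Nonempty := by
    rw [Finset.nonempty_iff_ne_empty]
    intro h
    rw [h, Finset.sum_empty] at hI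
    exact hθ hI
  obtain ⟨i₀, hi₀⟩ := hIne
  have hcard := kf_card (ι := ι) hθ
  have hgal : IsGalois F (Kf ι (kr θ)) := kf_galois ι (kr θ)
  obtain ⟨σ, hσ⟩ : ∃ σ : Kf ι (kr θ) ≃ₐ[F] Kf ι (kr θ), σ ≠ 1 := by
    by_contra hcon
    push Not at hcon
    have : Nat.card (Kf ι (kr θ) ≃ₐ[F] Kf ι (kr θ)) = 1 := by
      rw [Nat.card_eq_one_iff_unique]
      exact ⟨⟨fun a b => (hcon a).trans (hcon b).symm⟩, ⟨1⟩⟩
    omega
  obtain ⟨b, hb⟩ := hsur (Pi.single (Sum.inr i₀) 1)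
  obtain ⟨y, -, hy⟩ := (hasse_T hD hθ σ hσ b).2 fun Q => hsy Q (hSp Q) _
  obtain ⟨D, hDD, -⟩ := dd_ex hcard σ hσ (fun W hW => kf_unr hD (kr θ) W hW) b.1 b.2.2 y hy
  have h3 : ∑ i ∈ I, φ i θ b = 0 := by
    rw [Finset.sum_congr rfl fun i _ => hφ.chi i θ hθ σ hσ b y D hDD, ad_sum, ← hI, ad_self]
  have h4 : ∑ i ∈ I, φ i θ b = 1 := by
    rw [Finset.sum_eq_single i₀]
    · rw [← hinr, hb, Pi.single_eq_same]
    · intro i _ hi
      rw [← hinr, hb]
      refine Pi.single_eq_of_ne ?_ _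
      intro h
      exact hi (Sum.inr.inj h)
    · intro h
      exact absurd hi₀ h
  exact one_ne_zero (h4.symm.trans h3)

end A

alias bt_not := bt_not_pr

end Pool.Agent.MQR

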