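import Pool.Agent.Lib_helper15.MQR.Defs

/-!
# MQR: block CA (helper1): the characters trivial on the decomposition groups
-/

set_option autoImplicit false
set_option linter.unusedSectionVars false
set_option linter.unusedVariables false

namespace Pool.Agent.MQR

open Pool.Agent.RSK Pool.Agent.RS2 Pool.Agent.RS3 Pool.Agent.SY Pool.Agent.AU Pool.Agent.CR
open Pool.Agent.RG Pool.Agent.QR
open NumberField IsDedekindDomain

section CAalg

theorem ca_basis {B : Type} [AddCommGroup B] [Finite B] (h2 : ∀ x : B, 2 • x = 0) {t : ℕ}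
    (hcard : Nat.card B = 2 ^ t) : ∃ c : Fin t → B,
      (∀ I : Finset (Fin t), ∑ i ∈ I, c i = 0 → I = ∅) ∧
      ∀ x, ∃ I : Finset (Fin t), x = ∑ i ∈ I, c i := by
  classical
  let _ : Module (ZMod 2) B := AddCommGroup.zmodModule h2
  have hfin : Module.Finite (ZMod 2) B := Module.Finite.of_finite
  have hrk : Module.finrank (ZMod 2) B = t := by
    have : Fintype B := Fintype.ofFinite _
    have h4 := Module.card_eq_pow_finrank (K := ZMod 2) (V := B)
    rw [ZMod.card, ← Nat.card_eq_fintype_card, hcard] at h4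
    exact (Nat.pow_right_injective le_rfl h4).symm
  let b : Module.Basis (Fin t) (ZMod 2) B := Module.finBasisOfFinrankEq (ZMod 2) B hrk
  refine ⟨b, fun I hI => ?_, fun x => ?_⟩
  · by_contra hne
    obtain ⟨i, hi⟩ := Finset.nonempty_iff_ne_empty.mpr hne
    have h4 := linearIndependent_iff'.mp b.linearIndependent I (fun _ => 1) (by simpa using hI) i hi
    exact one_ne_zero h4
  · refine ⟨Finset.univ.filter fun i => b.repr x i = 1, ?_⟩
    conv_lhs => rw [← b.sum_repr x]
    rw [Finset.sum_filter]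
    refine Finset.sum_congr rfl fun i _ => ?_
    have h01 : ∀ z : ZMod 2, z = 0 ∨ z = 1 := by decide
    rcases h01 (b.repr x i) with h | h
    · rw [h, zero_smul, if_neg (by decide)]
    · rw [h, one_smul, if_pos rfl]

theorem ca_dual {A : Type} [AddCommGroup A] [Finite A] (h2 : ∀ x : A, 2 • x = 0) :
    Nat.card (A →+ ZMod 2) = Nat.card A := by
  let _ : Module (ZMod 2) A := AddCommGroup.zmodModule h2
  have hfin : Module.Finite (ZMod 2) A := Module.Finite.of_finite
  have h1 : Nat.card (A →+ ZMod 2) = Nat.card (Module.Dual (ZMod 2) A) :=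
    Nat.card_congr (AddMonoidHom.toZModLinearMapEquiv 2).toEquiv
  rw [h1]
  have : Fintype A := Fintype.ofFinite _
  have : Finite (Module.Dual (ZMod 2) A) := Module.finite_of_finite (ZMod 2)
  have : Fintype (Module.Dual (ZMod 2) A) := Fintype.ofFinite _
  rw [Nat.card_eq_fintype_card, Nat.card_eq_fintype_card,
    Module.card_eq_pow_finrank (K := ZMod 2) (V := A),
    Module.card_eq_pow_finrank (K := ZMod 2) (V := Module.Dual (ZMod 2) A),
    Subspace.dual_finrank_eq]

theorem ca_ann {A : Type} [AddCommGroup A] [Finite A] (h2 : ∀ x : A, 2 • x = 0)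
    (R : AddSubgroup A) (C : AddSubgroup (A →+ ZMod 2)) (hC : ∀ θ, θ ∈ C ↔ ∀ x ∈ R, θ x = 0) :
    Nat.card C = R.index ∧ C.index = Nat.card R := by
  have h1 : Nat.card C = Nat.card (A ⧸ R →+ ZMod 2) := by
    refine Nat.card_congr ⟨fun θ => QuotientAddGroup.lift R θ.1 fun x hx => (hC θ.1).mp θ.2 x hx,
      fun f => ⟨f.comp (QuotientAddGroup.mk' R), (hC _).mpr fun x hx => ?_⟩, ?_, ?_⟩
    · show f (QuotientAddGroup.mk' R x) = 0
      rw [QuotientAddGroup.mk'_apply, (QuotientAddGroup.eq_zero_iff x).mpr hx, map_zero]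
    · intro θ
      refine Subtype.ext (AddMonoidHom.ext fun x => rfl)
    · intro f
      exact QuotientAddGroup.addMonoidHom_ext R (AddMonoidHom.ext fun x => rfl)
  have h3 : Nat.card (A ⧸ R →+ ZMod 2) = Nat.card (A ⧸ R) := by
    refine ca_dual fun x => ?_
    obtain ⟨y, rfl⟩ := QuotientAddGroup.mk_surjective x
    have h4 : (2 : ℕ) • (QuotientAddGroup.mk y : A ⧸ R) = QuotientAddGroup.mk (2 • y) := rfl
    rw [h4, h2]
    rfl
  have h5 : Nat.card C = R.index := by rw [h1, h3]; rfl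
  refine ⟨h5, ?_⟩
  have h6 : C.index * Nat.card C = Nat.card A := by
    rw [← ca_dual h2]; exact C.index_mul_card
  have h7 : Nat.card R * R.index = Nat.card A := R.card_mul_index
  rw [h5, ← h7] at h6
  exact Nat.eq_of_mul_eq_mul_right (Nat.pos_of_ne_zero AddSubgroup.index_ne_zero_of_finite) h6

end CAalg

section R

variable {F H : Type} [Field F] [NumberField F] [Field H] [NumberField H] [Algebra F H]
  [IsGalois F H] {G : Type} [CommGroup G] [Fintype G] {ι : G ≃* (H ≃ₐ[F] H)}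
  {S T : Finset (HeightOneSpectrum (𝓞 F))} {r : ℕ} {w : Fin r → Pl H}
  {fr : HeightOneSpectrum (𝓞 F) → G}

/-- Block CA (duality): `C0 ι S = {θ : θ = 0 on RN ι S ⊤}`. -/
theorem c0_card_pr (hexp : ∀ g : G, g ^ 2 = 1) : Nat.card (C0 ι S) = (RN ι S ⊤).index ∧
    (C0 ι S).index = Nat.card (RN ι S ⊤) := by
  have h2 : ∀ x : Additive G, 2 • x = 0 := fun x => hexp x.toMul
  have : Finite (Additive G) := inferInstanceAs (Finite G)
  refine ca_ann (A := Additive G) h2 (Subgroup.toAddSubgroup (RN ι S ⊤)) (C0 ι S) fun θ => ?_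
  have h1 : θ ∈ C0 ι S ↔ RN ι S ⊤ ≤ kr θ := by
    unfold RN
    rw [iSup_le_iff]
    refine forall_congr' fun P => ?_
    rw [inf_top_eq]
  rw [h1]
  exact ⟨fun h x hx => h hx, fun h g hg => h (Additive.ofMul g) hg⟩

/-- Block CA: a basis of `C0 ι S`. -/
theorem c0_basis_pr {t : ℕ} (h : Nat.card (C0 ι S) = 2 ^ t) : ∃ c : Fin t → Ch G,
    (∀ i, Sp ι S (c i)) ∧ (∀ I : Finset (Fin t), ∑ i ∈ I, c i = 0 → I = ∅) ∧
    ∀ θ, Sp ι S θ → ∃ I : Finset (Fin t), θ = ∑ i ∈ I, c i := by
  have hfin : Finite (Ch G) := DFunLike.finite _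
  have h2 : ∀ x : C0 ι S, 2 • x = 0 := by
    intro x
    refine Subtype.ext (AddMonoidHom.ext fun g => ?_)
    show (2 : ℕ) • (x.1 g) = 0
    have : ∀ z : ZMod 2, (2 : ℕ) • z = 0 := by decide
    exact this _
  obtain ⟨c, hc1, hc2⟩ := ca_basis h2 h
  refine ⟨fun i => (c i : Ch G), fun i => (c i).2, fun I hI => hc1 I (Subtype.ext ?_), fun θ hθ => ?_⟩
  · rw [AddSubgroup.val_finsetSum]
    exact hI
  · obtain ⟨I, hI⟩ := hc2 ⟨θ, hθ⟩
    refine ⟨I, ?_⟩
    have := congrArg Subtype.val hI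
    rw [AddSubgroup.val_finsetSum] at this
    exact this

end R

alias c0_card := c0_card_pr
alias c0_basis := c0_basis_pr

end Pool.Agent.MQR

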