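import Pool.Agent.Lib_helper15.MQR.Defs
import Pool.Agent.Lib_helper15.MQRF.CA
import Pool.Agent.Lib_helper15.MQRF.CC

/-!
# Block CD of MQR (MP_dd9835_nt): the lower bound for the class group
-/

set_option autoImplicit false
set_option linter.unusedSectionVars false
set_option linter.unusedVariables false

namespace Pool.Agent.MQR

open Pool.Agent.RSK Pool.Agent.RS2 Pool.Agent.RS3 Pool.Agent.SY Pool.Agent.AU Pool.Agent.CR
open Pool.Agent.RG Pool.Agent.QR
open NumberField IsDedekindDomain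

section R

variable {F H : Type} [Field F] [NumberField F] [Field H] [NumberField H] [Algebra F H]
  [IsGalois F H] {G : Type} [CommGroup G] [Fintype G] {ι : G ≃* (H ≃ₐ[F] H)}
  {S T : Finset (HeightOneSpectrum (𝓞 F))} {r : ℕ} {w : Fin r → Pl H}
  {fr : HeightOneSpectrum (𝓞 F) → G}

/-- Block CD. -/
theorem c0_low_pr (hD : Data ι S T r w fr) (hexp : ∀ g : G, g ^ 2 = 1) {t ρ : ℕ}
    (h : Nat.card (C0 ι S) = 2 ^ t) (hρ : a2 S T = 2 ^ ρ) : t ≤ ρ := by
  classical
  obtain ⟨c, h1, h2, h3⟩ := c0_basis h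
  let Ψ : Dv T →+ (Fin t → ZMod 2) :=
    { toFun := fun D i => cdF fr S (c i) (D : Dvs F)
      map_zero' := funext fun i => map_zero (cdF fr S (c i))
      map_add' := fun a b => funext fun i => map_add (cdF fr S (c i)) (a : Dvs F) (b : Dvs F) }
  have hs : Function.Surjective Ψ := by
    intro x
    obtain ⟨D, hD1, hD2⟩ := cdF_surj hD hexp h2 x
    exact ⟨⟨D, hD1⟩, funext hD2⟩
  have hker : (Pr S T ⊔ (Dv T).map (nsmulAddMonoidHom 2)).addSubgroupOf (Dv T) ≤ Ψ.ker := by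
    rintro ⟨D, hDT⟩ hDm
    rw [AddSubgroup.mem_addSubgroupOf] at hDm
    obtain ⟨P, hP, Q, hQ, hPQ⟩ := AddSubgroup.mem_sup.1 hDm
    obtain ⟨Q', -, hQ'⟩ := AddSubgroup.mem_map.1 hQ
    rw [AddMonoidHom.mem_ker]
    funext i
    show cdF fr S (c i) D = 0
    have e1 : D = P + Q := hPQ.symm
    have e2 : Q = 2 • Q' := hQ'.symm
    rw [e1, map_add, cdF_Pr hD (h1 i) hP, e2, map_nsmul, two_nsmul, CharTwo.add_self_eq_zero,
      add_zero]
  have hidx : Ψ.ker.index = 2 ^ t := by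
    rw [AddSubgroup.index_ker, AddMonoidHom.range_eq_top.2 hs, AddSubgroup.card_top,
      Nat.card_fun, Nat.card_zmod, Nat.card_fin]
  have hdvd : Ψ.ker.index ∣ a2 S T := AddSubgroup.index_dvd_of_le hker
  rw [hidx, hρ] at hdvd
  exact (Nat.pow_dvd_pow_iff_le_right (by norm_num)).1 hdvd

end R

alias c0_low := c0_low_pr

end Pool.Agent.MQR
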