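import Pool.Agent.Lib_helper15.MQR.Defs
import Pool.Agent.Lib_helper15.MQRF.AA
import Pool.Agent.Lib_helper15.MQRF.CA
import Pool.Agent.Lib_helper15.MQRF.CD
import Pool.Agent.Lib_helper15.MQRF.EA

/-!
# Multiquadratic extensions, small `S` (MQR): block AE
-/

set_option autoImplicit false
set_option linter.unusedSectionVars false
set_option linter.unusedVariables false

namespace Pool.Agent.MQR

open Pool.Agent.RSK Pool.Agent.RS2 Pool.Agent.RS3 Pool.Agent.SY Pool.Agent.AU Pool.Agent.CR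
open Pool.Agent.RG Pool.Agent.QR
open NumberField IsDedekindDomain

section A

variable {F H : Type} [Field F] [NumberField F] [Field H] [NumberField H] [Algebra F H]
  [IsGalois F H] {G : Type} [CommGroup G] [Fintype G] {ι : G ≃* (H ≃ₐ[F] H)}
  {S T : Finset (HeightOneSpectrum (𝓞 F))} {r : ℕ} {w : Fin r → Pl H}
  {fr : HeightOneSpectrum (𝓞 F) → G}

/-- Block AE: `nn_low`, `c0_card`, `c0_low`, `a2_pow`: the exponent of `2` in `nn` is at least
`#S - (r + 1) + ρ`, and `ρ ≥ t`, `#C0 = 2 ^ t`. -/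
theorem mq_hv_pr (hD : Data ι S T r w fr) (hexp : ∀ g : G, g ^ 2 = 1) {m j : ℕ}
    (hm : Nat.card G = 2 ^ m) (h : Nat.card (RN ι S ⊤) * 2 ^ r ≤
      2 ^ (Fintype.card (InfinitePlace F) + S.card + j)) :
    ∀ θ : Ch G, Xr ι S w θ → 2 ^ (m - 1) ∣ 2 ^ j * nn ι S T r θ := by
  intro θ hX
  obtain ⟨ρ, hρ⟩ := a2_pow S T
  have h1 := nn_low hD hρ hX
  have h2 : (RN ι S ⊤).index ∣ 2 ^ m := by
    rw [← hm]
    exact Subgroup.index_dvd_card _
  obtain ⟨t, ht, ht'⟩ := (Nat.dvd_prime_pow Nat.prime_two).1 h2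
  have h3 : Nat.card (C0 ι S) = 2 ^ t := by
    rw [(c0_card (ι := ι) (S := S) hexp).1, ht']
  have h4 := c0_low hD hexp h3 hρ
  have h5 : Nat.card (RN ι S ⊤) * 2 ^ t = 2 ^ m := by
    rw [← ht', ← hm]
    exact Subgroup.card_mul_index _
  have h6 : 2 ^ m * 2 ^ r ≤ 2 ^ (Fintype.card (InfinitePlace F) + S.card + j) * 2 ^ t := by
    rw [← h5, mul_right_comm]
    exact Nat.mul_le_mul_right _ h
  rw [← pow_add, ← pow_add] at h6
  have h7 := (Nat.pow_le_pow_iff_right (by norm_num)).1 h6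
  have h8 := hD.card
  obtain ⟨c, hc⟩ := h1
  rw [hc, ← mul_assoc, ← pow_add]
  exact Dvd.dvd.mul_right (pow_dvd_pow 2 (by omega)) c

end A

alias mq_hv := mq_hv_pr

end Pool.Agent.MQR

section
open Pool.Agent.MQR
end
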