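import Pool.Agent.Lib_helper15.MQR.Defs
import Pool.Agent.Lib_helper17.QRF.All
import Pool.Agent.Lib_helper15.MQRF.KB
import Pool.Agent.Lib_helper15.MQRF.KD
import Pool.Agent.Lib_helper15.MQRF.KD2
import Pool.Agent.Lib_helper15.MQRF.KE
import Pool.Agent.Lib_helper17.RS.P_IF

/-!
# MQR block KJ: `syK_inc_pr`, `syK_self_pr`
-/

set_option autoImplicit false
set_option linter.unusedSectionVars false
set_option linter.unusedVariables false

namespace Pool.Agent.MQR

open Pool.Agent.RSK Pool.Agent.RS2 Pool.Agent.RS3 Pool.Agent.SY Pool.Agent.AU Pool.Agent.CR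
open Pool.Agent.RG Pool.Agent.QR
open NumberField IsDedekindDomain

section K

variable {F H : Type} [Field F] [NumberField F] [Field H] [NumberField H] [Algebra F H]
  [IsGalois F H] {G : Type} [CommGroup G] [Fintype G] {ι : G ≃* (H ≃ₐ[F] H)}
  {S T : Finset (HeightOneSpectrum (𝓞 F))} {r : ℕ} {w : Fin r → Pl H}
  {fr : HeightOneSpectrum (𝓞 F) → G}

theorem syK_inc_pr {c : Ch G} (hc : c ≠ 0) (hcS : Sp ι S c) (θ : Ch G) (P : PS S)
    (W : Pl (Kf ι (kr c))) (hW : dn F W = P.pl) (b : Additive Fˣ) :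
    syK ι θ W (inc F (Kf ι (kr c)) b) = sy ι θ P.pl b := by
  have hg : IsGalois F (Kf ι (kr c)) := kf_galois ι (kr c)
  obtain ⟨α, hα⟩ := km_qe (ι := ι) hc
  have hsq : af ι c ∈ Sq (dn F W) := by
    rw [hW]
    exact (sq_iff c P.pl).2 (hcS P)
  have hsp := (split_iff hα W).2 hsq
  have h := hs_split (W := W) (kf_card (ι := ι) hc) hsp (af ι θ) b.toMul
  rw [hW] at h
  exact h

theorem syK_self_pr {c : Ch G} (W : Pl (Kf ι (kr c))) (y : Additive (Kf ι (kr c))ˣ) :
    syK ι c W y = 0 := by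
  obtain ⟨α, h1, h2⟩ := af_spec ι c
  have hmem : α ∈ Kf ι (kr c) := by
    refine kf_mem α fun g hg => ?_
    rw [h2 g]
    unfold sg
    rw [if_pos hg]
    simp
  have hne : (⟨α, hmem⟩ : Kf ι (kr c)) ≠ 0 := by
    intro h
    have h3 : α = 0 := congrArg Subtype.val h
    rw [h3, zero_pow two_ne_zero] at h1
    exact (af ι c).ne_zero ((map_eq_zero _).1 h1.symm)
  have e : Units.map (algebraMap F (Kf ι (kr c)) : F →* Kf ι (kr c)) (af ι c) =
      (Units.mk0 (⟨α, hmem⟩ : Kf ι (kr c)) hne) ^ 2 := by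
    ext
    exact h1.symm
  unfold syK
  rw [e]
  exact hs_sq_left W _ _

end K

alias syK_inc := syK_inc_pr
alias syK_self := syK_self_pr

end Pool.Agent.MQR
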