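import Pool.Agent.Lib_helper15.MQR.Defs
import Pool.Agent.Lib_helper15.MQRF.KB
import Pool.Agent.Lib_helper17.RS.P_DI
import Pool.Agent.Lib_helper17.RS.P_TW
import Pool.Agent.Lib_helper17.RS.P_UP1

/-!
# MQR, block RA: the valuations of norms at the places where `c` is inert
-/

set_option autoImplicit false
set_option linter.unusedSectionVars false

namespace Pool.Agent.MQR

open Pool.Agent.RSK Pool.Agent.RS2 Pool.Agent.RS3 Pool.Agent.SY Pool.Agent.AU Pool.Agent.CR
open Pool.Agent.RG Pool.Agent.QR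
open NumberField IsDedekindDomain

section RA

variable {F H : Type} [Field F] [NumberField F] [Field H] [NumberField H] [Algebra F H]
  [IsGalois F H] {G : Type} [CommGroup G] [Fintype G] {ι : G ≃* (H ≃ₐ[F] H)}
  {S T : Finset (HeightOneSpectrum (𝓞 F))} {r : ℕ} {w : Fin r → Pl H}
  {fr : HeightOneSpectrum (𝓞 F) → G}

theorem ra_unram (N : Subgroup G) (W : HeightOneSpectrum (𝓞 H))
    (h : Algebra.IsUnramifiedAt (𝓞 F) W.asIdeal) :
    Algebra.IsUnramifiedAt (𝓞 (Kf ι N)) W.asIdeal := by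
  have : Algebra.FormallyUnramified (𝓞 F) (Localization.AtPrime W.asIdeal) := h
  exact Algebra.FormallyUnramified.of_restrictScalars (𝓞 F) (𝓞 (Kf ι N))
    (Localization.AtPrime W.asIdeal)

theorem ra_fix {θ : Ch G} {g : G} (hg : θ (Additive.ofMul g) = 0) (u : Kf ι (kr θ)) :
    ι g (u : H) = (u : H) := by
  have h := u.2
  have h1 := (IntermediateField.mem_fixedField_iff _ _).1 h (ι g)
  exact h1 (Subgroup.mem_map.2 ⟨g, hg, rfl⟩)

theorem kill_pr (hD : Data ι S T r w fr) {θ c : Ch G} (W : HeightOneSpectrum (𝓞 (Kf ι (kr θ))))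
    (hW : W.under (𝓞 F) ∉ S) (h1 : θ (Additive.ofMul (fr (W.under (𝓞 F)))) = 0)
    (h2 : c (Additive.ofMul (fr (W.under (𝓞 F)))) ≠ 0) (x : (Kf ι (kr θ))ˣ)
    (hx : x ∈ Nm (Units.map (algebraMap F (Kf ι (kr θ)) : F →* Kf ι (kr θ)) (af ι c))) :
    Even (ordv W (x : Kf ι (kr θ))) := by
  obtain ⟨u, t, hut⟩ := hx
  obtain ⟨α, hα, hαg⟩ := af_spec ι c
  -- a place of `H` above `W`
  obtain ⟨W', hW'⟩ := up1_surj (F := Kf ι (kr θ)) (H := H) W
  have hWF : W'.under (𝓞 F) = W.under (𝓞 F) := by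
    rw [← hW', tw_under]
  set g := fr (W.under (𝓞 F)) with hg
  have hfr : IsFr (W.under (𝓞 F)) (ι g) := hD.frob _ hW
  have hfix : act (ι g) (Sum.inr W') = (Sum.inr W' : Pl H) := di_fr_fix hfr hWF
  have hfix' : HeightOneSpectrum.equivOfRingEquiv
      (RingOfIntegers.mapRingEquiv (ι g).toRingEquiv) W' = W' := Sum.inr_injective hfix
  -- the factorization
  have hgα : ι g α = -α := by
    rw [hαg, sg, if_neg h2]
    push_cast
    ring
  set z : H := (u : H) + (t : H) * α with hz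
  have hgz : ι g z = (u : H) - (t : H) * α := by
    rw [hz, map_add, map_mul, hgα, ra_fix h1, ra_fix h1]
    ring
  have hxH : ((x : Kf ι (kr θ)) : H) = z * ι g z := by
    rw [hgz, hz, hut]
    have e1 : (((u ^ 2 - ((Units.map (algebraMap F (Kf ι (kr θ)) : F →* Kf ι (kr θ))
        (af ι c) : (Kf ι (kr θ))ˣ) : Kf ι (kr θ)) * t ^ 2 : Kf ι (kr θ))) : H) =
        (u : H) ^ 2 - algebraMap F H (af ι c : F) * (t : H) ^ 2 := rfl
    rw [e1, ← hα]
    ring
  have hx0 : ((x : Kf ι (kr θ)) : H) ≠ 0 := by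
    intro h0
    exact x.ne_zero (Subtype.ext h0)
  have hz0 : z ≠ 0 := by
    intro h0
    rw [hxH, h0, zero_mul] at hx0
    exact hx0 rfl
  have hgz0 : ι g z ≠ 0 := by
    intro h0
    rw [hxH, h0, mul_zero] at hx0
    exact hx0 rfl
  have hord : ordv W (x : Kf ι (kr θ)) = ordv W' z + ordv W' z := by
    have e1 : ordv W' (algebraMap (Kf ι (kr θ)) H (x : Kf ι (kr θ))) =
        ordv (W'.under (𝓞 (Kf ι (kr θ)))) (x : Kf ι (kr θ)) :=
      ordv_unr (ra_unram (kr θ) W' (hD.unram W' (by rw [hWF]; exact hW))) _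
    rw [hW'] at e1
    rw [← e1]
    have e2 : algebraMap (Kf ι (kr θ)) H (x : Kf ι (kr θ)) = z * ι g z := hxH
    rw [e2]
    have e3 := ordv_mul W' (Units.mk0 z hz0) (Units.mk0 (ι g z) hgz0)
    rw [Units.val_mul, Units.val_mk0, Units.val_mk0] at e3
    rw [e3]
    congr 1
    have e4 := ordv_act (ι g) W' z
    rw [hfix'] at e4
    exact e4
  rw [hord]
  exact ⟨_, rfl⟩

end RA

alias kill := kill_pr

end Pool.Agent.MQR
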