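import Pool.Agent.Lib_helper15.MQR.Defs
import Pool.Agent.Lib_helper15.MQRF.KB
import Pool.Agent.Lib_helper15.MQRF.KD2
import Pool.Agent.Lib_helper17.QRF.All
import Pool.Agent.Lib_helper17.RS.P_IF

/-!
# MQR, block RD: the algebra of the Rédei identity
-/

set_option autoImplicit false
set_option linter.unusedSectionVars false

namespace Pool.Agent.MQR

open Pool.Agent.RSK Pool.Agent.RS2 Pool.Agent.RS3 Pool.Agent.SY Pool.Agent.AU Pool.Agent.CR
open Pool.Agent.RG Pool.Agent.QR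
open NumberField IsDedekindDomain

section RD

/-- the coordinates of a solution of `y σ y = b` -/
theorem rd_coord {F K : Type} [Field F] [NumberField F] [Field K] [NumberField K] [Algebra F K]
    [IsGalois F K] {a : Fˣ} {α : K} (h : QE F K a α) {σ : K ≃ₐ[F] K} (hσ : σ ≠ 1)
    (b : Additive Fˣ) {y : Additive Kˣ} (hy : y + eac σ y = inc F K b) :
    ∃ y0 y1 : F, (y.toMul : K) = algebraMap F K y0 + algebraMap F K y1 * α ∧
      y0 ^ 2 - a * y1 ^ 2 = (b.toMul : F) := by
  obtain ⟨y0, y1, hyy⟩ := qe_basis h (y.toMul : K)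
  refine ⟨y0, y1, hyy, ?_⟩
  have h1 : (y.toMul : K) * σ (y.toMul : K) = algebraMap F K (b.toMul : F) := by
    have h2 := congrArg (fun z : Additive Kˣ => (z.toMul : K)) hy
    exact h2
  apply (algebraMap F K).injective
  rw [← h1, hyy, map_add, map_mul, AlgEquiv.commutes, AlgEquiv.commutes, qe_conj h hσ, map_sub,
    map_pow, map_mul, map_pow, ← h.sq]
  ring

/-- `s y = (y + γ₀)² - a_c γ₁²` -/
theorem rd_nm {F K : Type} [Field F] [NumberField F] [Field K] [NumberField K] [Algebra F K]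
    {a a' : Fˣ} {α : K} (hα : α ^ 2 = algebraMap F K (a : F))
    {b y0 y1 g0 g1 : F} (h1 : y0 ^ 2 - a * y1 ^ 2 = b) (h2 : g0 ^ 2 - a' * g1 ^ 2 = b)
    (s : Additive Fˣ) (hs : (s.toMul : F) = 2 * (y0 + g0)) (y : Additive Kˣ)
    (hy : (y.toMul : K) = algebraMap F K y0 + algebraMap F K y1 * α) :
    (inc F K s + y).toMul ∈ Nm (Units.map (algebraMap F K : F →* K) a') := by
  refine ⟨(y.toMul : K) + algebraMap F K g0, algebraMap F K g1, ?_⟩
  have e0 : ((inc F K s + y).toMul : K) = algebraMap F K (s.toMul : F) * (y.toMul : K) := rfl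
  have e1 : ((Units.map (algebraMap F K : F →* K) a' : Kˣ) : K) = algebraMap F K (a' : F) := rfl
  have e2 := congrArg (algebraMap F K) h1
  have e3 := congrArg (algebraMap F K) h2
  rw [map_sub, map_pow, map_mul, map_pow] at e2 e3
  rw [e0, e1, hs, hy]
  rw [map_mul, map_add, map_ofNat]
  have e4 : algebraMap F K (a : F) = α ^ 2 := hα.symm
  rw [e4] at e2
  linear_combination e2 - e3

theorem redei_s_pr {F H : Type} [Field F] [NumberField F] [Field H] [NumberField H] [Algebra F H]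
    [IsGalois F H] {G : Type} [CommGroup G] [Fintype G] {ι : G ≃* (H ≃ₐ[F] H)}
    {θ c : Ch G} (hθ : θ ≠ 0) (hc : c ≠ 0) (hne : θ ≠ c)
    (σ : Kf ι (kr θ) ≃ₐ[F] Kf ι (kr θ)) (hσ : σ ≠ 1) (σ' : Kf ι (kr c) ≃ₐ[F] Kf ι (kr c))
    (hσ' : σ' ≠ 1) (b : Additive Fˣ) {y : Additive (Kf ι (kr θ))ˣ}
    (hy : y + eac σ y = inc F _ b) {γ : Additive (Kf ι (kr c))ˣ}
    (hγ : γ + eac σ' γ = inc F _ b) : ∃ (s : Additive Fˣ) (γ' : Additive (Kf ι (kr c))ˣ),
      (γ' = γ ∨ γ' = γ + inc F (Kf ι (kr c)) (Additive.ofMul (-1))) ∧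
      (inc F (Kf ι (kr θ)) s + y).toMul ∈
        Nm (Units.map (algebraMap F (Kf ι (kr θ)) : F →* Kf ι (kr θ)) (af ι c)) ∧
      (inc F (Kf ι (kr c)) s + γ').toMul ∈
        Nm (Units.map (algebraMap F (Kf ι (kr c)) : F →* Kf ι (kr c)) (af ι θ)) := by
  have hg1 : IsGalois F (Kf ι (kr θ)) := kf_galois ι _
  have hg2 : IsGalois F (Kf ι (kr c)) := kf_galois ι _
  obtain ⟨α, hα⟩ := km_qe (ι := ι) hθ
  obtain ⟨α', hα'⟩ := km_qe (ι := ι) hc
  obtain ⟨y0, y1, hyy, hyb⟩ := rd_coord hα hσ b hy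
  obtain ⟨g0, g1, hgg, hgb⟩ := rd_coord hα' hσ' b hγ
  by_cases h0 : y0 + g0 = 0
  · -- the exceptional case
    have hy1 : y1 = 0 := by
      by_contra hy1
      apply hne
      have e1 : (af ι θ : F) * y1 ^ 2 = af ι c * g1 ^ 2 := by
        have e2 : g0 = -y0 := by linear_combination h0
        rw [e2] at hgb
        linear_combination hgb - hyb
      have hg1 : g1 ≠ 0 := by
        rintro rfl
        have e3 : (af ι θ : F) * y1 ^ 2 = 0 := by rw [e1]; ring
        rcases mul_eq_zero.1 e3 with e4 | e4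
        · exact (af ι θ).ne_zero e4
        · exact hy1 (pow_eq_zero_iff (two_ne_zero) |>.1 e4)
      have e5 : af ι θ * af ι c = (af ι c * Units.mk0 g1 hg1 * (Units.mk0 y1 hy1)⁻¹) ^ 2 := by
        ext
        push_cast
        rw [Units.val_mk0, Units.val_mk0]
        have e6 : (af ι θ : F) = af ι c * g1 ^ 2 * (y1⁻¹) ^ 2 := by
          rw [← e1]
          field_simp
        rw [e6]
        ring
      have h2 := km_sq (km_add (af_spec ι θ) (af_spec ι c)) ⟨_, e5⟩
      have h3 : c + c = 0 := by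
        ext g
        show c g + c g = 0
        exact CharTwo.add_self_eq_zero _
      have h4 : θ + c = c + c := by rw [h2, h3]
      exact add_right_cancel h4
    have hb0 : y0 ^ 2 = (b.toMul : F) := by
      rw [hy1] at hyb
      linear_combination hyb
    have hy0 : y0 ≠ 0 := by
      rintro rfl
      apply (b.toMul).ne_zero
      rw [← hb0]
      ring
    have hs0 : (2 : F) * (y0 + -g0) ≠ 0 := by
      have e : (2 : F) * (y0 + -g0) = 4 * y0 := by linear_combination (-2) * h0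
      rw [e]
      exact mul_ne_zero (by norm_num) hy0
    have hgb' : (-g0) ^ 2 - (af ι c : F) * (-g1) ^ 2 = (b.toMul : F) := by
      rw [← hgb]
      ring
    refine ⟨Additive.ofMul (Units.mk0 _ hs0), γ + inc F (Kf ι (kr c)) (Additive.ofMul (-1)),
      Or.inr rfl, ?_, ?_⟩
    · exact rd_nm hα.sq hyb hgb' _ rfl y hyy
    · refine rd_nm hα'.sq hgb' hyb _ ?_ _ ?_
      · show (2 : F) * (y0 + -g0) = _
        ring
      · have e0 : ((γ + inc F (Kf ι (kr c)) (Additive.ofMul (-1))).toMul : Kf ι (kr c)) =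
            (γ.toMul : Kf ι (kr c)) * algebraMap F (Kf ι (kr c)) (((-1 : Fˣ)) : F) := rfl
        rw [e0, hgg, Units.val_neg, Units.val_one, map_neg, map_one, map_neg, map_neg]
        ring
  · have hs0 : (2 : F) * (y0 + g0) ≠ 0 := mul_ne_zero (by norm_num) h0
    refine ⟨Additive.ofMul (Units.mk0 _ hs0), γ, Or.inl rfl, ?_, ?_⟩
    · exact rd_nm hα.sq hyb hgb _ rfl y hyy
    · refine rd_nm hα'.sq hgb hyb _ ?_ _ hgg
      show (2 : F) * (y0 + g0) = _
      ring

end RD

alias redei_s := redei_s_pr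

end Pool.Agent.MQR
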