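import Pool.Agent.Lib_helper15.MQR.Defs
import Pool.Agent.Lib_helper17.QRF.All
import Pool.Agent.Lib_helper15.MQRF.KC
import Pool.Agent.Lib_helper15.MQRF.KD
import Pool.Agent.Lib_helper15.MQRF.KE
import Pool.Agent.Lib_helper15.MQRF.KG
import Pool.Agent.Lib_helper15.MQRF.KJ
import Pool.Agent.Lib_helper15.MQRF.RA
import Pool.Agent.Lib_helper15.MQRF.RB
import Pool.Agent.Lib_helper15.MQRF.RD

set_option autoImplicit false
set_option linter.unusedSectionVars false

namespace Pool.Agent.MQR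

open Pool.Agent.RSK Pool.Agent.RS2 Pool.Agent.RS3 Pool.Agent.SY Pool.Agent.AU Pool.Agent.CR
open Pool.Agent.RG Pool.Agent.QR
open NumberField IsDedekindDomain

section R

variable {F H : Type} [Field F] [NumberField F] [Field H] [NumberField H] [Algebra F H]
  [IsGalois F H] {G : Type} [CommGroup G] [Fintype G] {ι : G ≃* (H ≃ₐ[F] H)}
  {S T : Finset (HeightOneSpectrum (𝓞 F))} {r : ℕ} {w : Fin r → Pl H}
  {fr : HeightOneSpectrum (𝓞 F) → G}

theorem re_wt (c : HeightOneSpectrum (𝓞 F) → ZMod 2) (D : Dvs F)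
    (U : Finset (HeightOneSpectrum (𝓞 F))) (hU : D.support ⊆ U) :
    MQR.wt c D = ∑ v ∈ U, (D v : ZMod 2) * c v := by
  rw [wt_apply, Finsupp.sum]
  refine Finset.sum_subset hU fun v _ hv => ?_
  rw [Finsupp.notMem_support_iff.1 hv, Int.cast_zero, zero_mul]

theorem re_ord_add {K : Type} [Field K] [NumberField K] (W : HeightOneSpectrum (𝓞 K))
    (x y : Additive Kˣ) : ordv W ((x + y).toMul : K) = ordv W (x.toMul : K) + ordv W (y.toMul : K) :=
  ordv_mul W x.toMul y.toMul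

theorem re_neg_one {K : Type} [Field K] [NumberField K] (W : HeightOneSpectrum (𝓞 K)) :
    ordv W (((-1 : Kˣ)) : K) = 0 := by
  have h := ordv_mul W (-1 : Kˣ) (-1)
  rw [neg_mul_neg, mul_one, Units.val_one, ordv_one] at h
  omega

theorem re_loc (hD : Data ι S T r w fr) {θ c : Ch G} (σ : Kf ι (kr θ) ≃ₐ[F] Kf ι (kr θ))
    (hσ : σ ≠ 1) (b : ES S T) {y y' : Additive (Kf ι (kr θ))ˣ} {D : Dvs (Kf ι (kr θ))}
    (h : DD S σ b.1 y D)
    (hyy : ∀ W : HeightOneSpectrum (𝓞 (Kf ι (kr θ))), ordv W (y'.toMul : Kf ι (kr θ)) =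
      ordv W (y.toMul : Kf ι (kr θ))) (s : Additive Fˣ)
    (hx : (inc F (Kf ι (kr θ)) s + y').toMul ∈
      Nm (Units.map (algebraMap F (Kf ι (kr θ)) : F →* Kf ι (kr θ)) (af ι c)))
    {v : HeightOneSpectrum (𝓞 F)} (hv : v ∉ S) (h1 : θ (Additive.ofMul (fr v)) = 0)
    (h2 : c (Additive.ofMul (fr v)) ≠ 0) :
    (((D.mapDomain fun W => W.under (𝓞 F)) v : ℤ) : ZMod 2) =
      (hf S T b v : ZMod 2) + ((ordv v (s.toMul : F) : ℤ) : ZMod 2) := by
  obtain ⟨W', hW'⟩ := dn_surj (F := F) (H := Kf ι (kr θ)) (Sum.inr v)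
  obtain ⟨W, rfl⟩ : ∃ W : HeightOneSpectrum (𝓞 (Kf ι (kr θ))), W' = Sum.inr W := by
    rcases W' with u | W
    · exact absurd hW' (by simp [dn])
    · exact ⟨W, rfl⟩
  have hW : W.under (𝓞 F) = v := Sum.inr.inj hW'
  subst hW
  have e1 := kill hD W hv h1 h2 _ hx
  rw [re_ord_add, hyy, inc_apply, ordv_unr (kf_unr hD _ W hv)] at e1
  have e2 := h.div W hv
  have e3 := hf_two b hv
  have e4 := map_split hD σ hσ W hv h1 D
  have e5 : ordv W (y.toMul : Kf ι (kr θ)) = hf S T b (W.under (𝓞 F)) + (D (pac σ W) - D W) := by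
    omega
  rw [e5] at e1
  rw [e4]
  obtain ⟨k, hk⟩ := e1
  have e6 : D W + D (pac σ W) = hf S T b (W.under (𝓞 F)) + ordv (W.under (𝓞 F)) (s.toMul : F) +
      2 * (D (pac σ W) - k) := by omega
  rw [e6]
  push_cast
  have h20 : (2 : ZMod 2) = 0 := rfl
  rw [h20]
  ring

theorem redei_pr (hD : Data ι S T r w fr) {θ c : Ch G} (hθ : θ ≠ 0) (hc : c ≠ 0) (hne : θ ≠ c)
    (hcS : Sp ι S c) (σ : Kf ι (kr θ) ≃ₐ[F] Kf ι (kr θ)) (hσ : σ ≠ 1)
    (σ' : Kf ι (kr c) ≃ₐ[F] Kf ι (kr c)) (hσ' : σ' ≠ 1) (b : ES S T)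
    {y : Additive (Kf ι (kr θ))ˣ} {D : Dvs (Kf ι (kr θ))} (h : DD S σ b.1 y D)
    {γ : Additive (Kf ι (kr c))ˣ} {D' : Dvs (Kf ι (kr c))} (h' : DD S σ' b.1 γ D')
    (W : PS S → Pl (Kf ι (kr c))) (hW : ∀ P, dn F (W P) = P.pl) :
    cdN (Kf ι (kr θ)) fr S θ c D = cdF fr S c (hf S T b) + cdF fr S θ (hf S T b) +
      cdN (Kf ι (kr c)) fr S c θ D' + ∑ P : PS S, syK ι θ (W P) γ := by
  classical
  obtain ⟨s, γ', hγ', hx, hx'⟩ := redei_s hθ hc hne σ hσ σ' hσ' b.1 h.norm h'.norm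
  have h20 : (2 : ZMod 2) = 0 := rfl
  have hord : ∀ W : HeightOneSpectrum (𝓞 (Kf ι (kr c))), ordv W (γ'.toMul : Kf ι (kr c)) =
      ordv W (γ.toMul : Kf ι (kr c)) := by
    intro W
    rcases hγ' with rfl | rfl
    · rfl
    · rw [re_ord_add, inc_apply]
      have e : algebraMap F (Kf ι (kr c)) (((Additive.ofMul (-1 : Fˣ)).toMul : Fˣ) : F) =
          ((-1 : (Kf ι (kr c))ˣ) : Kf ι (kr c)) := by
        simp
      rw [e, re_neg_one, add_zero]
  -- the sums of the symbols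
  have hs1 : cdF fr S c (dv F s) = 0 := by
    rw [← sy_prod hD]
    refine Finset.sum_eq_zero fun P _ => ?_
    exact hs_of_sq ((sq_iff c P.pl).2 (hcS P)) _
  have hm1 : ∑ P : PS S, syK ι θ (W P) (inc F (Kf ι (kr c)) (Additive.ofMul (-1))) = 0 := by
    have e : ∀ P : PS S, syK ι θ (W P) (inc F (Kf ι (kr c)) (Additive.ofMul (-1))) =
        sy ι θ P.pl (Additive.ofMul (-1)) := fun P => syK_inc hc hcS θ P (W P) (hW P) _
    rw [Finset.sum_congr rfl fun P _ => e P, sy_prod hD]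
    have e2 : dv F (Additive.ofMul (-1)) = 0 := by
      ext v
      exact re_neg_one v
    rw [e2, map_zero]
  have hs2 : cdF fr S θ (dv F s) = ∑ P : PS S, syK ι θ (W P) γ := by
    rw [← sy_prod hD]
    have e : ∀ P : PS S, sy ι θ P.pl s = syK ι θ (W P) γ' := by
      intro P
      rw [← syK_inc hc hcS θ P (W P) (hW P) s]
      have e3 : syK ι θ (W P) (inc F (Kf ι (kr c)) s + γ') = 0 := hs_of_nm hx' _
      rw [syK_add_right] at e3
      linear_combination e3 - syK ι θ (W P) γ' * h20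
    rw [Finset.sum_congr rfl fun P _ => e P]
    rcases hγ' with rfl | rfl
    · rfl
    · rw [Finset.sum_congr rfl fun P _ => syK_add_right θ (W P) _ _, Finset.sum_add_distrib, hm1,
        add_zero]
  -- the main identity
  set E : Dvs F := D.mapDomain fun W => W.under (𝓞 F) with hE
  set E' : Dvs F := D'.mapDomain fun W => W.under (𝓞 F) with hE'
  set U : Finset (HeightOneSpectrum (𝓞 F)) :=
    E.support ∪ E'.support ∪ (hf S T b).support ∪ (dv F s).support with hU
  have key : cdN (Kf ι (kr θ)) fr S θ c D + cdN (Kf ι (kr c)) fr S c θ D' =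
      cdF fr S c (hf S T b) + cdF fr S θ (hf S T b) + (cdF fr S c (dv F s) +
        cdF fr S θ (dv F s)) := by
    rw [cdN_map, cdN_map, ← hE, ← hE']
    unfold cdF
    rw [re_wt _ E U (by rw [hU]; intro v hv; simp only [Finset.mem_union]; tauto),
      re_wt _ E' U (by rw [hU]; intro v hv; simp only [Finset.mem_union]; tauto),
      re_wt _ (hf S T b) U (by rw [hU]; intro v hv; simp only [Finset.mem_union]; tauto),
      re_wt _ (hf S T b) U (by rw [hU]; intro v hv; simp only [Finset.mem_union]; tauto),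
      re_wt _ (dv F s) U (by rw [hU]; intro v hv; simp only [Finset.mem_union]; tauto),
      re_wt _ (dv F s) U (by rw [hU]; intro v hv; simp only [Finset.mem_union]; tauto),
      ← Finset.sum_add_distrib, ← Finset.sum_add_distrib, ← Finset.sum_add_distrib,
      ← Finset.sum_add_distrib]
    refine Finset.sum_congr rfl fun v _ => ?_
    by_cases hv : v ∈ S
    · simp [hv]
    · have hdv : dv F s v = ordv v (s.toMul : F) := rfl
      have h01 : ∀ z : ZMod 2, z = 0 ∨ z = 1 := by decide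
      rcases h01 (θ (Additive.ofMul (fr v))) with h1 | h1 <;>
        rcases h01 (c (Additive.ofMul (fr v))) with h2 | h2
      · simp [hv, h1, h2]
      · have e := re_loc hD σ hσ b h (fun _ => rfl) s hx hv h1 (by rw [h2]; exact one_ne_zero)
        rw [← hE] at e
        simp [hv, h1, h2, e, hdv]
      · have e := re_loc hD σ' hσ' b h' hord s hx' hv h2 (by rw [h1]; exact one_ne_zero)
        rw [← hE'] at e
        simp [hv, h1, h2, e, hdv]
      · have e : ∀ x y : ZMod 2, x + x + (y + y) = 0 := by decide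
        simp only [hv, h1, h2, false_or, if_false, ne_eq, one_ne_zero, not_false_eq_true, if_true,
          mul_zero, mul_one, add_zero]
        exact (e _ _).symm
  rw [hs1, hs2] at key
  linear_combination key - cdN (Kf ι (kr c)) fr S c θ D' * h20

end R

alias redei := redei_pr

end Pool.Agent.MQR
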