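import Pool.Agent.Lib_helper15.MQR.Defs
import Pool.Agent.Lib_helper17.QRF.All
import Pool.Agent.Lib_helper15.MQRF.DA
import Pool.Agent.Lib_helper15.MQRF.KC
import Pool.Agent.Lib_helper15.MQRF.KD
import Pool.Agent.Lib_helper15.MQRF.KE
import Pool.Agent.Lib_helper15.MQRF.KG
import Pool.Agent.Lib_helper15.MQRF.KH
import Pool.Agent.Lib_helper15.MQRF.KJ
import Pool.Agent.Lib_helper17.RS.P_IF

/-!
# MQR, block RF: `phi0_pr`
-/

set_option autoImplicit false
set_option linter.unusedSectionVars false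
set_option linter.unusedVariables false

namespace Pool.Agent.MQR

open Pool.Agent.RSK Pool.Agent.RS2 Pool.Agent.RS3 Pool.Agent.SY Pool.Agent.AU Pool.Agent.CR
open Pool.Agent.RG Pool.Agent.QR
open NumberField IsDedekindDomain

/-- descent of a family of homomorphisms to `ZMod 2` along a surjection, modulo `2` -/
theorem rf_lift {A M X : Type} [AddCommGroup A] [AddCommGroup M] (π : A →+ M)
    (hπ : Function.Surjective π) (A₀ : AddSubgroup A) (Q : AddSubgroup M)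
    (h1 : ∀ a ∈ A₀, π a ∈ Q) (h2 : ∀ q ∈ Q, ∃ a ∈ A₀, π a = q) (hQ : ∀ x : M, x + x ∈ Q)
    (Φ : X → (A →+ ZMod 2)) (hΦ : ∀ x, ∀ a ∈ A₀, Φ x a = 0) :
    ∃ φ : X → (M →+ ZMod 2), (∀ x, ∀ q ∈ Q, φ x q = 0) ∧
      ∀ m, ∃ a, π a = m ∧ ∀ x, φ x m = Φ x a := by
  let N : AddSubgroup A := A₀ ⊔ (nsmulAddMonoidHom (α := A) 2).range
  have hN2 : ∀ x : A, 2 • x ∈ N := fun x =>
    (le_sup_right : (nsmulAddMonoidHom (α := A) 2).range ≤ N) ⟨x, rfl⟩
  have hcA : ∀ x : A ⧸ N, 2 • x = 0 := by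
    intro x
    obtain ⟨a, rfl⟩ := QuotientAddGroup.mk_surjective x
    rw [← QuotientAddGroup.mk_nsmul]
    exact (QuotientAddGroup.eq_zero_iff _).2 (hN2 a)
  have hcM : ∀ x : M ⧸ Q, 2 • x = 0 := by
    intro x
    obtain ⟨a, rfl⟩ := QuotientAddGroup.mk_surjective x
    rw [← QuotientAddGroup.mk_nsmul]
    refine (QuotientAddGroup.eq_zero_iff _).2 ?_
    rw [two_nsmul]
    exact hQ a
  letI mA : Module (ZMod 2) (A ⧸ N) := AddCommGroup.zmodModule hcA
  letI mM : Module (ZMod 2) (M ⧸ Q) := AddCommGroup.zmodModule hcM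
  have hNQ : N ≤ Q.comap π := by
    refine sup_le (fun a ha => h1 a ha) ?_
    rintro _ ⟨x, rfl⟩
    show π (2 • x) ∈ Q
    rw [map_nsmul, two_nsmul]
    exact hQ _
  let π' : (A ⧸ N) →+ (M ⧸ Q) := QuotientAddGroup.map N Q π hNQ
  have hπ' : Function.Surjective π' := by
    intro y
    obtain ⟨m, rfl⟩ := QuotientAddGroup.mk_surjective y
    obtain ⟨a, rfl⟩ := hπ m
    exact ⟨QuotientAddGroup.mk a, rfl⟩
  let πl : (A ⧸ N) →ₗ[ZMod 2] (M ⧸ Q) := AddMonoidHom.toZModLinearMap 2 π'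
  have hl : LinearMap.range πl = ⊤ := LinearMap.range_eq_top.2 hπ'
  obtain ⟨s, hs⟩ := πl.exists_rightInverse_of_surjective hl
  have hs' : ∀ y : M ⧸ Q, π' (s y) = y := fun y => LinearMap.congr_fun hs y
  have hΦN : ∀ x, N ≤ (Φ x).ker := by
    intro x
    refine sup_le (fun a ha => hΦ x a ha) ?_
    rintro _ ⟨a, rfl⟩
    show Φ x (2 • a) = 0
    rw [map_nsmul, two_nsmul]
    exact CharTwo.add_self_eq_zero _
  refine ⟨fun x => (QuotientAddGroup.lift N (Φ x) (hΦN x)).comp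
    (s.toAddMonoidHom.comp (QuotientAddGroup.mk' Q)), fun x q hq => ?_, fun m => ?_⟩
  · show QuotientAddGroup.lift N (Φ x) (hΦN x) (s (QuotientAddGroup.mk q)) = 0
    rw [(QuotientAddGroup.eq_zero_iff q).2 hq, map_zero, map_zero]
  · obtain ⟨a, ha⟩ := QuotientAddGroup.mk_surjective (s (QuotientAddGroup.mk m : M ⧸ Q))
    have e1 : (QuotientAddGroup.mk (π a) : M ⧸ Q) = QuotientAddGroup.mk m := by
      have := hs' (QuotientAddGroup.mk m)
      rw [← ha] at this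
      exact this
    have e2 : -π a + m ∈ Q := QuotientAddGroup.eq.1 e1
    obtain ⟨a₀, ha₀, e3⟩ := h2 _ e2
    refine ⟨a + a₀, ?_, fun x => ?_⟩
    · rw [map_add, e3, add_neg_cancel_left]
    · show QuotientAddGroup.lift N (Φ x) (hΦN x) (s (QuotientAddGroup.mk m)) = _
      rw [← ha, map_add, hΦ x a₀ ha₀, add_zero]
      rfl

section R

variable {F H : Type} [Field F] [NumberField F] [Field H] [NumberField H] [Algebra F H]
  [IsGalois F H] {G : Type} [CommGroup G] [Fintype G] {ι : G ≃* (H ≃ₐ[F] H)}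
  {S T : Finset (HeightOneSpectrum (𝓞 F))} {r : ℕ} {w : Fin r → Pl H}
  {fr : HeightOneSpectrum (𝓞 F) → G}

/-- `cdF` only depends on the divisor outside `S` -/
theorem rf_cdF_congr {G : Type} [CommGroup G] (fr : HeightOneSpectrum (𝓞 F) → G)
    (S : Finset (HeightOneSpectrum (𝓞 F))) (θ : Ch G) {D D' : Dvs F}
    (h : ∀ v, v ∉ S → D v = D' v) : cdF fr S θ D = cdF fr S θ D' := by
  classical
  rw [← sub_eq_zero, ← map_sub]
  unfold cdF
  rw [wt_apply]
  refine Finset.sum_eq_zero fun v _ => ?_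
  show (((D - D') v : ℤ) : ZMod 2) * _ = 0
  by_cases hv : v ∈ S
  · rw [if_pos hv, mul_zero]
  · rw [Finsupp.sub_apply, h v hv, sub_self, Int.cast_zero, zero_mul]

theorem rf_DD_zero {K : Type} [Field K] [NumberField K] [Algebra F K]
    (σ : K ≃ₐ[F] K) : DD S σ (0 : Additive Fˣ) (0 : Additive Kˣ) (0 : Dvs K) := by
  refine ⟨by rw [map_zero, map_zero, add_zero], fun W _ => ?_⟩
  show 2 * ordv W (1 : K) = ordv (W.under (𝓞 F)) (1 : F) + 2 * ((0 : ℤ) - 0)
  rw [ordv_one, ordv_one]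
  rfl

theorem rf_DD_add {K : Type} [Field K] [NumberField K] [Algebra F K]
    {σ : K ≃ₐ[F] K} {b b' : Additive Fˣ} {y y' : Additive Kˣ} {D D' : Dvs K}
    (h : DD S σ b y D) (h' : DD S σ b' y' D') : DD S σ (b + b') (y + y') (D + D') := by
  refine ⟨?_, fun W hW => ?_⟩
  · rw [map_add, map_add, ← h.norm, ← h'.norm]
    abel
  · have e1 := h.div W hW
    have e2 := h'.div W hW
    rw [show (((y + y').toMul : Kˣ) : K) = ((y.toMul * y'.toMul : Kˣ) : K) from rfl,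
      show (((b + b').toMul : Fˣ) : F) = ((b.toMul * b'.toMul : Fˣ) : F) from rfl,
      ordv_mul, ordv_mul, Finsupp.add_apply, Finsupp.add_apply]
    linarith

theorem rf_DD_neg {K : Type} [Field K] [NumberField K] [Algebra F K]
    {σ : K ≃ₐ[F] K} {b : Additive Fˣ} {y : Additive Kˣ} {D : Dvs K}
    (h : DD S σ b y D) : DD S σ (-b) (-y) (-D) := by
  refine ⟨?_, fun W hW => ?_⟩
  · rw [map_neg, map_neg, ← h.norm]
    abel
  · have e1 := h.div W hW
    rw [show (((-y).toMul : Kˣ) : K) = ((y.toMul⁻¹ : Kˣ) : K) from rfl,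
      show (((-b).toMul : Fˣ) : F) = ((b.toMul⁻¹ : Fˣ) : F) from rfl,
      ordv_inv, ordv_inv, Finsupp.neg_apply, Finsupp.neg_apply]
    linarith

/-- the group of the `(b, γ, D')` with `DD S σ' b γ D'` -/
noncomputable def rf_A {K : Type} [Field K] [NumberField K] [Algebra F K]
    (S T : Finset (HeightOneSpectrum (𝓞 F))) (σ : K ≃ₐ[F] K) :
    AddSubgroup (ES S T × (Additive Kˣ × Dvs K)) where
  carrier := {p | DD S σ p.1.1 p.2.1 p.2.2}
  zero_mem' := rf_DD_zero σ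
  add_mem' := fun {a b} ha hb => rf_DD_add ha hb
  neg_mem' := fun {a} ha => rf_DD_neg ha

theorem phi0_pr (hD : Data ι S T r w fr) {c : Ch G} (hc : c ≠ 0) (hcS : Sp ι S c)
    (σ' : Kf ι (kr c) ≃ₐ[F] Kf ι (kr c)) (hσ' : σ' ≠ 1) (W : PS S → Pl (Kf ι (kr c)))
    (hW : ∀ P, dn F (W P) = P.pl) : ∃ φ : Ch G → (ES S T →+ ZMod 2),
      (∀ θ, ∀ b ∈ sqE S T, φ θ b = 0) ∧ ∀ b : ES S T, ∃ (γ : Additive (Kf ι (kr c))ˣ)
        (D' : Dvs (Kf ι (kr c))), DD S σ' b.1 γ D' ∧ ∀ θ : Ch G, φ θ b =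
          cdF fr S c (hf S T b) + cdF fr S θ (hf S T b) + cdN (Kf ι (kr c)) fr S c θ D' +
            ∑ P : PS S, syK ι θ (W P) γ := by
  classical
  haveI : IsGalois F (Kf ι (kr c)) := kf_galois ι (kr c)
  -- the symbols of `c` in `S` vanish
  have hsc : ∀ (P : PS S) (b : Additive Fˣ), sy ι c P.pl b = 0 := fun P b =>
    QR.hs_of_sq ((sq_iff c P.pl).2 (hcS P)) _
  -- surjectivity
  have hsur : ∀ b : ES S T, ∃ (γ : Additive (Kf ι (kr c))ˣ) (D' : Dvs (Kf ι (kr c))),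
      DD S σ' b.1 γ D' := by
    intro b
    obtain ⟨y, _, hy⟩ := (hasse_T hD hc σ' hσ' b).2 fun P => hsc P b.1
    obtain ⟨D', hD', _⟩ := dd_ex (S := S) (kf_card hc) σ' hσ'
      (fun V hV => kf_unr hD (kr c) V hV) b.1 b.2.2 y hy
    exact ⟨y, D', hD'⟩
  let A := rf_A (K := Kf ι (kr c)) S T σ'
  let π : A →+ ES S T := (AddMonoidHom.fst _ _).comp A.subtype
  -- the homomorphisms
  let Φ : Ch G → (A →+ ZMod 2) := fun θ =>
    (((cdF fr S c).comp (hf S T)).comp π + ((cdF fr S θ).comp (hf S T)).comp π) +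
      (cdN (Kf ι (kr c)) fr S c θ).comp ((AddMonoidHom.snd _ _).comp
        ((AddMonoidHom.snd _ _).comp A.subtype)) +
      ∑ P : PS S, (AddMonoidHom.mk' (fun y => syK ι θ (W P) y)
        (fun y y' => syK_add_right θ (W P) y y')).comp
          ((AddMonoidHom.fst _ _).comp ((AddMonoidHom.snd _ _).comp A.subtype))
  have hΦ : ∀ θ (p : A), Φ θ p = cdF fr S c (hf S T p.1.1) + cdF fr S θ (hf S T p.1.1) +
      cdN (Kf ι (kr c)) fr S c θ p.1.2.2 + ∑ P : PS S, syK ι θ (W P) p.1.2.1 := by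
    intro θ p
    show (_ + _ + _ + (∑ P : PS S, (AddMonoidHom.mk' (fun y => syK ι θ (W P) y)
        (fun y y' => syK_add_right θ (W P) y y')).comp
          ((AddMonoidHom.fst _ _).comp ((AddMonoidHom.snd _ _).comp A.subtype))) p) = _
    rw [AddMonoidHom.finsetSum_apply]
    rfl
  let A₀ : AddSubgroup A :=
    { carrier := {p | ∃ c' : Additive Fˣ, c'.toMul ∈ KT T ∧ p.1.1.1 = 2 • c' ∧
        p.1.2.1 = inc F (Kf ι (kr c)) c' ∧ p.1.2.2 = 0}
      zero_mem' := ⟨0, (KT T).one_mem, (nsmul_zero 2).symm, (map_zero _).symm, rfl⟩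
      add_mem' := by
        rintro p q ⟨x, hx, e1, e2, e3⟩ ⟨y, hy, f1, f2, f3⟩
        refine ⟨x + y, (KT T).mul_mem hx hy, ?_, ?_, ?_⟩
        · rw [nsmul_add, ← e1, ← f1]
          rfl
        · rw [map_add, ← e2, ← f2]
          rfl
        · show p.1.2.2 + q.1.2.2 = 0
          rw [e3, f3, add_zero]
      neg_mem' := by
        rintro p ⟨x, hx, e1, e2, e3⟩
        refine ⟨-x, (KT T).inv_mem hx, ?_, ?_, ?_⟩
        · show -p.1.1.1 = 2 • -x
          rw [e1]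
          exact (neg_nsmul x 2).symm
        · rw [map_neg, ← e2]
          rfl
        · show -p.1.2.2 = 0
          rw [e3, neg_zero] }
  have hhf : ∀ (b : ES S T) (c' : Additive Fˣ), b.1 = 2 • c' → ∀ v, v ∉ S →
      hf S T b v = dv F c' v := by
    intro b c' e v hv
    have e1 := hf_two b hv
    rw [e, show (((2 • c').toMul : Fˣ) : F) = ((c'.toMul * c'.toMul : Fˣ) : F) by
      rw [two_nsmul]; rfl, ordv_mul] at e1
    rw [dv_apply]
    linarith
  have key : ∀ θ, ∀ a ∈ A₀, Φ θ a = 0 := by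
    rintro θ a ⟨c', hc', e1, e2, e3⟩
    rw [hΦ, e2, e3, map_zero, add_zero,
      rf_cdF_congr fr S c (hhf a.1.1 c' e1), rf_cdF_congr fr S θ (hhf a.1.1 c' e1),
      ← sy_prod hD c, ← sy_prod hD θ, Finset.sum_eq_zero fun P _ => hsc P c', zero_add,
      Finset.sum_congr rfl fun P _ => syK_inc hc hcS θ P (W P) (hW P) c']
    exact CharTwo.add_self_eq_zero _
  obtain ⟨φ, hφ1, hφ2⟩ := rf_lift π (fun b => by
      obtain ⟨γ, D', h⟩ := hsur b
      exact ⟨⟨(b, (γ, D')), h⟩, rfl⟩) A₀ (sqE S T)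
    (by
      rintro a ⟨c', hc', e1, _, _⟩
      exact ⟨c', hc', e1⟩)
    (by
      rintro q ⟨c', hc', e1⟩
      have e1' : q.1 = 2 • c' := e1
      refine ⟨⟨(q, (inc F (Kf ι (kr c)) c', 0)), ?_⟩, ⟨c', hc', e1', rfl, rfl⟩, rfl⟩
      refine ⟨?_, fun V hV => ?_⟩
      · have h1 : eac σ' (inc F (Kf ι (kr c)) c') = inc F (Kf ι (kr c)) c' := by
          have : (eac σ' (inc F (Kf ι (kr c)) c')).toMul = (inc F (Kf ι (kr c)) c').toMul :=
            Units.ext (σ'.commutes _)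
          exact this
        show inc F (Kf ι (kr c)) c' + eac σ' (inc F (Kf ι (kr c)) c') =
          inc F (Kf ι (kr c)) q.1
        rw [h1, e1', map_nsmul, two_nsmul]
      · show 2 * ordv V (algebraMap F (Kf ι (kr c)) ((c'.toMul : Fˣ) : F)) =
          ordv (V.under (𝓞 F)) ((q.1.toMul : Fˣ) : F) + 2 * ((0 : ℤ) - 0)
        rw [e1', show (((2 • c').toMul : Fˣ) : F) = ((c'.toMul * c'.toMul : Fˣ) : F) by
          rw [two_nsmul]; rfl, ordv_mul, ordv_unr (kf_unr hD (kr c) V hV)]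
        ring)
    (by
      intro x
      refine ⟨x.1, x.2.1, ?_⟩
      show x.1 + x.1 = 2 • x.1
      rw [two_nsmul])
    Φ key
  refine ⟨φ, hφ1, fun b => ?_⟩
  obtain ⟨a, ha, h⟩ := hφ2 b
  refine ⟨a.1.2.1, a.1.2.2, ?_, fun θ => ?_⟩
  · have := a.2
    rw [← ha]
    exact this
  · rw [h θ, hΦ, ← ha]
    rfl

end R

alias phi0 := phi0_pr

end Pool.Agent.MQR
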