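import Pool.Agent.Lib_helper15.MQR.Defs
import Pool.Agent.Lib_helper15.MQRF.KC
import Pool.Agent.Lib_helper15.MQRF.KD
import Pool.Agent.Lib_helper15.MQRF.KJ
import Pool.Agent.Lib_helper15.MQRF.RE
import Pool.Agent.Lib_helper15.MQRF.RF
import Pool.Agent.Lib_helper17.RS.P_IF
import Pool.Agent.Lib_helper17.RS.P_UP1

/-!
# MQR block RG: `phi_ex_pr`
-/

set_option autoImplicit false
set_option linter.unusedSectionVars false
set_option linter.unusedVariables false

namespace Pool.Agent.MQR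

open Pool.Agent.RSK Pool.Agent.RS2 Pool.Agent.RS3 Pool.Agent.SY Pool.Agent.AU Pool.Agent.CR
open Pool.Agent.RG Pool.Agent.QR
open NumberField IsDedekindDomain

section R

variable {F H : Type} [Field F] [NumberField F] [Field H] [NumberField H] [Algebra F H]
  [IsGalois F H] {G : Type} [CommGroup G] [Fintype G] {ι : G ≃* (H ≃ₐ[F] H)}
  {S T : Finset (HeightOneSpectrum (𝓞 F))} {r : ℕ} {w : Fin r → Pl H}
  {fr : HeightOneSpectrum (𝓞 F) → G}

theorem rg_wt_add {k : Type} [Field k] [NumberField k] (c c' : HeightOneSpectrum (𝓞 k) → ZMod 2)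
    (D : Dvs k) : wt (fun v => c v + c' v) D = wt c D + wt c' D := by
  rw [wt_apply, wt_apply, wt_apply, ← Finsupp.sum_add]
  exact Finsupp.sum_congr fun v _ => mul_add _ _ _

theorem rg_wt_zero {k : Type} [Field k] [NumberField k] (D : Dvs k) :
    wt (fun _ => (0 : ZMod 2)) D = 0 := by
  rw [wt_apply]
  exact Finset.sum_eq_zero fun v _ => mul_zero _

theorem rg_cdF_add (θ θ' : Ch G) (D : Dvs F) :
    cdF fr S (θ + θ') D = cdF fr S θ D + cdF fr S θ' D := by
  unfold cdF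
  rw [← rg_wt_add]
  congr 2
  funext v
  split_ifs
  · rw [add_zero]
  · rfl

theorem rg_cdF_zero (D : Dvs F) : cdF fr S (0 : Ch G) D = 0 := by
  have h := rg_cdF_add (fr := fr) (S := S) (0 : Ch G) 0 D
  rw [add_zero] at h
  exact left_eq_add.1 h

theorem rg_cdN_add (K : Type) [Field K] [NumberField K] [Algebra F K] (c θ θ' : Ch G)
    (D : Dvs K) : cdN K fr S c (θ + θ') D = cdN K fr S c θ D + cdN K fr S c θ' D := by
  unfold cdN
  rw [← rg_wt_add]
  congr 2
  funext v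
  split_ifs
  · rw [add_zero]
  · rfl

theorem rg_cdN_zero (K : Type) [Field K] [NumberField K] [Algebra F K] (c : Ch G)
    (D : Dvs K) : cdN K fr S c 0 D = 0 := by
  have h := rg_cdN_add (fr := fr) (S := S) K c (0 : Ch G) 0 D
  rw [add_zero] at h
  exact left_eq_add.1 h

theorem rg_cdN_self (K : Type) [Field K] [NumberField K] [Algebra F K] (c : Ch G)
    (D : Dvs K) : cdN K fr S c c D = 0 := by
  refine Eq.trans ?_ (rg_wt_zero D)
  unfold cdN
  congr 2
  funext v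
  split_ifs with h
  · rfl
  · rw [not_or, not_not] at h
    exact h.2

theorem phi_ex_pr (hD : Data ι S T r w fr) {c : Ch G} (hc : c ≠ 0) (hcS : Sp ι S c) :
    ∃ φ : Ch G → (ES S T →+ ZMod 2), (∀ θ, ∀ b ∈ sqE S T, φ θ b = 0) ∧
      (∀ x y z, φ (x + y + z) = φ x + φ y + φ z) ∧
      (∀ b : ES S T, φ 0 b = cdF fr S c (hf S T b)) ∧
      ∀ θ : Ch G, θ ≠ 0 → ∀ σ : Kf ι (kr θ) ≃ₐ[F] Kf ι (kr θ), σ ≠ 1 →
        ∀ (b : ES S T) (y : Additive (Kf ι (kr θ))ˣ) (D : Dvs (Kf ι (kr θ))), DD S σ b.1 y D →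
          φ θ b = cdN (Kf ι (kr θ)) fr S θ c D := by
  have hg : IsGalois F (Kf ι (kr c)) := kf_galois ι (kr c)
  obtain ⟨σ', hσ'⟩ : ∃ σ' : Kf ι (kr c) ≃ₐ[F] Kf ι (kr c), σ' ≠ 1 := by
    by_contra h
    push Not at h
    have h1 := kf_card (ι := ι) hc
    have h2 : Nat.card (Kf ι (kr c) ≃ₐ[F] Kf ι (kr c)) ≤ 1 := by
      have : Subsingleton (Kf ι (kr c) ≃ₐ[F] Kf ι (kr c)) :=
        ⟨fun a b => (h a).trans (h b).symm⟩
      exact Finite.card_le_one_iff_subsingleton.2 this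
    omega
  have hWex : ∀ P : PS S, ∃ W : Pl (Kf ι (kr c)), dn F W = P.pl := fun P => dn_surj P.pl
  choose W hW using hWex
  obtain ⟨φ, hφ1, hφ2⟩ := phi0 (T := T) hD hc hcS σ' hσ' W hW
  have h2 : ∀ a : ZMod 2, a + a = 0 := fun a => CharTwo.add_self_eq_zero a
  refine ⟨φ, hφ1, fun x y z => ?_, fun b => ?_, fun θ hθ σ hσ b y D hDD => ?_⟩
  · ext b
    obtain ⟨γ, D', -, h⟩ := hφ2 b
    rw [AddMonoidHom.add_apply, AddMonoidHom.add_apply, h, h, h, h, rg_cdF_add, rg_cdF_add,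
      rg_cdN_add, rg_cdN_add]
    have e : ∑ P : PS S, syK ι (x + y + z) (W P) γ = ∑ P : PS S, syK ι x (W P) γ +
        ∑ P : PS S, syK ι y (W P) γ + ∑ P : PS S, syK ι z (W P) γ := by
      rw [← Finset.sum_add_distrib, ← Finset.sum_add_distrib]
      refine Finset.sum_congr rfl fun P _ => ?_
      rw [syK_add_left, syK_add_left]
    rw [e]
    linear_combination (-1 : ZMod 2) * h2 (cdF fr S c (hf S T b))
  · obtain ⟨γ, D', -, h⟩ := hφ2 b
    rw [h, rg_cdF_zero, rg_cdN_zero]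
    have e : ∑ P : PS S, syK ι (0 : Ch G) (W P) γ = 0 :=
      Finset.sum_eq_zero fun P _ => syK_zero_left _ _
    rw [e, add_zero, add_zero, add_zero]
  · obtain ⟨γ, D', hDD', h⟩ := hφ2 b
    rw [h]
    by_cases hne : θ = c
    · subst hne
      have e : ∑ P : PS S, syK ι θ (W P) γ = 0 :=
        Finset.sum_eq_zero fun P _ => syK_self _ _
      rw [e, rg_cdN_self, rg_cdN_self, add_zero, add_zero, h2]
    · exact (redei hD hθ hc hne hcS σ hσ σ' hσ' b hDD hDD' W hW).symm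

end R

alias phi_ex := phi_ex_pr

end Pool.Agent.MQR
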