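import Pool.Agent.Lib_helper15.MQR.Defs
import Pool.Agent.Lib_helper15.MQRF.CA
import Pool.Agent.Lib_helper15.MQRF.RG

/-!
# Block CB of MQR (MP_dd9835_nt): the system `φ`
-/

set_option autoImplicit false
set_option linter.unusedSectionVars false
set_option linter.unusedVariables false

namespace Pool.Agent.MQR

open Pool.Agent.RSK Pool.Agent.RS2 Pool.Agent.RS3 Pool.Agent.SY Pool.Agent.AU Pool.Agent.CR
open Pool.Agent.RG Pool.Agent.QR
open NumberField IsDedekindDomain

section R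

variable {F H : Type} [Field F] [NumberField F] [Field H] [NumberField H] [Algebra F H]
  [IsGalois F H] {G : Type} [CommGroup G] [Fintype G] {ι : G ≃* (H ≃ₐ[F] H)}
  {S T : Finset (HeightOneSpectrum (𝓞 F))} {r : ℕ} {w : Fin r → Pl H}
  {fr : HeightOneSpectrum (𝓞 F) → G}

/-- Block CB. -/
theorem Phi_ex_pr (hD : Data ι S T r w fr) {t : ℕ} (h : Nat.card (C0 ι S) = 2 ^ t) :
    ∃ (c : Fin t → Ch G) (φ : Fin t → Ch G → (ES S T →+ ZMod 2)), Phi ι S T fr c φ := by
  classical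
  obtain ⟨c, h1, h2, h3⟩ := c0_basis h
  have hc : ∀ i, c i ≠ 0 := by
    intro i hi
    have h4 := h2 {i} (by rw [Finset.sum_singleton, hi])
    exact Finset.singleton_ne_empty i h4
  have hex := fun i => phi_ex hD (hc i) (h1 i)
  choose φ hφ1 hφ2 hφ3 hφ4 using hex
  exact ⟨c, φ, ⟨h1, h2, h3, hφ1, hφ2, hφ3, hφ4⟩⟩

end R

alias Phi_ex := Phi_ex_pr

end Pool.Agent.MQR
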