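import Pool.Agent.Lib_helper15.MQR.Defs
import Pool.Agent.Lib_helper17.RS.P_XA1
import Pool.Agent.Lib_helper17.RS.P_UP1
/-! # MQR, block ED (helper67): extension of a homomorphism modulo `2` -/

set_option autoImplicit false
set_option linter.unusedSectionVars false
set_option linter.unusedVariables false

namespace Pool.Agent.MQR

open Pool.Agent.RSK Pool.Agent.RS2 Pool.Agent.RS3 Pool.Agent.SY Pool.Agent.AU Pool.Agent.CR
open Pool.Agent.RG Pool.Agent.QR
open NumberField IsDedekindDomain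

section EdAlg

theorem ed_ext {A U : Type} [AddCommGroup A] [AddCommGroup U] (j : U →+ A) (f : U →+ ZMod 2)
    (h : ∀ u a, j u = a + a → f u = 0) : ∃ g : A →+ ZMod 2, ∀ u, g (j u) = f u := by
  let PA := (nsmulAddMonoidHom (α := A) 2).range
  let PU := (nsmulAddMonoidHom (α := U) 2).range
  have hA : ∀ x : A ⧸ PA, 2 • x = 0 := by
    intro x
    obtain ⟨a, rfl⟩ := QuotientAddGroup.mk_surjective x
    show (QuotientAddGroup.mk (2 • a) : A ⧸ PA) = 0
    rw [QuotientAddGroup.eq_zero_iff]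
    exact ⟨a, rfl⟩
  have hU : ∀ x : U ⧸ PU, 2 • x = 0 := by
    intro x
    obtain ⟨a, rfl⟩ := QuotientAddGroup.mk_surjective x
    show (QuotientAddGroup.mk (2 • a) : U ⧸ PU) = 0
    rw [QuotientAddGroup.eq_zero_iff]
    exact ⟨a, rfl⟩
  let _ : Module (ZMod 2) (A ⧸ PA) := AddCommGroup.zmodModule hA
  let _ : Module (ZMod 2) (U ⧸ PU) := AddCommGroup.zmodModule hU
  let j0 : U ⧸ PU →+ A ⧸ PA := QuotientAddGroup.map PU PA j (by
    rintro _ ⟨u, rfl⟩
    exact ⟨j u, (map_nsmul j 2 u).symm⟩)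
  let f0 : U ⧸ PU →+ ZMod 2 := QuotientAddGroup.lift PU f (by
    rintro _ ⟨u, rfl⟩
    rw [AddMonoidHom.mem_ker]
    show f (2 • u) = 0
    rw [map_nsmul, nsmul_eq_mul]
    have : ((2 : ℕ) : ZMod 2) = 0 := by decide
    rw [this, zero_mul])
  let j1 := j0.toZModLinearMap 2
  let f1 := f0.toZModLinearMap 2
  have hf1 : f1 ∈ LinearMap.range j1.dualMap := by
    rw [LinearMap.range_dualMap_eq_dualAnnihilator_ker, Submodule.mem_dualAnnihilator]
    intro x hx
    obtain ⟨u, rfl⟩ := QuotientAddGroup.mk_surjective x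
    have h1 : (QuotientAddGroup.mk (j u) : A ⧸ PA) = 0 := hx
    rw [QuotientAddGroup.eq_zero_iff] at h1
    obtain ⟨a, ha⟩ := h1
    refine h u a ?_
    rw [← two_nsmul]
    exact ha.symm
  obtain ⟨g, hg⟩ := hf1
  refine ⟨g.toAddMonoidHom.comp (QuotientAddGroup.mk' PA), fun u => ?_⟩
  have h2 := congrArg (fun φ : (U ⧸ PU) →ₗ[ZMod 2] ZMod 2 => φ (QuotientAddGroup.mk u)) hg
  exact h2

end EdAlg

section E2

variable {F H : Type} [Field F] [NumberField F] [Field H] [NumberField H] [Algebra F H]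
  [IsGalois F H] {G : Type} [CommGroup G] [Fintype G] {ι : G ≃* (H ≃ₐ[F] H)}
  {S T : Finset (HeightOneSpectrum (𝓞 F))} {r : ℕ} {w : Fin r → Pl H}
  {fr : HeightOneSpectrum (𝓞 F) → G}

theorem fex_pr (f : UM ι S T →+ ℤ) : ∃ F' : ES S T →+ ZMod 2, (∀ b ∈ sqE S T, F' b = 0) ∧
    ∀ (b : ES S T) (x : UM ι S T), Rel ι b x → F' b = ((f x : ℤ) : ZMod 2) := by
  let A : AddSubgroup (Additive Hˣ) := Subgroup.toAddSubgroup (KT (ovr H T))
  have hA : ∀ z : Additive Hˣ, z ∈ A ↔ z.toMul ∈ KT (ovr H T) := fun z => Iff.rfl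
  let j : UM ι S T →+ A :=
    { toFun := fun x => ⟨Additive.ofMul x.val, x.val_mem.2⟩
      map_zero' := rfl
      map_add' := fun _ _ => rfl }
  obtain ⟨g, hg⟩ := ed_ext j ((Int.castAddHom (ZMod 2)).comp f) (by
    intro x a hxa
    have h1 : x.val = a.1.toMul * a.1.toMul := congrArg (fun z : A => z.1.toMul) hxa
    have hmem : a.1.toMul ∈ Un (ovr H S) (ovr H T) := by
      refine ⟨fun v hv => ?_, a.2⟩
      rw [← xa1_ordv_iff v (Units.ne_zero _)]
      have h2 : ordv v (x.val : H) = 0 := (xa1_ordv_iff v (Units.ne_zero _)).2 (x.val_mem.1 v hv)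
      rw [h1, ordv_mul] at h2
      omega
    have h3 : x = UM.mk (ι := ι) a.1.toMul hmem + UM.mk (ι := ι) a.1.toMul hmem := by
      apply UM.ext
      rw [UM.val_add, UM.val_mk, h1]
    show ((f x : ℤ) : ZMod 2) = 0
    rw [h3, map_add, Int.cast_add]
    exact CharTwo.add_self_eq_zero _)
  let i : ES S T →+ A :=
    { toFun := fun b => ⟨inc F H b.1, (kt_map (H := H) b.1.toMul).2 b.2.1⟩
      map_zero' := Subtype.ext (map_zero (inc F H))
      map_add' := fun b b' => Subtype.ext (map_add (inc F H) b.1 b'.1) }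
  have hgg : ∀ a : A, g (a + a) = 0 := fun a => by
    rw [map_add]
    exact CharTwo.add_self_eq_zero _
  refine ⟨g.comp i, fun b hb => ?_, fun b x hbx => ?_⟩
  · obtain ⟨c, hc, e⟩ := hb
    have h1 : i b = (⟨inc F H c, (kt_map (H := H) c.toMul).2 hc⟩ : A) +
        ⟨inc F H c, (kt_map (H := H) c.toMul).2 hc⟩ := by
      apply Subtype.ext
      have e' : b.1 = 2 • c := e
      show inc F H b.1 = inc F H c + inc F H c
      rw [e', two_nsmul, map_add]
    show g (i b) = 0
    rw [h1]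
    exact hgg _
  · obtain ⟨z, hz, e⟩ := hbx
    have h1 : i b + j x = (⟨z, hz⟩ : A) + ⟨z, hz⟩ := by
      apply Subtype.ext
      show inc F H b.1 + Additive.ofMul x.val = z + z
      rw [e, two_nsmul]
    have h2 : g (i b) + g (j x) = 0 := by
      rw [← map_add, h1]
      exact hgg _
    rw [hg] at h2
    have h3 : g (i b) = ((f x : ℤ) : ZMod 2) := by
      have h4 : ((Int.castAddHom (ZMod 2)).comp f) x = ((f x : ℤ) : ZMod 2) := rfl
      rw [h4] at h2
      exact CharTwo.add_eq_zero.1 h2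
    exact h3

end E2

alias fex := fex_pr

end Pool.Agent.MQR
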