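import Pool.Agent.Lib_helper15.MQR.Defs

/-!
# Multiquadratic extensions, small `S` (MQR, MP_dd9835_nt), block PA: a sum of products of affine
functions
-/

set_option autoImplicit false
set_option linter.unusedSectionVars false
set_option linter.unusedVariables false

namespace Pool.Agent.MQR

open Pool.Agent.RSK Pool.Agent.RS2 Pool.Agent.RS3 Pool.Agent.SY Pool.Agent.AU Pool.Agent.CR
open Pool.Agent.RG Pool.Agent.QR
open NumberField IsDedekindDomain

section P

/-- Block PA. The sum of a product of fewer than `m` affine functions on an elementary abelian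
group of order `2 ^ m` is `0`: there is `δ ≠ 0` with `α i (x + δ) = α i x` for all `i` (the linear
parts `x ↦ α i x + α i 0` have a common nonzero zero, `2 ^ n < 2 ^ m`), and `x ↦ x + δ` is a fixed
point free involution (`Finset.sum_involution`). -/
theorem aff_sum_pr {X I : Type} [AddCommGroup X] [Fintype X] [Fintype I] {m : ℕ}
    (h2 : ∀ x : X, x + x = 0) (hX : Fintype.card X = 2 ^ m) (hI : Fintype.card I < m)
    (α : I → X → ZMod 2) (hα : ∀ i x y z, α i (x + y + z) = α i x + α i y + α i z) :
    ∑ x : X, ∏ i, α i x = 0 := by
  classical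
  have hcard : Fintype.card (I → ZMod 2) < Fintype.card X := by
    rw [hX, Fintype.card_fun, ZMod.card]
    exact Nat.pow_lt_pow_right (by norm_num) hI
  obtain ⟨x, y, hxy, hL⟩ := Fintype.exists_ne_map_eq_of_card_lt (fun (x : X) (i : I) => α i x) hcard
  have hi : ∀ i, α i x = α i y := fun i => congrFun hL i
  have hchar : ∀ t : ZMod 2, t + t = 0 := fun t => CharTwo.add_self_eq_zero t
  have hinv : ∀ (z : X) (i : I), α i (z + (x + y)) = α i z := by
    intro z i
    rw [← add_assoc, hα, hi i, add_assoc, hchar, add_zero]
  refine Finset.sum_involution (fun z _ => z + (x + y)) ?_ ?_ ?_ ?_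
  · intro z _
    rw [Finset.prod_congr rfl fun i _ => hinv z i]
    exact hchar _
  · intro z _ _ h
    apply hxy
    have h3 : x + y = 0 := by simpa using h
    have h4 : x = -y := eq_neg_of_add_eq_zero_left h3
    have h5 : y = -y := eq_neg_of_add_eq_zero_left (h2 y)
    rw [h4, ← h5]
  · intro z _
    exact Finset.mem_univ _
  · intro z _
    show z + (x + y) + (x + y) = z
    rw [add_assoc, h2, add_zero]

end P

alias aff_sum := aff_sum_pr

end Pool.Agent.MQR
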