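import Pool.Agent.Lib_helper15.MQR.Defs

set_option autoImplicit false
set_option linter.unusedSectionVars false
set_option linter.unusedVariables false

namespace Pool.Agent.MQR

open Pool.Agent.RSK Pool.Agent.RS2 Pool.Agent.RS3 Pool.Agent.SY Pool.Agent.AU Pool.Agent.CR
open Pool.Agent.RG Pool.Agent.QR
open NumberField IsDedekindDomain


theorem pb_unit2 (x : ZMod 2) (h : IsUnit x) : x = 1 := by
  have h0 : x ≠ 0 := h.ne_zero
  revert h0
  clear h
  revert x
  decide

theorem det_ker_pr {V J : Type} [AddCommGroup V] [Module (ZMod 2) V] [Fintype J] [DecidableEq J]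
    {r : ℕ} (e : Module.Basis (Fin r ⊕ J) (ZMod 2) V) (f : Fin r → (V →ₗ[ZMod 2] ZMod 2))
    (β : V →ₗ[ZMod 2] (J → ZMod 2)) (u : Fin r → V)
    (hu : Function.Surjective β → Submodule.span (ZMod 2) (Set.range u) = LinearMap.ker β) :
    (Function.Surjective β → Matrix.det (Matrix.of fun (i l : Fin r ⊕ J) =>
      Sum.elim (fun i => f i (e l)) (fun q => β (e l) q) i) =
        Matrix.det (Matrix.of fun i l => f i (u l))) ∧
    (¬ Function.Surjective β → Matrix.det (Matrix.of fun (i l : Fin r ⊕ J) =>
      Sum.elim (fun i => f i (e l)) (fun q => β (e l) q) i) = 0) := by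
  classical
  set A : Matrix (Fin r ⊕ J) (Fin r ⊕ J) (ZMod 2) := Matrix.of fun (i l : Fin r ⊕ J) =>
      Sum.elim (fun i => f i (e l)) (fun q => β (e l) q) i with hA
  -- the linear map
  set G : V →ₗ[ZMod 2] (Fin r ⊕ J → ZMod 2) := LinearMap.pi (fun i => Sum.elim f
    (fun q => (LinearMap.proj q).comp β) i) with hG
  have hGA : ∀ b : Module.Basis (Fin r ⊕ J) (ZMod 2) V, ∀ i l,
      LinearMap.toMatrix b (Pi.basisFun (ZMod 2) (Fin r ⊕ J)) G i l =
        Sum.elim (fun i => f i (b l)) (fun q => β (b l) q) i := by
    intro b i l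
    rw [LinearMap.toMatrix_apply]
    simp only [Pi.basisFun_repr]
    cases i <;> rfl
  constructor
  · intro hs
    have hker := hu hs
    choose v hv using fun q : J => hs (Pi.single q 1)
    set w : Fin r ⊕ J → V := Sum.elim u v with hw
    have hspan : ⊤ ≤ Submodule.span (ZMod 2) (Set.range w) := by
      intro x _
      have h1 : x - ∑ q, β x q • v q ∈ LinearMap.ker β := by
        rw [LinearMap.mem_ker, map_sub, map_sum, sub_eq_zero]
        funext j
        simp only [map_smul, hv, Finset.sum_apply, Pi.smul_apply, smul_eq_mul]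
        rw [Finset.sum_eq_single j]
        · simp
        · intro b _ hb
          rw [Pi.single_eq_of_ne (Ne.symm hb)]
          simp
        · intro h
          exact absurd (Finset.mem_univ j) h
      rw [← hker] at h1
      have h2 : Submodule.span (ZMod 2) (Set.range u) ≤ Submodule.span (ZMod 2) (Set.range w) := by
        apply Submodule.span_mono
        rintro _ ⟨i, rfl⟩
        exact ⟨Sum.inl i, rfl⟩
      have h3 : ∑ q, β x q • v q ∈ Submodule.span (ZMod 2) (Set.range w) := by
        refine Submodule.sum_mem _ fun q _ => Submodule.smul_mem _ _ ?_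
        exact Submodule.subset_span ⟨Sum.inr q, rfl⟩
      have h4 := Submodule.add_mem _ (h2 h1) h3
      rwa [sub_add_cancel] at h4
    have hcard : Fintype.card (Fin r ⊕ J) = Module.finrank (ZMod 2) V :=
      (Module.finrank_eq_card_basis e).symm
    set b := basisOfTopLeSpanOfCardEqFinrank w hspan hcard with hb
    have hbw : ∀ l, b l = w l := fun l => by
      rw [hb, coe_basisOfTopLeSpanOfCardEqFinrank]
    have h5 : LinearMap.toMatrix e (Pi.basisFun (ZMod 2) (Fin r ⊕ J)) G = A := by
      ext i l
      rw [hGA]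
      rfl
    have h6 : LinearMap.toMatrix b (Pi.basisFun (ZMod 2) (Fin r ⊕ J)) G =
        A * e.toMatrix b := by
      rw [← h5]
      exact (linearMap_toMatrix_mul_basis_toMatrix b e _ G).symm
    have h7 : (e.toMatrix b).det = 1 := by
      apply pb_unit2
      rw [← Matrix.isUnit_iff_isUnit_det]
      exact (IsUnit.of_mul_eq_one _ (Module.Basis.toMatrix_mul_toMatrix_flip e b))
    have h8 : LinearMap.toMatrix b (Pi.basisFun (ZMod 2) (Fin r ⊕ J)) G =
        Matrix.fromBlocks (Matrix.of fun i l => f i (u l)) (Matrix.of fun i q => f i (v q)) 0 1 := by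
      ext i l
      rw [hGA, hbw]
      cases i with
      | inl i => cases l <;> rfl
      | inr q =>
        cases l with
        | inl l =>
          show β (u l) q = 0
          have : u l ∈ LinearMap.ker β := by
            rw [← hker]
            exact Submodule.subset_span ⟨l, rfl⟩
          rw [LinearMap.mem_ker.mp this]
          rfl
        | inr l =>
          show β (v l) q = (1 : Matrix J J (ZMod 2)) q l
          rw [hv, Matrix.one_apply, Pi.single_apply]
    have h9 := congrArg Matrix.det h6
    rw [Matrix.det_mul, h7, mul_one, h8, Matrix.det_fromBlocks_zero₂₁, Matrix.det_one,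
      mul_one] at h9
    exact h9.symm
  · intro hs
    by_contra hdet
    apply hs
    have hU : IsUnit A := by
      rw [Matrix.isUnit_iff_isUnit_det]
      exact (isUnit_iff_ne_zero).mpr hdet
    intro y
    obtain ⟨c, hc⟩ := Matrix.mulVec_surjective_iff_isUnit.mpr hU (Sum.elim 0 y)
    refine ⟨∑ l, c l • e l, ?_⟩
    funext q
    have h1 := congrFun hc (Sum.inr q)
    rw [map_sum]
    simp only [map_smul, Finset.sum_apply, Pi.smul_apply, smul_eq_mul]
    have h2 : (A.mulVec c) (Sum.inr q) = ∑ l, β (e l) q * c l := rfl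
    rw [h2] at h1
    have h3 : (Sum.elim (0 : Fin r → ZMod 2) y) (Sum.inr q) = y q := rfl
    rw [h3] at h1
    rw [← h1]
    exact Finset.sum_congr rfl fun l _ => mul_comm _ _

alias det_ker := det_ker_pr

end Pool.Agent.MQR
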