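import Pool.Agent.Lib_helper15.MQR.Defs
import Pool.Agent.Lib_helper15.MQRF.PA
import Pool.Agent.Lib_helper15.MQRF.PB

set_option autoImplicit false

namespace Pool.Agent.MQR

open Pool.Agent.RSK Pool.Agent.RS2 Pool.Agent.RS3 Pool.Agent.SY Pool.Agent.AU Pool.Agent.CR
open Pool.Agent.RG Pool.Agent.QR
open NumberField IsDedekindDomain

/-- the sum of an affine family of determinants -/
theorem pc_aff {X V J : Type} [AddCommGroup X] [Fintype X] [AddCommGroup V] [Module (ZMod 2) V]
    [Fintype J] [DecidableEq J] {m j r : ℕ} (h2 : ∀ x : X, x + x = 0) (hX : Fintype.card X = 2 ^ m)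
    (hκ : Fintype.card J + j < m) (e : Fin r ⊕ J → V) (f : Fin r → V → ZMod 2)
    (β : X → V → (J → ZMod 2)) (haff : ∀ x y z v, β (x + y + z) v = β x v + β y v + β z v)
    (α : Fin j → X → ZMod 2) (hα : ∀ i x y z, α i (x + y + z) = α i x + α i y + α i z) :
    ∑ x : X, (∏ i, α i x) * Matrix.det (Matrix.of fun (i l : Fin r ⊕ J) =>
      Sum.elim (fun i => f i (e l)) (fun q => β x (e l) q) i) = 0 := by
  have h1 : ∀ x : X, (∏ i, α i x) * Matrix.det (Matrix.of fun (i l : Fin r ⊕ J) =>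
      Sum.elim (fun i => f i (e l)) (fun q => β x (e l) q) i) =
      ∑ σ : Equiv.Perm (Fin r ⊕ J), ((Equiv.Perm.sign σ : ℤ) : ZMod 2) *
        (∏ i, f i (e (σ (Sum.inl i)))) *
        ∏ s : Fin j ⊕ J, Sum.elim (fun i => α i x) (fun q => β x (e (σ (Sum.inr q))) q) s := by
    intro x
    rw [← Matrix.det_transpose, Matrix.det_apply', Finset.mul_sum]
    refine Finset.sum_congr rfl fun σ _ => ?_
    rw [Fintype.prod_sum_type, Fintype.prod_sum_type]
    simp only [Matrix.transpose_apply, Matrix.of_apply, Sum.elim_inl, Sum.elim_inr]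
    ring
  rw [Finset.sum_congr rfl fun x _ => h1 x, Finset.sum_comm]
  refine Finset.sum_eq_zero fun σ _ => ?_
  rw [← Finset.mul_sum]
  have h3 := aff_sum (I := Fin j ⊕ J) (m := m) h2 hX
    (by rw [Fintype.card_sum, Fintype.card_fin]; omega)
    (fun s x => Sum.elim (fun i => α i x) (fun q => β x (e (σ (Sum.inr q))) q) s) (by
      rintro (i | q) x y z
      · exact hα i x y z
      · simp only [Sum.elim_inr]
        rw [haff]
        rfl)
  rw [h3, mul_zero]

theorem pc_mod2 (a : ZMod 2) (h : a ≠ 0) : a = 1 := by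
  revert a; decide

/-- Block PC -/
theorem par_sum_pr {X M J : Type} [AddCommGroup X] [Finite X] [AddCommGroup M] [Fintype J]
    {m j r : ℕ} (h2 : ∀ x : X, x + x = 0) (hX : Nat.card X = 2 ^ m)
    (hκ : Fintype.card J + j < m) (Q : AddSubgroup M) (hQ2 : ∀ x : M, x + x ∈ Q)
    (hQ : Q.index = 2 ^ (r + Fintype.card J)) (f : Fin r → (M →+ ZMod 2))
    (hf : ∀ i, ∀ x ∈ Q, f i x = 0) (β : X → (M →+ (J → ZMod 2)))
    (hβ : ∀ x, ∀ z ∈ Q, β x z = 0) (haff : ∀ x y z, β (x + y + z) = β x + β y + β z)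
    (α : Fin j → X → ZMod 2) (hα : ∀ i x y z, α i (x + y + z) = α i x + α i y + α i z)
    (u : X → Fin r → M) (hu : ∀ x, Function.Surjective (β x) →
      AddSubgroup.closure (Set.range (u x)) ⊔ Q = (β x).ker) :
    ∑ᶠ x : {x : X // Function.Surjective (β x) ∧ ∀ i, α i x ≠ 0},
      Matrix.det (Matrix.of fun i l => f i (u x.1 l)) = 0 := by
  classical
  let _ : Fintype X := Fintype.ofFinite X
  let _ : Module (ZMod 2) (M ⧸ Q) := QuotientAddGroup.zmodModule (fun x => by
    rw [two_nsmul]; exact hQ2 x)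
  have hcard : Nat.card (M ⧸ Q) = 2 ^ (r + Fintype.card J) := hQ
  have hfin : Finite (M ⧸ Q) := Nat.finite_of_card_ne_zero (by rw [hcard]; positivity)
  have hfd : Module.Finite (ZMod 2) (M ⧸ Q) := Module.Finite.of_finite
  have hrank : Module.finrank (ZMod 2) (M ⧸ Q) = r + Fintype.card J := by
    have h := Module.natCard_eq_pow_finrank (K := ZMod 2) (V := M ⧸ Q)
    rw [Nat.card_zmod, hcard] at h
    exact (Nat.pow_right_injective (le_refl 2) h).symm
  let eq : Fin (Module.finrank (ZMod 2) (M ⧸ Q)) ≃ Fin r ⊕ J := Fintype.equivOfCardEq (by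
    rw [Fintype.card_fin, Fintype.card_sum, Fintype.card_fin, hrank])
  let e : Module.Basis (Fin r ⊕ J) (ZMod 2) (M ⧸ Q) :=
    (Module.finBasis (ZMod 2) (M ⧸ Q)).reindex eq
  -- the linear maps on the quotient
  let fL : Fin r → ((M ⧸ Q) →ₗ[ZMod 2] ZMod 2) := fun i =>
    AddMonoidHom.toZModLinearMap 2 (QuotientAddGroup.lift Q (f i) (hf i))
  let βL : X → ((M ⧸ Q) →ₗ[ZMod 2] (J → ZMod 2)) := fun x =>
    AddMonoidHom.toZModLinearMap 2 (QuotientAddGroup.lift Q (β x) (hβ x))
  have hfL : ∀ i (a : M), fL i (a : M ⧸ Q) = f i a := fun i a => rfl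
  have hβL : ∀ x (a : M), βL x (a : M ⧸ Q) = β x a := fun x a => rfl
  have hsurj : ∀ x, Function.Surjective (βL x) ↔ Function.Surjective (β x) := by
    intro x
    constructor
    · intro h w
      obtain ⟨v, hv⟩ := h w
      obtain ⟨a, rfl⟩ := QuotientAddGroup.mk_surjective v
      exact ⟨a, hv⟩
    · intro h w
      obtain ⟨a, ha⟩ := h w
      exact ⟨(a : M ⧸ Q), ha⟩
  have hspan : ∀ x, Function.Surjective (βL x) →
      Submodule.span (ZMod 2) (Set.range fun l => ((u x l : M) : M ⧸ Q)) = LinearMap.ker (βL x) := by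
    intro x hx
    have hx' := hu x ((hsurj x).1 hx)
    apply le_antisymm
    · rw [Submodule.span_le]
      rintro _ ⟨l, rfl⟩
      rw [SetLike.mem_coe, LinearMap.mem_ker, hβL]
      have h3 : u x l ∈ (β x).ker := by
        rw [← hx']
        exact AddSubgroup.mem_sup_left (AddSubgroup.subset_closure ⟨l, rfl⟩)
      exact h3
    · intro v hv
      obtain ⟨a, rfl⟩ := QuotientAddGroup.mk_surjective v
      rw [LinearMap.mem_ker] at hv
      have h3 : a ∈ (β x).ker := hv
      rw [← hx', AddSubgroup.mem_sup] at h3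
      obtain ⟨b, hb, c, hc, hbc⟩ := h3
      have h4 : ((a : M) : M ⧸ Q) = (b : M ⧸ Q) := by
        rw [← hbc, QuotientAddGroup.mk_add, (QuotientAddGroup.eq_zero_iff c).2 hc, add_zero]
      rw [h4]
      have h5 : AddSubgroup.closure (Set.range (u x)) ≤
          (Submodule.span (ZMod 2) (Set.range fun l => ((u x l : M) : M ⧸ Q))).toAddSubgroup.comap
            (QuotientAddGroup.mk' Q) := by
        rw [AddSubgroup.closure_le]
        rintro _ ⟨l, rfl⟩
        exact Submodule.subset_span ⟨l, rfl⟩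
      exact h5 hb
  have hdet := fun x => det_ker e fL (βL x) (fun l => ((u x l : M) : M ⧸ Q)) (hspan x)
  -- the sum
  let F0 : Fintype {x : X // Function.Surjective (β x) ∧ ∀ i, α i x ≠ 0} := Fintype.ofFinite _
  rw [finsum_eq_sum_of_fintype]
  have hs := Finset.sum_subtype (F := F0) (Finset.univ.filter fun x : X =>
    Function.Surjective (β x) ∧ ∀ i, α i x ≠ 0) (p := fun x : X =>
    Function.Surjective (β x) ∧ ∀ i, α i x ≠ 0) (by simp)
    (fun x => Matrix.det (Matrix.of fun i l => f i (u x l)))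
  rw [← hs, Finset.sum_filter]
  have hmain := pc_aff (X := X) (V := M ⧸ Q) (J := J) (r := r) h2
    (by rw [← Nat.card_eq_fintype_card]; exact hX) hκ (fun l => e l)
    (fun i v => fL i v) (fun x v => βL x v) (fun x y z v => by
      obtain ⟨a, rfl⟩ := QuotientAddGroup.mk_surjective v
      change β (x + y + z) a = β x a + β y a + β z a
      rw [haff]
      rfl) α hα
  refine Eq.trans ?_ hmain
  refine Finset.sum_congr rfl fun x _ => ?_
  by_cases hx : Function.Surjective (β x)
  · by_cases hαx : ∀ i, α i x ≠ 0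
    · rw [if_pos ⟨hx, hαx⟩, (hdet x).1 ((hsurj x).2 hx)]
      have h3 : ∏ i, α i x = 1 := Finset.prod_eq_one fun i _ => pc_mod2 _ (hαx i)
      rw [h3, one_mul]
      rfl
    · rw [if_neg (fun h => hαx h.2)]
      push Not at hαx
      obtain ⟨i, hi⟩ := hαx
      rw [Finset.prod_eq_zero (Finset.mem_univ i) hi, zero_mul]
  · rw [if_neg (fun h => hx h.1)]
    have h3 := (hdet x).2 (fun h => hx ((hsurj x).1 h))
    rw [h3, mul_zero]

alias par_sum := par_sum_pr

end Pool.Agent.MQR
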