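import Pool.Agent.Lib_helper15.MQR.Defs
import Pool.Agent.Lib_helper35.RG.AllN
import Pool.Agent.Lib_helper15.MQRF.AA
import Pool.Agent.Lib_helper15.MQRF.AB
import Pool.Agent.Lib_helper15.MQRF.AC
import Pool.Agent.Lib_helper15.MQRF.AD
import Pool.Agent.Lib_helper15.MQRF.AE
import Pool.Agent.Lib_helper15.MQRF.CA
import Pool.Agent.Lib_helper15.MQRF.CB
import Pool.Agent.Lib_helper15.MQRF.CD
import Pool.Agent.Lib_helper15.MQRF.CE
import Pool.Agent.Lib_helper15.MQRF.EA
import Pool.Agent.Lib_helper15.MQRF.EC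
import Pool.Agent.Lib_helper15.MQRF.ED
import Pool.Agent.Lib_helper15.MQRF.EF
import Pool.Agent.Lib_helper15.MQRF.EG
import Pool.Agent.Lib_helper15.MQRF.KC
import Pool.Agent.Lib_helper15.MQRF.PC
import Pool.Agent.Lib_helper35.RS2.P_QK

/-!
# MQR, block AF: `mq_par_pr`, `mq_main_pr`
-/

set_option autoImplicit false
set_option linter.unusedSectionVars false
set_option linter.unusedVariables false

namespace Pool.Agent.MQR

open Pool.Agent.RSK Pool.Agent.RS2 Pool.Agent.RS3 Pool.Agent.SY Pool.Agent.AU Pool.Agent.CR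
open Pool.Agent.RG Pool.Agent.QR
open NumberField IsDedekindDomain

section A

variable {F H : Type} [Field F] [NumberField F] [Field H] [NumberField H] [Algebra F H]
  [IsGalois F H] {G : Type} [CommGroup G] [Fintype G] {ι : G ≃* (H ≃ₐ[F] H)}
  {S T : Finset (HeightOneSpectrum (𝓞 F))} {r : ℕ} {w : Fin r → Pl H}
  {fr : HeightOneSpectrum (𝓞 F) → G}

/-- the function of `θ` belonging to a component of `L` -/
def af_al (o : Option G) (θ : Ch G) : ZMod 2 := o.elim 1 fun g => θ (Additive.ofMul g)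

theorem af_al_add (o : Option G) (x y z : Ch G) :
    af_al o (x + y + z) = af_al o x + af_al o y + af_al o z := by
  rcases o with _ | g
  · show (1 : ZMod 2) = 1 + 1 + 1
    decide
  · rfl

theorem af_al_ne {j : ℕ} (L : Fin j → Option G) (θ : Ch G) :
    (∀ i, af_al (L i) θ ≠ 0) ↔ ∀ i, ∀ g, L i = some g → θ (Additive.ofMul g) ≠ 0 := by
  constructor
  · intro h i g hg h0
    refine h i ?_
    rw [hg]
    exact h0
  · intro h i h0
    rcases e : L i with _ | g
    · rw [e] at h0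
      exact one_ne_zero h0
    · rw [e] at h0
      exact h i g e h0

theorem af_even {I : Type} [Finite I] (z : I → ℤ) (h : ∑ᶠ i, ((z i : ℤ) : ZMod 2) = 0) :
    Even (∑ᶠ i, z i) := by
  classical
  have := Fintype.ofFinite I
  rw [finsum_eq_sum_of_fintype] at h ⊢
  rw [← Int.cast_sum] at h
  rw [even_iff_two_dvd]
  exact (ZMod.intCast_zmod_eq_zero_iff_dvd _ 2).1 h

theorem mq_par_pr (hD : Data ι S T r w fr) (hexp : ∀ g : G, g ^ 2 = 1) {m j : ℕ}
    (hm : Nat.card G = 2 ^ m) (h : Nat.card (RN ι S ⊤) * 2 ^ r ≤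
      2 ^ (Fintype.card (InfinitePlace F) + S.card + j)) : Par m j ι S T w := by
  classical
  intro B hB f L
  obtain ⟨ρ, hρ⟩ := a2_pow S T
  have hs := hD.card
  by_cases hle : m ≤ Fintype.card (InfinitePlace F) + S.card - (r + 1) + ρ + j
  · -- the sum is empty
    have hemp : IsEmpty {θ : Ch G // Xr ι S w θ ∧ ¬ 2 ^ m ∣ 2 ^ j * nn ι S T r θ ∧
        ∀ i, ∀ g, L i = some g → θ (Additive.ofMul g) ≠ 0} := by
      refine ⟨fun θ => θ.2.2.1 ?_⟩
      have h1 := nn_low hD hρ θ.2.1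
      calc 2 ^ m ∣ 2 ^ (j + (Fintype.card (InfinitePlace F) + S.card - (r + 1) + ρ)) :=
            pow_dvd_pow 2 (by omega)
        _ = 2 ^ j * 2 ^ (Fintype.card (InfinitePlace F) + S.card - (r + 1) + ρ) := pow_add _ _ _
        _ ∣ 2 ^ j * nn ι S T r θ.1 := Nat.mul_dvd_mul_left _ h1
    rw [finsum_of_isEmpty]
    exact Even.zero
  push Not at hle
  -- the order of `C0`
  have hc0 := c0_card (ι := ι) (S := S) hexp
  have hidx : (RN ι S ⊤).index ∣ 2 ^ m := hm ▸ Subgroup.index_dvd_card _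
  obtain ⟨t, htm, ht⟩ := (Nat.dvd_prime_pow Nat.prime_two).1 hidx
  have hC : Nat.card (C0 ι S) = 2 ^ t := hc0.1.trans ht
  have hRN : Nat.card (RN ι S ⊤) * 2 ^ t = 2 ^ m := by
    rw [← ht, Subgroup.card_mul_index, hm]
  have hRN' : Nat.card (RN ι S ⊤) = 2 ^ (m - t) := by
    have e : 2 ^ m = 2 ^ (m - t) * 2 ^ t := by rw [← pow_add, Nat.sub_add_cancel htm]
    exact Nat.eq_of_mul_eq_mul_right (by positivity) (hRN.trans e)
  have htρ := c0_low hD hexp hC hρ
  have h' : m - t + r ≤ Fintype.card (InfinitePlace F) + S.card + j := by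
    rw [hRN', ← pow_add] at h
    exact (Nat.pow_le_pow_iff_right (by norm_num)).1 h
  have hρt : ρ = t := by omega
  subst hρt
  have hm' : m = Fintype.card (InfinitePlace F) + S.card - (r + 1) + ρ + 1 + j := by omega
  obtain ⟨P₀⟩ := sx_nonempty hD
  obtain ⟨c, φ, hφ⟩ := Phi_ex hD hC
  have : Finite (PS S) := by unfold PS; infer_instance
  have : Finite (Sx w S) := Subtype.finite
  let _ : Fintype {P : Sx w S // P ≠ P₀} := Fintype.ofFinite _
  have hcard : Fintype.card ({P : Sx w S // P ≠ P₀} ⊕ Fin ρ) =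
      Fintype.card (InfinitePlace F) + S.card - (r + 1) + ρ := by
    rw [Fintype.card_sum, Fintype.card_fin, ← Nat.card_eq_fintype_card, sx_card hD P₀]
  have hTF : TFree S T := RS2.tf_F (H := H) (RS2.tf_H (data_W hD)).1
  -- the criterion
  have hcrit : ∀ θ : Ch G, (Xr ι S w θ ∧ ¬ 2 ^ m ∣ 2 ^ j * nn ι S T r θ) ↔
      Function.Surjective (bt ι P₀ φ sy_add_right θ) := by
    intro θ
    have h1 : 2 ^ m ∣ 2 ^ j * nn ι S T r θ ↔
        2 ^ (Fintype.card (InfinitePlace F) + S.card - (r + 1) + ρ + 1) ∣ nn ι S T r θ := by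
      rw [hm', show Fintype.card (InfinitePlace F) + S.card - (r + 1) + ρ + 1 + j =
        j + (Fintype.card (InfinitePlace F) + S.card - (r + 1) + ρ + 1) by omega, pow_add]
      exact Nat.mul_dvd_mul_iff_left (by positivity)
    constructor
    · rintro ⟨hX, hnd⟩
      rw [h1] at hnd
      by_cases hθ : θ = 0
      · subst hθ
        exact (bt_zero hD hexp hρ hφ P₀ hX).1.2 hnd
      · exact (bt_chi hD hexp hρ hφ P₀ hθ hX).1.2 hnd
    · intro hsj
      have hX : Xr ι S w θ := by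
        by_contra hX
        exact bt_not hD hφ P₀ hX hsj
      refine ⟨hX, ?_⟩
      rw [h1]
      by_cases hθ : θ = 0
      · subst hθ
        exact (bt_zero hD hexp hρ hφ P₀ hX).1.1 hsj
      · exact (bt_chi hD hexp hρ hφ P₀ hθ hX).1.1 hsj
  have hker : ∀ θ : Ch G, Xr ι S w θ → Function.Surjective (bt ι P₀ φ sy_add_right θ) →
      (bt ι P₀ φ sy_add_right θ).ker = U1 ι S T θ := by
    intro θ hX hsj
    by_cases hθ : θ = 0
    · subst hθ
      exact (bt_zero hD hexp hρ hφ P₀ hX).2 hsj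
    · exact (bt_chi hD hexp hρ hφ P₀ hθ hX).2 hsj
  -- the elements
  have hu : ∀ θ : Ch G, ∃ u : Fin r → ES S T, Xr ι S w θ → ∀ i, Rel ι (u i) (B θ i) := by
    intro θ
    by_cases hX : Xr ι S w θ
    · have hb : ∀ i, ∃ b : ES S T, Rel ι b (B θ i) := fun i => by
        refine rel_ex hD (θ := θ) ?_
        rw [← (hB θ hX).span]
        exact AddSubgroup.subset_closure ⟨i, rfl⟩
      choose u hu using hb
      exact ⟨u, fun _ => hu⟩
    · exact ⟨0, fun h => absurd h hX⟩
  choose u hu using hu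
  have hf' : ∀ i, ∃ F' : ES S T →+ ZMod 2, (∀ b ∈ sqE S T, F' b = 0) ∧
      ∀ (b : ES S T) (x : UM ι S T), Rel ι b x → F' b = ((f i x : ℤ) : ZMod 2) :=
    fun i => fex (f i)
  choose f' hf1 hf2 using hf'
  have hX2 : Nat.card (Ch G) = 2 ^ m := by
    rw [← AddSubgroup.card_mul_index (C0 ι S), hc0.1, hc0.2, mul_comm, Subgroup.card_mul_index, hm]
  have : Finite (Ch G) := Nat.finite_of_card_ne_zero (by rw [hX2]; positivity)
  have hsq : ∀ x : ES S T, x + x ∈ sqE S T := by
    intro x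
    refine ⟨x.1, x.2.1, ?_⟩
    show x.1 + x.1 = 2 • x.1
    rw [two_nsmul]
  have hsum := par_sum (X := Ch G) (M := ES S T) (J := {P : Sx w S // P ≠ P₀} ⊕ Fin ρ)
    (m := m) (j := j) (r := r)
    (fun x => by
      ext g
      show x g + x g = 0
      exact CharTwo.add_self_eq_zero _)
    hX2 (by rw [hcard]; omega) (sqE S T) hsq
    (by
      rw [es_index hD.disj hTF, hρ, ← pow_add, hcard]
      congr 1
      omega)
    f' hf1 (fun θ => bt ι P₀ φ sy_add_right θ)
    (by
      rintro θ z hz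
      funext q
      rcases q with P | i
      · show sy ι θ P.1.1.pl z.1 = 0
        obtain ⟨c', _, e⟩ := hz
        have e' : z.1 = 2 • c' := e
        rw [e', two_nsmul, sy_add_right]
        exact CharTwo.add_self_eq_zero _
      · exact hφ.sq i θ z hz)
    (by
      intro x y z
      ext b q
      rcases q with P | i
      · show sy ι (x + y + z) P.1.1.pl b.1 = sy ι x P.1.1.pl b.1 + sy ι y P.1.1.pl b.1 +
          sy ι z P.1.1.pl b.1
        rw [sy_add_left, sy_add_left]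
      · show φ i (x + y + z) b = φ i x b + φ i y b + φ i z b
        rw [hφ.aff]
        rfl)
    (fun i θ => af_al (L i) θ) (fun i x y z => af_al_add (L i) x y z) u
    (by
      intro θ hsj
      have hX := ((hcrit θ).2 hsj).1
      rw [u1_span hD (hB θ hX) (hu θ hX)]
      exact (hker θ hX hsj).symm)
  -- comparison
  refine af_even _ ?_
  rw [← finsum_comp_equiv (Equiv.subtypeEquivRight (p := fun θ : Ch G =>
    Function.Surjective (bt ι P₀ φ sy_add_right θ) ∧ ∀ i, af_al (L i) θ ≠ 0)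
    (q := fun θ : Ch G => Xr ι S w θ ∧ ¬ 2 ^ m ∣ 2 ^ j * nn ι S T r θ ∧
        ∀ i, ∀ g, L i = some g → θ (Additive.ofMul g) ≠ 0)
    (fun θ => by
      rw [← hcrit θ, af_al_ne, and_assoc]))]
  refine Eq.trans (finsum_congr fun θ => ?_) hsum
  have hX := ((hcrit θ.1).2 θ.2.1).1
  show ((dF f (B θ.1) : ℤ) : ZMod 2) = _
  unfold dF
  rw [Int.cast_det]
  congr 1
  ext i l
  exact (hf2 i (u θ.1 l) (B θ.1 l) (hu θ.1 hX l)).symm

theorem mq_main_pr (hD : Data ι S T r w fr) (hexp : ∀ g : G, g ^ 2 = 1) {j : ℕ}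
    (h : Nat.card (RN ι S ⊤) * 2 ^ r ≤ 2 ^ (Fintype.card (InfinitePlace F) + S.card + j)) :
    CRF.RubinOn {a | a ∈ mI 2 G ^ j} ι S T w fr := by
  have : Fact (Nat.Prime 2) := ⟨Nat.prime_two⟩
  have hp : IsPGroup 2 G := fun g => ⟨1, by rw [pow_one]; exact hexp g⟩
  obtain ⟨m, hm⟩ := IsPGroup.iff_card.1 hp
  exact RG.rubin_par hD hexp hm (mq_hv hD hexp hm h) (mq_par_pr hD hexp hm h)

end A

alias mq_par := mq_par_pr
alias mq_main := mq_main_pr

end Pool.Agent.MQR
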