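import Pool.Agent.Lib_helper15.MQR.Defs
import Pool.Agent.Lib_helper15.MQR.DefsR
import Pool.Agent.Lib_helper17.QRF.All
import Pool.Agent.Lib_helper15.MQRF.CA
import Pool.Agent.Lib_helper15.MQRF.CE
import Pool.Agent.Lib_helper15.MQRF.KB
import Pool.Agent.Lib_helper15.MQRF.KE
import Pool.Agent.Lib_helper15.MQRF.KG
import Pool.Agent.Lib_helper17.CRF.N_PC5
import Pool.Agent.Lib_helper17.CR.DefsT

/-!
# MQR, block AI: the group generated by the decomposition groups, dyadic places included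
-/

set_option autoImplicit false
set_option linter.unusedSectionVars false
set_option linter.unusedVariables false

namespace Pool.Agent.MQR

open Pool.Agent.RSK Pool.Agent.RS2 Pool.Agent.RS3 Pool.Agent.SY Pool.Agent.AU Pool.Agent.CR
open Pool.Agent.RG Pool.Agent.QR
open NumberField IsDedekindDomain


/-! ### isotropic subspaces -/

/-- the bilinear form on the product -/
theorem ai_main {D : Type} [Fintype D] (W : D → Type)
    [∀ d, AddCommGroup (W d)] (hfin : ∀ d, Finite (W d)) (hW2 : ∀ d (x : W d), x + x = 0)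
    (q : ∀ d, W d →+ W d →+ ZMod 2) (hq : ∀ d x, (∀ y, q d x y = 0) → x = 0)
    (I : AddSubgroup (∀ d, W d)) (hiso : ∀ x ∈ I, ∀ y ∈ I, ∑ d, q d (x d) (y d) = 0) :
    Nat.card I ^ 2 ≤ ∏ d, Nat.card (W d) := by
  classical
  let _ : ∀ d, Module (ZMod 2) (W d) := fun d => AddCommGroup.zmodModule (fun x => by
    rw [two_nsmul]; exact hW2 d x)
  have hfd : Module.Finite (ZMod 2) (∀ d, W d) := Module.Finite.of_finite
  let Bw : (∀ d, W d) → Module.Dual (ZMod 2) (∀ d, W d) := fun w =>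
    AddMonoidHom.toZModLinearMap 2 (∑ d, (q d (w d)).comp (Pi.evalAddMonoidHom W d))
  have hBw : ∀ w y, Bw w y = ∑ d, q d (w d) (y d) := by
    intro w y
    simp [Bw]
  let B : (∀ d, W d) →ₗ[ZMod 2] Module.Dual (ZMod 2) (∀ d, W d) :=
    AddMonoidHom.toZModLinearMap 2
      { toFun := Bw
        map_zero' := by
          refine LinearMap.ext fun y => ?_
          rw [hBw]
          simp
        map_add' := by
          intro w w'
          refine LinearMap.ext fun y => ?_
          rw [LinearMap.add_apply, hBw, hBw, hBw, ← Finset.sum_add_distrib]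
          refine Finset.sum_congr rfl fun d _ => ?_
          rw [Pi.add_apply, map_add]
          rfl }
  have hB : ∀ w y, B w y = ∑ d, q d (w d) (y d) := fun w y => hBw w y
  have hinj : Function.Injective B := by
    rw [injective_iff_map_eq_zero]
    intro w hw
    funext d
    apply hq d
    intro y
    have h := hB w (Pi.single d y)
    rw [hw, LinearMap.zero_apply] at h
    rw [h]
    rw [Finset.sum_eq_single d]
    · rw [Pi.single_eq_same]
    · intro d' _ hd'
      rw [Pi.single_eq_of_ne hd', map_zero]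
    · intro h; exact absurd (Finset.mem_univ d) h
  set J : Submodule (ZMod 2) (∀ d, W d) := AddSubgroup.toZModSubmodule 2 I with hJ
  have hle : J.map B ≤ J.dualAnnihilator := by
    rintro _ ⟨x, hx, rfl⟩
    rw [Submodule.mem_dualAnnihilator]
    intro y hy
    rw [hB]
    exact hiso x hx y hy
  have h1 : Module.finrank (ZMod 2) (J.map B) = Module.finrank (ZMod 2) J :=
    (Submodule.equivMapOfInjective B hinj J).finrank_eq.symm
  have h2 : Module.finrank (ZMod 2) (J.map B) ≤ Module.finrank (ZMod 2) J.dualAnnihilator :=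
    Submodule.finrank_mono hle
  have h3 := Subspace.finrank_add_finrank_dualAnnihilator_eq J
  have h4 : Nat.card (∀ d, W d) = 2 ^ Module.finrank (ZMod 2) (∀ d, W d) := by
    have := Module.natCard_eq_pow_finrank (K := ZMod 2) (V := ∀ d, W d)
    rwa [Nat.card_zmod] at this
  have h7 : Nat.card I = 2 ^ Module.finrank (ZMod 2) J := by
    have := Module.natCard_eq_pow_finrank (K := ZMod 2) (V := J)
    rwa [Nat.card_zmod] at this
  rw [h7, ← Nat.card_pi, h4, ← pow_mul]
  exact Nat.pow_le_pow_right (by norm_num) (by omega)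

theorem ai_iso {X D : Type} [AddCommGroup X] [Finite X] [Fintype D] (W : D → Type)
    [∀ d, AddCommGroup (W d)] (hfin : ∀ d, Finite (W d)) (hW2 : ∀ d (x : W d), x + x = 0)
    (q : ∀ d, W d →+ W d →+ ZMod 2) (hq : ∀ d x, (∀ y, q d x y = 0) → x = 0)
    (l : ∀ d, X →+ W d) (K : AddSubgroup X) (hK : ∀ x, (∀ d, l d x = 0) → x ∈ K)
    (hiso : ∀ x y, ∑ d, q d (l d x) (l d y) = 0) : K.index ^ 2 ≤ ∏ d, Nat.card (W d) := by
  set L : X →+ (∀ d, W d) := AddMonoidHom.pi l with hL
  have h1 : L.ker ≤ K := by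
    intro x hx
    apply hK
    intro d
    rw [AddMonoidHom.mem_ker] at hx
    exact congrFun hx d
  have h2 : K.index ≤ L.ker.index := AddSubgroup.index_antitone h1
  rw [AddSubgroup.index_ker] at h2
  refine (Nat.pow_le_pow_left h2 2).trans (ai_main W hfin hW2 q hq L.range ?_)
  rintro _ ⟨x, rfl⟩ _ ⟨y, rfl⟩
  exact hiso x y

/-! ### the local spaces -/

section L

variable {F : Type} [Field F] [NumberField F]

/-- `Fˣ` modulo the local squares -/
abbrev ai_W (v : Pl F) : Type :=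
  Additive Fˣ ⧸ Subgroup.toAddSubgroup (Sq v)

theorem ai_W_card (v : Pl F) : Nat.card (ai_W v) = (Sq v).index := by
  rw [← Subgroup.index_toAddSubgroup]
  rfl

theorem ai_W_two (v : Pl F) (x : ai_W v) : x + x = 0 := by
  obtain ⟨a, rfl⟩ := QuotientAddGroup.mk_surjective x
  rw [← QuotientAddGroup.mk_add, QuotientAddGroup.eq_zero_iff]
  show a.toMul * a.toMul ∈ Sq v
  rw [← pow_two]
  exact sq_mem v _

/-- the symbol as a homomorphism in the second variable -/
noncomputable def ai_r (v : Pl F) (a : Fˣ) : Additive Fˣ →+ ZMod 2 where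
  toFun b := hs v a b.toMul
  map_zero' := by
    have h := hs_mul_right v a 1 1
    rw [mul_one] at h
    exact left_eq_add.1 h
  map_add' b c := hs_mul_right v a b.toMul c.toMul

theorem ai_r_sq (v : Pl F) (a : Fˣ) {b : Additive Fˣ}
    (hb : b ∈ Subgroup.toAddSubgroup (Sq v)) : ai_r v a b = 0 := by
  show hs v a b.toMul = 0
  rw [hs_symm]
  exact hs_of_sq hb a

/-- the symbol for fixed `a` -/
noncomputable def ai_q1 (v : Pl F) (a : Fˣ) : ai_W v →+ ZMod 2 :=
  QuotientAddGroup.lift _ (ai_r v a) fun _ hb => ai_r_sq v a hb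

/-- the symbol -/
noncomputable def ai_q (v : Pl F) : ai_W v →+ ai_W v →+ ZMod 2 :=
  QuotientAddGroup.lift _
    { toFun := fun a => ai_q1 v a.toMul
      map_zero' := by
        ext b
        show hs v 1 b = 0
        have h := hs_mul_left v 1 1 b
        rw [mul_one] at h
        exact left_eq_add.1 h
      map_add' := fun a a' => by
        ext b
        exact hs_mul_left v a.toMul a'.toMul b }
    (fun a ha => by
      ext b
      show hs v a.toMul b = 0
      exact hs_of_sq ha b)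

theorem ai_q_mk (v : Pl F) (a b : Additive Fˣ) :
    ai_q v (QuotientAddGroup.mk a) (QuotientAddGroup.mk b) = hs v a.toMul b.toMul := rfl

theorem ai_q_nd (v : Pl F) (x : ai_W v) (h : ∀ y, ai_q v x y = 0) : x = 0 := by
  obtain ⟨a, rfl⟩ := QuotientAddGroup.mk_surjective x
  rw [QuotientAddGroup.eq_zero_iff]
  by_contra ha
  obtain ⟨b, hb⟩ := hs_nondeg (v := v) (a := a.toMul) ha
  have h1 := h (QuotientAddGroup.mk (Additive.ofMul b))
  rw [ai_q_mk, toMul_ofMul, hb] at h1
  exact absurd h1 (by decide)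

theorem ai_index_ne (v : Pl F) : (Sq v).index ≠ 0 := by
  rcases v with v | v
  · show (Sqi v).index ≠ 0
    rcases v.isReal_or_isComplex with h | h
    · rw [(sqi_index v).1 h]; norm_num
    · rw [(sqi_index v).2 h]; norm_num
  · exact (sqf_index_le v).1

theorem ai_index_inf (v : InfinitePlace F) : (Sq (Sum.inl v)).index ≤ 2 := by
  show (Sqi v).index ≤ 2
  rcases v.isReal_or_isComplex with h | h
  · rw [(sqi_index v).1 h]
  · rw [(sqi_index v).2 h]; norm_num

theorem ai_fin (v : Pl F) : Finite (ai_W v) := by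
  apply Nat.finite_of_card_ne_zero
  rw [ai_W_card]
  exact ai_index_ne v

end L

section A

variable {F H : Type} [Field F] [NumberField F] [Field H] [NumberField H] [Algebra F H]
  [IsGalois F H] {G : Type} [CommGroup G] [Fintype G] {ι : G ≃* (H ≃ₐ[F] H)}
  {S T : Finset (HeightOneSpectrum (𝓞 F))} {r : ℕ} {w : Fin r → Pl H}
  {fr : HeightOneSpectrum (𝓞 F) → G}

/-- `θ ↦ af θ` modulo the local squares -/
noncomputable def ai_l (ι : G ≃* (H ≃ₐ[F] H)) (v : Pl F) : Ch G →+ ai_W v :=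
  AddMonoidHom.mk' (fun θ => QuotientAddGroup.mk (Additive.ofMul (af ι θ))) fun θ θ' => by
    rw [← QuotientAddGroup.mk_add, QuotientAddGroup.eq]
    obtain ⟨c, hc⟩ := km_uniq (af_spec ι (θ + θ')) (km_add (af_spec ι θ) (af_spec ι θ'))
    show (af ι (θ + θ'))⁻¹ * (af ι θ * af ι θ') ∈ Sq v
    have e : (af ι (θ + θ'))⁻¹ * (af ι θ * af ι θ') = (c * (af ι (θ + θ'))⁻¹) ^ 2 := by
      rw [mul_pow, ← hc, pow_two, mul_mul_mul_comm, mul_inv_cancel, one_mul, mul_comm]
    rw [e]
    exact sq_mem v _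

theorem ai_self (hD : Data ι S T r w fr) (y : Ch G) {v : HeightOneSpectrum (𝓞 F)} (hv : v ∉ S) :
    sy ι y (Sum.inr v) (Additive.ofMul (af ι y)) = 0 := by
  have h1 : hs (Sum.inr v) (af ι y) (-(af ι y)) = 0 := by
    refine hs_of_nm ?_ _
    exact ⟨0, 1, by rw [Units.val_neg]; ring⟩
  have h2 : sy ι y (Sum.inr v) (Additive.ofMul (-1 : Fˣ)) = 0 := by
    rw [sy_unr hD y hv]
    have h3 : ordv v (((Additive.toMul (Additive.ofMul (-1 : Fˣ)) : Fˣ)) : F) = 0 := by
      have h4 := ordv_mul v (-1 : Fˣ) (-1 : Fˣ)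
      rw [neg_mul_neg, mul_one, Units.val_one, ordv_one] at h4
      rw [toMul_ofMul]
      omega
    rw [h3, Int.cast_zero, mul_zero]
  rw [neg_eq_neg_one_mul, hs_mul_right] at h1
  have h5 : hs (Sum.inr v) (af ι y) (-1) = 0 := h2
  rw [h5, zero_add] at h1
  exact h1

theorem ai_even (hD : Data ι S T r w fr) (x y : Ch G) {v : HeightOneSpectrum (𝓞 F)}
    (hv : v ∉ S) : sy ι x (Sum.inr v) (Additive.ofMul (af ι y)) = 0 := by
  by_cases hy : y (Additive.ofMul (fr v)) = 0
  · have h1 : sy ι x (Sum.inr v) (Additive.ofMul (af ι y)) =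
        sy ι y (Sum.inr v) (Additive.ofMul (af ι x)) := hs_symm _ _ _
    rw [h1, sy_unr hD y hv, hy, zero_mul]
  · have h1 := ai_self hD y hv
    rw [sy_unr hD y hv] at h1
    have h2 := (mul_eq_zero.1 h1).resolve_left hy
    rw [sy_unr hD x hv, h2, mul_zero]

theorem ai_sum (hD : Data ι S T r w fr) (x y : Ch G) :
    ∑ P : PS S, sy ι x P.pl (Additive.ofMul (af ι y)) = 0 := by
  rw [sy_prod hD]
  unfold cdF
  rw [wt_apply]
  refine Finset.sum_eq_zero fun v _ => ?_
  show ((dv F (Additive.ofMul (af ι y)) v : ℤ) : ZMod 2) * _ = 0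
  by_cases hv : v ∈ S
  · rw [if_pos hv, mul_zero]
  · rw [if_neg hv]
    have h1 := ai_even hD x y hv
    rw [sy_unr hD x hv] at h1
    rw [mul_comm]
    exact h1

theorem ai_bot (hD : Data ι S T r w fr) {P : PS S} {i : Fin r} (h : P.pl = dn F (w i)) :
    dgF ι P.pl = ⊥ := by
  rw [eq_bot_iff]
  intro g hg
  have h1 : ι g = 1 := hD.split i (ι g) (hg (w i) h.symm)
  rw [← map_one ι] at h1
  exact ι.injective h1

theorem ai_triv (hD : Data ι S T r w fr) {P : PS S} {i : Fin r} (h : P.pl = dn F (w i))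
    (θ : Ch G) : dgF ι P.pl ≤ kr θ := by
  rw [ai_bot hD h]
  exact bot_le

theorem ai_finCh : Finite (Ch G) :=
  Finite.of_injective (fun θ : Ch G => (θ : Additive G → ZMod 2)) DFunLike.coe_injective

/-- the finite places of `Sx w S` with cyclic decomposition group -/
abbrev ai_C (ι : G ≃* (H ≃ₐ[F] H)) (w : Fin r → Pl H) (S : Finset (HeightOneSpectrum (𝓞 F))) :
    Type := {P : Sx w S // P.1.isRight ∧ IsCyclic (dgF ι P.1.pl)}

/-- the other places of `Sx w S` -/
abbrev ai_D (ι : G ≃* (H ≃ₐ[F] H)) (w : Fin r → Pl H) (S : Finset (HeightOneSpectrum (𝓞 F))) :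
    Type := {P : Sx w S // ¬ (P.1.isRight ∧ IsCyclic (dgF ι P.1.pl))}

/-- the characters which are trivial on the cyclic decomposition groups -/
def ai_X (ι : G ≃* (H ≃ₐ[F] H)) (w : Fin r → Pl H) (S : Finset (HeightOneSpectrum (𝓞 F))) :
    AddSubgroup (Ch G) where
  carrier := {θ | ∀ P : ai_C ι w S, dgF ι P.1.1.pl ≤ kr θ}
  zero_mem' := fun _ _ _ => rfl
  add_mem' := fun {a b} ha hb P g hg => by
    have h1 : a (Additive.ofMul g) = 0 := ha P hg
    have h2 : b (Additive.ofMul g) = 0 := hb P hg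
    show (a + b) (Additive.ofMul g) = 0
    rw [AddMonoidHom.add_apply, h1, h2, add_zero]
  neg_mem' := fun {a} ha P g hg => by
    have h1 : a (Additive.ofMul g) = 0 := ha P hg
    show (-a) (Additive.ofMul g) = 0
    rw [AddMonoidHom.neg_apply, h1, neg_zero]

theorem ai_index_X (ι : G ≃* (H ≃ₐ[F] H)) (w : Fin r → Pl H)
    (S : Finset (HeightOneSpectrum (𝓞 F))) :
    (ai_X ι w S).index ≤ 2 ^ Nat.card (ai_C ι w S) := by
  classical
  have hg : ∀ P : ai_C ι w S, ∃ g : dgF ι P.1.1.pl,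
      ∀ x : dgF ι P.1.1.pl, x ∈ Subgroup.zpowers g := fun P => P.2.2.exists_generator
  choose g hg using hg
  let f : Ch G →+ (ai_C ι w S → ZMod 2) :=
    { toFun := fun θ P => θ (Additive.ofMul (g P : G))
      map_zero' := rfl
      map_add' := fun θ θ' => rfl }
  have hk : f.ker = ai_X ι w S := by
    ext θ
    rw [AddMonoidHom.mem_ker]
    constructor
    · intro h P x hx
      obtain ⟨n, hn⟩ := hg P ⟨x, hx⟩
      have h1 : θ (Additive.ofMul (g P : G)) = 0 := congrFun h P
      have h2 : (g P : G) ∈ kr θ := h1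
      have h3 : ((g P : G)) ^ n = x := by
        have := congrArg Subtype.val hn
        simpa using this
      rw [← h3]
      exact (kr θ).zpow_mem h2 n
    · intro h
      funext P
      exact h P (g P).2
  rw [← hk, AddSubgroup.index_ker]
  have h1 : Nat.card f.range ≤ Nat.card (ai_C ι w S → ZMod 2) :=
    Nat.card_le_card_of_injective (fun x : f.range => x.1) Subtype.val_injective
  rwa [Nat.card_fun, Nat.card_zmod] at h1

theorem ai_index_C (hD : Data ι S T r w fr) :
    ((C0 ι S).relIndex (ai_X ι w S)) ^ 2 ≤ ∏ᶠ P : ai_D ι w S, (Sq P.1.1.pl).index := by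
  classical
  have hfin : Finite (Ch G) := ai_finCh
  rw [finprod_eq_prod_of_fintype]
  have key := ai_iso (X := ai_X ι w S) (D := ai_D ι w S) (fun P => ai_W P.1.1.pl)
    (fun P => ai_fin _) (fun P x => ai_W_two _ x)
    (fun P => ai_q P.1.1.pl) (fun P x hx => ai_q_nd _ x hx)
    (fun P => (ai_l ι P.1.1.pl).comp (ai_X ι w S).subtype)
    ((C0 ι S).addSubgroupOf (ai_X ι w S)) ?_ ?_
  · rw [Finset.prod_congr rfl fun P _ => ai_W_card _] at key
    exact key
  · intro x hx P
    by_cases hP : ∃ i, P.pl = dn F (w i)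
    · obtain ⟨i, hi⟩ := hP
      exact ai_triv hD hi _
    · push Not at hP
      by_cases hc : P.isRight ∧ IsCyclic (dgF ι P.pl)
      · exact x.2 ⟨⟨P, hP⟩, hc⟩
      · have h1 := hx ⟨⟨P, hP⟩, hc⟩
        have h2 : af ι (x : Ch G) ∈ Sq P.pl := (QuotientAddGroup.eq_zero_iff _).1 h1
        exact (sq_iff (x : Ch G) P.pl).1 h2
  · intro x y
    have h1 := ai_sum hD x.1 y.1
    rw [← h1]
    refine Finset.sum_of_injOn (fun P => P.1.1) ?_ (fun _ _ => Finset.mem_coe.2 (Finset.mem_univ _))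
      ?_ (fun _ _ => rfl)
    · intro P _ Q _ hPQ
      exact Subtype.ext (Subtype.ext hPQ)
    · intro P _ hP
      refine hs_of_sq ?_ _
      rw [sq_iff]
      by_cases hi : ∃ i, P.pl = dn F (w i)
      · obtain ⟨i, hi⟩ := hi
        exact ai_triv hD hi _
      · push Not at hi
        by_cases hc : P.isRight ∧ IsCyclic (dgF ι P.pl)
        · exact x.2 ⟨⟨P, hi⟩, hc⟩
        · exact absurd ⟨⟨⟨P, hi⟩, hc⟩, Finset.mem_coe.2 (Finset.mem_univ _), rfl⟩ hP

open scoped Classical in
theorem ai_prod (hD : Data ι S T r w fr) {κ : ℕ} (h : dyD ι S ≤ 2 ^ (rcD ι + 1 + 2 * κ)) :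
    ∏ᶠ P : ai_D ι w S, (Sq P.1.1.pl).index ≤ 2 * 4 ^ (Nat.card (ai_D ι w S) + κ) := by
  classical
  rw [finprod_eq_prod_of_fintype]
  -- bound for one factor
  let a : ai_D ι w S → ℕ := fun P => if P.1.1.isRight then 1 else 2
  let b : ai_D ι w S → ℕ := fun P => Sum.elim (fun _ => 1)
    (fun v : S => nv v.1 ^ (ordv v.1 (2 : F)).toNat) P.1.1
  have h1 : ∀ P : ai_D ι w S, (Sq P.1.1.pl).index * a P ≤ 4 * b P := by
    rintro ⟨⟨P, hP⟩, hc⟩
    rcases P with v | v
    · show (Sq (Sum.inl v)).index * 2 ≤ 4 * 1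
      have := ai_index_inf v
      omega
    · show (Sqf v.1).index * 1 ≤ 4 * nv v.1 ^ (ordv v.1 (2 : F)).toNat
      rw [mul_one]
      exact (sqf_index_le v.1).2
  have h2 : (∏ P : ai_D ι w S, (Sq P.1.1.pl).index) * ∏ P : ai_D ι w S, a P ≤
      4 ^ Nat.card (ai_D ι w S) * ∏ P : ai_D ι w S, b P := by
    rw [← Finset.prod_mul_distrib]
    refine (Finset.prod_le_prod' fun P _ => h1 P).trans (le_of_eq ?_)
    rw [Finset.prod_mul_distrib, Finset.prod_const, Finset.card_univ, Nat.card_eq_fintype_card]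
  -- the dyadic factors
  have hinj : Function.Injective fun P : ai_D ι w S => P.1.1 :=
    fun P Q h => Subtype.ext (Subtype.ext h)
  have h3 : ∏ P : ai_D ι w S, b P ≤ dyD ι S := by
    let B : PS S → ℕ := Sum.elim (fun _ => 1) (fun v : S => if IsCyclic (dgF ι (Sum.inr v.1)) then 1
      else nv v.1 ^ (ordv v.1 (2 : F)).toNat)
    have h4 : ∀ P : PS S, 1 ≤ B P := by
      rintro (v | v)
      · exact le_rfl
      · show 1 ≤ if IsCyclic (dgF ι (Sum.inr v.1)) then 1 else nv v.1 ^ (ordv v.1 (2 : F)).toNat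
        split_ifs
        · exact le_rfl
        · exact Nat.one_le_pow _ _ (lt_of_lt_of_le (by norm_num) (nv_two_le v.1))
    have h5 : ∀ P : ai_D ι w S, b P = B P.1.1 := by
      rintro ⟨⟨P, hP⟩, hc⟩
      rcases P with v | v
      · rfl
      · have hc' : ¬ IsCyclic (dgF ι (Sum.inr v.1)) := fun h => hc ⟨rfl, h⟩
        show nv v.1 ^ (ordv v.1 (2 : F)).toNat = if IsCyclic (dgF ι (Sum.inr v.1)) then 1
          else nv v.1 ^ (ordv v.1 (2 : F)).toNat
        rw [if_neg hc']
    have h6 : dyD ι S = ∏ P : PS S, B P := by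
      unfold dyD
      rw [Fintype.prod_sum_type]
      have e1 : ∏ v : InfinitePlace F, B (Sum.inl v) = 1 := Finset.prod_eq_one fun _ _ => rfl
      rw [e1, one_mul, ← Finset.prod_attach S]
      rfl
    rw [h6, Finset.prod_congr rfl fun P _ => h5 P,
      ← Finset.prod_image (s := Finset.univ) (g := fun P : ai_D ι w S => P.1.1) (f := B)
        fun P _ Q _ h => hinj h]
    exact Finset.prod_le_prod_of_subset_of_one_le' (Finset.subset_univ _) fun P _ _ => h4 P
  have h6 : 2 ^ rcD ι ≤ ∏ P : ai_D ι w S, a P := by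
    have h4 : ∏ P : ai_D ι w S, a P = 2 ^ Nat.card {P : ai_D ι w S // ¬ P.1.1.isRight} := by
      rw [Nat.card_eq_fintype_card, Fintype.card_subtype, ← Finset.prod_const,
        Finset.prod_filter]
      refine Finset.prod_congr rfl fun P _ => ?_
      show (if P.1.1.isRight then 1 else 2) = if ¬ P.1.1.isRight then 2 else 1
      by_cases hr : P.1.1.isRight
      · rw [if_pos hr, if_neg (not_not.2 hr)]
      · rw [if_neg hr, if_pos hr]
    rw [h4]
    refine Nat.pow_le_pow_right (by norm_num) ?_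
    unfold rcD
    let g : {w' : InfinitePlace F // dgF ι (Sum.inl w') ≠ ⊥} →
        {P : ai_D ι w S // ¬ P.1.1.isRight} := fun v =>
      ⟨⟨⟨Sum.inl v.1, fun i hi => v.2 (ai_bot hD (P := Sum.inl v.1) hi)⟩,
        fun h => by simp at h⟩, by simp⟩
    refine Nat.card_le_card_of_injective g fun u v huv => ?_
    have h8 : (Sum.inl u.1 : PS S) = Sum.inl v.1 :=
      congrArg (fun P : {P : ai_D ι w S // ¬ P.1.1.isRight} => P.1.1.1) huv
    exact Subtype.ext (Sum.inl_injective h8)
  have h7 : 0 < ∏ P : ai_D ι w S, a P := by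
    refine Finset.prod_pos fun P _ => ?_
    show 0 < if P.1.1.isRight then 1 else 2
    split_ifs <;> norm_num
  have h8 : (∏ P : ai_D ι w S, (Sq P.1.1.pl).index) * ∏ P : ai_D ι w S, a P ≤
      2 * 4 ^ (Nat.card (ai_D ι w S) + κ) * ∏ P : ai_D ι w S, a P := by
    calc (∏ P : ai_D ι w S, (Sq P.1.1.pl).index) * ∏ P : ai_D ι w S, a P
        ≤ 4 ^ Nat.card (ai_D ι w S) * (2 ^ (rcD ι + 1 + 2 * κ)) :=
          h2.trans (Nat.mul_le_mul_left _ (h3.trans h))
      _ = 2 * 4 ^ (Nat.card (ai_D ι w S) + κ) * 2 ^ rcD ι := by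
          rw [pow_add, pow_mul, pow_add, pow_add]
          norm_num
          ring
      _ ≤ _ := Nat.mul_le_mul_left _ h6
  exact Nat.le_of_mul_le_mul_right h8 h7

theorem ai_pow (ι : G ≃* (H ≃ₐ[F] H)) (w : Fin r → Pl H)
    (S : Finset (HeightOneSpectrum (𝓞 F))) :
    ∃ a : ℕ, (C0 ι S).relIndex (ai_X ι w S) = 2 ^ a := by
  have hfin : Finite (Ch G) := ai_finCh
  have h1 : ∀ x : Ch G, x + x = 0 := fun x => by
    ext g
    exact CharTwo.add_self_eq_zero _
  have hp : IsPGroup 2 (Multiplicative (Ch G)) := fun x => ⟨1, by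
    rw [pow_one, pow_two]
    exact h1 x.toAdd⟩
  have : Fact (Nat.Prime 2) := ⟨Nat.prime_two⟩
  obtain ⟨m, hm⟩ := IsPGroup.iff_card.1 hp
  have h2 : (C0 ι S).relIndex (ai_X ι w S) ∣ 2 ^ m := by
    rw [← hm]
    exact (AddSubgroup.relIndex_dvd_card _ _).trans (AddSubgroup.card_addSubgroup_dvd_card _)
  obtain ⟨a, -, ha⟩ := (Nat.dvd_prime_pow Nat.prime_two).1 h2
  exact ⟨a, ha⟩

/-- Block AI. The isotropy argument of section 4 of the paper, dyadic places included: the symbols of
two characters which are trivial on the cyclic decomposition groups of finite places vanish outside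
the archimedean places and the places with noncyclic decomposition group. -/
theorem gs_le2 (hD : Data ι S T r w fr) (hexp : ∀ g : G, g ^ 2 = 1) {κ : ℕ}
    (h : dyD ι S ≤ 2 ^ (rcD ι + 1 + 2 * κ)) :
    Nat.card (RN ι S ⊤) * 2 ^ r ≤ 2 ^ (Fintype.card (InfinitePlace F) + S.card + κ) := by
  classical
  have hle : C0 ι S ≤ ai_X ι w S := fun θ hθ P => hθ P.1.1
  have h1 := ai_index_C hD
  have h1' := h1.trans (ai_prod hD h)
  have h2 := ai_index_X ι w S
  have h3 := AddSubgroup.relIndex_mul_index hle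
  obtain ⟨P₀⟩ := sx_nonempty hD
  have h4 := sx_card hD P₀
  have hcard := hD.card
  have h5 : Nat.card (ai_C ι w S) + Nat.card (ai_D ι w S) = Nat.card (Sx w S) := by
    rw [← Nat.card_sum]
    exact Nat.card_congr (Equiv.sumCompl _)
  have h6 : Nat.card {P : Sx w S // P ≠ P₀} + 1 = Nat.card (Sx w S) := by
    rw [Nat.card_eq_fintype_card, Nat.card_eq_fintype_card, Fintype.card_subtype_compl,
      Fintype.card_subtype_eq]
    have : 0 < Fintype.card (Sx w S) := Fintype.card_pos_iff.2 ⟨P₀⟩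
    omega
  have h7 : (C0 ι S).relIndex (ai_X ι w S) ≤ 2 ^ (Nat.card (ai_D ι w S) + κ) := by
    have h8 : (4 : ℕ) ^ (Nat.card (ai_D ι w S) + κ) = (2 ^ (Nat.card (ai_D ι w S) + κ)) ^ 2 := by
      rw [← pow_mul, mul_comm, pow_mul]
      norm_num
    obtain ⟨a, ha⟩ := ai_pow ι w S
    rw [h8, ha, ← pow_mul, ← pow_mul, ← pow_succ'] at h1'
    rw [ha]
    have h9 := (Nat.pow_le_pow_iff_right (by norm_num : 1 < 2)).1 h1'
    exact Nat.pow_le_pow_right (by norm_num) (by omega)
  rw [← (c0_card hexp).2, ← h3]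
  calc (C0 ι S).relIndex (ai_X ι w S) * (ai_X ι w S).index * 2 ^ r
      ≤ 2 ^ (Nat.card (ai_D ι w S) + κ) * 2 ^ Nat.card (ai_C ι w S) * 2 ^ r :=
        Nat.mul_le_mul (Nat.mul_le_mul h7 h2) le_rfl
    _ = 2 ^ (Fintype.card (InfinitePlace F) + S.card + κ) := by
        rw [← pow_add, ← pow_add]
        congr 1
        omega

end A

/-! ### special cases -/

section J

variable {F H : Type} [Field F] [NumberField F] [Field H] [NumberField H] [Algebra F H]
  [IsGalois F H] {G : Type} [CommGroup G] [Fintype G] {ι : G ≃* (H ≃ₐ[F] H)}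
  {S T : Finset (HeightOneSpectrum (𝓞 F))} {r : ℕ} {w : Fin r → Pl H}
  {fr : HeightOneSpectrum (𝓞 F) → G}


/-- `ord_v(2)` is the exponent of `v` in the factorisation of the ideal `(2)`. -/
theorem aj_lv_ord (v : HeightOneSpectrum (𝓞 F)) :
    (ordv v (2 : F)).toNat =
      (Associates.mk v.asIdeal).count (Associates.mk (Ideal.span {(2 : 𝓞 F)})).factors := by
  have h : v.valuation F (2 : F) = v.intValuation (2 : 𝓞 F) := by
    have h1 := HeightOneSpectrum.valuation_of_algebraMap (K := F) v (2 : 𝓞 F)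
    have h2 : algebraMap (𝓞 F) F (2 : 𝓞 F) = (2 : F) := map_ofNat _ 2
    rw [← h1]
    exact congrArg _ h2.symm
  unfold ordv
  rw [h, HeightOneSpectrum.intValuation_if_neg v (by norm_num)]
  simp

theorem aj_lv_span_ne : (Ideal.span {(2 : 𝓞 F)}) ≠ 0 := by
  simp

theorem aj_lv_fac {V : Finset (HeightOneSpectrum (𝓞 F))}
    (hV : ∀ v : HeightOneSpectrum (𝓞 F), (2 : 𝓞 F) ∈ v.asIdeal → v ∈ V) :
    ∏ v ∈ V, v.maxPowDividing (Ideal.span {(2 : 𝓞 F)}) = Ideal.span {(2 : 𝓞 F)} := by
  classical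
  rw [← finprod_eq_prod_of_mulSupport_subset]
  · exact Ideal.finprod_heightOneSpectrum_factorization aj_lv_span_ne
  · intro v hv
    refine Finset.mem_coe.2 (hV v ?_)
    by_contra hc
    apply hv
    have h0 : (Associates.mk v.asIdeal).count
        (Associates.mk (Ideal.span {(2 : 𝓞 F)})).factors = 0 := by
      by_contra h1
      have := (Associates.count_ne_zero_iff_dvd aj_lv_span_ne v.irreducible).1 h1
      exact hc (Ideal.dvd_span_singleton.1 this)
    change v.asIdeal ^ _ = 1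
    rw [h0, pow_zero]

theorem aj_lv_norm {V : Finset (HeightOneSpectrum (𝓞 F))}
    (hV : ∀ v : HeightOneSpectrum (𝓞 F), (2 : 𝓞 F) ∈ v.asIdeal → v ∈ V) :
    ∏ v ∈ V, nv v ^ (ordv v (2 : F)).toNat = 2 ^ Module.finrank ℚ F := by
  have h1 := congrArg Ideal.absNorm (aj_lv_fac hV)
  rw [map_prod] at h1
  have h2 : (Ideal.span {(2 : 𝓞 F)}).absNorm = 2 ^ Module.finrank ℤ (𝓞 F) := by
    have := Ideal.absNorm_span_natCast (S := 𝓞 F) 2
    exact_mod_cast this
  rw [h2, RingOfIntegers.rank] at h1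
  rw [← h1]
  refine Finset.prod_congr rfl fun v _ => ?_
  unfold HeightOneSpectrum.maxPowDividing nv
  rw [aj_lv_ord, map_pow]

theorem aj_ord {v : HeightOneSpectrum (𝓞 F)} (h : (2 : 𝓞 F) ∉ v.asIdeal) :
    ordv v (2 : F) = 0 := by
  have h1 : v.valuation F (2 : F) = 1 := by
    have h2 : v.valuation F (algebraMap (𝓞 F) F 2) = v.intValuation (2 : 𝓞 F) :=
      HeightOneSpectrum.valuation_of_algebraMap v 2
    rw [map_ofNat] at h2
    rw [h2]
    exact HeightOneSpectrum.intValuation_eq_one_iff.2 h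
  rw [ordv, h1, WithZero.log_one, neg_zero]

/-- if the decomposition groups above `2` are cyclic -/
theorem dyD_cyc (h : ∀ v ∈ S, (2 : 𝓞 F) ∈ v.asIdeal → IsCyclic (dgF ι (Sum.inr v))) :
    dyD ι S = 1 := by
  classical
  unfold dyD
  refine Finset.prod_eq_one fun v hv => ?_
  by_cases h2 : (2 : 𝓞 F) ∈ v.asIdeal
  · rw [if_pos (h v hv h2)]
  · rw [aj_ord h2, Int.toNat_zero, pow_zero]
    split_ifs <;> rfl

/-- all decomposition groups above `2` together -/
theorem dyD_le : dyD ι S ≤ 2 ^ Module.finrank ℚ F := by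
  classical
  have hfin : {v : HeightOneSpectrum (𝓞 F) | (2 : 𝓞 F) ∈ v.asIdeal}.Finite := by
    have h1 := Ideal.finite_factors (I := Ideal.span {(2 : 𝓞 F)}) (by simp)
    refine h1.subset fun v hv => ?_
    exact Ideal.dvd_span_singleton.2 hv
  set V : Finset (HeightOneSpectrum (𝓞 F)) := S ∪ hfin.toFinset with hV
  have h1 := aj_lv_norm (F := F) (V := V) fun v hv =>
    Finset.mem_union_right _ (hfin.mem_toFinset.2 hv)
  rw [← h1]
  have h2 : ∀ v : HeightOneSpectrum (𝓞 F), 1 ≤ nv v ^ (ordv v (2 : F)).toNat :=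
    fun v => Nat.one_le_pow _ _ (lt_of_lt_of_le (by norm_num) (nv_two_le v))
  calc dyD ι S ≤ ∏ v ∈ S, nv v ^ (ordv v (2 : F)).toNat := by
        unfold dyD
        refine Finset.prod_le_prod' fun v _ => ?_
        split_ifs
        · exact h2 v
        · exact le_rfl
    _ ≤ ∏ v ∈ V, nv v ^ (ordv v (2 : F)).toNat :=
        Finset.prod_le_prod_of_subset_of_one_le' Finset.subset_union_left fun v _ _ => h2 v

theorem rcD_tot (hF : IsTotallyReal F) (hH : IsTotallyComplex H) :
    rcD ι = Module.finrank ℚ F := by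
  classical
  have h1 : ∀ v : InfinitePlace F, dgF ι (Sum.inl v) ≠ ⊥ := by
    intro v hb
    obtain ⟨W, hW⟩ := InfinitePlace.comap_surjective (k := F) (K := H) v
    have h2 : ¬ InfinitePlace.IsUnramified F W := by
      rw [InfinitePlace.isUnramified_iff]
      rintro (h | h)
      · exact InfinitePlace.not_isReal_iff_isComplex.2 (hH.isComplex W) h
      · exact InfinitePlace.not_isReal_iff_isComplex.2 h (hF.isReal _)
    rw [InfinitePlace.isUnramified_iff_stabilizer_eq_bot, Subgroup.eq_bot_iff_forall] at h2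
    push Not at h2
    obtain ⟨σ, hσ, hne⟩ := h2
    obtain ⟨g, rfl⟩ := ι.surjective σ
    have h3 : act (ι g) (Sum.inl W) = Sum.inl W := by
      show Sum.inl (ι g • W) = Sum.inl W
      rw [MulAction.mem_stabilizer_iff.1 hσ]
    have h4 : g ∈ dgF ι (Sum.inl v) := by
      have h5 : dn F (Sum.inl W : Pl H) = Sum.inl v := by
        exact congrArg Sum.inl hW
      rw [← h5]
      exact (dgF_eq (Sum.inl W) g).2 h3
    rw [hb, Subgroup.mem_bot] at h4
    exact hne (by rw [h4, map_one])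
  unfold rcD
  rw [Nat.card_congr (Equiv.subtypeUnivEquiv h1), Nat.card_eq_fintype_card,
    InfinitePlace.card_eq_nrRealPlaces_add_nrComplexPlaces]
  have := hF
  rw [IsTotallyReal.nrComplexPlaces_eq_zero, add_zero, ← IsTotallyReal.finrank]

/-- totally complex extensions of totally real fields -/
theorem dyD_tot (hF : IsTotallyReal F) (hH : IsTotallyComplex H) : dyD ι S ≤ 2 ^ rcD ι := by
  rw [rcD_tot hF hH]
  exact dyD_le

/-- Block AJ. -/
theorem gs_le3 (hD : Data ι S T r w fr) (hexp : ∀ g : G, g ^ 2 = 1) {κ : ℕ}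
    (h : dyD ι S ≤ 2 ^ (rcD ι + 1 + 2 * κ) ∨
      (∀ v ∈ S, (2 : 𝓞 F) ∈ v.asIdeal → IsCyclic (dgF ι (Sum.inr v))) ∨
      (IsTotallyReal F ∧ IsTotallyComplex H)) :
    Nat.card (RN ι S ⊤) * 2 ^ r ≤ 2 ^ (Fintype.card (InfinitePlace F) + S.card + κ) := by
  refine gs_le2 hD hexp ?_
  rcases h with h | h | ⟨hF, hH⟩
  · exact h
  · rw [dyD_cyc h]
    exact Nat.one_le_two_pow
  · exact (dyD_tot hF hH).trans (Nat.pow_le_pow_right (by norm_num) (by omega))

end J



end Pool.Agent.MQR
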