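import Pool.Agent.Lib_helper15.MQRF.AF
import Pool.Agent.Lib_helper15.MQRF.AI
import Pool.Agent.Lib_helper35.RG.P_ES
import Pool.Agent.Lib_helper35.RG.P_MN

/-!
# Rubin's conjecture for multiquadratic extensions: the theorem
-/

set_option autoImplicit false
set_option linter.unusedSectionVars false

namespace Pool.Agent.MQR

open Pool.Agent.RSK Pool.Agent.RS2 Pool.Agent.RS3 Pool.Agent.SY Pool.Agent.AU Pool.Agent.CR
open Pool.Agent.RG Pool.Agent.QR
open NumberField IsDedekindDomain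

variable {F H : Type} [Field F] [NumberField F] [Field H] [NumberField H] [Algebra F H]
  [IsGalois F H] {G : Type} [CommGroup G] [Fintype G]

/-- the condition `#S + κ ≥ r + rk G_S`, `G_S` generated by the decomposition groups -/
theorem fin_rank (ι : G ≃* (H ≃ₐ[F] H)) (S T : Finset (HeightOneSpectrum (𝓞 F))) {r : ℕ}
    (w : Fin r → Pl H) (fr : HeightOneSpectrum (𝓞 F) → G) (hD : Data ι S T r w fr)
    (hexp : ∀ g : G, g ^ 2 = 1) {κ : ℕ}
    (h : Nat.card (⨆ P : PS S, dgF ι P.pl : Subgroup G) * 2 ^ r ≤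
      2 ^ (Fintype.card (InfinitePlace F) + S.card + κ)) :
    CRF.RubinOn {a | a ∈ mI 2 G ^ κ} ι S T w fr := by
  refine mq_main hD hexp ?_
  have e : RN ι S ⊤ = (⨆ P : PS S, dgF ι P.pl : Subgroup G) := by
    unfold RN
    simp only [inf_top_eq]
  rw [e]
  exact h

theorem fin_MQ (ι : G ≃* (H ≃ₐ[F] H)) (S T : Finset (HeightOneSpectrum (𝓞 F))) {r : ℕ}
    (w : Fin r → Pl H) (fr : HeightOneSpectrum (𝓞 F) → G) (hD : Data ι S T r w fr)
    (hexp : ∀ g : G, g ^ 2 = 1) {κ : ℕ}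
    (hS : (∀ v ∈ S, (2 : 𝓞 F) ∈ v.asIdeal → IsCyclic (dgF ι (Sum.inr v))) ∨
      (IsTotallyReal F ∧ IsTotallyComplex H) ∨
      dyD ι S ≤ 2 ^ (rcD ι + 1 + 2 * κ) ∨
      Nat.card (⨆ P : PS S, dgF ι P.pl : Subgroup G) * 2 ^ r ≤
        2 ^ (Fintype.card (InfinitePlace F) + S.card + κ) ∨
      2 ≤ eS 2 ι S + κ ∨ CondR 2 κ ι S w) :
    CRF.RubinOn {a | a ∈ mI 2 G ^ κ} ι S T w fr := by
  have hR : (dyD ι S ≤ 2 ^ (rcD ι + 1 + 2 * κ) ∨
      (∀ v ∈ S, (2 : 𝓞 F) ∈ v.asIdeal → IsCyclic (dgF ι (Sum.inr v))) ∨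
      (IsTotallyReal F ∧ IsTotallyComplex H)) ∨
      Nat.card (⨆ P : PS S, dgF ι P.pl : Subgroup G) * 2 ^ r ≤
        2 ^ (Fintype.card (InfinitePlace F) + S.card + κ) ∨
      2 ≤ eS 2 ι S + κ ∨ CondR 2 κ ι S w := by tauto
  rcases hR with h | h | h | h
  · exact mq_main hD hexp (gs_le3 hD hexp h)
  · exact fin_rank ι S T w fr hD hexp h
  · have hG : IsPGroup 2 G := fun g => ⟨1, by rw [pow_one]; exact hexp g⟩
    have : Fact (Nat.Prime 2) := ⟨Nat.prime_two⟩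
    obtain ⟨k, hk⟩ := IsPGroup.iff_card.1 hG
    refine main_R hD Nat.prime_two hexp (Or.inl rfl) (condR_of hD Nat.prime_two hexp hk ?_)
    have e : ((k : ℤ) - 1) * (((2 : ℕ) : ℤ) - 2) + 2 = 2 := by push_cast; ring
    rw [e]
    exact h
  · exact main_R hD Nat.prime_two hexp (Or.inl rfl) h

end Pool.Agent.MQR
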